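import Pool.Agent.R98.Bounds

/-!
# The differences outside the main blocks
-/

set_option autoImplicit false

open Finset Filter Topology

namespace Pool.Agent.R98.Bounds

open Pool.Agent.R98 Pool.Agent.R98.Groups

lemma packs_biUnion' (I : Finset ℕ) (S : ℕ → Finset ℕ) (N M : ℕ → ℕ)
    (h : ∀ b ∈ I, Packs (S b) N (M b)) :
    Packs (I.biUnion S) N (∑ b ∈ I, M b) := by
  classical
  induction I using Finset.induction_on with
  | empty => simpa using packs_empty N
  | insert a I ha ih =>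
    have h1 := ih (fun b hb => h b (Finset.mem_insert_of_mem hb))
    have h2 := h a (Finset.mem_insert_self _ _)
    rw [Finset.sum_insert ha, Finset.biUnion_insert]
    exact h2.union h1

/-- differences without a large prime factor -/
theorem packs_smooth (n x y z z₁ : ℕ) (hy : y ^ 2 ≤ x) (hy' : x < (y + 1) ^ 2)
    (hz : z ^ 4 ≤ y) (hz1 : 1 ≤ z) (hz₁ : z₁ ≤ n)
    (hGn : (y + 1) * z * (z * z) ≤ n) (S : Finset ℕ)
    (hS : ∀ d ∈ S, 1 ≤ d ∧ d ≤ x * z ∧ ∀ p : ℕ, p.Prime → p ∣ d → p ≤ z₁) :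
    ∃ M : ℕ, Packs S (fun d => n / d) M ∧
      (M : ℝ) ≤ 2 * n * Nat.primeCounting z₁ + 8 * n * x / z := by
  classical
  set D := x * z with hD
  set G := (y + 1) * z with hG
  set z₂ := z * z with hz₂
  have hG1 : 1 ≤ G := Nat.mul_pos (by omega) hz1
  have hz₂1 : 1 ≤ z₂ := Nat.mul_pos hz1 hz1
  have hA := packs_trivial (S := Icc 1 G) (N := fun d => n / d) (L := n)
    (fun d hd => (Finset.mem_Icc.1 hd).1) (fun d _ => Nat.div_mul_le_self _ _)
  have hB := packs_biUnion' ((Ioc z₂ z₁).filter Nat.Prime) (fun g => (Icc 1 D).filter (fun d => g ∣ d))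
    (fun d => n / d) _ (fun g hg => packs_multiples g D n (Finset.mem_filter.1 hg).2.one_le)
  have hC := packs_biUnion' (Ioc G (G * z₂)) (fun g => (Icc 1 D).filter (fun d => g ∣ d))
    (fun d => n / d) _ (fun g hg => packs_multiples g D n (by
      have := (Finset.mem_Ioc.1 hg).1
      omega))
  refine ⟨_, ((hA.union hB).union hC).subset ?_, ?_⟩
  · intro d hd
    obtain ⟨hd1, hdD, hdp⟩ := hS d hd
    rw [Finset.mem_union, Finset.mem_union, Finset.mem_Icc, Finset.mem_biUnion, Finset.mem_biUnion]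
    by_cases h1 : ∃ p : ℕ, p.Prime ∧ p ∣ d ∧ z₂ < p
    · obtain ⟨p, hp, hpd, hpz⟩ := h1
      left; right
      refine ⟨p, Finset.mem_filter.2 ⟨Finset.mem_Ioc.2 ⟨hpz, hdp p hp hpd⟩, hp⟩, ?_⟩
      exact Finset.mem_filter.2 ⟨Finset.mem_Icc.2 ⟨hd1, hdD⟩, hpd⟩
    · push Not at h1
      rcases Nat.lt_or_ge G d with h2 | h2
      · right
        obtain ⟨g, hg1, hg2, hg3⟩ := exists_divisor h2 hG1 h1
        exact ⟨g, Finset.mem_Ioc.2 ⟨hg2, hg3⟩,
          Finset.mem_filter.2 ⟨Finset.mem_Icc.2 ⟨hd1, hdD⟩, hg1⟩⟩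
      · left; left
        exact ⟨hd1, h2⟩
  · -- the bound
    have hzr : (1 : ℝ) ≤ z := by exact_mod_cast hz1
    have hz0 : (0 : ℝ) < z := by linarith
    have hn0 : (0 : ℝ) ≤ n := by positivity
    -- third sum
    have hCs : ∑ g ∈ Ioc G (G * z₂), (D / g / g + 1) * (n + g) ≤ G * z₂ * (2 * n) := by
      calc ∑ g ∈ Ioc G (G * z₂), (D / g / g + 1) * (n + g) ≤ ∑ g ∈ Ioc G (G * z₂), 2 * n := by
            apply Finset.sum_le_sum
            intro g hg
            rw [Finset.mem_Ioc] at hg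
            have h1 : D < g * g := by
              calc D = x * z := rfl
                _ ≤ (y + 1) ^ 2 * z := Nat.mul_le_mul_right _ hy'.le
                _ ≤ (y + 1) ^ 2 * (z * z) := Nat.mul_le_mul_left _ (Nat.le_mul_of_pos_left _ hz1)
                _ = G * G := by rw [hG]; ring
                _ < g * g := Nat.mul_lt_mul_of_lt_of_lt hg.1 hg.1
            have h2 : g ≤ n := hg.2.trans hGn
            rw [Nat.div_div_eq_div_mul, Nat.div_eq_of_lt h1]
            omega
        _ = (Ioc G (G * z₂)).card * (2 * n) := by rw [Finset.sum_const, smul_eq_mul]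
        _ ≤ G * z₂ * (2 * n) := by
            apply Nat.mul_le_mul_right
            rw [Nat.card_Ioc]
            exact Nat.sub_le _ _
    -- second sum
    have hBs : (∑ p ∈ (Ioc z₂ z₁).filter Nat.Prime, (((D / p / p + 1) * (n + p) : ℕ) : ℝ))
        ≤ 2 * n * (D / z₂) + 2 * n * Nat.primeCounting z₁ := by
      have h1 : ∀ p ∈ (Ioc z₂ z₁).filter Nat.Prime, (((D / p / p + 1) * (n + p) : ℕ) : ℝ)
          ≤ 2 * n * (D * ((p : ℝ) ^ 2)⁻¹) + 2 * n := by
        intro p hp
        rw [Finset.mem_filter, Finset.mem_Ioc] at hp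
        have h2 : ((D / p / p : ℕ) : ℝ) ≤ D * ((p : ℝ) ^ 2)⁻¹ := by
          rw [Nat.div_div_eq_div_mul]
          refine (Nat.cast_div_le).trans (le_of_eq ?_)
          push_cast
          rw [div_eq_mul_inv, sq]
        have h3 : (p : ℝ) ≤ n := by exact_mod_cast hp.1.2.trans hz₁
        have h4 : (0 : ℝ) ≤ D * ((p : ℝ) ^ 2)⁻¹ := by positivity
        push_cast
        have h5 : (0 : ℝ) ≤ p := by positivity
        calc (((D / p / p : ℕ) : ℝ) + 1) * ((n : ℝ) + p) ≤ (D * ((p : ℝ) ^ 2)⁻¹ + 1) * (n + n) := by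
              apply mul_le_mul (by linarith) (by linarith) (by linarith) (by linarith)
          _ = _ := by ring
      refine (Finset.sum_le_sum h1).trans ?_
      rw [Finset.sum_add_distrib, Finset.sum_const, nsmul_eq_mul, ← Finset.mul_sum,
        ← Finset.mul_sum]
      have h6 : ∑ p ∈ (Ioc z₂ z₁).filter Nat.Prime, ((p : ℝ) ^ 2)⁻¹ ≤ (z₂ : ℝ)⁻¹ := by
        calc ∑ p ∈ (Ioc z₂ z₁).filter Nat.Prime, ((p : ℝ) ^ 2)⁻¹
            ≤ ∑ p ∈ Ioc z₂ (max z₂ z₁), ((p : ℝ) ^ 2)⁻¹ := by
              apply Finset.sum_le_sum_of_subset_of_nonneg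
              · intro p hp
                rw [Finset.mem_filter, Finset.mem_Ioc] at hp
                rw [Finset.mem_Ioc]
                exact ⟨hp.1.1, le_max_of_le_right hp.1.2⟩
              · intro p _ _
                positivity
          _ ≤ (z₂ : ℝ)⁻¹ := by
              have h1 := sum_Ioc_inv_sq_le_sub (α := ℝ) (k := z₂) (n := max z₂ z₁) (by omega)
                (le_max_left _ _)
              have h2 : (0 : ℝ) ≤ (((max z₂ z₁ : ℕ) : ℝ))⁻¹ := by positivity
              linarith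
      have h7 : (((Ioc z₂ z₁).filter Nat.Prime).card : ℝ) ≤ Nat.primeCounting z₁ := by
        rw [primeCounting_eq]
        have : (Ioc z₂ z₁).filter Nat.Prime ⊆ (Icc 1 z₁).filter Nat.Prime := by
          intro b hb
          rw [Finset.mem_filter, Finset.mem_Ioc] at hb
          rw [Finset.mem_filter, Finset.mem_Icc]
          exact ⟨⟨by omega, hb.1.2⟩, hb.2⟩
        exact_mod_cast Finset.card_le_card this
      have h8 : (D : ℝ) * ∑ p ∈ (Ioc z₂ z₁).filter Nat.Prime, ((p : ℝ) ^ 2)⁻¹ ≤ D / z₂ := by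
        rw [div_eq_mul_inv]
        exact mul_le_mul_of_nonneg_left h6 (by positivity)
      have h9 : 2 * (n : ℝ) * (D * ∑ p ∈ (Ioc z₂ z₁).filter Nat.Prime, ((p : ℝ) ^ 2)⁻¹)
          ≤ 2 * n * (D / z₂) := mul_le_mul_of_nonneg_left h8 (by positivity)
      have h10 : (((Ioc z₂ z₁).filter Nat.Prime).card : ℝ) * (2 * n)
          ≤ Nat.primeCounting z₁ * (2 * n) := mul_le_mul_of_nonneg_right h7 (by positivity)
      linarith
    have hDz : (D : ℝ) / z₂ = x / z := by
      rw [hD, hz₂]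
      push_cast
      field_simp
    have hGz : (G * z₂ : ℝ) ≤ 2 * x / z := by
      rw [le_div_iff₀ hz0]
      have h1 : G * z₂ * z ≤ 2 * x := by
        calc G * z₂ * z = (y + 1) * z ^ 4 := by rw [hG, hz₂]; ring
          _ ≤ (y + 1) * y := Nat.mul_le_mul_left _ hz
          _ = y ^ 2 + y := by ring
          _ ≤ 2 * x := by nlinarith
      exact_mod_cast h1
    have hGG : (G : ℝ) ≤ G * z₂ := by
      have : G ≤ G * z₂ := Nat.le_mul_of_pos_right _ hz₂1
      exact_mod_cast this
    have hAs : (((Icc 1 G).card * n : ℕ) : ℝ) = G * n := by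
      rw [Nat.card_Icc, Nat.add_sub_cancel]
      push_cast
      ring
    have hCs' : ((∑ g ∈ Ioc G (G * z₂), (D / g / g + 1) * (n + g) : ℕ) : ℝ) ≤ G * z₂ * (2 * n) := by
      exact_mod_cast hCs
    rw [hDz] at hBs
    rw [Nat.cast_add, Nat.cast_add, hAs, Nat.cast_sum]
    have e1 : (G : ℝ) * n ≤ (2 * x / z) * n := mul_le_mul_of_nonneg_right (hGG.trans hGz) hn0
    have e2 : (G : ℝ) * z₂ * (2 * n) ≤ (2 * x / z) * (2 * n) :=
      mul_le_mul_of_nonneg_right hGz (by positivity)
    have e3 : (8 : ℝ) * n * x / z = (2 * x / z) * n + (2 * x / z) * (2 * n) + 2 * n * (x / z) := by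
      ring
    rw [e3]
    linarith

/-- large differences, and moderately large differences with a large prime factor -/
theorem packs_large {u₀ : ℕ} (hπ : ∀ u : ℕ, u₀ ≤ u → (Nat.primeCounting u : ℝ) * Real.log u ≤ 2 * u)
    (n D z₁ T B : ℕ) (hz : u₀ ≤ z₁) (hz2 : 2 ≤ z₁) (hn : 1 ≤ n) (hD : 1 ≤ D) (hT : 1 ≤ T)
    (hB : T ^ 4 * z₁ ≤ B) (S : Finset ℕ)
    (hS : ∀ d ∈ S, (1 ≤ d ∧ d ≤ n) ∧ (D < d ∨ (B < d ∧ ∃ p : ℕ, p.Prime ∧ p ∣ d ∧ z₁ < p))) :
    Packs S (fun d => n / d)
      (n + (⌊80 * (n : ℝ) ^ 2 / (T ^ 2 * (z₁ * Real.log z₁)) + (n : ℝ) ^ 2 * (1 + Real.log n) / D⌋₊ + 1)) := by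
  classical
  have hz0 : (1 : ℝ) < z₁ := by exact_mod_cast hz2
  have hl : 0 < Real.log z₁ := Real.log_pos hz0
  have hn0 : (0 : ℝ) < n := by exact_mod_cast hn
  have hln : 0 ≤ Real.log n := Real.log_natCast_nonneg n
  have hD0 : (0 : ℝ) < D := by exact_mod_cast hD
  have hT0 : (0 : ℝ) < T := by exact_mod_cast hT
  have hpos : ∀ d ∈ S, 0 < d := fun d hd => (hS d hd).1.1
  apply greedy n _ S hpos
  intro d hd
  have hd0 := hpos d hd
  have hd0' : (0 : ℝ) < d := by exact_mod_cast hd0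
  set V : ℝ := 80 * (n : ℝ) ^ 2 / (T ^ 2 * (z₁ * Real.log z₁)) + (n : ℝ) ^ 2 * (1 + Real.log n) / D
    with hV
  have hV1 : 0 ≤ 80 * (n : ℝ) ^ 2 / (T ^ 2 * (z₁ * Real.log z₁)) := by positivity
  have hV2 : 0 ≤ (n : ℝ) ^ 2 * (1 + Real.log n) / D := by positivity
  -- the cost in reals
  have hcost : (((n / d) * ∑ e ∈ S.filter (fun e => e < d), (n / e) : ℕ) : ℝ)
      ≤ (n : ℝ) ^ 2 / d * ∑ e ∈ S.filter (fun e => e < d), (1 / (e : ℝ)) := by
    push_cast
    have h1 : ((n / d : ℕ) : ℝ) ≤ n / d := Nat.cast_div_le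
    have h2 : ∑ e ∈ S.filter (fun e => e < d), ((n / e : ℕ) : ℝ)
        ≤ n * ∑ e ∈ S.filter (fun e => e < d), (1 / (e : ℝ)) := by
      rw [Finset.mul_sum]
      apply Finset.sum_le_sum
      intro e _
      refine (Nat.cast_div_le).trans (le_of_eq ?_)
      ring
    calc ((n / d : ℕ) : ℝ) * ∑ e ∈ S.filter (fun e => e < d), ((n / e : ℕ) : ℝ)
        ≤ (n / d) * (n * ∑ e ∈ S.filter (fun e => e < d), (1 / (e : ℝ))) := by
          apply mul_le_mul h1 h2 _ (by positivity)
          apply Finset.sum_nonneg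
          intro e _
          positivity
      _ = _ := by ring
  have hmain : (n : ℝ) ^ 2 / d * ∑ e ∈ S.filter (fun e => e < d), (1 / (e : ℝ)) ≤ V := by
    rcases Nat.lt_or_ge D d with hDd | hDd
    · -- large differences
      have h1 : ∑ e ∈ S.filter (fun e => e < d), (1 / (e : ℝ)) ≤ 1 + Real.log n := by
        calc ∑ e ∈ S.filter (fun e => e < d), (1 / (e : ℝ)) ≤ ∑ e ∈ Icc 1 n, (1 / (e : ℝ)) := by
              apply Finset.sum_le_sum_of_subset_of_nonneg
              · intro e he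
                have he' := hS e (Finset.mem_filter.1 he).1
                exact Finset.mem_Icc.2 he'.1
              · intro e _ _; positivity
          _ = (harmonic n : ℝ) := by
              rw [harmonic_eq_sum_Icc]
              push_cast
              apply Finset.sum_congr rfl
              intro e _
              rw [one_div]
          _ ≤ 1 + Real.log n := harmonic_le_one_add_log n
      have h2 : (n : ℝ) ^ 2 / d ≤ (n : ℝ) ^ 2 / D := by
        apply div_le_div_of_nonneg_left (by positivity) hD0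
        exact_mod_cast hDd.le
      calc (n : ℝ) ^ 2 / d * ∑ e ∈ S.filter (fun e => e < d), (1 / (e : ℝ))
          ≤ (n : ℝ) ^ 2 / D * (1 + Real.log n) := by
            apply mul_le_mul h2 h1 _ (by positivity)
            apply Finset.sum_nonneg
            intro e _
            positivity
        _ = (n : ℝ) ^ 2 * (1 + Real.log n) / D := by ring
        _ ≤ V := by rw [hV]; linarith
    · -- moderately large
      have hdS := hS d hd
      have hBd : B < d := by
        rcases hdS.2 with h | h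
        · omega
        · exact h.1
      -- dyadic scale
      obtain ⟨I, hI1, hI2⟩ : ∃ I : ℕ, d ≤ 2 ^ I * z₁ ∧ 2 ^ I * z₁ ≤ 2 * d := by
        have hex : ∃ I : ℕ, d ≤ 2 ^ I * z₁ := by
          refine ⟨d, ?_⟩
          calc d ≤ 2 ^ d := Nat.lt_two_pow_self.le
            _ ≤ 2 ^ d * z₁ := Nat.le_mul_of_pos_right _ (by omega)
        refine ⟨Nat.find hex, Nat.find_spec hex, ?_⟩
        rcases Nat.eq_zero_or_pos (Nat.find hex) with h | h
        · rw [h, pow_zero, one_mul]
          have : z₁ ≤ T ^ 4 * z₁ := Nat.le_mul_of_pos_left _ (by positivity)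
          omega
        · have h1 := Nat.find_min hex (m := Nat.find hex - 1) (by omega)
          push Not at h1
          have h2 : 2 ^ (Nat.find hex) = 2 * 2 ^ (Nat.find hex - 1) := by
            rw [← pow_succ']
            congr 1
            omega
          rw [h2]
          nlinarith
      have hTI : T ^ 4 ≤ 2 ^ I := by
        have h1 : T ^ 4 * z₁ ≤ 2 ^ I * z₁ := by omega
        exact Nat.le_of_mul_le_mul_right h1 (by omega)
      have hI0 : 1 ≤ I ∨ I = 0 := by omega
      have h1 := recip_large hπ hz hz2 I (S.filter (fun e => e < d)) (by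
        intro e he
        rw [Finset.mem_filter] at he
        have he' := hS e he.1
        refine ⟨he'.1.1, by omega, ?_⟩
        rcases he'.2 with h | h
        · omega
        · exact h.2)
      have h2 : (n : ℝ) ^ 2 / d ≤ 2 * (n : ℝ) ^ 2 / (2 ^ I * z₁) := by
        rw [div_le_div_iff₀ hd0' (by positivity)]
        have h3 : (2 : ℝ) ^ I * z₁ ≤ 2 * d := by exact_mod_cast hI2
        nlinarith [sq_nonneg (n : ℝ)]
      have h4 : (1 + (I : ℝ)) * (4 * I / Real.log z₁) ≤ 8 * (I : ℝ) ^ 2 / Real.log z₁ := by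
        rw [mul_div_assoc', div_le_div_iff_of_pos_right hl]
        rcases hI0 with h | h
        · have : (1 : ℝ) ≤ I := by exact_mod_cast h
          nlinarith
        · rw [h]; simp
      have h5 : (T : ℝ) ^ 2 * (I : ℝ) ^ 2 ≤ 5 * 2 ^ I := by exact_mod_cast sq_le_of_pow hTI
      calc (n : ℝ) ^ 2 / d * ∑ e ∈ S.filter (fun e => e < d), (1 / (e : ℝ))
          ≤ (2 * (n : ℝ) ^ 2 / (2 ^ I * z₁)) * (8 * (I : ℝ) ^ 2 / Real.log z₁) := by
            apply mul_le_mul h2 (h1.trans h4) _ (by positivity)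
            apply Finset.sum_nonneg
            intro e _
            positivity
        _ = 16 * (n : ℝ) ^ 2 / (T ^ 2 * (z₁ * Real.log z₁)) * (((T : ℝ) ^ 2 * (I : ℝ) ^ 2) / 2 ^ I) := by
            field_simp
            ring
        _ ≤ 16 * (n : ℝ) ^ 2 / (T ^ 2 * (z₁ * Real.log z₁)) * 5 := by
            apply mul_le_mul_of_nonneg_left _ (by positivity)
            rw [div_le_iff₀ (by positivity)]
            exact h5
        _ = 80 * (n : ℝ) ^ 2 / (T ^ 2 * (z₁ * Real.log z₁)) := by ring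
        _ ≤ V := by rw [hV]; linarith
  have hfin := hcost.trans hmain
  have h9 : (n / d) * ∑ e ∈ S.filter (fun e => e < d), (n / e) ≤ ⌊V⌋₊ := Nat.le_floor hfin
  omega

end Pool.Agent.R98.Bounds
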