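import Pool.Agent.R98.MainBlocks
import Pool.Agent.R98.Rest

/-!
# Packing all differences: the finite upper bound
-/

set_option autoImplicit false

open Finset Filter Topology

namespace Pool.Agent.R98

open Pool.Agent.R98.Layer Pool.Agent.R98.Bounds

lemma mem_mainP {T Bm x p : ℕ} (hp : p.Prime) (h1 : x / T < p) (h2 : p ≤ Bm * x / T) :
    p ∈ mainP T Bm x := by
  classical
  have hBm : 1 ≤ Bm := by
    rcases Nat.eq_zero_or_pos Bm with h | h
    · rw [h, zero_mul, Nat.zero_div] at h2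
      have := hp.pos
      omega
    · exact h
  have hex : ∃ b, p ≤ (b + 1) * x / T := ⟨Bm - 1, by
    have : Bm - 1 + 1 = Bm := by omega
    rw [this]
    exact h2⟩
  rw [mainP, Finset.mem_biUnion]
  refine ⟨Nat.find hex, ?_, ?_⟩
  · rw [Finset.mem_Ico]
    constructor
    · rcases Nat.eq_zero_or_pos (Nat.find hex) with h0 | h0
      · exfalso
        have h3 := Nat.find_spec hex
        rw [h0, zero_add, one_mul] at h3
        omega
      · exact h0
    · have : Nat.find hex ≤ Bm - 1 := Nat.find_min' hex (by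
        have : Bm - 1 + 1 = Bm := by omega
        rw [this]
        exact h2)
      omega
  · rw [blk, Finset.mem_filter, Finset.mem_Ioc]
    refine ⟨⟨?_, Nat.find_spec hex⟩, hp⟩
    rcases Nat.eq_zero_or_pos (Nat.find hex) with h0 | h0
    · rw [h0, zero_mul, Nat.zero_div]
      exact hp.pos
    · have := Nat.find_min hex (m := Nat.find hex - 1) (by omega)
      rw [show Nat.find hex - 1 + 1 = Nat.find hex by omega] at this
      omega

/-- **The finite upper bound for all differences.** -/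
theorem upper_all {T : ℕ} (hT : 2 ≤ T) : ∃ C n₀ : ℕ, ∀ n, n₀ ≤ n → ∃ M : ℕ,
    Packs (Icc 1 n) (fun d => n / d) M ∧
    (M : ℝ) ≤ ((∑ b ∈ Ico 1 (T ^ 5), (blk T b (Nat.sqrt n)).card *
        shf (T ^ 5) T (T ^ 5) (8 * T ^ 14) n (Nat.sqrt n) b : ℕ) : ℝ) + C * n
      + (2 * n * Nat.primeCounting (1 * Nat.sqrt n / T)
        + 8 * n * Nat.sqrt n / (Nat.sqrt (Nat.sqrt (Nat.sqrt (Nat.sqrt n)))))
      + (n + (80 * (n : ℝ) ^ 2 / (T ^ 2 * (((1 * Nat.sqrt n / T : ℕ) : ℝ)
          * Real.log ((1 * Nat.sqrt n / T : ℕ) : ℝ)))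
        + (n : ℝ) ^ 2 * (1 + Real.log n) /
          ((Nat.sqrt n : ℝ) * (Nat.sqrt (Nat.sqrt (Nat.sqrt (Nat.sqrt n))) : ℝ)) + 1)) := by
  classical
  have hT1 : 1 ≤ T := by omega
  obtain ⟨C, x₀, hC⟩ := main_blocks (T := T) (A := T ^ 5) (m := T ^ 5) (E := 8 * T ^ 14)
    (Bm := T ^ 5) hT1 (Nat.one_le_pow _ _ hT1) (by
      have : T ^ 6 ≤ T ^ 14 := Nat.pow_le_pow_right hT1 (by norm_num)
      calc 8 * T ^ 5 * T = 8 * T ^ 6 := by ring
        _ ≤ 8 * T ^ 14 := Nat.mul_le_mul_left _ this) (Nat.one_le_pow _ _ hT1)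
  -- the prime number theorem
  have hpi : ∀ᶠ u : ℕ in atTop, (Nat.primeCounting u : ℝ) * Real.log u ≤ 2 * u := by
    have h1 := pnt.eventually_lt_const (show (1 : ℝ) < 2 by norm_num)
    filter_upwards [h1, eventually_ge_atTop 1] with u hu hu1
    have hu0 : (0 : ℝ) < u := by exact_mod_cast hu1
    rw [div_lt_iff₀ hu0] at hu
    exact hu.le
  obtain ⟨u₀, hu₀⟩ := eventually_atTop.1 hpi
  refine ⟨C, (x₀ + T * (u₀ + 2) + 16) ^ 2, ?_⟩
  intro n hn
  set x := Nat.sqrt n with hx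
  have hxbig : x₀ + T * (u₀ + 2) + 16 ≤ x := by rw [hx, Nat.le_sqrt']; exact hn
  have hxn : x ^ 2 ≤ n := Nat.sqrt_le' n
  set y := Nat.sqrt x with hy
  set s := Nat.sqrt y with hs
  set z := Nat.sqrt s with hz
  have hy2 : y ^ 2 ≤ x := Nat.sqrt_le' x
  have hy2' : x < (y + 1) ^ 2 := Nat.lt_succ_sqrt' x
  have hy4 : 4 ≤ y := by
    rw [hy, Nat.le_sqrt']
    omega
  have hs2 : 2 ≤ s := by
    rw [hs, Nat.le_sqrt']
    omega
  have hz1 : 1 ≤ z := by
    rw [hz, Nat.le_sqrt']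
    omega
  have hz4 : z ^ 4 ≤ y := by
    calc z ^ 4 = (z ^ 2) ^ 2 := by ring
      _ ≤ s ^ 2 := Nat.pow_le_pow_left (Nat.sqrt_le' s) 2
      _ ≤ y := Nat.sqrt_le' y
  set z₁ := 1 * x / T with hz₁
  have hz₁' : z₁ = x / T := by rw [hz₁, one_mul]
  have hz₁big : u₀ + 2 ≤ z₁ := by
    rw [hz₁', Nat.le_div_iff_mul_le (by omega)]
    calc (u₀ + 2) * T = T * (u₀ + 2) := by ring
      _ ≤ x := by omega
  have hxn' : x ≤ n := by nlinarith
  have hz₁n : z₁ ≤ n := by
    rw [hz₁']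
    exact (Nat.div_le_self _ _).trans hxn'
  have hz3 : z * (z * z) ≤ y := by
    calc z * (z * z) = z ^ 3 := by ring
      _ ≤ z ^ 4 := Nat.pow_le_pow_right hz1 (by norm_num)
      _ ≤ y := hz4
  have hGn : (y + 1) * z * (z * z) ≤ n := by
    calc (y + 1) * z * (z * z) = (y + 1) * (z * (z * z)) := by ring
      _ ≤ (y + 1) * y := Nat.mul_le_mul_left _ hz3
      _ = y ^ 2 + y := by ring
      _ ≤ x + x := Nat.add_le_add hy2 (Nat.sqrt_le_self x)
      _ = 2 * x := by ring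
      _ ≤ x * x := Nat.mul_le_mul_right _ (by omega)
      _ = x ^ 2 := by ring
      _ ≤ n := hxn
  -- the three families
  set S₂ := (Icc 1 n).filter (fun d => d ≤ x * z ∧ ∀ p : ℕ, p.Prime → p ∣ d → p ≤ z₁) with hS₂
  set S₃ := (Icc 1 n).filter (fun d => x * z < d ∨
    (T ^ 4 * x < d ∧ ∃ p : ℕ, p.Prime ∧ p ∣ d ∧ z₁ < p)) with hS₃
  obtain ⟨M₂, hM₂, hM₂'⟩ := packs_smooth n x y z z₁ hy2 hy2' hz4 hz1 hz₁n hGn S₂ (by
    intro d hd
    rw [hS₂, Finset.mem_filter, Finset.mem_Icc] at hd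
    exact ⟨hd.1.1, hd.2.1, hd.2.2⟩)
  have hM₃ := packs_large hu₀ n (x * z) z₁ T (T ^ 4 * x) (by omega) (by omega) (by nlinarith)
    (Nat.mul_pos (by omega) hz1) hT1 (by
      apply Nat.mul_le_mul_left
      rw [hz₁']
      exact Nat.div_le_self _ _) S₃ (by
    intro d hd
    rw [hS₃, Finset.mem_filter, Finset.mem_Icc] at hd
    exact hd)
  have hM₁ := hC n x (by omega) hxn
  refine ⟨_, ((hM₁.union hM₂).union hM₃).subset ?_, ?_⟩
  · intro d hd
    have hd' := Finset.mem_Icc.1 hd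
    rw [Finset.mem_union, Finset.mem_union]
    by_cases h1 : x * z < d
    · right
      rw [hS₃, Finset.mem_filter]
      exact ⟨hd, Or.inl h1⟩
    · push Not at h1
      by_cases h2 : ∀ p : ℕ, p.Prime → p ∣ d → p ≤ z₁
      · left; right
        rw [hS₂, Finset.mem_filter]
        exact ⟨hd, h1, h2⟩
      · push Not at h2
        obtain ⟨p, hp, hpd, hpz⟩ := h2
        by_cases h3 : T ^ 4 * x < d
        · right
          rw [hS₃, Finset.mem_filter]
          exact ⟨hd, Or.inr ⟨h3, p, hp, hpd, hpz⟩⟩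
        · push Not at h3
          left; left
          obtain ⟨a, rfl⟩ := hpd
          have ha1 : 1 ≤ a := by
            rcases Nat.eq_zero_or_pos a with h | h
            · rw [h] at hd'; omega
            · exact h
          rw [mem_mulSet]
          refine ⟨a, p, ha1, ?_, ?_, mul_comm _ _⟩
          · -- `a < T ^ 5`
            by_contra hcon
            push Not at hcon
            have h4 : x < T * (x / T + 1) := Nat.lt_mul_div_succ _ (by omega)
            have h5 : T * (x / T + 1) ≤ T * p := Nat.mul_le_mul_left _ (by omega)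
            have h6 : T ^ 4 * x < T ^ 4 * (T * p) :=
              Nat.mul_lt_mul_of_pos_left (by omega) (by positivity)
            have h7 : T ^ 5 * p ≤ a * p := Nat.mul_le_mul_right _ hcon.le
            have h8 : T ^ 4 * (T * p) = T ^ 5 * p := by ring
            have h9 : a * p = p * a := mul_comm _ _
            omega
          · apply mem_mainP hp (by rw [← hz₁']; exact hpz)
            have h4 : p ≤ p * a := Nat.le_mul_of_pos_right _ ha1
            have h5 : T ^ 5 * x / T = T ^ 4 * x := by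
              have : T ^ 5 * x = T * (T ^ 4 * x) := by ring
              rw [this, Nat.mul_div_cancel_left _ (by omega)]
            rw [h5]
            omega
  · have hV : 0 ≤ 80 * (n : ℝ) ^ 2 / ((T : ℝ) ^ 2 * ((z₁ : ℝ) * Real.log z₁))
        + (n : ℝ) ^ 2 * (1 + Real.log n) / ((x * z : ℕ) : ℝ) := by
      have h1 : 0 ≤ Real.log z₁ := Real.log_natCast_nonneg _
      have h2 : 0 ≤ Real.log n := Real.log_natCast_nonneg _
      positivity
    have h1 := Nat.floor_le hV
    rw [Nat.cast_add, Nat.cast_add, Nat.cast_add (n := C * n)]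
    have e1 : ((n + (⌊80 * (n : ℝ) ^ 2 / ((T : ℝ) ^ 2 * ((z₁ : ℝ) * Real.log z₁))
        + (n : ℝ) ^ 2 * (1 + Real.log n) / ((x * z : ℕ) : ℝ)⌋₊ + 1) : ℕ) : ℝ)
        = n + (((⌊80 * (n : ℝ) ^ 2 / ((T : ℝ) ^ 2 * ((z₁ : ℝ) * Real.log z₁))
        + (n : ℝ) ^ 2 * (1 + Real.log n) / ((x * z : ℕ) : ℝ)⌋₊ : ℕ) : ℝ) + 1) := by
      push_cast
      ring
    rw [e1]
    have e2 : ((C * n : ℕ) : ℝ) = C * n := by push_cast; ring
    rw [e2]
    have e3 : ((x * z : ℕ) : ℝ) = (x : ℝ) * z := by push_cast; ring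
    rw [e3] at h1
    rw [e3]
    linarith

end Pool.Agent.R98
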