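import Pool.Agent.R98.PrimeSum

/-!
# Moments of the primes
-/

set_option autoImplicit false

open Finset Filter Topology

namespace Pool.Agent.R98

lemma eventually_le_of (F : ℕ → ℝ) (c : ℝ) (up : ℕ → ℕ → ℝ) (u : ℕ → ℝ)
    (h : ∀ T, 2 ≤ T → ∀ᶠ x in atTop, F x ≤ up T x)
    (hup : ∀ T, 2 ≤ T → Tendsto (up T) atTop (𝓝 (u T))) (hu : Tendsto u atTop (𝓝 c)) :
    ∀ ε > 0, ∀ᶠ x in atTop, F x ≤ c + ε := by
  intro ε hε
  have h1 : ∀ᶠ T in atTop, u T < c + ε / 2 := hu.eventually_lt_const (by linarith)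
  obtain ⟨T, hT1, hT2⟩ := (h1.and (eventually_ge_atTop 2)).exists
  have h2 : ∀ᶠ x in atTop, up T x < c + ε := (hup T hT2).eventually_lt_const (by linarith)
  filter_upwards [h T hT2, h2] with x hx1 hx2
  linarith

lemma eventually_ge_of (F : ℕ → ℝ) (c : ℝ) (lo : ℕ → ℕ → ℝ) (l : ℕ → ℝ)
    (h : ∀ T, 2 ≤ T → ∀ᶠ x in atTop, lo T x ≤ F x)
    (hlo : ∀ T, 2 ≤ T → Tendsto (lo T) atTop (𝓝 (l T))) (hl : Tendsto l atTop (𝓝 c)) :
    ∀ ε > 0, ∀ᶠ x in atTop, c - ε ≤ F x := by
  intro ε hε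
  have h1 : ∀ᶠ T in atTop, c - ε / 2 < l T := hl.eventually_const_lt (by linarith)
  obtain ⟨T, hT1, hT2⟩ := (h1.and (eventually_ge_atTop 2)).exists
  have h2 : ∀ᶠ x in atTop, c - ε < lo T x := (hlo T hT2).eventually_const_lt (by linarith)
  filter_upwards [h T hT2, h2] with x hx1 hx2
  linarith

lemma tendsto_of_eventually {F : ℕ → ℝ} {c : ℝ} (h1 : ∀ ε > 0, ∀ᶠ x in atTop, F x ≤ c + ε)
    (h2 : ∀ ε > 0, ∀ᶠ x in atTop, c - ε ≤ F x) : Tendsto F atTop (𝓝 c) := by
  rw [Metric.tendsto_atTop]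
  intro ε hε
  have h3 := (h1 (ε / 2) (by linarith)).and (h2 (ε / 2) (by linarith))
  obtain ⟨N, hN⟩ := eventually_atTop.1 h3
  refine ⟨N, fun n hn => ?_⟩
  obtain ⟨h4, h5⟩ := hN n hn
  rw [Real.dist_eq, abs_lt]
  constructor <;> linarith

/-- closed forms of polynomials in `1/T` -/
lemma tendsto_poly (a b c d : ℝ) :
    Tendsto (fun T : ℕ => a + b / T + c / T ^ 2 + d / (T : ℝ) ^ 3) atTop (𝓝 a) := by
  have h0 : Tendsto (fun T : ℕ => (1 : ℝ) / T) atTop (𝓝 0) := tendsto_one_div_atTop_nhds_zero_nat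
  have h1 : Tendsto (fun T : ℕ => a + b * (1 / (T : ℝ)) + c * (1 / (T : ℝ)) ^ 2
      + d * (1 / (T : ℝ)) ^ 3) atTop (𝓝 (a + b * 0 + c * 0 ^ 2 + d * 0 ^ 3)) :=
    ((tendsto_const_nhds.add (h0.const_mul b)).add ((h0.pow 2).const_mul c)).add
      ((h0.pow 3).const_mul d)
  have e : a + b * 0 + c * 0 ^ 2 + d * 0 ^ 3 = a := by ring
  rw [e] at h1
  refine h1.congr fun T => ?_
  ring

lemma sum_blk_le {T : ℕ} (b x k : ℕ) :
    ∑ p ∈ blk T b x, (p : ℝ) ^ k ≤ (blk T b x).card * (((b + 1) * x / T : ℕ) : ℝ) ^ k := by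
  rw [← nsmul_eq_mul]
  apply Finset.sum_le_card_nsmul
  intro p hp
  rw [blk, Finset.mem_filter, Finset.mem_Ioc] at hp
  have : (p : ℝ) ≤ (((b + 1) * x / T : ℕ) : ℝ) := by exact_mod_cast hp.1.2
  gcongr

lemma le_sum_blk {T : ℕ} (b x k : ℕ) :
    (blk T b x).card * ((b * x / T : ℕ) : ℝ) ^ k ≤ ∑ p ∈ blk T b x, (p : ℝ) ^ k := by
  rw [← nsmul_eq_mul]
  apply Finset.card_nsmul_le_sum
  intro p hp
  rw [blk, Finset.mem_filter, Finset.mem_Ioc] at hp
  have : ((b * x / T : ℕ) : ℝ) ≤ p := by exact_mod_cast hp.1.1.le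
  gcongr

/-- the primes up to `x` -/
def primesTo (x : ℕ) : Finset ℕ := (Icc 1 x).filter Nat.Prime

lemma moment (k : ℕ) (hl : Tendsto (fun T : ℕ => ∑ b ∈ range T, 1 / (T : ℝ) * ((b : ℝ) / T) ^ k)
      atTop (𝓝 (1 / (k + 1))))
    (hu : Tendsto (fun T : ℕ => ∑ b ∈ range T, 1 / (T : ℝ) * (((b + 1 : ℕ) : ℝ) / T) ^ k)
      atTop (𝓝 (1 / (k + 1)))) :
    Tendsto (fun x : ℕ => (∑ p ∈ primesTo x, (p : ℝ) ^ k) * Real.log x / x ^ (k + 1)) atTop
      (𝓝 (1 / (k + 1))) := by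
  apply tendsto_of_eventually
  · apply eventually_le_of _ _
      (fun T x => ∑ b ∈ range T, (((blk T b x).card : ℝ) * Real.log x / x) *
        ((((b + 1) * x / T : ℕ) : ℝ) / x) ^ k) _ _ _ hu
    · intro T hT
      filter_upwards [eventually_ge_atTop 1] with x hx
      have hx0 : (0 : ℝ) < x := by exact_mod_cast hx
      have hlog : 0 ≤ Real.log x := Real.log_natCast_nonneg x
      rw [primesTo, sum_primes_eq (T := T) (by omega), Finset.sum_mul, Finset.sum_div]
      apply Finset.sum_le_sum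
      intro b _
      have h1 := sum_blk_le (T := T) b x k
      calc (∑ p ∈ blk T b x, (p : ℝ) ^ k) * Real.log x / x ^ (k + 1)
          ≤ ((blk T b x).card * (((b + 1) * x / T : ℕ) : ℝ) ^ k) * Real.log x / x ^ (k + 1) := by
            gcongr
        _ = _ := by rw [div_pow, pow_succ]; field_simp
    · intro T hT
      apply tendsto_finsetSum
      intro b _
      exact (tendsto_blk T b (by omega)).mul ((tendsto_div_block T (b + 1) (by omega)).pow k)
  · apply eventually_ge_of _ _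
      (fun T x => ∑ b ∈ range T, (((blk T b x).card : ℝ) * Real.log x / x) *
        (((b * x / T : ℕ) : ℝ) / x) ^ k) _ _ _ hl
    · intro T hT
      filter_upwards [eventually_ge_atTop 1] with x hx
      have hx0 : (0 : ℝ) < x := by exact_mod_cast hx
      have hlog : 0 ≤ Real.log x := Real.log_natCast_nonneg x
      rw [primesTo, sum_primes_eq (T := T) (by omega), Finset.sum_mul, Finset.sum_div]
      apply Finset.sum_le_sum
      intro b _
      have h1 := le_sum_blk (T := T) b x k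
      calc _ = ((blk T b x).card * ((b * x / T : ℕ) : ℝ) ^ k) * Real.log x / x ^ (k + 1) := by
            rw [div_pow, pow_succ]; field_simp
        _ ≤ _ := by gcongr
    · intro T hT
      apply tendsto_finsetSum
      intro b _
      exact (tendsto_blk T b (by omega)).mul ((tendsto_div_block T b (by omega)).pow k)

lemma moment_one :
    Tendsto (fun x : ℕ => (∑ p ∈ primesTo x, (p : ℝ)) * Real.log x / x ^ 2) atTop (𝓝 (1 / 2)) := by
  have h := moment 1 (by
    have h1 := tendsto_poly (1 / 2) (-1 / 2) 0 0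
    have e : (1 : ℝ) / ((1 : ℕ) + 1) = 1 / 2 := by norm_num
    rw [e]
    refine h1.congr' ?_
    filter_upwards [eventually_ge_atTop 1] with T hT
    have hT0 : (T : ℝ) ≠ 0 := by
      have : (0 : ℝ) < T := by exact_mod_cast hT
      exact this.ne'
    have h2 : ∑ b ∈ range T, 1 / (T : ℝ) * ((b : ℝ) / T) ^ 1 = (∑ b ∈ range T, (b : ℝ)) / T ^ 2 := by
      rw [Finset.sum_div]
      apply Finset.sum_congr rfl
      intro b _
      field_simp
    rw [h2, sum_id_range]
    field_simp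
    ring) (by
    have h1 := tendsto_poly (1 / 2) (1 / 2) 0 0
    have e : (1 : ℝ) / ((1 : ℕ) + 1) = 1 / 2 := by norm_num
    rw [e]
    refine h1.congr' ?_
    filter_upwards [eventually_ge_atTop 1] with T hT
    have hT0 : (T : ℝ) ≠ 0 := by
      have : (0 : ℝ) < T := by exact_mod_cast hT
      exact this.ne'
    have h2 : ∑ b ∈ range T, 1 / (T : ℝ) * (((b + 1 : ℕ) : ℝ) / T) ^ 1
        = (∑ b ∈ range T, (b : ℝ) + T) / T ^ 2 := by
      rw [add_div, Finset.sum_div]
      have h3 : (T : ℝ) / T ^ 2 = ∑ b ∈ range T, (1 : ℝ) / T ^ 2 := by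
        rw [Finset.sum_const, Finset.card_range, nsmul_eq_mul]
        field_simp
      rw [h3, ← Finset.sum_add_distrib]
      apply Finset.sum_congr rfl
      intro b _
      push_cast
      field_simp
    rw [h2, sum_id_range]
    field_simp
    ring)
  have e : (1 : ℝ) / ((1 : ℕ) + 1) = 1 / 2 := by norm_num
  rw [e] at h
  refine h.congr fun x => ?_
  simp only [pow_one]

lemma moment_two :
    Tendsto (fun x : ℕ => (∑ p ∈ primesTo x, (p : ℝ) ^ 2) * Real.log x / x ^ 3) atTop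
      (𝓝 (1 / 3)) := by
  have h := moment 2 (by
    have h1 := tendsto_poly (1 / 3) (-1 / 2) (1 / 6) 0
    have e : (1 : ℝ) / ((2 : ℕ) + 1) = 1 / 3 := by norm_num
    rw [e]
    refine h1.congr' ?_
    filter_upwards [eventually_ge_atTop 1] with T hT
    have hT0 : (T : ℝ) ≠ 0 := by
      have : (0 : ℝ) < T := by exact_mod_cast hT
      exact this.ne'
    have h2 : ∑ b ∈ range T, 1 / (T : ℝ) * ((b : ℝ) / T) ^ 2
        = (∑ b ∈ range T, (b : ℝ) ^ 2) / T ^ 3 := by
      rw [Finset.sum_div]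
      apply Finset.sum_congr rfl
      intro b _
      field_simp
    rw [h2, sum_sq_range]
    field_simp
    ring) (by
    have h1 := tendsto_poly (1 / 3) (1 / 2) (1 / 6) 0
    have e : (1 : ℝ) / ((2 : ℕ) + 1) = 1 / 3 := by norm_num
    rw [e]
    refine h1.congr' ?_
    filter_upwards [eventually_ge_atTop 1] with T hT
    have hT0 : (T : ℝ) ≠ 0 := by
      have : (0 : ℝ) < T := by exact_mod_cast hT
      exact this.ne'
    have h2 : ∑ b ∈ range T, 1 / (T : ℝ) * (((b + 1 : ℕ) : ℝ) / T) ^ 2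
        = (∑ b ∈ range T, (b : ℝ) ^ 2 + 2 * ∑ b ∈ range T, (b : ℝ) + T) / T ^ 3 := by
      rw [add_div, add_div, Finset.mul_sum, Finset.sum_div, Finset.sum_div]
      have h3 : (T : ℝ) / T ^ 3 = ∑ b ∈ range T, (1 : ℝ) / T ^ 3 := by
        rw [Finset.sum_const, Finset.card_range, nsmul_eq_mul]
        field_simp
      rw [h3, ← Finset.sum_add_distrib, ← Finset.sum_add_distrib]
      apply Finset.sum_congr rfl
      intro b _
      push_cast
      field_simp
      ring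
    rw [h2, sum_id_range, sum_sq_range]
    field_simp
    ring)
  have e : (1 : ℝ) / ((2 : ℕ) + 1) = 1 / 3 := by norm_num
  rw [e] at h
  exact h

end Pool.Agent.R98
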