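import Pool.Agent.R98.Groups
import Pool.Agent.R98.Moments

/-!
# Number-theoretic bounds for the remaining differences
-/

set_option autoImplicit false

open Finset Filter Topology

namespace Pool.Agent.R98.Bounds

open Pool.Agent.R98 Pool.Agent.R98.Groups

lemma harm_le (I : ℕ) : ∑ b ∈ (Icc 1 (2 ^ I) : Finset ℕ), (1 / (b : ℝ)) ≤ 1 + I := by
  induction I with
  | zero => simp
  | succ I ih =>
    have h1 : (Icc 1 (2 ^ (I + 1)) : Finset ℕ) = Icc 1 (2 ^ I) ∪ Ioc (2 ^ I) (2 ^ (I + 1)) := by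
      ext b
      have : 1 ≤ 2 ^ I := Nat.one_le_two_pow
      have h2 : 2 ^ (I + 1) = 2 * 2 ^ I := by ring
      simp only [Finset.mem_union, Finset.mem_Icc, Finset.mem_Ioc]
      omega
    have h2 : Disjoint (Icc 1 (2 ^ I) : Finset ℕ) (Ioc (2 ^ I) (2 ^ (I + 1))) := by
      rw [Finset.disjoint_left]
      intro b hb hb'
      rw [Finset.mem_Icc] at hb
      rw [Finset.mem_Ioc] at hb'
      omega
    rw [h1, Finset.sum_union h2]
    have h3 : ∑ b ∈ (Ioc (2 ^ I) (2 ^ (I + 1)) : Finset ℕ), (1 / (b : ℝ)) ≤ 1 := by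
      calc ∑ b ∈ (Ioc (2 ^ I) (2 ^ (I + 1)) : Finset ℕ), (1 / (b : ℝ))
          ≤ ∑ b ∈ (Ioc (2 ^ I) (2 ^ (I + 1)) : Finset ℕ), (1 / (2 : ℝ) ^ I) := by
            apply Finset.sum_le_sum
            intro b hb
            rw [Finset.mem_Ioc] at hb
            apply one_div_le_one_div_of_le (by positivity)
            exact_mod_cast hb.1.le
        _ = 1 := by
            rw [Finset.sum_const, Nat.card_Ioc, nsmul_eq_mul]
            have h4 : 2 ^ (I + 1) - 2 ^ I = 2 ^ I := by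
              have : 2 ^ (I + 1) = 2 * 2 ^ I := by ring
              omega
            rw [h4]
            push_cast
            field_simp
    push_cast
    linarith

lemma recip_primes {u₀ z₁ : ℕ} (hπ : ∀ u : ℕ, u₀ ≤ u → (Nat.primeCounting u : ℝ) * Real.log u ≤ 2 * u)
    (hz : u₀ ≤ z₁) (hz2 : 2 ≤ z₁) (I : ℕ) :
    ∑ p ∈ (Ioc z₁ (2 ^ I * z₁)).filter Nat.Prime, (1 / (p : ℝ)) ≤ 4 * I / Real.log z₁ := by
  have hz0 : (1 : ℝ) < z₁ := by exact_mod_cast hz2
  have hl : 0 < Real.log z₁ := Real.log_pos hz0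
  induction I with
  | zero => simp
  | succ I ih =>
    have h0 : 1 ≤ 2 ^ I := Nat.one_le_two_pow
    have h00 : 2 ^ (I + 1) * z₁ = 2 * (2 ^ I * z₁) := by ring
    have h01 : z₁ ≤ 2 ^ I * z₁ := Nat.le_mul_of_pos_left _ h0
    have h1 : (Ioc z₁ (2 ^ (I + 1) * z₁)).filter Nat.Prime
        = (Ioc z₁ (2 ^ I * z₁)).filter Nat.Prime ∪
          (Ioc (2 ^ I * z₁) (2 ^ (I + 1) * z₁)).filter Nat.Prime := by
      ext b
      simp only [Finset.mem_union, Finset.mem_filter, Finset.mem_Ioc]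
      constructor
      · rintro ⟨⟨a1, a2⟩, a3⟩
        rcases Nat.lt_or_ge (2 ^ I * z₁) b with h | h
        · exact Or.inr ⟨⟨h, a2⟩, a3⟩
        · exact Or.inl ⟨⟨a1, h⟩, a3⟩
      · rintro (⟨⟨a1, a2⟩, a3⟩ | ⟨⟨a1, a2⟩, a3⟩)
        · exact ⟨⟨a1, by omega⟩, a3⟩
        · exact ⟨⟨by omega, a2⟩, a3⟩
    have h2 : Disjoint ((Ioc z₁ (2 ^ I * z₁)).filter Nat.Prime)
        ((Ioc (2 ^ I * z₁) (2 ^ (I + 1) * z₁)).filter Nat.Prime) := by
      rw [Finset.disjoint_left]
      intro b hb hb'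
      rw [Finset.mem_filter, Finset.mem_Ioc] at hb hb'
      omega
    rw [h1, Finset.sum_union h2]
    have h3 : ∑ p ∈ (Ioc (2 ^ I * z₁) (2 ^ (I + 1) * z₁)).filter Nat.Prime, (1 / (p : ℝ))
        ≤ 4 / Real.log z₁ := by
      set w : ℕ := 2 ^ (I + 1) * z₁ with hw
      have hwz : z₁ ≤ w := by omega
      have hw0 : (0 : ℝ) < w := by
        have : 0 < w := by omega
        exact_mod_cast this
      have hI0 : (0 : ℝ) < ((2 ^ I * z₁ : ℕ) : ℝ) := by
        have : 0 < 2 ^ I * z₁ := by omega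
        exact_mod_cast this
      calc ∑ p ∈ (Ioc (2 ^ I * z₁) w).filter Nat.Prime, (1 / (p : ℝ))
          ≤ ∑ p ∈ (Ioc (2 ^ I * z₁) w).filter Nat.Prime, (1 / ((2 ^ I * z₁ : ℕ) : ℝ)) := by
            apply Finset.sum_le_sum
            intro b hb
            rw [Finset.mem_filter, Finset.mem_Ioc] at hb
            apply one_div_le_one_div_of_le hI0
            exact_mod_cast hb.1.1.le
        _ = (((Ioc (2 ^ I * z₁) w).filter Nat.Prime).card : ℝ) * (1 / ((2 ^ I * z₁ : ℕ) : ℝ)) := by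
            rw [Finset.sum_const, nsmul_eq_mul]
        _ ≤ (Nat.primeCounting w : ℝ) * (1 / ((2 ^ I * z₁ : ℕ) : ℝ)) := by
            apply mul_le_mul_of_nonneg_right _ (by positivity)
            rw [primeCounting_eq]
            have : (Ioc (2 ^ I * z₁) w).filter Nat.Prime ⊆ (Icc 1 w).filter Nat.Prime := by
              intro b hb
              rw [Finset.mem_filter, Finset.mem_Ioc] at hb
              rw [Finset.mem_filter, Finset.mem_Icc]
              exact ⟨⟨by omega, hb.1.2⟩, hb.2⟩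
            exact_mod_cast Finset.card_le_card this
        _ ≤ (2 * w / Real.log z₁) * (1 / ((2 ^ I * z₁ : ℕ) : ℝ)) := by
            apply mul_le_mul_of_nonneg_right _ (by positivity)
            rw [le_div_iff₀ hl]
            have h4 := hπ w (by omega)
            have h5 : Real.log z₁ ≤ Real.log w :=
              Real.log_le_log (by linarith) (by exact_mod_cast hwz)
            have h6 : (0 : ℝ) ≤ Nat.primeCounting w := by positivity
            nlinarith
        _ = 4 / Real.log z₁ := by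
            have h7 : (w : ℝ) = 2 * ((2 ^ I * z₁ : ℕ) : ℝ) := by exact_mod_cast h00
            rw [h7]
            field_simp
            ring
    have h8 : (4 : ℝ) * ((I + 1 : ℕ) : ℝ) / Real.log z₁ = 4 * I / Real.log z₁ + 4 / Real.log z₁ := by
      push_cast
      ring
    rw [h8]
    linarith

/-- reciprocals of the numbers with a large prime factor -/
lemma recip_large {u₀ z₁ : ℕ} (hπ : ∀ u : ℕ, u₀ ≤ u → (Nat.primeCounting u : ℝ) * Real.log u ≤ 2 * u)
    (hz : u₀ ≤ z₁) (hz2 : 2 ≤ z₁) (I : ℕ) (E : Finset ℕ)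
    (hE : ∀ e ∈ E, 1 ≤ e ∧ e ≤ 2 ^ I * z₁ ∧ ∃ p : ℕ, p.Prime ∧ p ∣ e ∧ z₁ < p) :
    ∑ e ∈ E, (1 / (e : ℝ)) ≤ (1 + I) * (4 * I / Real.log z₁) := by
  classical
  have hch : ∀ e ∈ E, ∃ p : ℕ, p.Prime ∧ p ∣ e ∧ z₁ < p := fun e he => (hE e he).2.2
  choose! g hg using hch
  set P := (Icc 1 (2 ^ I)) ×ˢ ((Ioc z₁ (2 ^ I * z₁)).filter Nat.Prime) with hP
  have hmem : ∀ e ∈ E, (e / g e, g e) ∈ P := by
    intro e he
    obtain ⟨h1, h2, h3⟩ := hg e he
    obtain ⟨h4, h5, _⟩ := hE e he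
    obtain ⟨b, hb⟩ := h2
    have hgpos := h1.pos
    have hb' : e / g e = b := Nat.div_eq_of_eq_mul_right hgpos hb
    rw [hP, Finset.mem_product, Finset.mem_Icc, Finset.mem_filter, Finset.mem_Ioc]
    simp only
    rw [hb']
    have hb0 : 0 < b := by
      rcases Nat.eq_zero_or_pos b with h | h
      · rw [h, mul_zero] at hb
        omega
      · exact h
    refine ⟨⟨hb0, ?_⟩, ⟨h3, ?_⟩, h1⟩
    · by_contra hcon
      push Not at hcon
      have h6 : 2 ^ I * z₁ < g e * b := by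
        calc 2 ^ I * z₁ ≤ 2 ^ I * g e := Nat.mul_le_mul_left _ h3.le
          _ < b * g e := Nat.mul_lt_mul_of_pos_right hcon hgpos
          _ = g e * b := mul_comm _ _
      omega
    · have : g e ≤ g e * b := Nat.le_mul_of_pos_right _ hb0
      omega
  have hinj : Set.InjOn (fun e => (e / g e, g e)) (E : Set ℕ) := by
    intro e he f hf hef
    simp only [Prod.mk.injEq] at hef
    have h1 := Nat.div_mul_cancel (hg e he).2.1
    have h2 := Nat.div_mul_cancel (hg f hf).2.1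
    rw [← h1, ← h2, hef.1, hef.2]
  calc ∑ e ∈ E, (1 / (e : ℝ)) = ∑ e ∈ E, (1 / ((e / g e : ℕ) : ℝ)) * (1 / ((g e : ℕ) : ℝ)) := by
        apply Finset.sum_congr rfl
        intro e he
        have h1 := Nat.div_mul_cancel (hg e he).2.1
        rw [one_div_mul_one_div, ← Nat.cast_mul, h1]
    _ = ∑ x ∈ E.image (fun e => (e / g e, g e)), (1 / ((x.1 : ℕ) : ℝ)) * (1 / ((x.2 : ℕ) : ℝ)) := by
        rw [Finset.sum_image hinj]
    _ ≤ ∑ x ∈ P, (1 / ((x.1 : ℕ) : ℝ)) * (1 / ((x.2 : ℕ) : ℝ)) := by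
        apply Finset.sum_le_sum_of_subset_of_nonneg
        · intro x hx
          obtain ⟨e, he, rfl⟩ := Finset.mem_image.1 hx
          exact hmem e he
        · intro x _ _
          positivity
    _ = (∑ b ∈ (Icc 1 (2 ^ I) : Finset ℕ), (1 / (b : ℝ))) *
          ∑ p ∈ (Ioc z₁ (2 ^ I * z₁)).filter Nat.Prime, (1 / (p : ℝ)) := by
        rw [hP, Finset.sum_product, Finset.sum_mul_sum]
    _ ≤ (1 + I) * (4 * I / Real.log z₁) := by
        apply mul_le_mul (harm_le I) (recip_primes hπ hz hz2 I)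
        · apply Finset.sum_nonneg
          intro p _
          positivity
        · positivity

lemma pow_four_le (I : ℕ) : I ^ 4 ≤ 25 * 2 ^ I := by
  rcases Nat.lt_or_ge I 7 with h | h
  · interval_cases I <;> norm_num
  · induction I, h using Nat.le_induction with
    | base => norm_num
    | succ I hI ih =>
      have h1 : (I + 1) ^ 4 ≤ 2 * I ^ 4 := by
        obtain ⟨j, rfl⟩ := Nat.exists_eq_add_of_le hI
        ring_nf
        nlinarith [Nat.zero_le j]
      calc (I + 1) ^ 4 ≤ 2 * I ^ 4 := h1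
        _ ≤ 2 * (25 * 2 ^ I) := by omega
        _ = 25 * 2 ^ (I + 1) := by ring

lemma sq_le_of_pow {T I : ℕ} (h : T ^ 4 ≤ 2 ^ I) : T ^ 2 * I ^ 2 ≤ 5 * 2 ^ I := by
  have h1 := pow_four_le I
  have h2 : (T ^ 2 * I ^ 2) ^ 2 ≤ (5 * 2 ^ I) ^ 2 := by
    calc (T ^ 2 * I ^ 2) ^ 2 = T ^ 4 * I ^ 4 := by ring
      _ ≤ 2 ^ I * (25 * 2 ^ I) := Nat.mul_le_mul h h1
      _ = (5 * 2 ^ I) ^ 2 := by ring
  exact (Nat.pow_le_pow_iff_left (by norm_num)).1 h2

end Pool.Agent.R98.Bounds
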