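import Mathlib
import Pool.Agent.Helper450.Kneser

set_option autoImplicit false

namespace Pool.Agent.R98.CN

open Finset
open scoped Pointwise

variable {G : Type*} [AddCommGroup G] [DecidableEq G]

/-- The set of all subset sums of `U` (the empty sum included). -/
def SS (U : Finset G) : Finset G := U.powerset.image (fun V => ∑ v ∈ V, v)

theorem mem_SS {U : Finset G} {g : G} : g ∈ SS U ↔ ∃ V, V ⊆ U ∧ ∑ v ∈ V, v = g := by
  simp only [SS, mem_image, mem_powerset]

theorem zero_mem_SS (U : Finset G) : (0 : G) ∈ SS U :=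
  mem_SS.mpr ⟨∅, empty_subset _, sum_empty⟩

theorem SS_nonempty (U : Finset G) : (SS U).Nonempty := ⟨0, zero_mem_SS U⟩

theorem SS_empty : SS (∅ : Finset G) = {0} := by
  ext g
  rw [mem_SS, mem_singleton]
  constructor
  · rintro ⟨V, hV, rfl⟩
    rw [subset_empty.mp hV, sum_empty]
  · rintro rfl
    exact ⟨∅, empty_subset _, sum_empty⟩

theorem SS_mono {U V : Finset G} (h : U ⊆ V) : SS U ⊆ SS V := by
  intro g hg
  obtain ⟨W, hW, rfl⟩ := mem_SS.mp hg
  exact mem_SS.mpr ⟨W, hW.trans h, rfl⟩

theorem SS_union {U V : Finset G} (h : Disjoint U V) : SS (U ∪ V) = SS U + SS V := by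
  ext g
  rw [mem_SS, mem_add]
  constructor
  · rintro ⟨W, hW, rfl⟩
    refine ⟨∑ v ∈ W ∩ U, v, mem_SS.mpr ⟨_, inter_subset_right, rfl⟩,
      ∑ v ∈ W ∩ V, v, mem_SS.mpr ⟨_, inter_subset_right, rfl⟩, ?_⟩
    rw [← sum_union]
    · congr 1
      rw [← inter_union_distrib_left]
      exact inter_eq_left.mpr hW
    · exact h.mono inter_subset_right inter_subset_right
  · rintro ⟨x, hx, y, hy, rfl⟩
    obtain ⟨P, hP, rfl⟩ := mem_SS.mp hx
    obtain ⟨Q, hQ, rfl⟩ := mem_SS.mp hy
    refine ⟨P ∪ Q, union_subset_union hP hQ, ?_⟩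
    rw [sum_union (h.mono hP hQ)]

theorem SS_singleton (x : G) : SS ({x} : Finset G) = {0, x} := by
  ext g
  rw [mem_SS]
  simp only [mem_insert, mem_singleton]
  constructor
  · rintro ⟨V, hV, rfl⟩
    rcases subset_singleton_iff.mp hV with rfl | rfl
    · left; exact sum_empty
    · right; exact sum_singleton _ _
  · rintro (rfl | rfl)
    · exact ⟨∅, empty_subset _, sum_empty⟩
    · exact ⟨{g}, subset_refl _, sum_singleton _ _⟩

/-- The number of elements of `B` that leave `B` when translated by `x`. -/
def lam (B : Finset G) (x : G) : ℕ := (B.filter (fun y => y + x ∉ B)).card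

theorem lam_zero (B : Finset G) : lam B 0 = 0 := by
  unfold lam
  rw [card_eq_zero, filter_eq_empty_iff]
  intro y hy
  simpa using hy

theorem lam_le_card (B : Finset G) (x : G) : lam B x ≤ B.card := card_filter_le _ _

theorem lam_compl (B : Finset G) (x : G) :
    lam B x + (B.filter (fun y => y + x ∈ B)).card = B.card := by
  unfold lam
  have := card_filter_add_card_filter_not (s := B) (fun y => y + x ∈ B)
  omega

theorem lam_neg (B : Finset G) (x : G) : lam B (-x) = lam B x := by
  have h1 := lam_compl B x
  have h2 := lam_compl B (-x)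
  have h3 : (B.filter (fun y => y + x ∈ B)).card = (B.filter (fun y => y + -x ∈ B)).card := by
    apply card_bij (fun y _ => y + x)
    · intro a ha
      rw [mem_filter] at ha ⊢
      exact ⟨ha.2, by simpa using ha.1⟩
    · intro a _ b _ hab
      exact add_right_cancel hab
    · intro b hb
      rw [mem_filter] at hb
      exact ⟨b + -x, mem_filter.mpr ⟨hb.2, by simpa using hb.1⟩, by simp⟩
  omega

theorem lam_add (B : Finset G) (x z : G) : lam B (x + z) ≤ lam B x + lam B z := by
  unfold lam
  have h : B.filter (fun y => y + (x + z) ∉ B) ⊆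
      B.filter (fun y => y + x ∉ B) ∪ (B.filter (fun y => y + z ∉ B)).image (fun y => y + -x) := by
    intro y hy
    rw [mem_filter] at hy
    rw [mem_union, mem_filter, mem_image]
    by_cases h : y + x ∈ B
    · right
      refine ⟨y + x, mem_filter.mpr ⟨h, ?_⟩, by simp⟩
      rw [add_assoc]
      exact hy.2
    · left
      exact ⟨hy.1, h⟩
  calc _ ≤ _ := card_le_card h
    _ ≤ _ := card_union_le _ _
    _ ≤ _ := Nat.add_le_add_left card_image_le _

theorem card_add_pair (B : Finset G) (x : G) :
    (B + {0, x}).card = B.card + lam B x := by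
  have h : B + {0, x} = B ∪ (B.filter (fun y => y + x ∉ B)).image (fun y => y + x) := by
    ext g
    rw [mem_add, mem_union, mem_image]
    constructor
    · rintro ⟨y, hy, z, hz, rfl⟩
      rw [mem_insert, mem_singleton] at hz
      rcases hz with rfl | rfl
      · left; simpa using hy
      · by_cases h : y + z ∈ B
        · left; exact h
        · right; exact ⟨y, mem_filter.mpr ⟨hy, h⟩, rfl⟩
    · rintro (h | ⟨y, hy, rfl⟩)
      · exact ⟨g, h, 0, by simp, by simp⟩
      · exact ⟨y, (mem_filter.mp hy).1, x, by simp, rfl⟩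
  rw [h, card_union_of_disjoint, card_image_of_injective _ (add_left_injective x)]
  · rfl
  · rw [disjoint_left]
    intro g hg hg'
    rw [mem_image] at hg'
    obtain ⟨y, hy, rfl⟩ := hg'
    exact (mem_filter.mp hy).2 hg

/-- Iterated sumsets. -/
def IT (T : Finset G) : ℕ → Finset G
  | 0 => {0}
  | k + 1 => IT T k + T

theorem IT_nonempty (T : Finset G) (hT : T.Nonempty) (k : ℕ) : (IT T k).Nonempty := by
  induction k with
  | zero => exact singleton_nonempty 0
  | succ k ih => exact ih.add hT

theorem lam_IT (B T : Finset G) (t : ℕ) (hT : ∀ x ∈ T, lam B x ≤ t) (k : ℕ) :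
    ∀ x ∈ IT T k, lam B x ≤ k * t := by
  induction k with
  | zero =>
    intro x hx
    rw [IT, mem_singleton] at hx
    subst hx
    simp [lam_zero]
  | succ k ih =>
    intro x hx
    rw [IT, mem_add] at hx
    obtain ⟨y, hy, z, hz, rfl⟩ := hx
    have h1 := ih y hy
    have h2 := hT z hz
    have h3 := lam_add B y z
    rw [Nat.succ_mul]
    omega

/-- The increments of the truncated linear function. -/
def wk (t B k : ℕ) : ℕ := min ((k + 1) * t) B - min (k * t) B

theorem sum_wk (t B m : ℕ) : ∑ k ∈ range m, wk t B k = min (m * t) B := by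
  induction m with
  | zero => simp
  | succ m ih =>
    rw [sum_range_succ, ih, wk, Nat.succ_mul]
    omega

section Fin

variable [Fintype G]

theorem lam_le_compl (B : Finset G) (x : G) : lam B x ≤ Fintype.card G - B.card := by
  unfold lam
  rw [← card_image_of_injective (B.filter (fun y => y + x ∉ B)) (add_left_injective x),
    ← card_compl]
  apply card_le_card
  intro g hg
  rw [mem_image] at hg
  obtain ⟨y, hy, rfl⟩ := hg
  exact mem_compl.mpr (mem_filter.mp hy).2

theorem sum_lam (B : Finset G) :
    ∑ x : G, lam B x = B.card * (Fintype.card G - B.card) := by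
  unfold lam
  simp_rw [card_filter]
  rw [sum_comm]
  rw [sum_const_nat (m := Fintype.card G - B.card)]
  intro y _
  have : ∑ x : G, (if y + x ∉ B then 1 else 0) = ∑ x : G, (if x ∉ B then 1 else 0) :=
    Fintype.sum_equiv (Equiv.addLeft y) _ _ (fun x => rfl)
  rw [this, ← card_filter, ← card_compl]
  congr 1
  ext x
  simp

theorem growth_bound (B T : Finset G) (t M : ℕ) (hT : ∀ x ∈ T, lam B x ≤ t)
    (hM : IT T M = univ) :
    B.card * (Fintype.card G - B.card) ≤
      ∑ k ∈ range M, wk t (min B.card (Fintype.card G - B.card)) k *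
        (Fintype.card G - (IT T k).card) := by
  classical
  set B' := min B.card (Fintype.card G - B.card) with hB'
  have hpt : ∀ x : G, lam B x ≤ ∑ k ∈ range M, wk t B' k * (if x ∉ IT T k then 1 else 0) := by
    intro x
    have hex : ∃ k, x ∈ IT T k := ⟨M, by rw [hM]; exact mem_univ x⟩
    have hk0 := Nat.find_spec hex
    set k0 := Nat.find hex with hk0def
    have hle : k0 ≤ M := Nat.find_min' hex (by rw [hM]; exact mem_univ x)
    have h1 : lam B x ≤ min (k0 * t) B' := by
      apply le_min
      · exact lam_IT B T t hT k0 x hk0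
      · exact le_min (lam_le_card B x) (lam_le_compl B x)
    calc lam B x ≤ min (k0 * t) B' := h1
      _ = ∑ k ∈ range k0, wk t B' k := (sum_wk t B' k0).symm
      _ = ∑ k ∈ range k0, wk t B' k * (if x ∉ IT T k then 1 else 0) := by
        apply sum_congr rfl
        intro k hk
        have : x ∉ IT T k := Nat.find_min hex (mem_range.mp hk)
        rw [if_pos this, mul_one]
      _ ≤ _ := sum_le_sum_of_subset (range_subset_range.mpr hle)
  calc B.card * (Fintype.card G - B.card) = ∑ x : G, lam B x := (sum_lam B).symm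
    _ ≤ ∑ x : G, ∑ k ∈ range M, wk t B' k * (if x ∉ IT T k then 1 else 0) :=
        sum_le_sum (fun x _ => hpt x)
    _ = ∑ k ∈ range M, ∑ x : G, wk t B' k * (if x ∉ IT T k then 1 else 0) := sum_comm
    _ = _ := by
        apply sum_congr rfl
        intro k _
        rw [← mul_sum]
        congr 1
        rw [← card_filter, ← card_compl]
        congr 1
        ext x
        simp

end Fin

end Pool.Agent.R98.CN
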