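import Mathlib
import Pool.Agent.Helper450.Kneser
import Pool.Agent.R98.CNBase

set_option autoImplicit false

namespace Pool.Agent.R98.CN

open Finset
open scoped Pointwise
open Pool.Agent.Helper450.Kneser (fs mem_fs fs_nonempty stab mem_stab kneser' add_fs_stab fs_card_pos
  stab_add mem_stab_of_forall)

variable {G : Type*} [AddCommGroup G] [DecidableEq G] [Fintype G]

theorem fs_card_dvd_add (K : AddSubgroup G) (X : Finset G) :
    (fs K).card ∣ (X + fs K).card := by
  classical
  have h := card_eq_sum_card_image (fun g : G => (QuotientAddGroup.mk g : G ⧸ K)) (X + fs K)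
  rw [h]
  apply dvd_sum
  intro q hq
  rw [mem_image] at hq
  obtain ⟨g, hg, rfl⟩ := hq
  have : (X + fs K).filter (fun x => (QuotientAddGroup.mk x : G ⧸ K) = QuotientAddGroup.mk g) =
      (fs K).image (fun k => g + k) := by
    ext y
    rw [mem_filter, mem_image]
    constructor
    · rintro ⟨_, hy⟩
      refine ⟨-g + y, mem_fs.mpr ?_, by simp⟩
      exact QuotientAddGroup.eq.mp hy.symm
    · rintro ⟨k, hk, rfl⟩
      rw [mem_add] at hg
      obtain ⟨x, hx, k', hk', rfl⟩ := hg
      refine ⟨?_, ?_⟩
      · rw [add_assoc]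
        exact add_mem_add hx (mem_fs.mpr (K.add_mem (mem_fs.mp hk') (mem_fs.mp hk)))
      · symm
        apply QuotientAddGroup.eq.mpr
        have e : -(x + k') + (x + k' + k) = k := by abel
        rw [e]
        exact mem_fs.mp hk
  rw [this, card_image_of_injective _ (add_right_injective g)]

theorem fs_card_dvd (K : AddSubgroup G) : (fs K).card ∣ Fintype.card G := by
  have h := fs_card_dvd_add K (univ : Finset G)
  have h2 : (univ : Finset G) + fs K = univ := by
    apply eq_univ_of_forall
    intro g
    have := add_mem_add (mem_univ g) (mem_fs.mpr K.zero_mem)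
    rwa [add_zero] at this
  rwa [h2, card_univ] at h

theorem fs_card_eq (K : AddSubgroup G) : (fs K).card = Nat.card K := by
  classical
  rw [Nat.card_eq_fintype_card, Fintype.card_subtype]
  congr 1

theorem odd_of_symm (hodd : ∀ g : G, g + g = 0 → g = 0) (Y : Finset G) (h0 : (0 : G) ∈ Y)
    (hs : ∀ y ∈ Y, -y ∈ Y) : Odd Y.card := by
  have h1 : ∑ x ∈ Y.erase 0, (1 : ZMod 2) = 0 := by
    apply sum_involution (fun a _ => -a)
    · intro a ha
      decide
    · intro a ha _ h
      have : a + a = 0 := by
        nth_rewrite 1 [← h]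
        simp
      exact (mem_erase.mp ha).1 (hodd a this)
    · intro a ha
      simp
    · intro a ha
      rw [mem_erase] at ha ⊢
      exact ⟨by simpa using ha.1, hs a ha.2⟩
  rw [sum_const, nsmul_eq_mul, mul_one] at h1
  have h2 : 2 ∣ (Y.erase 0).card := (ZMod.natCast_eq_zero_iff _ _).mp h1
  rw [card_erase_of_mem h0] at h2
  have h3 : 0 < Y.card := card_pos.mpr ⟨0, h0⟩
  rw [Nat.odd_iff]
  omega

/-- Subset of `X + fs K`. -/
theorem subset_add_fs (X : Finset G) (K : AddSubgroup G) : X ⊆ X + fs K := by
  intro x hx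
  have := add_mem_add hx (mem_fs.mpr K.zero_mem)
  rwa [add_zero] at this

theorem card_le_add_fs (X : Finset G) (K : AddSubgroup G) : X.card ≤ (X + fs K).card :=
  card_le_card (subset_add_fs X K)

theorem odd_add_fs (hodd : ∀ g : G, g + g = 0 → g = 0) (T : Finset G) (h0 : (0 : G) ∈ T)
    (hs : ∀ y ∈ T, -y ∈ T) (K : AddSubgroup G) : Odd (T + fs K).card := by
  apply odd_of_symm hodd
  · exact subset_add_fs T K h0
  · intro y hy
    rw [mem_add] at hy ⊢
    obtain ⟨a, ha, b, hb, rfl⟩ := hy
    exact ⟨-a, hs a ha, -b, mem_fs.mpr (K.neg_mem (mem_fs.mp hb)), by abel⟩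

/-- The lower bound for the size of the `k`-fold sumset. -/
def nk (n s k : ℕ) : ℕ := min n (min (k * s + 1) (k * (10 * ((s + 5) / 10)) + 5))

theorem IT_growth (hodd : ∀ g : G, g + g = 0 → g = 0) (n : ℕ) (hn : Fintype.card G = n)
    (hn' : n = 25 ∨ n = 125) (T : Finset G) (h0 : (0 : G) ∈ T) (hs : ∀ y ∈ T, -y ∈ T)
    (s : ℕ) (hs1 : 5 ≤ s) (hs2 : s ≤ 30) (hT : s + 1 ≤ T.card)
    (h25 : n = 125 → ∀ K : AddSubgroup G, (fs K).card = 25 → ∃ x ∈ T, x ∉ K) (k : ℕ) :
    nk n s k ≤ (IT T k).card := by
  induction k with
  | zero =>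
    rw [IT, card_singleton, nk]
    omega
  | succ k ih =>
    have hTne : T.Nonempty := ⟨0, h0⟩
    have hne := IT_nonempty T hTne k
    rw [IT]
    set X := IT T k with hX
    have hK := kneser' X T hne hTne
    set K := stab (X + T) with hKdef
    have hXT : X.card ≤ (X + T).card := by
      apply card_le_card
      intro x hx
      have := add_mem_add hx h0
      rwa [add_zero] at this
    have hdvd := fs_card_dvd K
    rw [hn] at hdvd
    have hXK := card_le_add_fs X K
    have hTK := card_le_add_fs T K
    have hdX := fs_card_dvd_add K X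
    have hdT := fs_card_dvd_add K T
    have hoT := odd_add_fs hodd T h0 hs K
    rw [Nat.odd_iff] at hoT
    have hcases : (fs K).card = 1 ∨ (fs K).card = 5 ∨ (n = 125 ∧ (fs K).card = 25) ∨
        (fs K).card = n := by
      rcases hn' with h | h
      · rw [h] at hdvd
        have : (fs K).card ∈ Nat.divisors 25 := Nat.mem_divisors.mpr ⟨hdvd, by norm_num⟩
        have h2 : Nat.divisors 25 = {1, 5, 25} := by decide
        rw [h2] at this
        simp only [mem_insert, mem_singleton] at this
        omega
      · rw [h] at hdvd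
        have : (fs K).card ∈ Nat.divisors 125 := Nat.mem_divisors.mpr ⟨hdvd, by norm_num⟩
        have h2 : Nat.divisors 125 = {1, 5, 25, 125} := by decide
        rw [h2] at this
        simp only [mem_insert, mem_singleton] at this
        omega
    have e1 : (k + 1) * s = k * s + s := by ring
    have e2 : (k + 1) * (10 * ((s + 5) / 10)) = k * (10 * ((s + 5) / 10)) + 10 * ((s + 5) / 10) := by
      ring
    rw [nk, e1, e2]
    rw [nk] at ih
    set q := 10 * ((s + 5) / 10) with hq
    have hqs : q ≤ s + 5 := by omega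
    have hqs2 : s + 5 < q + 10 := by omega
    have hq30 : q ≤ 30 := by omega
    have hcmp : (q ≤ s ∧ k * q ≤ k * s) ∨ (s < q ∧ k * s ≤ k * q) := by
      rcases le_or_gt q s with h | h
      · exact Or.inl ⟨h, Nat.mul_le_mul_left k h⟩
      · exact Or.inr ⟨h, Nat.mul_le_mul_left k h.le⟩
    have hkq5 : ∃ a, k * q = 5 * a := ⟨k * (2 * ((s + 5) / 10)), by rw [hq]; ring⟩
    obtain ⟨a, ha⟩ := hkq5
    have hq5 : ∃ b, q = 10 * b := ⟨(s + 5) / 10, hq⟩
    obtain ⟨b, hb⟩ := hq5
    rcases hcases with h | h | ⟨h', h⟩ | h
    · rw [h] at hK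
      omega
    · rw [h] at hK hdX hdT
      obtain ⟨c, hc⟩ := hdX
      obtain ⟨d, hd⟩ := hdT
      rw [hc, hd] at hK
      rw [hc] at hXK
      rw [hd] at hTK hoT
      have hn5 : ∃ e, n = 5 * e := by
        rcases hn' with h | h
        · exact ⟨5, by omega⟩
        · exact ⟨25, by omega⟩
      obtain ⟨e, he⟩ := hn5
      generalize k * s = u at *
      generalize k * q = v at *
      omega
    · rw [h] at hK hdT
      obtain ⟨d, hd⟩ := hdT
      have hgt : 25 < (T + fs K).card := by
        obtain ⟨x, hx, hxK⟩ := h25 h' K h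
        have hsub : insert x (fs K) ⊆ T + fs K := by
          intro y hy
          rw [mem_insert] at hy
          rcases hy with rfl | hy
          · exact subset_add_fs T K hx
          · have := add_mem_add h0 hy
            rwa [zero_add] at this
        have h3 := card_le_card hsub
        rw [card_insert_of_notMem (fun hh => hxK (mem_fs.mp hh)), h] at h3
        omega
      rw [hd] at hK hgt hoT
      generalize k * s = u at *
      generalize k * q = v at *
      omega
    · have hu : X + T = univ := by
        have h3 : fs K = univ := by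
          rw [← card_eq_iff_eq_univ, h, hn]
        have h4 := add_fs_stab (X + T) K le_rfl
        rw [h3] at h4
        rw [← h4]
        apply eq_univ_of_forall
        intro g
        obtain ⟨y, hy⟩ := hne.add hTne
        rw [mem_add]
        exact ⟨y, hy, -y + g, mem_univ _, by simp⟩
      rw [hu, card_univ, hn]
      exact min_le_left _ _

end Pool.Agent.R98.CN
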