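import Mathlib
import Pool.Agent.R98.CNKn

set_option autoImplicit false

namespace Pool.Agent.R98.CN

open Finset
open scoped Pointwise
open Pool.Agent.Helper450.Kneser (fs mem_fs fs_nonempty stab mem_stab kneser' add_fs_stab fs_card_pos
  stab_add mem_stab_of_forall)

/-- The numerical bound. -/
def rhs (n s t B : ℕ) : ℕ := ∑ k ∈ range 12, wk t B k * (n - nk n s k)

variable {G : Type*} [AddCommGroup G] [DecidableEq G] [Fintype G]

theorem step (hodd : ∀ g : G, g + g = 0 → g = 0) (n : ℕ) (hn : Fintype.card G = n)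
    (hn' : n = 25 ∨ n = 125) (S : Finset G) (hS0 : (0 : G) ∉ S) (s : ℕ) (hs : S.card = s)
    (hs1 : 5 ≤ s) (hs2 : s ≤ 30)
    (h25 : n = 125 → ∀ K : AddSubgroup G, (fs K).card = 25 → ∃ x ∈ S, x ∉ K)
    (h12 : nk n s 12 = n) (B : Finset G) (b' : ℕ)
    (hnum : B.card < b' →
      rhs n s (b' - B.card - 1) (min B.card (n - B.card)) < B.card * (n - B.card)) :
    ∃ x ∈ S, b' ≤ B.card + lam B x := by
  by_contra hcon
  push Not at hcon
  have hSne : S.Nonempty := by
    rw [← card_pos]; omega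
  obtain ⟨x0, hx0⟩ := hSne
  have hlt : B.card < b' := by
    have := hcon x0 hx0
    omega
  set T : Finset G := insert 0 (S ∪ S.image (fun x => -x)) with hTdef
  have h0 : (0 : G) ∈ T := mem_insert_self _ _
  have hsym : ∀ y ∈ T, -y ∈ T := by
    intro y hy
    rw [hTdef, mem_insert, mem_union, mem_image] at hy ⊢
    rcases hy with rfl | hy | ⟨z, hz, rfl⟩
    · left; simp
    · right; right; exact ⟨y, hy, rfl⟩
    · right; left; simpa using hz
  have hTc : s + 1 ≤ T.card := by
    rw [← hs, ← card_insert_of_notMem hS0]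
    apply card_le_card
    apply insert_subset_insert
    exact subset_union_left
  have hT : ∀ x ∈ T, lam B x ≤ b' - B.card - 1 := by
    intro x hx
    rw [hTdef, mem_insert, mem_union, mem_image] at hx
    rcases hx with rfl | hx | ⟨z, hz, rfl⟩
    · rw [lam_zero]; omega
    · have := hcon x hx
      omega
    · rw [lam_neg]
      have := hcon z hz
      omega
  have hg : ∀ k, nk n s k ≤ (IT T k).card := by
    apply IT_growth hodd n hn hn' T h0 hsym s hs1 hs2 hTc
    intro h K hK
    obtain ⟨x, hx, hxK⟩ := h25 h K hK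
    exact ⟨x, mem_insert_of_mem (mem_union_left _ hx), hxK⟩
  have hM : IT T 12 = univ := by
    rw [← card_eq_iff_eq_univ]
    have h1 := hg 12
    rw [h12, ← hn] at h1
    exact le_antisymm (card_le_univ _) h1
  have hb := growth_bound B T (b' - B.card - 1) 12 hT hM
  rw [hn] at hb
  have h2 := hnum hlt
  have h3 : ∑ k ∈ range 12, wk (b' - B.card - 1) (min B.card (n - B.card)) k *
        (n - (IT T k).card) ≤ rhs n s (b' - B.card - 1) (min B.card (n - B.card)) := by
    unfold rhs
    apply sum_le_sum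
    intro k _
    apply Nat.mul_le_mul_left
    have := hg k
    omega
  omega

theorem process (hodd : ∀ g : G, g + g = 0 → g = 0) (n : ℕ) (hn : Fintype.card G = n)
    (hn' : n = 25 ∨ n = 125) (S₀ : Finset G) (hS0 : (0 : G) ∉ S₀) (s1 : ℕ) (hs : S₀.card = s1)
    (hs2 : s1 ≤ 30) (m : ℕ) (bs : ℕ → ℕ) (hbs : bs s1 ≤ 1)
    (hgen : n = 125 → ∀ K : AddSubgroup G, (fs K).card = 25 →
      (S₀ ∩ fs K).card ≤ s1 - m)
    (htab : ∀ s, s1 - m < s → s ≤ s1 → 5 ≤ s ∧ nk n s 12 = n ∧ ∀ b, bs s ≤ b → b < bs (s - 1) →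
      rhs n s (bs (s - 1) - b - 1) (min b (n - b)) < b * (n - b)) (hm : m ≤ s1) :
    ∃ S, S ⊆ S₀ ∧ S.card = s1 - m ∧ bs (s1 - m) ≤ (SS (S₀ \ S)).card := by
  have key : ∀ j, j ≤ m → ∃ S, S ⊆ S₀ ∧ S.card = s1 - j ∧ bs (s1 - j) ≤ (SS (S₀ \ S)).card := by
    intro j
    induction j with
    | zero =>
      intro _
      refine ⟨S₀, subset_refl _, hs, ?_⟩
      have := card_pos.mpr (SS_nonempty (S₀ \ S₀))
      simp only [Nat.sub_zero]
      omega
    | succ j ih =>
      intro hj
      obtain ⟨S, hS, hSc, hSb⟩ := ih (by omega)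
      obtain ⟨h5, h12, hb⟩ := htab (s1 - j) (by omega) (by omega)
      have hstep := step hodd n hn hn' S (fun h => hS0 (hS h)) (s1 - j) hSc h5 (by omega)
        (by
          intro h K hK
          by_contra hcon
          push Not at hcon
          have h1 := hgen h K hK
          have h2 : S.card ≤ (S₀ ∩ fs K).card :=
            card_le_card (fun x hx => mem_inter.mpr ⟨hS hx, mem_fs.mpr (hcon x hx)⟩)
          omega) h12 (SS (S₀ \ S)) (bs (s1 - (j + 1)))
        (by
          intro h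
          have := hb (SS (S₀ \ S)).card hSb (by
            have e : s1 - j - 1 = s1 - (j + 1) := by omega
            rw [e]; exact h)
          have e : s1 - j - 1 = s1 - (j + 1) := by omega
          rw [e] at this
          exact this)
      obtain ⟨x, hx, hxb⟩ := hstep
      refine ⟨S.erase x, (erase_subset _ _).trans hS, ?_, ?_⟩
      · rw [card_erase_of_mem hx]; omega
      · have e : S₀ \ S.erase x = (S₀ \ S) ∪ {x} := by
          ext y
          rw [mem_sdiff, mem_erase, mem_union, mem_sdiff, mem_singleton]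
          constructor
          · rintro ⟨h1, h2⟩
            by_cases h : y = x
            · right; exact h
            · left; exact ⟨h1, fun h3 => h2 ⟨h, h3⟩⟩
          · rintro (⟨h1, h2⟩ | rfl)
            · exact ⟨h1, fun h3 => h2 h3.2⟩
            · exact ⟨hS hx, fun h3 => h3.1 rfl⟩
        have hd : Disjoint (S₀ \ S) {x} := by
          rw [disjoint_singleton_right, mem_sdiff]
          exact fun h => h.2 hx
        rw [e, SS_union hd, SS_singleton, card_add_pair]
        exact hxb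
  exact key m le_rfl

/-- Sizes reached in a group of order 125. -/
def bs125 (s : ℕ) : ℕ :=
  [0, 0, 0, 0, 0, 0, 0, 0, 0, 0, 107, 102, 97, 92, 87, 80, 72, 64, 56, 47, 38, 29, 21, 14, 8, 4, 2,
    1].getD s 0

/-- Sizes reached in a group of order 25. -/
def bs25 (s : ℕ) : ℕ := [0, 0, 0, 0, 0, 0, 13, 10, 7, 4, 2, 1].getD s 0

theorem tab125 : ∀ s, s ≤ 27 → 10 < s → 5 ≤ s ∧ nk 125 s 12 = 125 ∧ ∀ b, b < bs125 (s - 1) →
    bs125 s ≤ b → rhs 125 s (bs125 (s - 1) - b - 1) (min b (125 - b)) < b * (125 - b) := by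
  decide +kernel

theorem tab25 : ∀ s, s ≤ 11 → 6 < s → 5 ≤ s ∧ nk 25 s 12 = 25 ∧ ∀ b, b < bs25 (s - 1) →
    bs25 s ≤ b → rhs 25 s (bs25 (s - 1) - b - 1) (min b (25 - b)) < b * (25 - b) := by
  decide +kernel

theorem process125 (hodd : ∀ g : G, g + g = 0 → g = 0) (hn : Fintype.card G = 125)
    (S₀ : Finset G) (hS0 : (0 : G) ∉ S₀) (hs : S₀.card = 27)
    (hgen : ∀ K : AddSubgroup G, (fs K).card = 25 → (S₀ ∩ fs K).card ≤ 10) :
    ∃ S, S ⊆ S₀ ∧ S.card = 10 ∧ 107 ≤ (SS (S₀ \ S)).card := by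
  have := process hodd 125 hn (Or.inr rfl) S₀ hS0 27 hs (by norm_num) 17 bs125 (by decide)
    (fun _ => hgen) (by
      intro s h1 h2
      obtain ⟨a, b, c⟩ := tab125 s h2 (by omega)
      exact ⟨a, b, fun x hx hy => c x hy hx⟩) (by norm_num)
  exact this

theorem process25 (hodd : ∀ g : G, g + g = 0 → g = 0) (hn : Fintype.card G = 25)
    (S₀ : Finset G) (hS0 : (0 : G) ∉ S₀) (hs : S₀.card = 11) :
    ∃ S, S ⊆ S₀ ∧ S.card = 6 ∧ 13 ≤ (SS (S₀ \ S)).card := by
  have := process hodd 25 hn (Or.inl rfl) S₀ hS0 11 hs (by norm_num) 5 bs25 (by decide)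
    (fun h => absurd h (by norm_num)) (by
      intro s h1 h2
      obtain ⟨a, b, c⟩ := tab25 s h2 (by omega)
      exact ⟨a, b, fun x hx hy => c x hy hx⟩) (by norm_num)
  exact this

end Pool.Agent.R98.CN
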