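import Mathlib
import Pool.Agent.R98.CNProc

set_option autoImplicit false

namespace Pool.Agent.R98.CN

open Finset
open scoped Pointwise
open Pool.Agent.Helper450.Kneser (fs mem_fs fs_nonempty stab mem_stab kneser' add_fs_stab fs_card_pos
  stab_add mem_stab_of_forall kneser_aperiodic fs_mono)

variable {G : Type*} [AddCommGroup G] [DecidableEq G]

/-- No element together with its negative. -/
def Anti (U : Finset G) : Prop := ∀ x ∈ U, -x ∉ U

theorem Anti.mono {U V : Finset G} (h : Anti V) (hUV : U ⊆ V) : Anti U :=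
  fun x hx hx' => h x (hUV hx) (hUV hx')

theorem split (hodd : ∀ g : G, g + g = 0 → g = 0) (m : ℕ) : ∀ R : Finset G, (0 : G) ∉ R →
    R.card = 2 * m → ∃ R₁, R₁ ⊆ R ∧ R₁.card = m ∧ Anti R₁ ∧ Anti (R \ R₁) := by
  induction m with
  | zero =>
    intro R _ hR
    refine ⟨∅, empty_subset _, card_empty, ?_, ?_⟩
    · intro x hx; exact absurd hx (notMem_empty x)
    · have : R = ∅ := card_eq_zero.mp (by omega)
      subst this
      intro x hx
      simp at hx
  | succ m ih =>
    intro R h0 hR
    by_cases hex : ∃ x ∈ R, -x ∈ R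
    · obtain ⟨x, hx, hx'⟩ := hex
      have hxn : x ≠ -x := by
        intro h
        have h1 : x + x = 0 := by
          nth_rewrite 1 [h]
          simp
        exact h0 (hodd x h1 ▸ hx)
      have hmem : -x ∈ R.erase x := mem_erase.mpr ⟨hxn.symm, hx'⟩
      obtain ⟨R', hR', hc, ha, hb⟩ := ih ((R.erase x).erase (-x))
        (fun h => h0 (mem_of_mem_erase (mem_of_mem_erase h)))
        (by rw [card_erase_of_mem hmem, card_erase_of_mem hx]; omega)
      have hxR' : x ∉ R' := fun h => (mem_erase.mp (mem_of_mem_erase (hR' h))).1 rfl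
      have hxR'' : -x ∉ R' := fun h => (mem_erase.mp (hR' h)).1 rfl
      refine ⟨insert x R', ?_, ?_, ?_, ?_⟩
      · intro y hy
        rw [mem_insert] at hy
        rcases hy with rfl | hy
        · exact hx
        · exact mem_of_mem_erase (mem_of_mem_erase (hR' hy))
      · rw [card_insert_of_notMem hxR', hc]
      · intro y hy hy'
        rw [mem_insert] at hy hy'
        rcases hy with rfl | hy
        · rcases hy' with h | h
          · exact hxn h.symm
          · exact hxR'' h
        · rcases hy' with h | h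
          · apply hxR''
            rw [← h, neg_neg]
            exact hy
          · exact ha y hy h
      · intro y hy hy'
        rw [mem_sdiff, mem_insert, not_or] at hy hy'
        have hyx : y ≠ -x := by
          intro h
          apply hy'.2.1
          rw [h, neg_neg]
        have hyx' : -y ≠ -x := by
          intro h
          exact hy.2.1 (neg_injective h)
        apply hb y
        · rw [mem_sdiff, mem_erase, mem_erase]
          exact ⟨⟨hyx, hy.2.1, hy.1⟩, hy.2.2⟩
        · rw [mem_sdiff, mem_erase, mem_erase]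
          exact ⟨⟨hyx', hy'.2.1, hy'.1⟩, hy'.2.2⟩
    · push Not at hex
      obtain ⟨R₁, hR₁, hc⟩ := exists_subset_card_eq (s := R) (n := m + 1) (by omega)
      exact ⟨R₁, hR₁, hc, fun x hx hx' => hex x (hR₁ hx) (hR₁ hx'),
        fun x hx hx' => hex x (mem_sdiff.mp hx).1 (mem_sdiff.mp hx').1⟩

theorem SS_insert {x : G} {U : Finset G} (hx : x ∉ U) : SS (insert x U) = SS U + {0, x} := by
  have : insert x U = U ∪ {x} := by
    ext y; simp [or_comm]
  rw [this, SS_union (disjoint_singleton_right.mpr hx), SS_singleton]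

theorem SS_pair {x y : G} (hxy : x ≠ y) : SS ({x, y} : Finset G) = {0, x, y, x + y} := by
  rw [SS_insert (by simpa using hxy), SS_singleton]
  ext g
  simp only [mem_add, mem_insert, mem_singleton]
  constructor
  · rintro ⟨a, (rfl | rfl), b, (rfl | rfl), rfl⟩
    · simp
    · simp
    · simp
    · right; right; right; exact add_comm _ _
  · rintro (rfl | rfl | rfl | rfl)
    · exact ⟨0, Or.inl rfl, 0, Or.inl rfl, by simp⟩
    · exact ⟨0, Or.inl rfl, g, Or.inr rfl, by simp⟩
    · exact ⟨g, Or.inr rfl, 0, Or.inl rfl, by simp⟩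
    · exact ⟨y, Or.inr rfl, x, Or.inr rfl, add_comm _ _⟩

theorem card_pair' {x y : G} (hx : x ≠ 0) (hy : y ≠ 0) (hxy : x ≠ y) (hxy' : x + y ≠ 0) :
    (SS ({x, y} : Finset G)).card = 4 := by
  rw [SS_pair hxy]
  rw [card_insert_of_notMem, card_insert_of_notMem, card_insert_of_notMem, card_singleton]
  · rw [mem_singleton]
    intro h
    apply hx
    have : x + y = 0 + y := by rw [← h, zero_add]
    exact add_right_cancel this
  · simp only [mem_insert, mem_singleton, not_or]
    refine ⟨hxy, ?_⟩
    intro h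
    apply hy
    have : x + y = x + 0 := by rw [← h, add_zero]
    exact add_left_cancel this
  · simp only [mem_insert, mem_singleton, not_or]
    exact ⟨hx.symm, hy.symm, hxy'.symm⟩

theorem rep_cases {x y z u v : G} (hz : z ≠ 0) (hzx : z ≠ x) (hzy : z ≠ y) (hzx' : z ≠ -x)
    (hzy' : z ≠ -y) (hu : u ∈ ({0, x, y, x + y} : Finset G))
    (hv : v ∈ ({0, x, y, x + y} : Finset G)) (h : u + z = v) :
    (u = 0 ∧ z = x + y) ∨ (u = x + y ∧ z = -(x + y)) ∨ (u = x ∧ z = y - x) ∨
      (u = y ∧ z = x - y) := by
  have hzv : z = v - u := by rw [← h]; abel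
  simp only [mem_insert, mem_singleton] at hu hv
  rcases hu with rfl | rfl | rfl | rfl <;> rcases hv with rfl | rfl | rfl | rfl
  · exact absurd (by rw [hzv]; simp) hz
  · exact absurd (by rw [hzv]; simp) hzx
  · exact absurd (by rw [hzv]; simp) hzy
  · left; exact ⟨rfl, by rw [hzv]; simp⟩
  · exact absurd (by rw [hzv]; simp) hzx'
  · exact absurd (by rw [hzv]; simp) hz
  · right; right; left; exact ⟨rfl, hzv⟩
  · exact absurd (by rw [hzv]; simp) hzy
  · exact absurd (by rw [hzv]; simp) hzy'
  · right; right; right; exact ⟨rfl, hzv⟩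
  · exact absurd (by rw [hzv]; simp) hz
  · exact absurd (by rw [hzv]; simp) hzx
  · right; left; exact ⟨rfl, by rw [hzv]; simp⟩
  · exact absurd (by rw [hzv]; abel) hzy'
  · exact absurd (by rw [hzv]; abel) hzx'
  · exact absurd (by rw [hzv]; simp) hz

theorem card_triple (hodd : ∀ g : G, g + g = 0 → g = 0) {x y z : G} (hx : x ≠ 0) (hy : y ≠ 0)
    (hz : z ≠ 0) (hxy : x ≠ y) (hxy' : x + y ≠ 0) (hzx : z ≠ x) (hzx' : z + x ≠ 0) (hzy : z ≠ y)
    (hzy' : z + y ≠ 0) : 7 ≤ (SS ({z, x, y} : Finset G)).card := by
  rw [SS_insert (by simp [hzx, hzy]), card_add_pair, card_pair' hx hy hxy hxy']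
  have h1 := lam_compl (SS ({x, y} : Finset G)) z
  rw [card_pair' hx hy hxy hxy'] at h1
  have h2 : ((SS ({x, y} : Finset G)).filter (fun w => w + z ∈ SS ({x, y} : Finset G))).card ≤ 1 := by
    rw [card_le_one]
    intro a ha b hb
    rw [SS_pair hxy, mem_filter] at ha hb
    have hzx'' : z ≠ -x := fun h => hzx' (by rw [h]; simp)
    have hzy'' : z ≠ -y := fun h => hzy' (by rw [h]; simp)
    have ra := rep_cases hz hzx hzy hzx'' hzy'' ha.1 ha.2 rfl
    have rb := rep_cases hz hzx hzy hzx'' hzy'' hb.1 hb.2 rfl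
    rcases ra with ⟨rfl, h⟩ | ⟨rfl, h⟩ | ⟨rfl, h⟩ | ⟨rfl, h⟩ <;>
      rcases rb with ⟨rfl, h'⟩ | ⟨rfl, h'⟩ | ⟨rfl, h'⟩ | ⟨rfl, h'⟩
    · rfl
    · exfalso; apply hxy'; apply hodd
      rw [h] at h'
      nth_rewrite 1 [h']; simp
    · exfalso; apply hx; apply hodd
      have : b + y = y - b := h.symm.trans h'
      have e : b + b = (b + y) - (y - b) := by abel
      rw [e, this, sub_self]
    · exfalso; apply hy; apply hodd
      have : x + b = x - b := h.symm.trans h'
      have e : b + b = (x + b) - (x - b) := by abel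
      rw [e, this, sub_self]
    · exfalso; apply hxy'; apply hodd
      rw [h'] at h
      nth_rewrite 1 [h]; simp
    · rfl
    · exfalso; apply hy; apply hodd
      have : -(b + y) = y - b := h.symm.trans h'
      have e : y + y = (y - b) - (-(b + y)) := by abel
      rw [e, this, sub_self]
    · exfalso; apply hx; apply hodd
      have : -(x + b) = x - b := h.symm.trans h'
      have e : x + x = (x - b) - (-(x + b)) := by abel
      rw [e, this, sub_self]
    · exfalso; apply hx; apply hodd
      have : y - a = a + y := h.symm.trans h'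
      have e : a + a = (a + y) - (y - a) := by abel
      rw [e, this, sub_self]
    · exfalso; apply hy; apply hodd
      have : y - a = -(a + y) := h.symm.trans h'
      have e : y + y = (y - a) - (-(a + y)) := by abel
      rw [e, this, sub_self]
    · rfl
    · exfalso; apply hxy
      have h3 : b - a = a - b := h.symm.trans h'
      have h4 : (a - b) + (a - b) = 0 := by
        nth_rewrite 1 [← h3]; abel
      exact sub_eq_zero.mp (hodd _ h4)
    · exfalso; apply hy; apply hodd
      have : x - a = x + a := h.symm.trans h'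
      have e : a + a = (x + a) - (x - a) := by abel
      rw [e, this, sub_self]
    · exfalso; apply hx; apply hodd
      have : x - a = -(x + a) := h.symm.trans h'
      have e : x + x = (x - a) - (-(x + a)) := by abel
      rw [e, this, sub_self]
    · exfalso; apply hxy
      have h3 : b - a = a - b := h.symm.trans h'
      have h4 : (b - a) + (b - a) = 0 := by
        nth_rewrite 1 [h3]; abel
      exact sub_eq_zero.mp (hodd _ h4)
    · rfl
  omega

section Fin

variable [Fintype G]

theorem stab_add_le (X Y : Finset G) : stab X ≤ stab (X + Y) := by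
  intro g hg
  apply mem_stab_of_forall
  intro z hz
  rw [mem_add] at hz ⊢
  obtain ⟨x, hx, y, hy, rfl⟩ := hz
  exact ⟨x + g, stab_add hg hx, y, hy, by abel⟩

theorem SS_split {U R : Finset G} (hU : U ⊆ R) : SS R = SS U + SS (R \ U) := by
  rw [← SS_union disjoint_sdiff, union_sdiff_of_subset hU]

theorem SS_aper {U R : Finset G} (hU : U ⊆ R) (h : stab (SS R) = ⊥) :
    (SS U).card + (SS (R \ U)).card ≤ (SS R).card + 1 ∧ stab (SS U) = ⊥ := by
  rw [SS_split hU] at h ⊢
  refine ⟨kneser_aperiodic _ _ (SS_nonempty _) (SS_nonempty _) h, ?_⟩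
  have := stab_add_le (SS U) (SS (R \ U))
  rw [h] at this
  exact le_bot_iff.mp this

theorem anti_three (hodd : ∀ g : G, g + g = 0 → g = 0) (U : Finset G) (h0 : (0 : G) ∉ U)
    (hU : Anti U) (hc : U.card = 3) : 7 ≤ (SS U).card := by
  obtain ⟨z, x, y, h1, h2, h3, rfl⟩ := card_eq_three.mp hc
  have m1 : z ∈ ({z, x, y} : Finset G) := by simp
  have m2 : x ∈ ({z, x, y} : Finset G) := by simp
  have m3 : y ∈ ({z, x, y} : Finset G) := by simp
  have nz : ∀ {a : G}, a ∈ ({z, x, y} : Finset G) → a ≠ 0 := fun ha h => h0 (h ▸ ha)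
  have ns : ∀ {a b : G}, a ∈ ({z, x, y} : Finset G) → b ∈ ({z, x, y} : Finset G) → a + b ≠ 0 := by
    intro a b ha hb h
    apply hU a ha
    rw [neg_eq_of_add_eq_zero_right h]
    exact hb
  exact card_triple hodd (nz m2) (nz m3) (nz m1) h3 (ns m2 m3) h1 (ns m1 m2) h2 (ns m1 m3)

theorem anti_two (U : Finset G) (h0 : (0 : G) ∉ U)
    (hU : Anti U) (hc : U.card = 2) : (SS U).card = 4 := by
  obtain ⟨x, y, h1, rfl⟩ := card_eq_two.mp hc
  have m2 : x ∈ ({x, y} : Finset G) := by simp
  have m3 : y ∈ ({x, y} : Finset G) := by simp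
  have nz : ∀ {a : G}, a ∈ ({x, y} : Finset G) → a ≠ 0 := fun ha h => h0 (h ▸ ha)
  apply card_pair' (nz m2) (nz m3) h1
  intro h
  apply hU x m2
  rw [neg_eq_of_add_eq_zero_right h]
  exact m3

theorem anti_five (hodd : ∀ g : G, g + g = 0 → g = 0) (U : Finset G) (h0 : (0 : G) ∉ U)
    (hU : Anti U) (hc : U.card = 5) (hs : stab (SS U) = ⊥) : 10 ≤ (SS U).card := by
  obtain ⟨V, hV, hVc⟩ := exists_subset_card_eq (s := U) (n := 3) (by omega)
  have h1 := (SS_aper hV hs).1
  have h2 := anti_three hodd V (fun h => h0 (hV h)) (hU.mono hV) hVc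
  have h3 := anti_two (U \ V) (fun h => h0 (mem_sdiff.mp h).1) (hU.mono sdiff_subset)
    (by rw [card_sdiff_of_subset hV]; omega)
  omega

theorem KS (hn : Fintype.card G = 25 ∨ Fintype.card G = 125) (K : AddSubgroup G)
    (hK : (fs K).card = 5) (U : Finset G) (hU : ∀ x ∈ U, x ∉ K) :
    25 ≤ (SS U + fs K).card ∨ 5 * (U.card + 1) ≤ (SS U + fs K).card := by
  induction U using Finset.induction_on with
  | empty =>
    right
    rw [SS_empty, card_empty]
    have h := card_le_add_fs ({0} : Finset G) K
    have h1 := fs_card_dvd_add K ({0} : Finset G)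
    rw [hK] at h1
    rw [card_singleton] at h
    have := Nat.le_of_dvd (by omega) h1
    omega
  | insert x U hx ih =>
    have ih := ih (fun y hy => hU y (mem_insert_of_mem hy))
    have e : SS (insert x U) + fs K = (SS U + fs K) + {0, x} := by
      rw [SS_insert hx, add_right_comm]
    rw [e, card_add_pair, card_insert_of_notMem hx]
    set Y := SS U + fs K with hY
    have hYpos : 0 < Y.card := card_pos.mpr ((SS_nonempty U).add (fs_nonempty K))
    rcases Nat.eq_zero_or_pos (lam Y x) with h | h
    · left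
      have hxs : x ∈ stab Y := by
        apply mem_stab_of_forall
        unfold lam at h
        rw [card_eq_zero, filter_eq_empty_iff] at h
        intro y hy
        have := h hy
        simpa using this
      have hKs : K ≤ stab Y := by
        intro g hg
        apply mem_stab_of_forall
        intro y hy
        rw [hY, mem_add] at hy ⊢
        obtain ⟨a, ha, b, hb, rfl⟩ := hy
        exact ⟨a, ha, b + g, mem_fs.mpr (K.add_mem (mem_fs.mp hb) hg), by abel⟩
      have h1 : (fs (stab Y)).card ∣ Y.card := by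
        have := fs_card_dvd_add (stab Y) Y
        rwa [add_fs_stab Y (stab Y) le_rfl] at this
      have h2 : 5 < (fs (stab Y)).card := by
        rw [← hK]
        apply card_lt_card
        rw [ssubset_iff_of_subset (fs_mono hKs)]
        exact ⟨x, mem_fs.mpr hxs, fun h => hU x (mem_insert_self _ _) (mem_fs.mp h)⟩
      have h3 := fs_card_dvd (stab Y)
      have h4 : 25 ≤ (fs (stab Y)).card := by
        rcases hn with h | h
        · rw [h] at h3
          have : (fs (stab Y)).card ∈ Nat.divisors 25 := Nat.mem_divisors.mpr ⟨h3, by norm_num⟩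
          have h2 : Nat.divisors 25 = {1, 5, 25} := by decide
          rw [h2] at this
          simp only [mem_insert, mem_singleton] at this
          omega
        · rw [h] at h3
          have : (fs (stab Y)).card ∈ Nat.divisors 125 := Nat.mem_divisors.mpr ⟨h3, by norm_num⟩
          have h2 : Nat.divisors 125 = {1, 5, 25, 125} := by decide
          rw [h2] at this
          simp only [mem_insert, mem_singleton] at this
          omega
      have h5 := Nat.le_of_dvd hYpos h1
      omega
    · have d1 : 5 ∣ Y.card := by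
        have := fs_card_dvd_add K (SS U)
        rwa [hK] at this
      have d2 : 5 ∣ Y.card + lam Y x := by
        have := fs_card_dvd_add K (SS (insert x U))
        rwa [hK, e, card_add_pair] at this
      obtain ⟨a, ha⟩ := d1
      obtain ⟨b, hb⟩ := d2
      omega

/-- If the set of subset sums is periodic then it is large. -/
theorem periodic_large (hn : Fintype.card G = 25 ∨ Fintype.card G = 125) (R : Finset G)
    (h0 : (0 : G) ∉ R) (hs : stab (SS R) ≠ ⊥) (j : ℕ) (hR : j + 4 ≤ R.card) (hj : j ≤ 4) :
    5 * (j + 1) ≤ (SS R).card := by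
  set K := stab (SS R) with hKdef
  have h1 : (fs K).card ∣ (SS R).card := by
    have := fs_card_dvd_add K (SS R)
    rwa [add_fs_stab (SS R) K le_rfl] at this
  have hpos : 0 < (SS R).card := card_pos.mpr (SS_nonempty R)
  have h2 := Nat.le_of_dvd hpos h1
  have h3 := fs_card_dvd K
  have hne1 : (fs K).card ≠ 1 := by
    intro h
    apply hs
    rw [card_eq_one] at h
    obtain ⟨a, ha⟩ := h
    rw [AddSubgroup.eq_bot_iff_forall]
    intro x hx
    have hx' := mem_fs.mpr hx
    have h0' := mem_fs.mpr K.zero_mem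
    rw [ha, mem_singleton] at hx' h0'
    rw [hx', h0']
  have h4 : (fs K).card = 5 ∨ 25 ≤ (fs K).card := by
    rcases hn with h | h
    · rw [h] at h3
      have : (fs K).card ∈ Nat.divisors 25 := Nat.mem_divisors.mpr ⟨h3, by norm_num⟩
      have h2 : Nat.divisors 25 = {1, 5, 25} := by decide
      rw [h2] at this
      simp only [mem_insert, mem_singleton] at this
      omega
    · rw [h] at h3
      have : (fs K).card ∈ Nat.divisors 125 := Nat.mem_divisors.mpr ⟨h3, by norm_num⟩
      have h2 : Nat.divisors 125 = {1, 5, 25, 125} := by decide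
      rw [h2] at this
      simp only [mem_insert, mem_singleton] at this
      omega
  rcases h4 with h4 | h4
  · have h5 : (R ∩ fs K).card ≤ 4 := by
      have : R ∩ fs K ⊆ (fs K).erase 0 := by
        intro x hx
        rw [mem_inter] at hx
        exact mem_erase.mpr ⟨fun h => h0 (h ▸ hx.1), hx.2⟩
      have := card_le_card this
      rw [card_erase_of_mem (mem_fs.mpr K.zero_mem), h4] at this
      omega
    have h6 : j ≤ (R \ fs K).card := by
      have := card_inter_add_card_sdiff R (fs K)
      omega
    obtain ⟨U, hU, hUc⟩ := exists_subset_card_eq h6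
    have h7 := KS hn K h4 U (fun x hx hxK => (mem_sdiff.mp (hU hx)).2 (mem_fs.mpr hxK))
    have h8 : SS U + fs K ⊆ SS R := by
      have : SS R = SS R + fs K := (add_fs_stab (SS R) K le_rfl).symm
      rw [this]
      apply add_subset_add_right
      exact SS_mono (hU.trans sdiff_subset)
    have h9 := card_le_card h8
    rw [hUc] at h7
    omega
  · omega

theorem left_ten (hodd : ∀ g : G, g + g = 0 → g = 0) (hn : Fintype.card G = 125)
    (R : Finset G) (h0 : (0 : G) ∉ R) (hR : R.card = 10) : 19 ≤ (SS R).card := by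
  by_cases hs : stab (SS R) = ⊥
  · obtain ⟨R₁, hR₁, hc, ha, hb⟩ := split hodd 5 R h0 hR
    obtain ⟨h1, h2⟩ := SS_aper hR₁ hs
    obtain ⟨-, h3⟩ := SS_aper (sdiff_subset (s := R) (t := R₁)) hs
    have h4 := anti_five hodd R₁ (fun h => h0 (hR₁ h)) ha hc h2
    have h5 := anti_five hodd (R \ R₁) (fun h => h0 (mem_sdiff.mp h).1) hb
      (by rw [card_sdiff_of_subset hR₁]; omega) h3
    omega
  · have := periodic_large (Or.inr hn) R h0 hs 3 (by omega) (by omega)
    omega

theorem left_six (hodd : ∀ g : G, g + g = 0 → g = 0) (hn : Fintype.card G = 25)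
    (R : Finset G) (h0 : (0 : G) ∉ R) (hR : R.card = 6) : 13 ≤ (SS R).card := by
  by_cases hs : stab (SS R) = ⊥
  · obtain ⟨R₁, hR₁, hc, ha, hb⟩ := split hodd 3 R h0 hR
    obtain ⟨h1, h2⟩ := SS_aper hR₁ hs
    have h4 := anti_three hodd R₁ (fun h => h0 (hR₁ h)) ha hc
    have h5 := anti_three hodd (R \ R₁) (fun h => h0 (mem_sdiff.mp h).1) hb
      (by rw [card_sdiff_of_subset hR₁]; omega)
    omega
  · have := periodic_large (Or.inl hn) R h0 hs 2 (by omega) (by omega)
    omega

theorem add_univ_of_card (X Y : Finset G) (h : Fintype.card G < X.card + Y.card) :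
    X + Y = univ := by
  apply eq_univ_of_forall
  intro g
  by_contra hg
  have hd : Disjoint X (Y.image (fun y => g - y)) := by
    rw [disjoint_left]
    intro x hx hx'
    rw [mem_image] at hx'
    obtain ⟨y, hy, rfl⟩ := hx'
    apply hg
    rw [mem_add]
    exact ⟨_, hx, y, hy, by simp⟩
  have h1 := card_le_univ (X ∪ Y.image (fun y => g - y))
  rw [card_union_of_disjoint hd, card_image_of_injective _ (sub_right_injective)] at h1
  omega

theorem full125 (hodd : ∀ g : G, g + g = 0 → g = 0) (hn : Fintype.card G = 125)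
    (S₀ : Finset G) (hS0 : (0 : G) ∉ S₀) (hs : 27 ≤ S₀.card)
    (hgen : ∀ K : AddSubgroup G, (fs K).card = 25 → (S₀ ∩ fs K).card ≤ 10) :
    SS S₀ = univ := by
  obtain ⟨S₁, hS₁, hc⟩ := exists_subset_card_eq hs
  obtain ⟨S, hS, hSc, hSb⟩ := process125 hodd hn S₁ (fun h => hS0 (hS₁ h)) hc (by
    intro K hK
    exact (card_le_card (inter_subset_inter_right hS₁)).trans (hgen K hK))
  have h1 := left_ten hodd hn S (fun h => hS0 (hS₁ (hS h))) hSc
  have h2 : SS S₁ = univ := by
    rw [SS_split hS]
    apply add_univ_of_card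
    omega
  apply eq_univ_of_forall
  intro g
  exact SS_mono hS₁ (h2 ▸ mem_univ g)

theorem full25 (hodd : ∀ g : G, g + g = 0 → g = 0) (hn : Fintype.card G = 25)
    (S₀ : Finset G) (hS0 : (0 : G) ∉ S₀) (hs : 11 ≤ S₀.card) :
    SS S₀ = univ := by
  obtain ⟨S₁, hS₁, hc⟩ := exists_subset_card_eq hs
  obtain ⟨S, hS, hSc, hSb⟩ := process25 hodd hn S₁ (fun h => hS0 (hS₁ h)) hc
  have h1 := left_six hodd hn S (fun h => hS0 (hS₁ (hS h))) hSc
  have h2 : SS S₁ = univ := by
    rw [SS_split hS]
    apply add_univ_of_card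
    omega
  apply eq_univ_of_forall
  intro g
  exact SS_mono hS₁ (h2 ▸ mem_univ g)

end Fin

end Pool.Agent.R98.CN
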