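import Mathlib
import Pool.Agent.R98.CNLeft

set_option autoImplicit false

namespace Pool.Agent.R98.CN

open Finset
open scoped Pointwise
open Pool.Agent.Helper450.Kneser (fs mem_fs fs_nonempty)

theorem four_sum' : ∀ a b c d r : ZMod 5, (a = 0 ∨ b = 0 ∨ c = 0 ∨ d = 0) ∨
    ∃ p q s t : Bool, (bif p then a else 0) + (bif q then b else 0) + (bif s then c else 0) +
      (bif t then d else 0) = r := by
  decide +kernel

theorem four_sum (a b c d r : ZMod 5) (ha : a ≠ 0) (hb : b ≠ 0) (hc : c ≠ 0) (hd : d ≠ 0) :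
    ∃ p q s t : Bool, (bif p then a else 0) + (bif q then b else 0) + (bif s then c else 0) +
      (bif t then d else 0) = r := by
  rcases four_sum' a b c d r with (h | h | h | h) | h
  · exact absurd h ha
  · exact absurd h hb
  · exact absurd h hc
  · exact absurd h hd
  · exact h

theorem three_sum' : ∀ a b c r : ZMod 5, (a = 0 ∨ b = 0 ∨ c = 0) ∨
    (∃ p q s : Bool, (bif p then a else 0) + (bif q then b else 0) + (bif s then c else 0) = r) ∨
    (b = a ∨ b = -a) ∧ (c = a ∨ c = -a) := by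
  decide +kernel

theorem three_sum (a b c r : ZMod 5) (ha : a ≠ 0) (hb : b ≠ 0) (hc : c ≠ 0)
    (h : ∀ p q s : Bool, (bif p then a else 0) + (bif q then b else 0) +
      (bif s then c else 0) ≠ r) :
    (b = a ∨ b = -a) ∧ (c = a ∨ c = -a) := by
  rcases three_sum' a b c r with (h' | h' | h') | ⟨p, q, s, h'⟩ | h'
  · exact absurd h' ha
  · exact absurd h' hb
  · exact absurd h' hc
  · exact absurd h' (h p q s)
  · exact h'

theorem three_miss : ∀ e a b c : ZMod 5, (a = e ∨ a = -e) → (b = e ∨ b = -e) →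
    (c = e ∨ c = -e) → ∃ r : ZMod 5, ∀ p q s : Bool,
      (bif p then a else 0) + (bif q then b else 0) + (bif s then c else 0) ≠ r := by
  decide +kernel

variable {G : Type*} [AddCommGroup G] [DecidableEq G] [Fintype G]

theorem odd_group (hn : Fintype.card G = 125 ∨ Fintype.card G = 25) :
    ∀ g : G, g + g = 0 → g = 0 := by
  intro g hg
  have h1 : Fintype.card G • g = 0 := card_nsmul_eq_zero
  rcases hn with h | h
  · rw [h] at h1
    have e : (125 : ℕ) • g = 62 • (g + g) + g := by
      rw [← two_nsmul, ← mul_nsmul', ← succ_nsmul]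
    rw [e, hg, smul_zero, zero_add] at h1
    exact h1
  · rw [h] at h1
    have e : (25 : ℕ) • g = 12 • (g + g) + g := by
      rw [← two_nsmul, ← mul_nsmul', ← succ_nsmul]
    rw [e, hg, smul_zero, zero_add] at h1
    exact h1

theorem exists_hom (hn : Fintype.card G = 125) (H : AddSubgroup G) (hH : Nat.card H = 25) :
    ∃ φ : G →+ ZMod 5, (∀ x, φ x = 0 ↔ x ∈ H) ∧ Function.Surjective φ := by
  have h1 := AddSubgroup.card_eq_card_quotient_mul_card_addSubgroup H
  rw [hH, Nat.card_eq_fintype_card, hn] at h1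
  have h2 : Nat.card (G ⧸ H) = 5 := by omega
  have : Fact (Nat.Prime 5) := ⟨by norm_num⟩
  have : IsAddCyclic (G ⧸ H) := isAddCyclic_of_prime_card h2
  have e : ZMod 5 ≃+ G ⧸ H := by
    have := zmodAddCyclicAddEquiv (G := G ⧸ H) inferInstance
    rwa [h2] at this
  refine ⟨e.symm.toAddMonoidHom.comp (QuotientAddGroup.mk' H), ?_, ?_⟩
  · intro x
    simp
  · intro r
    obtain ⟨g, hg⟩ := QuotientAddGroup.mk'_surjective H (e r)
    refine ⟨g, ?_⟩
    have h3 : (e.symm.toAddMonoidHom.comp (QuotientAddGroup.mk' H)) g =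
        e.symm (QuotientAddGroup.mk' H g) := rfl
    rw [h3, hg, AddEquiv.symm_apply_apply]

/-- Eleven nonzero elements in a subgroup of order 25 have every element of it as a subset sum. -/
theorem sub25 (K : AddSubgroup G) (hK : (fs K).card = 25) (A : Finset G)
    (hA : 11 ≤ ((A.erase 0) ∩ fs K).card) : ∀ g ∈ K, g ∈ SS (A ∩ fs K) := by
  classical
  intro g hg
  have hc : Fintype.card K = 25 := by
    rw [← Nat.card_eq_fintype_card, ← fs_card_eq K, hK]
  set S' : Finset K := univ.filter (fun k : K => (k : G) ∈ A.erase 0) with hS'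
  have him : S'.image (fun k : K => (k : G)) = (A.erase 0) ∩ fs K := by
    ext x
    rw [mem_image, mem_inter, mem_fs]
    constructor
    · rintro ⟨k, hk, rfl⟩
      rw [hS', mem_filter] at hk
      exact ⟨hk.2, k.2⟩
    · rintro ⟨h1, h2⟩
      exact ⟨⟨x, h2⟩, by rw [hS', mem_filter]; exact ⟨mem_univ _, h1⟩, rfl⟩
  have hcard : 11 ≤ S'.card := by
    rw [← card_image_of_injective S' (Subtype.val_injective), ]
    rw [him]
    exact hA
  have h0 : (0 : K) ∉ S' := by
    rw [hS', mem_filter]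
    intro h
    exact (mem_erase.mp h.2).1 rfl
  have hfull := full25 (G := K) (odd_group (Or.inr hc)) hc S' h0 hcard
  have hmem : (⟨g, hg⟩ : K) ∈ SS S' := by rw [hfull]; exact mem_univ _
  obtain ⟨V, hV, hsum⟩ := mem_SS.mp hmem
  apply mem_SS.mpr
  refine ⟨V.image (fun k : K => (k : G)), ?_, ?_⟩
  · intro x hx
    have : x ∈ S'.image (fun k : K => (k : G)) := image_subset_image hV hx
    rw [him, mem_inter] at this
    exact mem_inter.mpr ⟨mem_of_mem_erase this.1, this.2⟩
  · rw [sum_image (fun a _ b _ h => Subtype.val_injective h)]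
    have := congrArg (fun k : K => (k : G)) hsum
    simpa using this

theorem bif_mem {x : G} (p : Bool) : (bif p then x else 0) ∈ ({0, x} : Finset G) := by
  cases p <;> simp

theorem mem_pair_bif {x y : G} (h : y ∈ ({0, x} : Finset G)) : ∃ p : Bool, y = bif p then x else 0 := by
  rw [mem_insert, mem_singleton] at h
  rcases h with rfl | rfl
  · exact ⟨false, rfl⟩
  · exact ⟨true, rfl⟩

theorem phi_bif (φ : G →+ ZMod 5) (x : G) (p : Bool) :
    φ (bif p then x else 0) = bif p then φ x else 0 := by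
  cases p <;> simp

/-- The coset form. -/
def Coset (A : Finset G) : Prop :=
  ∃ (H : AddSubgroup G) (A₁ A₂ : Set G), Nat.card H * 5 = Nat.card G ∧
    (A : Set G) = (H : Set G) ∪ A₁ ∪ A₂ ∧
    ∃ a ∈ A, (∀ x ∈ A₁, x - a ∈ H) ∧ (∀ x ∈ A₂, x + a ∈ H)

theorem forward (hn : Fintype.card G = 125) (A : Finset G) (hA : A.card = 28)
    (hS : SS A ≠ univ) : Coset A := by
  have hodd := odd_group (G := G) (Or.inl hn)
  have h0 : (0 : G) ∉ A.erase 0 := notMem_erase 0 A
  have hcard : 27 ≤ (A.erase 0).card := by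
    have := pred_card_le_card_erase (s := A) (a := 0)
    omega
  have hex : ∃ K : AddSubgroup G, (fs K).card = 25 ∧ 11 ≤ ((A.erase 0) ∩ fs K).card := by
    by_contra hcon
    push Not at hcon
    apply hS
    have := full125 hodd hn (A.erase 0) h0 hcard (fun K hK => by have := hcon K hK; omega)
    apply eq_univ_of_forall
    intro g
    exact SS_mono (erase_subset 0 A) (this ▸ mem_univ g)
  obtain ⟨K, hK, hK11⟩ := hex
  have hsub := sub25 K hK A hK11
  obtain ⟨φ, hφ, hφs⟩ := exists_hom hn K (by rw [← fs_card_eq K, hK])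
  -- if the image of the outside sums hits `φ g` then `g` is a subset sum
  have hhit : ∀ (O : Finset G), O ⊆ A \ fs K → ∀ g : G, (∃ u ∈ SS O, φ u = φ g) → g ∈ SS A := by
    rintro O hO g ⟨u, hu, hug⟩
    have h1 : g - u ∈ K := by
      rw [← hφ, map_sub, hug, sub_self]
    have h2 := hsub _ h1
    have hd : Disjoint (A ∩ fs K) O := by
      rw [disjoint_left]
      intro x hx hx'
      exact (mem_sdiff.mp (hO hx')).2 (mem_inter.mp hx).2
    have h3 : g ∈ SS ((A ∩ fs K) ∪ O) := by
      rw [SS_union hd, mem_add]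
      exact ⟨g - u, h2, u, hu, by simp⟩
    exact SS_mono (union_subset inter_subset_left (hO.trans sdiff_subset)) h3
  have hout : ∀ x ∈ A \ fs K, φ x ≠ 0 := by
    intro x hx h
    exact (mem_sdiff.mp hx).2 (mem_fs.mpr ((hφ x).mp h))
  obtain ⟨g, hg⟩ : ∃ g, g ∉ SS A := by
    by_contra hcon
    push Not at hcon
    exact hS (eq_univ_of_forall hcon)
  have h3 : (A \ fs K).card ≤ 3 := by
    by_contra hcon
    push Not at hcon
    obtain ⟨O, hO, hOc⟩ := exists_subset_card_eq (s := A \ fs K) (n := 4) (by omega)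
    obtain ⟨x, y, z, w, hxy, hxz, hxw, hyz, hyw, hzw, rfl⟩ := card_eq_four.mp hOc
    obtain ⟨p, q, s, t, hsum⟩ := four_sum (φ x) (φ y) (φ z) (φ w) (φ g)
      (hout x (hO (by simp))) (hout y (hO (by simp))) (hout z (hO (by simp)))
      (hout w (hO (by simp)))
    apply hg
    apply hhit _ hO g
    refine ⟨(bif t then w else 0) + (bif s then z else 0) + (bif q then y else 0) +
      (bif p then x else 0), ?_, ?_⟩
    · rw [SS_insert (by simp [hxy, hxz, hxw]), SS_insert (by simp [hyz, hyw]),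
        SS_insert (by simp [hzw]), SS_singleton]
      exact add_mem_add (add_mem_add (add_mem_add (bif_mem t) (bif_mem s)) (bif_mem q)) (bif_mem p)
    · rw [← hsum]
      simp only [map_add, phi_bif]
      ring
  have h4 := card_inter_add_card_sdiff A (fs K)
  have h5 : A ∩ fs K = fs K := by
    apply eq_of_subset_of_card_le inter_subset_right
    omega
  have h6 : (A \ fs K).card = 3 := by rw [h5] at h4; omega
  obtain ⟨x, y, z, hxy, hxz, hyz, hO⟩ := card_eq_three.mp h6
  have mx : x ∈ A \ fs K := by rw [hO]; simp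
  have my : y ∈ A \ fs K := by rw [hO]; simp
  have mz : z ∈ A \ fs K := by rw [hO]; simp
  obtain ⟨hb, hc⟩ := three_sum (φ x) (φ y) (φ z) (φ g) (hout x mx) (hout y my) (hout z mz) (by
    intro p q s hsum
    apply hg
    apply hhit _ (subset_refl _) g
    refine ⟨(bif s then z else 0) + (bif q then y else 0) + (bif p then x else 0), ?_, ?_⟩
    · rw [hO, SS_insert (by simp [hxy, hxz]), SS_insert (by simp [hyz]), SS_singleton]
      exact add_mem_add (add_mem_add (bif_mem s) (bif_mem q)) (bif_mem p)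
    · rw [← hsum]
      simp only [map_add, phi_bif]
      ring)
  have hall : ∀ w ∈ A \ fs K, φ w = φ x ∨ φ w = -φ x := by
    intro w hw
    rw [hO, mem_insert, mem_insert, mem_singleton] at hw
    rcases hw with rfl | rfl | rfl
    · exact Or.inl rfl
    · exact hb
    · exact hc
  refine ⟨K, {w | w ∈ A ∧ φ w = φ x}, {w | w ∈ A ∧ φ w = -φ x}, ?_, ?_, x, (mem_sdiff.mp mx).1,
    ?_, ?_⟩
  · rw [← fs_card_eq K, hK, Nat.card_eq_fintype_card, hn]
  · ext w
    simp only [Set.mem_union, Set.mem_ofPred_eq, SetLike.mem_coe]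
    constructor
    · intro hw
      by_cases hwK : w ∈ K
      · exact Or.inl (Or.inl hwK)
      · rcases hall w (mem_sdiff.mpr ⟨hw, fun h => hwK (mem_fs.mp h)⟩) with h | h
        · exact Or.inl (Or.inr ⟨hw, h⟩)
        · exact Or.inr ⟨hw, h⟩
    · rintro ((hw | hw) | hw)
      · have : w ∈ A ∩ fs K := by rw [h5]; exact mem_fs.mpr hw
        exact (mem_inter.mp this).1
      · exact hw.1
      · exact hw.1
  · rintro w ⟨_, hw⟩
    rw [← hφ, map_sub, hw, sub_self]
  · rintro w ⟨_, hw⟩
    rw [← hφ, map_add, hw, neg_add_cancel]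

theorem backward (hn : Fintype.card G = 125) (A : Finset G) (hA : A.card = 28)
    (hC : Coset A) : SS A ≠ univ := by
  obtain ⟨H, A₁, A₂, hH, hAeq, a, ha, h1, h2⟩ := hC
  rw [Nat.card_eq_fintype_card (α := G), hn] at hH
  have hH25 : Nat.card H = 25 := by omega
  have hfs : (fs H).card = 25 := by rw [fs_card_eq H, hH25]
  obtain ⟨φ, hφ, hφs⟩ := exists_hom hn H hH25
  have hsub : fs H ⊆ A := by
    intro x hx
    have : x ∈ (A : Set G) := by
      rw [hAeq]
      exact Or.inl (Or.inl (mem_fs.mp hx))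
    exact this
  have hout : ∀ x ∈ A \ fs H, φ x = φ a ∨ φ x = -φ a := by
    intro x hx
    rw [mem_sdiff] at hx
    have hx' : x ∈ (A : Set G) := hx.1
    rw [hAeq] at hx'
    rcases hx' with (h | h) | h
    · exact absurd (mem_fs.mpr h) hx.2
    · left
      have := (hφ _).mpr (h1 x h)
      rw [map_sub] at this
      exact sub_eq_zero.mp this
    · right
      have := (hφ _).mpr (h2 x h)
      rw [map_add] at this
      exact eq_neg_of_add_eq_zero_left this
  have hc3 : (A \ fs H).card = 3 := by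
    rw [card_sdiff_of_subset hsub]; omega
  obtain ⟨x, y, z, hxy, hxz, hyz, hO⟩ := card_eq_three.mp hc3
  have mx : x ∈ A \ fs H := by rw [hO]; simp
  have my : y ∈ A \ fs H := by rw [hO]; simp
  have mz : z ∈ A \ fs H := by rw [hO]; simp
  obtain ⟨r, hr⟩ := three_miss (φ a) (φ x) (φ y) (φ z) (hout x mx) (hout y my) (hout z mz)
  obtain ⟨g, hg⟩ := hφs r
  intro hcon
  have hgS : g ∈ SS A := by rw [hcon]; exact mem_univ g
  have hsplit : SS A = SS (A ∩ fs H) + SS (A \ fs H) := by
    rw [← SS_union (disjoint_left.mpr fun w hw hw' => (mem_sdiff.mp hw').2 (mem_inter.mp hw).2)]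
    congr 1
    ext w
    simp only [mem_union, mem_inter, mem_sdiff]
    tauto
  rw [hsplit, mem_add] at hgS
  obtain ⟨u, hu, v, hv, huv⟩ := hgS
  have hu0 : φ u = 0 := by
    obtain ⟨V, hV, rfl⟩ := mem_SS.mp hu
    rw [map_sum]
    apply sum_eq_zero
    intro w hw
    exact (hφ w).mpr (mem_fs.mp (mem_inter.mp (hV hw)).2)
  rw [hO, SS_insert (by simp [hxy, hxz]), SS_insert (by simp [hyz]), SS_singleton] at hv
  rw [mem_add] at hv
  obtain ⟨v1, hv1, v2, hv2, rfl⟩ := hv
  rw [mem_add] at hv1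
  obtain ⟨v3, hv3, v4, hv4, rfl⟩ := hv1
  obtain ⟨p, rfl⟩ := mem_pair_bif hv2
  obtain ⟨q, rfl⟩ := mem_pair_bif hv4
  obtain ⟨s, rfl⟩ := mem_pair_bif hv3
  apply hr p q s
  rw [← hg, ← huv, map_add, hu0, zero_add]
  simp only [map_add, phi_bif]
  ring

end Pool.Agent.R98.CN
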