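import Pool.Agent.R98.Equi

/-!
# Packing progressions with prime differences: the chain lemma
-/

set_option autoImplicit false

open Finset

namespace Pool.Agent.R98

/-- The progressions `{d, 2d, ..., N d * d}`, `d ∈ S`, have pairwise disjoint translates
inside `[1, M]`. -/
def Packs (S : Finset ℕ) (N : ℕ → ℕ) (M : ℕ) : Prop :=
  ∃ s : ℕ → ℤ, (∀ d ∈ S, ∀ v ∈ Icc 1 (N d), 1 ≤ s d + v * d ∧ s d + v * d ≤ M) ∧
    ∀ d ∈ S, ∀ e ∈ S, d ≠ e → ∀ v ∈ Icc 1 (N d), ∀ w ∈ Icc 1 (N e),
      s d + v * d ≠ s e + w * e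

lemma Packs.mono {S : Finset ℕ} {N : ℕ → ℕ} {M M' : ℕ} (h : Packs S N M) (hM : M ≤ M') :
    Packs S N M' := by
  obtain ⟨s, h1, h2⟩ := h
  refine ⟨s, fun d hd v hv => ⟨(h1 d hd v hv).1, (h1 d hd v hv).2.trans ?_⟩, h2⟩
  exact_mod_cast hM

lemma Packs.subset {S S' : Finset ℕ} {N : ℕ → ℕ} {M : ℕ} (h : Packs S N M) (hS : S' ⊆ S) :
    Packs S' N M := by
  obtain ⟨s, h1, h2⟩ := h
  exact ⟨s, fun d hd => h1 d (hS hd), fun d hd e he => h2 d (hS hd) e (hS he)⟩

lemma packs_empty (N : ℕ → ℕ) : Packs ∅ N 0 := ⟨0, by simp, by simp⟩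

lemma Packs.union {S S' : Finset ℕ} {N : ℕ → ℕ} {M M' : ℕ} (h : Packs S N M)
    (h' : Packs S' N M') : Packs (S ∪ S') N (M + M') := by
  classical
  obtain ⟨s, h1, h2⟩ := h
  obtain ⟨s', h1', h2'⟩ := h'
  refine ⟨fun d => if d ∈ S then s d else M + s' d, ?_, ?_⟩
  · intro d hd v hv
    by_cases hdS : d ∈ S
    · simp only [hdS, if_true]
      have := h1 d hdS v hv
      push_cast
      constructor <;> omega
    · simp only [hdS, if_false]
      have hd' : d ∈ S' := by
        rcases Finset.mem_union.1 hd with h | h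
        · exact absurd h hdS
        · exact h
      have := h1' d hd' v hv
      push_cast
      constructor <;> omega
  · intro d hd e he hde v hv w hw
    by_cases hdS : d ∈ S
    · by_cases heS : e ∈ S
      · simp only [hdS, heS, if_true]
        exact h2 d hdS e heS hde v hv w hw
      · have he' : e ∈ S' := by
          rcases Finset.mem_union.1 he with h | h
          · exact absurd h heS
          · exact h
        simp only [hdS, heS, if_true, if_false]
        have := h1 d hdS v hv
        have := h1' e he' w hw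
        omega
    · have hd' : d ∈ S' := by
        rcases Finset.mem_union.1 hd with h | h
        · exact absurd h hdS
        · exact h
      by_cases heS : e ∈ S
      · simp only [hdS, heS, if_true, if_false]
        have := h1 e heS w hw
        have := h1' d hd' v hv
        omega
      · have he' : e ∈ S' := by
          rcases Finset.mem_union.1 he with h | h
          · exact absurd h heS
          · exact h
        simp only [hdS, heS, if_false]
        have := h2' d hd' e he' hde v hv w hw
        omega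

lemma packs_single {d : ℕ} (hd : 0 < d) (N : ℕ → ℕ) {L : ℕ} (hL : N d * d ≤ L) :
    Packs {d} N L := by
  refine ⟨0, ?_, ?_⟩
  · intro e he v hv
    rw [Finset.mem_singleton] at he
    subst he
    rw [Finset.mem_Icc] at hv
    have h1 : v * e ≤ L := (Nat.mul_le_mul_right _ hv.2).trans hL
    have h2 : 1 ≤ v * e := Nat.one_le_iff_ne_zero.2 (Nat.mul_ne_zero (by omega) (by omega))
    simp only [Pi.zero_apply, zero_add]
    constructor
    · exact_mod_cast h2
    · exact_mod_cast h1
  · intro e he f hf hef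
    rw [Finset.mem_singleton] at he hf
    exact absurd (he.trans hf.symm) hef

lemma packs_trivial {S : Finset ℕ} {N : ℕ → ℕ} {L : ℕ} (hS : ∀ d ∈ S, 0 < d)
    (hL : ∀ d ∈ S, N d * d ≤ L) : Packs S N (S.card * L) := by
  classical
  induction S using Finset.induction_on with
  | empty => simpa using packs_empty N
  | insert a S ha ih =>
    rw [Finset.card_insert_of_notMem ha]
    have h1 := ih (fun d hd => hS d (Finset.mem_insert_of_mem hd))
      (fun d hd => hL d (Finset.mem_insert_of_mem hd))
    have h2 := packs_single (hS a (Finset.mem_insert_self _ _)) N (hL a (Finset.mem_insert_self _ _))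
    have h3 := h2.union h1
    rw [Finset.insert_eq]
    refine h3.mono (le_of_eq ?_)
    ring

/-- the integer relation form -/
def rel {ι : Type} [Fintype ι] [DecidableEq ι] (q : ι → ℕ) (c : ι → ℤ) : ℤ :=
  ∑ j, c j * ∏ i ∈ univ.erase j, (q i : ℤ)

lemma rel_ne_zero {ι : Type} [Fintype ι] [DecidableEq ι] (q : ι → ℕ) (hq : ∀ j, (q j).Prime)
    (hinj : Function.Injective q) (c : ι → ℤ) (hc : ∀ j, |c j| < q j) (hc0 : c ≠ 0) :
    rel q c ≠ 0 := by
  obtain ⟨j, hj⟩ := Function.ne_iff.1 hc0
  simp only [Pi.zero_apply] at hj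
  intro h0
  have hpr : Prime (q j : ℤ) := Nat.prime_iff_prime_int.1 (hq j)
  have h1 : (q j : ℤ) ∣ c j * ∏ i ∈ univ.erase j, (q i : ℤ) := by
    have h2 : c j * ∏ i ∈ univ.erase j, (q i : ℤ)
        = - ∑ k ∈ univ.erase j, c k * ∏ i ∈ univ.erase k, (q i : ℤ) := by
      unfold rel at h0
      rw [← Finset.add_sum_erase _ _ (Finset.mem_univ j)] at h0
      linarith
    rw [h2]
    apply (dvd_neg).2
    apply Finset.dvd_sum
    intro k hk
    apply Dvd.dvd.mul_left
    apply Finset.dvd_prod_of_mem
    rw [Finset.mem_erase]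
    exact ⟨(Finset.mem_erase.1 hk).1.symm, Finset.mem_univ _⟩
  rcases hpr.dvd_or_dvd h1 with h2 | h2
  · have h3 := Int.le_of_dvd (abs_pos.2 hj) ((dvd_abs _ _).2 h2)
    have := hc j
    omega
  · obtain ⟨i, hi, hdvd⟩ := (Prime.dvd_finsetProd_iff hpr _).1 h2
    have h3 : q j ∣ q i := by exact_mod_cast hdvd
    have h4 : q j = q i := (Nat.prime_dvd_prime_iff_eq (hq j) (hq i)).1 h3
    exact (Finset.mem_erase.1 hi).1 (hinj h4).symm

lemma abs_rel_le {ι : Type} [Fintype ι] [DecidableEq ι] (q : ι → ℕ) (X H : ℕ)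
    (hq : ∀ j, q j ≤ X) (c : ι → ℤ) (hc : ∀ j, |c j| ≤ H) :
    |rel q c| ≤ (Fintype.card ι : ℤ) * (H * (X : ℤ) ^ (Fintype.card ι - 1)) := by
  unfold rel
  refine (Finset.abs_sum_le_sum_abs _ _).trans ?_
  have h1 : ∀ j ∈ (univ : Finset ι), |c j * ∏ i ∈ univ.erase j, (q i : ℤ)|
      ≤ H * (X : ℤ) ^ (Fintype.card ι - 1) := by
    intro j _
    rw [abs_mul]
    apply mul_le_mul (hc j) _ (abs_nonneg _) (by positivity)
    rw [Finset.abs_prod]
    calc ∏ i ∈ univ.erase j, |(q i : ℤ)| ≤ ∏ i ∈ univ.erase j, (X : ℤ) := by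
          apply Finset.prod_le_prod
          · intro i _; exact abs_nonneg _
          · intro i _
            rw [abs_of_nonneg (by positivity)]
            exact_mod_cast hq i
      _ = (X : ℤ) ^ (Fintype.card ι - 1) := by
          rw [Finset.prod_const, Finset.card_erase_of_mem (Finset.mem_univ j), Finset.card_univ]
  refine (Finset.sum_le_sum h1).trans (le_of_eq ?_)
  rw [Finset.sum_const, Finset.card_univ, nsmul_eq_mul]

lemma card_primes_dvd_lt (S : Finset ℕ) (X m : ℕ) (hS : ∀ p ∈ S, p.Prime ∧ X ≤ p) (r : ℤ)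
    (hr : r ≠ 0) (hX : |r| < (X : ℤ) ^ m) (hX1 : 1 ≤ X) :
    (S.filter (fun p : ℕ => (p : ℤ) ∣ r)).card < m := by
  by_contra hcon
  push Not at hcon
  have h1 : ∏ p ∈ S.filter (fun p : ℕ => (p : ℤ) ∣ r), p ∣ r.natAbs := by
    apply Finset.prod_primes_dvd
    · intro p hp
      exact (hS p (Finset.mem_filter.1 hp).1).1.prime
    · intro p hp
      exact Int.natCast_dvd.1 (Finset.mem_filter.1 hp).2
  have h2 : X ^ m ≤ ∏ p ∈ S.filter (fun p : ℕ => (p : ℤ) ∣ r), p := by
    calc X ^ m ≤ X ^ (S.filter (fun p : ℕ => (p : ℤ) ∣ r)).card := Nat.pow_le_pow_right hX1 hcon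
      _ = ∏ p ∈ S.filter (fun p : ℕ => (p : ℤ) ∣ r), X := by rw [Finset.prod_const]
      _ ≤ _ := Finset.prod_le_prod' fun p hp => (hS p (Finset.mem_filter.1 hp).1).2
  have h3 : ∏ p ∈ S.filter (fun p : ℕ => (p : ℤ) ∣ r), p ≤ r.natAbs :=
    Nat.le_of_dvd (Int.natAbs_pos.2 hr) h1
  have h4 : (X : ℤ) ^ m ≤ |r| := by
    rw [Int.abs_eq_natAbs]
    exact_mod_cast h2.trans h3
  omega

/-- the next progression can be placed -/
lemma step {ι : Type} [Fintype ι] [DecidableEq ι] {p : ℕ} (hp : p.Prime) (K H : ℕ) (hK : 1 ≤ K)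
    (hKp : K ≤ p) (hH : 1 ≤ H) (q : ι → ℕ) (hq : ∀ j, (q j).Prime)
    (hpq : ∀ j, q j ≠ p)
    (hrel : ∀ c : ι → ℤ, (∀ j, |c j| ≤ H) → c ≠ 0 → ¬ (p : ℤ) ∣ rel q c)
    (hineq : (Fintype.card ι : ℝ) * (p : ℝ) ^ 2 * ((p : ℝ) * K) ^ (Fintype.card ι - 1)
      < 2 * H * (K : ℝ) ^ (2 * Fintype.card ι))
    (N : ι → ℕ) (y : ι → ℤ) (I : ℤ)
    (hI : ∀ j, y j + N j * q j ≤ I + q j * ((p : ℤ) + 1 - 2 * K)) :
    ∃ x : ℤ, I ≤ x ∧ x < I + p ∧ ∀ j, ∀ u : ℕ, ∀ v : ℕ, v < N j → x + u * p ≠ y j + v * q j := by
  have : Fact p.Prime := ⟨hp⟩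
  have hqne : ∀ j, (q j : ZMod p) ≠ 0 := by
    intro j h0
    rw [ZMod.natCast_eq_zero_iff] at h0
    exact hpq j ((Nat.prime_dvd_prime_iff_eq hp (hq j)).1 h0).symm
  obtain ⟨r, hr⟩ := Equi.exists_residue (p := p) K H hK hKp hH (fun j => ((q j : ZMod p))⁻¹)
    (fun j => (N j : ZMod p) + (y j : ZMod p) * ((q j : ZMod p))⁻¹) (by
      intro c hc h0 j
      by_cases hc0 : c = 0
      · rw [hc0]; simp
      · exfalso
        apply hrel c hc hc0
        rw [← ZMod.intCast_zmod_eq_zero_iff_dvd]
        unfold rel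
        push_cast
        have h1 : ∀ j, (c j : ZMod p) * ∏ i ∈ univ.erase j, (q i : ZMod p)
            = (∏ i, (q i : ZMod p)) * ((c j : ZMod p) * ((q j : ZMod p))⁻¹) := by
          intro j
          rw [← Finset.mul_prod_erase _ _ (Finset.mem_univ j)]
          have := hqne j
          field_simp
        rw [Finset.sum_congr rfl (fun j _ => h1 j), ← Finset.mul_sum, h0, mul_zero]) hineq
  set z : ℤ := (r.val : ℤ) with hz
  have hzr : (z : ZMod p) = r := by
    rw [hz]
    push_cast
    exact ZMod.natCast_zmod_val r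
  have hp0 : (0 : ℤ) < p := by exact_mod_cast hp.pos
  refine ⟨I + (z - I) % p, ?_, ?_, ?_⟩
  · have := Int.emod_nonneg (z - I) hp0.ne'
    omega
  · have := Int.emod_lt_of_pos (z - I) hp0
    omega
  · intro j u v hv heq
    obtain ⟨w, hw, hlw⟩ := hr j
    have h1 : ((I + (z - I) % p + u * p : ℤ) : ZMod p) = r := by
      push_cast
      rw [ZMod.natCast_self, mul_zero, add_zero]
      rw [hzr]
      ring
    have h2 : (y j : ZMod p) + (v : ZMod p) * (q j : ZMod p) = r := by
      rw [← h1, heq]
      push_cast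
      ring
    have h3 : (v : ZMod p) = (N j : ZMod p) + (w : ZMod p) := by
      have h4 : ((q j : ZMod p))⁻¹ * r = (v : ZMod p) + (y j : ZMod p) * ((q j : ZMod p))⁻¹ := by
        rw [← h2]
        have := hqne j
        field_simp
        ring
      rw [h4] at hlw
      linear_combination hlw
    have h4 : (v : ℤ) ≡ (N j : ℤ) + w [ZMOD p] := by
      rw [← ZMod.intCast_eq_intCast_iff]
      push_cast
      exact h3
    have h5 : (p : ℤ) ∣ (N j : ℤ) + w - v := h4.dvd
    have h6 : (p : ℤ) ≤ (N j : ℤ) + w - v := by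
      apply Int.le_of_dvd _ h5
      have : (v : ℤ) < N j := by exact_mod_cast hv
      omega
    have h7 : (v : ℤ) ≤ N j + (2 * K - 2) - p := by
      have : (w : ℤ) + 2 ≤ 2 * K := by exact_mod_cast hw
      omega
    have h8 : I ≤ I + (z - I) % p + u * p := by
      have := Int.emod_nonneg (z - I) hp0.ne'
      have h9 : (0 : ℤ) ≤ u * p := by positivity
      omega
    rw [heq] at h8
    have h9 := hI j
    have hq0 : (0 : ℤ) < q j := by exact_mod_cast (hq j).pos
    have h10 : (v : ℤ) * q j ≤ (N j + (2 * K - 2) - p) * q j :=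
      mul_le_mul_of_nonneg_right h7 hq0.le
    nlinarith

/-- the number of primes that have a bad relation with the given ones -/
lemma card_bad_le {ι : Type} [Fintype ι] [DecidableEq ι] (S : Finset ℕ) (X₀ X₁ m H : ℕ)
    (hS : ∀ p ∈ S, p.Prime ∧ X₀ ≤ p) (hH : H < X₀) (q : ι → ℕ) (hq : ∀ j, (q j).Prime)
    (hinj : Function.Injective q) (hq0 : ∀ j, X₀ ≤ q j) (hq1 : ∀ j, q j ≤ X₁)
    (hcard : Fintype.card ι ≤ m) (hX : m * H * X₁ ^ (m - 1) < X₀ ^ m) (hX01 : X₀ ≤ X₁) :
    ∃ bad : Finset ℕ, bad.card ≤ (2 * H + 1) ^ m * m ∧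
      ∀ p ∈ S, p ∉ bad → ∀ c : ι → ℤ, (∀ j, |c j| ≤ H) → c ≠ 0 → ¬ (p : ℤ) ∣ rel q c := by
  classical
  refine ⟨(Fintype.piFinset (fun _ : ι => Icc (-(H : ℤ)) H)).biUnion
    (fun c => if c = 0 then ∅ else S.filter (fun p : ℕ => (p : ℤ) ∣ rel q c)), ?_, ?_⟩
  · calc _ ≤ ∑ c ∈ Fintype.piFinset (fun _ : ι => Icc (-(H : ℤ)) H), m := by
          refine Finset.card_biUnion_le.trans (Finset.sum_le_sum ?_)
          intro c hc
          split_ifs with h0
          · simp
          · rw [Fintype.mem_piFinset] at hc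
            have hc' : ∀ j, |c j| ≤ H := by
              intro j
              have := Finset.mem_Icc.1 (hc j)
              exact abs_le.2 this
            apply (card_primes_dvd_lt S X₀ m hS (rel q c) _ _ (by omega)).le
            · apply rel_ne_zero q hq hinj c _ h0
              intro j
              have h1 := hc' j
              have h2 := hq0 j
              have h3 : (H : ℤ) < q j := by exact_mod_cast (by omega : H < q j)
              omega
            · have h1 := abs_rel_le q X₁ H hq1 c hc'
              have h2 : (Fintype.card ι : ℤ) * (H * (X₁ : ℤ) ^ (Fintype.card ι - 1))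
                  ≤ (m : ℤ) * (H * (X₁ : ℤ) ^ (m - 1)) := by
                have h3 : Fintype.card ι * (H * X₁ ^ (Fintype.card ι - 1))
                    ≤ m * (H * X₁ ^ (m - 1)) := by
                  apply Nat.mul_le_mul hcard
                  apply Nat.mul_le_mul_left
                  apply Nat.pow_le_pow_right (by omega)
                  omega
                exact_mod_cast h3
              have h4 : (m : ℤ) * (H * (X₁ : ℤ) ^ (m - 1)) < (X₀ : ℤ) ^ m := by
                rw [← mul_assoc]
                exact_mod_cast hX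
              omega
      _ ≤ (2 * H + 1) ^ m * m := by
          rw [Finset.sum_const, smul_eq_mul, Fintype.card_piFinset, Finset.prod_const,
            Finset.card_univ]
          apply Nat.mul_le_mul_right
          have h1 : (Icc (-(H : ℤ)) H).card = 2 * H + 1 := by
            rw [Int.card_Icc]; omega
          rw [h1]
          apply Nat.pow_le_pow_right (by omega) hcard
  · intro p hp hbad c hc hc0 hdvd
    apply hbad
    rw [Finset.mem_biUnion]
    refine ⟨c, ?_, ?_⟩
    · rw [Fintype.mem_piFinset]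
      intro j
      rw [Finset.mem_Icc]
      exact abs_le.1 (hc j)
    · rw [if_neg hc0, Finset.mem_filter]
      exact ⟨hp, hdvd⟩

lemma packs_of_seq (S : Finset ℕ) (N : ℕ → ℕ) (Δ L k : ℕ) (hkS : k ≤ S.card)
    (hL : ∀ p ∈ S, N p * p ≤ L) (q : ℕ → ℕ) (x : ℕ → ℤ) (h1 : ∀ i < k, q i ∈ S)
    (h3 : ∀ i < k, (i : ℤ) * Δ ≤ x i ∧ x i < i * Δ + q i)
    (h4 : ∀ i < k, ∀ j < i, ∀ u < N (q i), ∀ v < N (q j),
        x i + (u : ℤ) * q i ≠ x j + (v : ℤ) * q j) :
    Packs ((range k).image q) N (S.card * Δ + L) := by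
  classical
  have hidx : ∀ d ∈ (range k).image q, ∃ i < k, q i = d := by
    intro d hd
    obtain ⟨i, hi, h⟩ := Finset.mem_image.1 hd
    exact ⟨i, Finset.mem_range.1 hi, h⟩
  choose! idx hidx1 hidx2 using hidx
  refine ⟨fun d => x (idx d) - d + 1, ?_, ?_⟩
  · intro d hd v hv
    have e1 := hidx1 d hd
    have e2 := hidx2 d hd
    have e3 := h3 _ e1
    rw [e2] at e3
    rw [Finset.mem_Icc] at hv
    have e4 : (N d : ℤ) * d ≤ L := by
      have := hL _ (h1 _ e1)
      rw [e2] at this
      exact_mod_cast this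
    have e5 : (v : ℤ) * d ≤ N d * d :=
      mul_le_mul_of_nonneg_right (by exact_mod_cast hv.2) (by positivity)
    have e6 : (1 : ℤ) * d ≤ v * d :=
      mul_le_mul_of_nonneg_right (by exact_mod_cast hv.1) (by positivity)
    have e7 : (0 : ℤ) ≤ (idx d : ℤ) * Δ := by positivity
    have e8 : (idx d : ℤ) * Δ ≤ S.card * Δ := by
      apply mul_le_mul_of_nonneg_right _ (by positivity)
      have : idx d ≤ S.card := by omega
      exact_mod_cast this
    constructor
    · linarith
    · push_cast
      linarith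
  · intro d hd e he hde v hv w hw heq
    have e1 := hidx1 d hd
    have e2 := hidx2 d hd
    have f1 := hidx1 e he
    have f2 := hidx2 e he
    rw [Finset.mem_Icc] at hv hw
    obtain ⟨v', rfl⟩ : ∃ v', v = v' + 1 := ⟨v - 1, by omega⟩
    obtain ⟨w', rfl⟩ : ∃ w', w = w' + 1 := ⟨w - 1, by omega⟩
    have hne : idx d ≠ idx e := by
      intro h
      apply hde
      rw [← e2, ← f2, h]
    push_cast at heq
    rcases Nat.lt_or_gt_of_ne hne with hlt | hlt
    · have := h4 (idx e) f1 (idx d) hlt w' (by rw [f2]; omega) v' (by rw [e2]; omega)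
      rw [e2, f2] at this
      apply this
      linarith
    · have := h4 (idx d) e1 (idx e) hlt v' (by rw [e2]; omega) w' (by rw [f2]; omega)
      rw [e2, f2] at this
      apply this
      linarith

/-- **The chain lemma.** -/
theorem chain (m G K X₀ X₁ H Δ L : ℕ) (N : ℕ → ℕ) (S : Finset ℕ)
    (hS : ∀ p ∈ S, p.Prime ∧ X₀ ≤ p ∧ p ≤ X₁) (hK : 1 ≤ K) (hKX : 2 * K ≤ X₀)
    (hG : X₁ ≤ G * K) (hH : m * G ^ (m + 1) ≤ H) (hH1 : 1 ≤ H) (hHX : H < X₀)
    (hX01 : X₀ ≤ X₁)
    (hX : m * H * X₁ ^ (m - 1) < X₀ ^ m) (hL : ∀ p ∈ S, N p * p ≤ L)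
    (hΔ : L ≤ Δ + X₀ * (X₀ - 2 * K)) (hmΔ : L ≤ (m + 1) * Δ) :
    Packs S N (S.card * Δ + ((2 * H + 1) ^ m * m + 1) * L) := by
  classical
  set B := (2 * H + 1) ^ m * m with hB
  -- the greedy construction
  have greedy : ∀ k, k ≤ S.card - B → ∃ (q : ℕ → ℕ) (x : ℕ → ℤ), (∀ i < k, q i ∈ S) ∧
      (∀ i < k, ∀ j < k, q i = q j → i = j) ∧
      (∀ i < k, (i : ℤ) * Δ ≤ x i ∧ x i < i * Δ + q i) ∧
      (∀ i < k, ∀ j < i, ∀ u < N (q i), ∀ v < N (q j),
        x i + (u : ℤ) * q i ≠ x j + (v : ℤ) * q j) := by
    intro k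
    induction k with
    | zero => intro _; exact ⟨0, 0, by simp, by simp, by simp, by simp⟩
    | succ k ih =>
      intro hk
      obtain ⟨q, x, h1, h2, h3, h4⟩ := ih (by omega)
      -- predecessors
      let ι := {i : ℕ // i ∈ Ico (k - m) k}
      have hcardι : Fintype.card ι = k - (k - m) := by
        rw [Fintype.card_coe, Nat.card_Ico]
      have hι : ∀ j : ι, (j : ℕ) < k := fun j => (Finset.mem_Ico.1 j.2).2
      have hinj : Function.Injective (fun j : ι => q j) := by
        intro a b hab
        exact Subtype.ext (h2 a (hι a) b (hι b) hab)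
      obtain ⟨bad, hbc, hbad⟩ := card_bad_le S X₀ X₁ m H (fun p hp => ⟨(hS p hp).1, (hS p hp).2.1⟩)
        hHX (fun j : ι => q j) (fun j => (hS _ (h1 j (hι j))).1) hinj
        (fun j => (hS _ (h1 j (hι j))).2.1) (fun j => (hS _ (h1 j (hι j))).2.2)
        (by rw [hcardι]; omega) hX hX01
      -- the remaining primes
      have hex : ∃ p ∈ S, p ∉ (range k).image q ∧ p ∉ bad := by
        by_contra hcon
        push Not at hcon
        have h5 : S ⊆ (range k).image q ∪ bad := by
          intro p hp
          rw [Finset.mem_union]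
          by_cases hpi : p ∈ (range k).image q
          · exact Or.inl hpi
          · exact Or.inr (hcon p hp hpi)
        have h6 := Finset.card_le_card h5
        have h7 := Finset.card_union_le ((range k).image q) bad
        have h8 : ((range k).image q).card ≤ k := by
          refine Finset.card_image_le.trans ?_
          rw [Finset.card_range]
        omega
      obtain ⟨p, hpS, hpi, hpb⟩ := hex
      have hpP := (hS p hpS).1
      have hp0 := (hS p hpS).2.1
      have hp1 := (hS p hpS).2.2
      have hKp : K ≤ p := by omega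
      have hpq : ∀ i < k, q i ≠ p := by
        intro i hi h
        apply hpi
        rw [Finset.mem_image]
        exact ⟨i, Finset.mem_range.2 hi, h⟩
      have hineq : (Fintype.card ι : ℝ) * (p : ℝ) ^ 2 * ((p : ℝ) * K) ^ (Fintype.card ι - 1)
          < 2 * H * (K : ℝ) ^ (2 * Fintype.card ι) := by
        have hcm : Fintype.card ι ≤ m := by rw [hcardι]; omega
        rcases Nat.eq_zero_or_pos (Fintype.card ι) with h0 | h0
        · rw [h0]
          simp only [Nat.cast_zero, zero_mul, mul_zero, pow_zero, mul_one]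
          have : (1 : ℝ) ≤ H := by exact_mod_cast hH1
          linarith
        · obtain ⟨c, hc⟩ : ∃ c, Fintype.card ι = c + 1 := ⟨Fintype.card ι - 1, by omega⟩
          have hmain : Fintype.card ι * p ^ 2 * (p * K) ^ (Fintype.card ι - 1)
              < 2 * H * K ^ (2 * Fintype.card ι) := by
            rw [hc, Nat.add_sub_cancel]
            have hGpos : 1 ≤ G := by
              rcases Nat.eq_zero_or_pos G with h | h
              · rw [h] at hG; omega
              · exact h
            calc (c + 1) * p ^ 2 * (p * K) ^ c = (c + 1) * p ^ (c + 2) * K ^ c := by ring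
              _ ≤ m * (G * K) ^ (c + 2) * K ^ c := by
                  apply Nat.mul_le_mul_right
                  apply Nat.mul_le_mul (by omega)
                  exact Nat.pow_le_pow_left (by omega) _
              _ = m * G ^ (c + 2) * K ^ (2 * (c + 1)) := by
                  rw [mul_pow]; ring
              _ ≤ m * G ^ (m + 1) * K ^ (2 * (c + 1)) := by
                  apply Nat.mul_le_mul_right
                  apply Nat.mul_le_mul_left
                  exact Nat.pow_le_pow_right hGpos (by omega)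
              _ ≤ H * K ^ (2 * (c + 1)) := Nat.mul_le_mul_right _ hH
              _ < 2 * H * K ^ (2 * (c + 1)) := by
                  apply Nat.mul_lt_mul_of_pos_right (by omega)
                  positivity
          exact_mod_cast hmain
      have hI : ∀ j : ι, x j + (N (q j) : ℤ) * q j
          ≤ (k * Δ : ℤ) + q j * ((p : ℤ) + 1 - 2 * K) := by
        intro j
        have h5 := (h3 j (hι j)).2
        have h6 : (N (q j) : ℤ) * q j ≤ L := by exact_mod_cast hL _ (h1 j (hι j))
        have h7 : ((j : ℕ) : ℤ) + 1 ≤ k := by exact_mod_cast hι j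
        have h8 : (X₀ : ℤ) ≤ q j := by exact_mod_cast (hS _ (h1 j (hι j))).2.1
        have h9 : (X₀ : ℤ) ≤ p := by exact_mod_cast hp0
        have h10 : (2 * K : ℤ) ≤ X₀ := by exact_mod_cast hKX
        have h11 : (L : ℤ) ≤ Δ + X₀ * (X₀ - 2 * K) := by
          have : ((X₀ - 2 * K : ℕ) : ℤ) = (X₀ : ℤ) - 2 * K := by
            push_cast [Nat.cast_sub hKX]; ring
          rw [← this]
          exact_mod_cast hΔ
        have h12 : (X₀ : ℤ) * (X₀ - 2 * K) ≤ q j * (p - 2 * K) := by
          apply mul_le_mul h8 (by omega) (by omega) (by positivity)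
        have h13 : ((j : ℕ) : ℤ) * Δ + Δ ≤ k * Δ := by
          have : (((j : ℕ) : ℤ) + 1) * Δ ≤ k * Δ := mul_le_mul_of_nonneg_right h7 (by positivity)
          linarith
        nlinarith
      obtain ⟨z, hz1, hz2, hz3⟩ := step hpP K H hK hKp hH1 (fun j : ι => q j)
        (fun j => (hS _ (h1 j (hι j))).1) (fun j => hpq j (hι j)) (hbad p hpS hpb) hineq
        (fun j => N (q j)) (fun j => x j) (k * Δ) hI
      refine ⟨Function.update q k p, Function.update x k z, ?_, ?_, ?_, ?_⟩
      · intro i hi
        by_cases hik : i = k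
        · subst hik; simpa using hpS
        · rw [Function.update_of_ne hik]; exact h1 i (by omega)
      · intro i hi j hj hij
        by_cases hik : i = k
        · by_cases hjk : j = k
          · omega
          · subst hik
            rw [Function.update_self, Function.update_of_ne hjk] at hij
            exact absurd hij.symm (hpq j (by omega))
        · by_cases hjk : j = k
          · subst hjk
            rw [Function.update_self, Function.update_of_ne hik] at hij
            exact absurd hij (hpq i (by omega))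
          · rw [Function.update_of_ne hjk, Function.update_of_ne hik] at hij
            exact h2 i (by omega) j (by omega) hij
      · intro i hi
        by_cases hik : i = k
        · subst hik
          rw [Function.update_self, Function.update_self]
          exact ⟨hz1, hz2⟩
        · rw [Function.update_of_ne hik, Function.update_of_ne hik]
          exact h3 i (by omega)
      · intro i hi j hj
        have hjk : j ≠ k := by omega
        rw [Function.update_of_ne hjk, Function.update_of_ne hjk]
        by_cases hik : i = k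
        · subst hik
          rw [Function.update_self, Function.update_self]
          intro u hu v hv
          by_cases hjm : j ∈ Ico (i - m) i
          · exact hz3 ⟨j, hjm⟩ u v hv
          · intro heq
            rw [Finset.mem_Ico] at hjm
            have h5 := (h3 j hj).2
            have h6 : (N (q j) : ℤ) * q j ≤ L := by exact_mod_cast hL _ (h1 j hj)
            have h7 : (v : ℤ) + 1 ≤ N (q j) := by exact_mod_cast hv
            have h8 : ((v : ℤ) + 1) * q j ≤ N (q j) * q j :=
              mul_le_mul_of_nonneg_right h7 (by positivity)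
            have h9 : (L : ℤ) ≤ (m + 1) * Δ := by exact_mod_cast hmΔ
            have h10 : ((j : ℤ) + m + 1) ≤ i := by
              have : j + m + 1 ≤ i := by omega
              exact_mod_cast this
            have h11 : ((j : ℤ) + m + 1) * Δ ≤ i * Δ :=
              mul_le_mul_of_nonneg_right h10 (by positivity)
            have h12 : (0 : ℤ) ≤ u * p := by positivity
            nlinarith
        · rw [Function.update_of_ne hik, Function.update_of_ne hik]
          exact h4 i (by omega) j hj
  obtain ⟨q, x, h1, h2, h3, h4⟩ := greedy (S.card - B) le_rfl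
  set k := S.card - B with hk
  -- the packed part
  have hpos : ∀ d ∈ S, 0 < d := fun d hd => (hS d hd).1.pos
  have hP1 : Packs ((range k).image q) N (S.card * Δ + L) :=
    packs_of_seq S N Δ L k (Nat.sub_le _ _) hL q x h1 h3 h4
  have hP2 : Packs (S \ (range k).image q) N (B * L) := by
    have h5 := packs_trivial (S := S \ (range k).image q) (N := N) (L := L)
      (fun d hd => hpos d (Finset.mem_sdiff.1 hd).1) (fun d hd => hL d (Finset.mem_sdiff.1 hd).1)
    refine h5.mono (Nat.mul_le_mul_right _ ?_)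
    have h6 : ((range k).image q).card = k := by
      rw [Finset.card_image_of_injOn, Finset.card_range]
      intro a ha b hb hab
      exact h2 a (by simpa using ha) b (by simpa using hb) hab
    have h7 : (range k).image q ⊆ S := by
      intro d hd
      obtain ⟨i, hi, h⟩ := Finset.mem_image.1 hd
      rw [← h]
      exact h1 i (Finset.mem_range.1 hi)
    rw [Finset.card_sdiff_of_subset h7, h6]
    omega
  have hP := hP1.union hP2
  have hsub : S ⊆ (range k).image q ∪ (S \ (range k).image q) := by
    intro d hd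
    by_cases h : d ∈ (range k).image q
    · exact Finset.mem_union_left _ h
    · exact Finset.mem_union_right _ (Finset.mem_sdiff.2 ⟨hd, h⟩)
  refine (hP.subset hsub).mono (le_of_eq ?_)
  ring

end Pool.Agent.R98
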