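import Mathlib

/-!
# Simultaneous dilates of a residue in short intervals

If `l 1, ..., l m ∈ ℤ/p` satisfy no nontrivial linear relation with coefficients bounded by `H`,
then some residue `r` has `l j * r` in a prescribed short interval for every `j`.
-/

set_option autoImplicit false

open Finset

namespace Pool.Agent.R98.Equi

variable {p : ℕ} [hp : Fact p.Prime]

/-- the additive character `x ↦ exp (2 π i x / p)` -/
noncomputable abbrev ψ (p : ℕ) [Fact p.Prime] : AddChar (ZMod p) ℂ := ZMod.stdAddChar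

lemma norm_psi (x : ZMod p) : ‖ψ p x‖ = 1 := by
  exact AddChar.norm_apply _ _

lemma psi_sum {ι : Type} (s : Finset ι) (f : ι → ZMod p) :
    ψ p (∑ j ∈ s, f j) = ∏ j ∈ s, ψ p (f j) := by
  classical
  induction s using Finset.induction_on with
  | empty => simp
  | insert a s ha ih => rw [Finset.sum_insert ha, Finset.prod_insert ha, AddChar.map_add_eq_mul, ih]

/-- exponential sum over an interval -/
noncomputable def D (K : ℕ) (c : ZMod p) : ℂ := ∑ u ∈ range K, ψ p (c * (u : ZMod p))

lemma sum_psi_mul (b : ZMod p) : ∑ x : ZMod p, ψ p (b * x) = if b = 0 then (p : ℂ) else 0 := by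
  have h := AddChar.sum_mulShift (R := ZMod p) (R' := ℂ) (ψ := ψ p) b
    (ZMod.isPrimitive_stdAddChar p)
  simp only [ZMod.card] at h
  have h2 : ∀ x : ZMod p, ψ p (b * x) = ψ p (x * b) := fun x => by rw [mul_comm]
  rw [Finset.sum_congr rfl (fun x _ => h2 x), h]
  split_ifs <;> simp

/-- Parseval: the second moment of `D` -/
lemma sum_norm_D_sq {K : ℕ} (hK : K ≤ p) : ∑ c : ZMod p, ‖D K c‖ ^ 2 = (p : ℝ) * K := by
  have h1 : ∀ c : ZMod p, ((‖D K c‖ ^ 2 : ℝ) : ℂ)
      = ∑ u ∈ range K, ∑ v ∈ range K, ψ p (((u : ZMod p) - (v : ZMod p)) * c) := by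
    intro c
    have : ((‖D K c‖ ^ 2 : ℝ) : ℂ) = D K c * (starRingEnd ℂ) (D K c) := by
      rw [Complex.mul_conj, Complex.normSq_eq_norm_sq]
    rw [this]
    unfold D
    rw [map_sum, Finset.sum_mul_sum]
    apply Finset.sum_congr rfl
    intro u _
    apply Finset.sum_congr rfl
    intro v _
    have h2 : (starRingEnd ℂ) (ψ p (c * (v : ZMod p))) = ψ p (-(c * (v : ZMod p))) := by
      rw [AddChar.map_neg_eq_conj]
    rw [h2, ← AddChar.map_add_eq_mul]
    congr 1
    ring
  have h3 : ((∑ c : ZMod p, ‖D K c‖ ^ 2 : ℝ) : ℂ) = (p : ℂ) * K := by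
    rw [Complex.ofReal_sum, Finset.sum_congr rfl (fun c _ => h1 c), Finset.sum_comm]
    have h4 : ∀ u ∈ range K, ∑ c : ZMod p, ∑ v ∈ range K,
        ψ p (((u : ZMod p) - (v : ZMod p)) * c) = p := by
      intro u hu
      rw [Finset.sum_comm]
      rw [Finset.sum_eq_single u]
      · rw [sum_psi_mul, if_pos (sub_self _)]
      · intro v hv hvu
        rw [sum_psi_mul, if_neg]
        intro h0
        have h5 : ((u : ℕ) : ZMod p) = ((v : ℕ) : ZMod p) := sub_eq_zero.1 h0
        rw [ZMod.natCast_eq_natCast_iff'] at h5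
        rw [Finset.mem_range] at hu hv
        rw [Nat.mod_eq_of_lt (by omega), Nat.mod_eq_of_lt (by omega)] at h5
        exact hvu h5.symm
      · intro h; exact absurd hu h
    rw [Finset.sum_congr rfl h4, Finset.sum_const, card_range, nsmul_eq_mul]
    ring
  have h4 : ((∑ c : ZMod p, ‖D K c‖ ^ 2 : ℝ) : ℂ) = (((p : ℝ) * K : ℝ) : ℂ) := by
    rw [h3]; push_cast; ring
  exact_mod_cast h4

/-- the bound `‖D K c‖ ≤ p / (2 |c|)` -/
lemma norm_D_le {K : ℕ} (c : ZMod p) :
    ‖D K c‖ * (2 * |(c.valMinAbs : ℝ)|) ≤ p := by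
  have hp0 : (0 : ℝ) < p := by exact_mod_cast hp.out.pos
  set z : ℂ := ψ p c with hz
  have hD : D K c = ∑ u ∈ range K, z ^ u := by
    unfold D
    apply Finset.sum_congr rfl
    intro u _
    rw [hz, ← AddChar.map_nsmul_eq_pow]
    congr 1
    rw [nsmul_eq_mul, mul_comm]
  have hmul : D K c * (z - 1) = z ^ K - 1 := by
    rw [hD]; exact geom_sum_mul z K
  have hn1 : ‖z ^ K - 1‖ ≤ 2 := by
    calc ‖z ^ K - 1‖ ≤ ‖z ^ K‖ + ‖(1 : ℂ)‖ := norm_sub_le _ _
      _ = 2 := by rw [norm_pow, hz, norm_psi]; norm_num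
  set t : ℝ := (c.valMinAbs : ℝ) with ht
  have hzt : z = Complex.exp (Complex.I * ((2 * Real.pi * t / p : ℝ) : ℂ)) := by
    have h1 : ((c.valMinAbs : ℤ) : ZMod p) = c := ZMod.coe_valMinAbs c
    rw [hz]
    conv_lhs => rw [← h1]
    rw [ψ, ZMod.stdAddChar_coe]
    congr 1
    rw [ht]
    push_cast
    ring
  have habs : |t| ≤ p / 2 := by
    have h1 := ZMod.natAbs_valMinAbs_le c
    have h2 : (c.valMinAbs.natAbs : ℝ) ≤ (p : ℝ) / 2 := by
      have : (c.valMinAbs.natAbs : ℝ) ≤ ((p / 2 : ℕ) : ℝ) := by exact_mod_cast h1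
      exact this.trans Nat.cast_div_le
    rw [ht]
    have h3 : (c.valMinAbs.natAbs : ℝ) = |(c.valMinAbs : ℝ)| := by
      rw [Nat.cast_natAbs]; push_cast; rfl
    rw [← h3]; exact h2
  have hsin : 4 * |t| / p ≤ ‖z - 1‖ := by
    rw [hzt, Complex.norm_exp_I_mul_ofReal_sub_one, Real.norm_eq_abs]
    have e1 : 2 * Real.pi * t / p / 2 = Real.pi * t / p := by ring
    rw [e1, abs_mul]
    have e2 : |Real.sin (Real.pi * t / p)| = Real.sin (Real.pi * |t| / p) := by
      rcases le_total 0 t with h | h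
      · rw [abs_of_nonneg h, abs_of_nonneg]
        apply Real.sin_nonneg_of_nonneg_of_le_pi
        · positivity
        · rw [abs_of_nonneg h] at habs
          rw [div_le_iff₀ hp0]
          nlinarith [Real.pi_pos]
      · rw [abs_of_nonpos h]
        have : Real.pi * t / p = -(Real.pi * (-t) / p) := by ring
        rw [this, Real.sin_neg, abs_neg, abs_of_nonneg]
        apply Real.sin_nonneg_of_nonneg_of_le_pi
        · have : 0 ≤ -t := by linarith
          positivity
        · rw [abs_of_nonpos h] at habs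
          rw [div_le_iff₀ hp0]
          nlinarith [Real.pi_pos]
    rw [e2]
    have e3 : 2 / Real.pi * (Real.pi * |t| / p) ≤ Real.sin (Real.pi * |t| / p) := by
      apply Real.mul_le_sin
      · positivity
      · rw [div_le_iff₀ hp0]
        nlinarith [Real.pi_pos]
    have e4 : 2 / Real.pi * (Real.pi * |t| / p) = 2 * |t| / p := by
      field_simp
    rw [e4] at e3
    have e5 : |(2 : ℝ)| = 2 := by norm_num
    rw [e5]
    calc 4 * |t| / p = 2 * (2 * |t| / p) := by ring
      _ ≤ _ := by linarith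
  have h1 : ‖D K c‖ * ‖z - 1‖ ≤ 2 := by
    rw [← norm_mul, hmul]; exact hn1
  have h2 : ‖D K c‖ * (4 * |t| / p) ≤ 2 := le_trans (mul_le_mul_of_nonneg_left hsin (norm_nonneg _)) h1
  have h3 : ‖D K c‖ * (2 * |t|) = ‖D K c‖ * (4 * |t| / p) * (p / 2) := by field_simp; ring
  rw [h3]
  nlinarith

lemma D_zero (K : ℕ) : D K (0 : ZMod p) = K := by
  unfold D
  simp

/-- the contribution of the large frequencies -/
lemma tail_le {K : ℕ} (H : ℕ) (hH : 1 ≤ H) :
    ∑ c ∈ univ.filter (fun c : ZMod p => H < c.valMinAbs.natAbs), ‖D K c‖ ^ 2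
      ≤ (p : ℝ) ^ 2 / (2 * H) := by
  classical
  have hp0 : (0 : ℝ) < p := by exact_mod_cast hp.out.pos
  have hH0 : (0 : ℝ) < H := by exact_mod_cast hH
  have hpt : ∀ c : ZMod p, H < c.valMinAbs.natAbs →
      ‖D K c‖ ^ 2 ≤ (p : ℝ) ^ 2 / 4 * (((c.valMinAbs.natAbs : ℕ) : ℝ) ^ 2)⁻¹ := by
    intro c hc
    have h1 := norm_D_le (K := K) c
    have h2 : (c.valMinAbs.natAbs : ℝ) = |(c.valMinAbs : ℝ)| := by
      rw [Nat.cast_natAbs]; push_cast; rfl
    rw [← h2] at h1
    have h3 : (0 : ℝ) < c.valMinAbs.natAbs := by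
      have : 0 < c.valMinAbs.natAbs := by omega
      exact_mod_cast this
    rw [← div_eq_mul_inv, le_div_iff₀ (by positivity)]
    have h4 : 0 ≤ ‖D K c‖ * (2 * (c.valMinAbs.natAbs : ℝ)) := by positivity
    nlinarith
  have hhalf : ∀ T : Finset (ZMod p), (∀ c ∈ T, H < c.valMinAbs.natAbs) →
      Set.InjOn (fun c : ZMod p => c.valMinAbs.natAbs) (T : Set (ZMod p)) →
      ∑ c ∈ T, ‖D K c‖ ^ 2 ≤ (p : ℝ) ^ 2 / 4 * (H : ℝ)⁻¹ := by
    intro T hT hinj
    calc ∑ c ∈ T, ‖D K c‖ ^ 2
        ≤ ∑ c ∈ T, (p : ℝ) ^ 2 / 4 * (((c.valMinAbs.natAbs : ℕ) : ℝ) ^ 2)⁻¹ :=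
          Finset.sum_le_sum fun c hc => hpt c (hT c hc)
      _ = ∑ t ∈ T.image (fun c : ZMod p => c.valMinAbs.natAbs),
            (p : ℝ) ^ 2 / 4 * ((t : ℝ) ^ 2)⁻¹ := by
          rw [Finset.sum_image hinj]
      _ ≤ ∑ t ∈ Ioc H (max H p), (p : ℝ) ^ 2 / 4 * ((t : ℝ) ^ 2)⁻¹ := by
          apply Finset.sum_le_sum_of_subset_of_nonneg
          · intro t ht
            obtain ⟨c, hc, rfl⟩ := Finset.mem_image.1 ht
            rw [Finset.mem_Ioc]
            refine ⟨hT c hc, le_max_of_le_right ?_⟩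
            have := ZMod.natAbs_valMinAbs_le c
            omega
          · intro t _ _
            positivity
      _ = (p : ℝ) ^ 2 / 4 * ∑ t ∈ Ioc H (max H p), ((t : ℝ) ^ 2)⁻¹ := by
          rw [Finset.mul_sum]
      _ ≤ (p : ℝ) ^ 2 / 4 * (H : ℝ)⁻¹ := by
          apply mul_le_mul_of_nonneg_left _ (by positivity)
          have h1 := sum_Ioc_inv_sq_le_sub (α := ℝ) (k := H) (n := max H p) (by omega)
            (le_max_left _ _)
          have h2 : (0 : ℝ) ≤ (((max H p : ℕ) : ℝ))⁻¹ := by positivity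
          linarith
  have hsplit : univ.filter (fun c : ZMod p => H < c.valMinAbs.natAbs)
      = univ.filter (fun c : ZMod p => H < c.valMinAbs.natAbs ∧ 0 ≤ c.valMinAbs) ∪
        univ.filter (fun c : ZMod p => H < c.valMinAbs.natAbs ∧ c.valMinAbs < 0) := by
    ext c
    simp only [Finset.mem_filter, Finset.mem_univ, true_and, Finset.mem_union]
    constructor
    · intro h
      rcases lt_or_ge c.valMinAbs 0 with h0 | h0
      · exact Or.inr ⟨h, h0⟩
      · exact Or.inl ⟨h, h0⟩
    · rintro (h | h) <;> exact h.1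
  have hdisj : Disjoint (univ.filter (fun c : ZMod p => H < c.valMinAbs.natAbs ∧ 0 ≤ c.valMinAbs))
      (univ.filter (fun c : ZMod p => H < c.valMinAbs.natAbs ∧ c.valMinAbs < 0)) := by
    rw [Finset.disjoint_left]
    intro c h1 h2
    simp only [Finset.mem_filter, Finset.mem_univ, true_and] at h1 h2
    omega
  rw [hsplit, Finset.sum_union hdisj]
  have h1 := hhalf (univ.filter (fun c : ZMod p => H < c.valMinAbs.natAbs ∧ 0 ≤ c.valMinAbs))
    (fun c hc => (Finset.mem_filter.1 hc).2.1) (by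
      intro a ha b hb hab
      simp only [Finset.coe_filter, Finset.mem_univ, true_and, Set.mem_ofPred_eq] at ha hb
      apply ZMod.injective_valMinAbs
      simp only at hab
      omega)
  have h2 := hhalf (univ.filter (fun c : ZMod p => H < c.valMinAbs.natAbs ∧ c.valMinAbs < 0))
    (fun c hc => (Finset.mem_filter.1 hc).2.1) (by
      intro a ha b hb hab
      simp only [Finset.coe_filter, Finset.mem_univ, true_and, Set.mem_ofPred_eq] at ha hb
      apply ZMod.injective_valMinAbs
      simp only at hab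
      omega)
  have h3 : (p : ℝ) ^ 2 / (2 * H) = (p : ℝ) ^ 2 / 4 * (H : ℝ)⁻¹ + (p : ℝ) ^ 2 / 4 * (H : ℝ)⁻¹ := by
    field_simp
    ring
  rw [h3]
  exact add_le_add h1 h2

/-- the number of representations, as a Fourier sum -/
lemma rep_sum (K : ℕ) (x : ZMod p) :
    ∑ c : ZMod p, ψ p (-(c * x)) * D K c ^ 2
      = ∑ u ∈ range K, ∑ v ∈ range K, if (u : ZMod p) + v - x = 0 then (p : ℂ) else 0 := by
  have h1 : ∀ c : ZMod p, ψ p (-(c * x)) * D K c ^ 2
      = ∑ u ∈ range K, ∑ v ∈ range K, ψ p (((u : ZMod p) + v - x) * c) := by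
    intro c
    rw [sq]
    unfold D
    rw [Finset.sum_mul_sum, Finset.mul_sum]
    apply Finset.sum_congr rfl
    intro u _
    rw [Finset.mul_sum]
    apply Finset.sum_congr rfl
    intro v _
    rw [← AddChar.map_add_eq_mul, ← AddChar.map_add_eq_mul]
    congr 1
    ring
  rw [Finset.sum_congr rfl (fun c _ => h1 c), Finset.sum_comm]
  apply Finset.sum_congr rfl
  intro u _
  rw [Finset.sum_comm]
  apply Finset.sum_congr rfl
  intro v _
  exact sum_psi_mul _

/-- **Simultaneous dilates in short intervals.** -/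
theorem exists_residue {ι : Type} [Fintype ι] [DecidableEq ι] (K H : ℕ) (hK : 1 ≤ K) (hKp : K ≤ p)
    (hH : 1 ≤ H) (l α : ι → ZMod p)
    (hrel : ∀ c : ι → ℤ, (∀ j, |c j| ≤ H) → ∑ j, (c j : ZMod p) * l j = 0 → ∀ j, (c j : ZMod p) = 0)
    (hineq : (Fintype.card ι : ℝ) * (p : ℝ) ^ 2 * ((p : ℝ) * K) ^ (Fintype.card ι - 1)
      < 2 * H * (K : ℝ) ^ (2 * Fintype.card ι)) :
    ∃ r : ZMod p, ∀ j, ∃ w : ℕ, w + 2 ≤ 2 * K ∧ l j * r = α j + w := by
  classical
  by_contra hcon
  push Not at hcon
  have hp0 : (0 : ℝ) < p := by exact_mod_cast hp.out.pos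
  have hH0 : (0 : ℝ) < H := by exact_mod_cast hH
  -- the Fourier identity
  have key : ∑ c : ι → ZMod p, (∏ j, ψ p (c j * α j) * D K (c j) ^ 2) *
      (if ∑ j, c j * l j = 0 then (p : ℂ) else 0) = 0 := by
    have h1 : ∑ r : ZMod p, ∏ j, ∑ c : ZMod p, ψ p (-(c * (l j * r - α j))) * D K c ^ 2 = 0 := by
      apply Finset.sum_eq_zero
      intro r _
      obtain ⟨j, hj⟩ := hcon r
      apply Finset.prod_eq_zero (Finset.mem_univ j)
      rw [rep_sum]
      apply Finset.sum_eq_zero
      intro u hu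
      apply Finset.sum_eq_zero
      intro v hv
      rw [if_neg]
      intro h0
      rw [Finset.mem_range] at hu hv
      apply hj (u + v) (by omega)
      have h2 : (u : ZMod p) + v = l j * r - α j := sub_eq_zero.1 h0
      push_cast
      rw [h2]
      ring
    refine Eq.trans ?_ h1
    have h2 : ∀ r : ZMod p, ∏ j, ∑ c : ZMod p, ψ p (-(c * (l j * r - α j))) * D K c ^ 2
        = ∑ c : ι → ZMod p, ∏ j, (ψ p (-(c j * (l j * r - α j))) * D K (c j) ^ 2) := by
      intro r
      rw [Finset.prod_univ_sum, Fintype.piFinset_univ]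
    rw [Finset.sum_congr rfl (fun r _ => h2 r), Finset.sum_comm]
    apply Finset.sum_congr rfl
    intro c _
    have h3 : ∀ r : ZMod p, ∏ j, (ψ p (-(c j * (l j * r - α j))) * D K (c j) ^ 2)
        = (∏ j, ψ p (c j * α j) * D K (c j) ^ 2) * ψ p ((-∑ j, c j * l j) * r) := by
      intro r
      have h4 : ∀ j, ψ p (-(c j * (l j * r - α j))) * D K (c j) ^ 2
          = (ψ p (c j * α j) * D K (c j) ^ 2) * ψ p (-(c j * l j) * r) := by
        intro j
        have : -(c j * (l j * r - α j)) = c j * α j + -(c j * l j) * r := by ring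
        rw [this, AddChar.map_add_eq_mul]
        ring
      rw [Finset.prod_congr rfl (fun j _ => h4 j), Finset.prod_mul_distrib]
      congr 1
      rw [← psi_sum]
      congr 1
      rw [neg_mul, Finset.sum_mul, ← Finset.sum_neg_distrib]
      apply Finset.sum_congr rfl
      intro j _
      ring
    rw [Finset.sum_congr rfl (fun r _ => h3 r), ← Finset.mul_sum, sum_psi_mul]
    congr 1
    simp only [neg_eq_zero]
  -- isolate the zero frequency
  have hzero : (∏ j : ι, ψ p ((0 : ι → ZMod p) j * α j) * D K ((0 : ι → ZMod p) j) ^ 2) *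
      (if ∑ j, (0 : ι → ZMod p) j * l j = 0 then (p : ℂ) else 0)
      = (K : ℂ) ^ (2 * Fintype.card ι) * p := by
    simp only [Pi.zero_apply, zero_mul, AddChar.map_zero_eq_one, one_mul, D_zero,
      Finset.sum_const_zero, if_true, Finset.prod_const, Finset.card_univ]
    rw [← pow_mul]
  rw [← Finset.add_sum_erase _ _ (Finset.mem_univ (0 : ι → ZMod p)), hzero] at key
  have hnorm : (K : ℝ) ^ (2 * Fintype.card ι) * p
      ≤ ∑ c ∈ univ.erase (0 : ι → ZMod p), ‖(∏ j, ψ p (c j * α j) * D K (c j) ^ 2) *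
      (if ∑ j, c j * l j = 0 then (p : ℂ) else 0)‖ := by
    have h1 : ‖(K : ℂ) ^ (2 * Fintype.card ι) * p‖ = (K : ℝ) ^ (2 * Fintype.card ι) * p := by
      rw [norm_mul, norm_pow]
      simp
    rw [← h1, eq_neg_of_add_eq_zero_left key, norm_neg]
    exact norm_sum_le _ _
  -- bound the other terms
  have hbound : ∀ c ∈ univ.erase (0 : ι → ZMod p),
      ‖(∏ j, ψ p (c j * α j) * D K (c j) ^ 2) * (if ∑ j, c j * l j = 0 then (p : ℂ) else 0)‖
      ≤ ∑ j : ι, if H < (c j).valMinAbs.natAbs then (p : ℝ) * ∏ i, ‖D K (c i)‖ ^ 2 else 0 := by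
    intro c hc
    have hnn : ∀ j ∈ (univ : Finset ι), (0 : ℝ) ≤
        if H < (c j).valMinAbs.natAbs then (p : ℝ) * ∏ i, ‖D K (c i)‖ ^ 2 else 0 := by
      intro j _
      split_ifs
      · positivity
      · exact le_rfl
    by_cases hr : ∑ j, c j * l j = 0
    · rw [if_pos hr]
      have hex : ∃ j, H < (c j).valMinAbs.natAbs := by
        by_contra hno
        push Not at hno
        have hz : ∀ j, c j = 0 := by
          intro j
          have := hrel (fun j => (c j).valMinAbs) (by
            intro i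
            have h1 := hno i
            rw [Int.abs_eq_natAbs]
            exact_mod_cast h1) (by
            simp only [ZMod.coe_valMinAbs]
            exact hr) j
          rwa [ZMod.coe_valMinAbs] at this
        exact (Finset.mem_erase.1 hc).1 (funext hz)
      obtain ⟨j, hj⟩ := hex
      refine le_trans (le_of_eq ?_) (Finset.single_le_sum hnn (Finset.mem_univ j))
      rw [if_pos hj, norm_mul, norm_prod, mul_comm]
      congr 1
      · simp
      · apply Finset.prod_congr rfl
        intro i _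
        rw [norm_mul, norm_psi, one_mul, norm_pow]
    · rw [if_neg hr, mul_zero, norm_zero]
      exact Finset.sum_nonneg hnn
  have hsum := hnorm.trans (Finset.sum_le_sum hbound)
  rw [Finset.sum_comm] at hsum
  have hj : ∀ j : ι, ∑ c ∈ univ.erase (0 : ι → ZMod p),
      (if H < (c j).valMinAbs.natAbs then (p : ℝ) * ∏ i, ‖D K (c i)‖ ^ 2 else 0)
      ≤ p * ((p : ℝ) ^ 2 / (2 * H) * ((p : ℝ) * K) ^ (Fintype.card ι - 1)) := by
    intro j
    calc ∑ c ∈ univ.erase (0 : ι → ZMod p),
          (if H < (c j).valMinAbs.natAbs then (p : ℝ) * ∏ i, ‖D K (c i)‖ ^ 2 else 0)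
        ≤ ∑ c : ι → ZMod p,
          (if H < (c j).valMinAbs.natAbs then (p : ℝ) * ∏ i, ‖D K (c i)‖ ^ 2 else 0) := by
          apply Finset.sum_le_sum_of_subset_of_nonneg (Finset.erase_subset _ _)
          intro c _ _
          split_ifs
          · positivity
          · exact le_rfl
      _ = p * ∑ c : ι → ZMod p, ∏ i, (if i = j then
            (if H < (c i).valMinAbs.natAbs then ‖D K (c i)‖ ^ 2 else 0) else ‖D K (c i)‖ ^ 2) := by
          rw [Finset.mul_sum]
          apply Finset.sum_congr rfl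
          intro c _
          split_ifs with h
          · congr 1
            apply Finset.prod_congr rfl
            intro i _
            by_cases hij : i = j
            · subst hij
              rw [if_pos rfl, if_pos h]
            · rw [if_neg hij]
          · symm
            rw [mul_eq_zero]
            right
            apply Finset.prod_eq_zero (Finset.mem_univ j)
            rw [if_pos rfl, if_neg h]
      _ = p * ∏ i, ∑ c : ZMod p, (if i = j then
            (if H < c.valMinAbs.natAbs then ‖D K c‖ ^ 2 else 0) else ‖D K c‖ ^ 2) := by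
          congr 1
          rw [Finset.prod_univ_sum, Fintype.piFinset_univ]
      _ = p * ((∑ c : ZMod p, (if H < c.valMinAbs.natAbs then ‖D K c‖ ^ 2 else 0)) *
            ∏ i ∈ univ.erase j, ∑ c : ZMod p, ‖D K c‖ ^ 2) := by
          congr 1
          rw [← Finset.mul_prod_erase _ _ (Finset.mem_univ j)]
          congr 1
          · simp
          · apply Finset.prod_congr rfl
            intro i hi
            apply Finset.sum_congr rfl
            intro c _
            rw [if_neg (Finset.mem_erase.1 hi).1]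
      _ ≤ p * ((p : ℝ) ^ 2 / (2 * H) * ((p : ℝ) * K) ^ (Fintype.card ι - 1)) := by
          apply mul_le_mul_of_nonneg_left _ hp0.le
          rw [Finset.prod_const, Finset.card_erase_of_mem (Finset.mem_univ j), Finset.card_univ,
            sum_norm_D_sq hKp, ← Finset.sum_filter]
          apply mul_le_mul_of_nonneg_right (tail_le H hH)
          positivity
  have hfin := hsum.trans (Finset.sum_le_sum fun j _ => hj j)
  rw [Finset.sum_const, nsmul_eq_mul, Finset.card_univ] at hfin
  have h5 : (K : ℝ) ^ (2 * Fintype.card ι) * p * (2 * H)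
      ≤ (Fintype.card ι : ℝ) * (p : ℝ) ^ 2 * ((p : ℝ) * K) ^ (Fintype.card ι - 1) * p := by
    calc (K : ℝ) ^ (2 * Fintype.card ι) * p * (2 * H)
        ≤ (Fintype.card ι * (p * ((p : ℝ) ^ 2 / (2 * H) *
          ((p : ℝ) * K) ^ (Fintype.card ι - 1)))) * (2 * H) :=
          mul_le_mul_of_nonneg_right hfin (by positivity)
      _ = _ := by field_simp
  nlinarith

end Pool.Agent.R98.Equi
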