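import Pool.Agent.R98.Gap

/-!
# Even differences between odd primes

The key inequality for packings of the progressions `{d, 2d, ..., nd}`, `d = 1, ..., n`.
-/

set_option autoImplicit false

open Finset

namespace Pool.Agent.R98.EvenGap

open Pool.Agent.R98

/-- disjointness of the progressions with starting points `y` -/
def Dis (n : ℕ) (y : ℕ → ℤ) : Prop :=
  ∀ d e : ℕ, 1 ≤ d → d ≤ n → 1 ≤ e → e ≤ n → d ≠ e → ∀ u < n, ∀ v < n,
    y d + (u : ℤ) * d ≠ y e + (v : ℤ) * e

lemma gap {n : ℕ} {y : ℕ → ℤ} (h : Dis n y) {d e : ℕ} (hd : 1 ≤ d) (hdn : d + 1 ≤ n)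
    (he : 1 ≤ e) (hen : e + 1 ≤ n) (hco : d.Coprime e) (hne : d ≠ e) (hlt : y d < y e) :
    ((n : ℤ) - 1) * d - d * e ≤ y e - y d := by
  rcases crt_gap hco hd he (y d) (y e) hlt.le n n
    (h d e hd (by omega) he (by omega) hne) with h1 | h1
  · linarith
  · have h2 : (d : ℤ) + 1 ≤ n := by exact_mod_cast hdn
    have h3 : (1 : ℤ) ≤ e := by exact_mod_cast he
    nlinarith

lemma gap_even {n : ℕ} {y : ℕ → ℤ} (h : Dis n y) {w w' : ℕ} (hw : 1 ≤ w) (hwn : 2 * w + 1 ≤ n)
    (hw' : 1 ≤ w') (hwn' : 2 * w' + 1 ≤ n) (hco : w.Coprime w') (hne : w ≠ w')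
    (hpar : (2 : ℤ) ∣ y (2 * w') - y (2 * w)) (hlt : y (2 * w) < y (2 * w')) :
    2 * (((n : ℤ) - 1) * w - w * w') ≤ y (2 * w') - y (2 * w) := by
  obtain ⟨t, ht⟩ := hpar
  have ht0 : 0 < t := by omega
  rcases crt_gap hco hw hw' 0 t ht0.le n n (by
    intro u hu v hv heq
    apply h (2 * w) (2 * w') (by omega) (by omega) (by omega) (by omega) (by omega) u hu v hv
    push_cast
    linarith) with h1 | h1
  · linarith
  · have h2 : (w : ℤ) + 1 ≤ n := by exact_mod_cast (by omega : w + 1 ≤ n)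
    have h3 : (1 : ℤ) ≤ w' := by exact_mod_cast hw'
    nlinarith

/-- separated points in an interval -/
lemma sep_card (S : Finset ℕ) (z : ℕ → ℤ) (σ a b : ℤ) (hab : a ≤ b) (hσ : 0 ≤ σ)
    (hinj : Set.InjOn z (S : Set ℕ))
    (hsep : ∀ p ∈ S, ∀ q ∈ S, z p < z q → σ ≤ z q - z p)
    (hmem : ∀ p ∈ S, a ≤ z p ∧ z p ≤ b) : ((S.card : ℤ) - 1) * σ ≤ b - a := by
  obtain ⟨q, hqP, hmono, _⟩ := exists_enum S z hinj
  rcases Nat.eq_zero_or_pos S.card with h0 | h0
  · rw [h0]
    push_cast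
    linarith
  · obtain ⟨r, hr⟩ : ∃ r, S.card = r + 1 := ⟨S.card - 1, by omega⟩
    have h1 : ∑ i ∈ range r, (z (q (i + 1)) - z (q i)) = z (q r) - z (q 0) :=
      Finset.sum_range_sub (fun i => z (q i)) r
    have h2 : ∑ i ∈ range r, σ ≤ ∑ i ∈ range r, (z (q (i + 1)) - z (q i)) := by
      apply Finset.sum_le_sum
      intro i hi
      rw [Finset.mem_range] at hi
      exact hsep _ (hqP i (by omega)) _ (hqP (i + 1) (by omega))
        (hmono i (i + 1) (by omega) (by omega))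
    rw [Finset.sum_const, Finset.card_range, nsmul_eq_mul, h1] at h2
    have h3 := hmem _ (hqP r (by omega))
    have h4 := hmem _ (hqP 0 (by omega))
    rw [hr]
    push_cast
    linarith

/-- a gap between two odd primes that contains an even difference -/
lemma claimB {n : ℕ} {y : ℕ → ℤ} (h : Dis n y) (hn : 100 ≤ n) {q q' w : ℕ} (hq : q.Prime)
    (hq2 : 3 ≤ q) (hqn : q + 1 ≤ n) (hq' : q'.Prime) (hq2' : 3 ≤ q') (hqn' : q' + 1 ≤ n)
    (hw : w.Prime) (hw1 : n < 8 * w) (hw2 : 4 * w ≤ n) (hne : w ≠ q) (hne' : w ≠ q')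
    (h1 : y q < y (2 * w)) (h2 : y (2 * w) < y q') :
    (n : ℤ) ^ 2 ≤ 32 * (2 * (y q' - y q) - 2 * ((n : ℤ) - 1) * q + (q : ℤ) ^ 2 + (q' : ℤ) ^ 2) := by
  have hc : ∀ p : ℕ, p.Prime → 3 ≤ p → w ≠ p → p.Coprime (2 * w) := by
    intro p hp hp3 hwp
    apply Nat.Coprime.mul_right
    · exact (Nat.coprime_primes hp Nat.prime_two).2 (by omega)
    · exact (Nat.coprime_primes hp hw).2 hwp.symm
  have g1 := gap h (d := q) (e := 2 * w) (by omega) hqn (by omega) (by omega) (hc q hq hq2 hne)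
    (by
      intro h0
      rw [h0] at hq
      exact absurd hq (by
        intro hp
        have := (Nat.prime_mul_iff.1 hp)
        have := hw.one_lt
        omega)) h1
  have g2 := gap h (d := 2 * w) (e := q') (by omega) (by omega) (by omega) hqn'
    (hc q' hq' hq2' hne').symm (by
      intro h0
      rw [← h0] at hq'
      exact absurd hq' (by
        intro hp
        have := (Nat.prime_mul_iff.1 hp)
        have := hw.one_lt
        omega)) h2
  push_cast at g1 g2
  have e1 : (n : ℤ) < 8 * w := by exact_mod_cast hw1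
  have e2 : 4 * (w : ℤ) ≤ n := by exact_mod_cast hw2
  have e3 : (100 : ℤ) ≤ n := by exact_mod_cast hn
  have e4 : 0 ≤ ((q : ℤ) - 2 * w) ^ 2 := sq_nonneg _
  have e5 : 0 ≤ ((q' : ℤ) - 2 * w) ^ 2 := sq_nonneg _
  have e6 : 4 * (w : ℤ) * ((n : ℤ) - 1 - 2 * w)
      ≤ 2 * (y q' - y q) - 2 * ((n : ℤ) - 1) * q + (q : ℤ) ^ 2 + (q' : ℤ) ^ 2 := by nlinarith
  have e7 : (n : ℤ) * (n - 2) ≤ 4 * (4 * (w : ℤ) * ((n : ℤ) - 1 - 2 * w)) := by
    have : (n : ℤ) * (n - 2) ≤ (8 * w) * (2 * ((n : ℤ) - 1 - 2 * w)) := by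
      apply mul_le_mul e1.le (by linarith) (by linarith) (by positivity)
    linarith
  nlinarith

/-- two consecutive gaps around `w` that contain the difference `2 w` -/
lemma claimC {n : ℕ} {y : ℕ → ℤ} (h : Dis n y) (hn : 100 ≤ n) {a b w : ℕ} (ha : a.Prime)
    (ha2 : 3 ≤ a) (han : a + 1 ≤ n) (hb : b.Prime) (hb2 : 3 ≤ b) (hbn : b + 1 ≤ n)
    (hw : w.Prime) (hw1 : n < 8 * w) (hw2 : 4 * w ≤ n) (hne : w ≠ a) (hne' : w ≠ b)
    (h1 : y a < y (2 * w)) (h2 : y (2 * w) < y b) :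
    (n : ℤ) ^ 2 ≤ 32 * ((2 * (y w - y a) - 2 * ((n : ℤ) - 1) * a + (a : ℤ) ^ 2 + (w : ℤ) ^ 2)
      + (2 * (y b - y w) - 2 * ((n : ℤ) - 1) * w + (w : ℤ) ^ 2 + (b : ℤ) ^ 2)) := by
  have hc : ∀ p : ℕ, p.Prime → 3 ≤ p → w ≠ p → p.Coprime (2 * w) := by
    intro p hp hp3 hwp
    apply Nat.Coprime.mul_right
    · exact (Nat.coprime_primes hp Nat.prime_two).2 (by omega)
    · exact (Nat.coprime_primes hp hw).2 hwp.symm
  have g1 := gap h (d := a) (e := 2 * w) (by omega) han (by omega) (by omega) (hc a ha ha2 hne)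
    (by
      intro h0
      rw [h0] at ha
      exact absurd ha (by
        intro hp
        have := (Nat.prime_mul_iff.1 hp)
        have := hw.one_lt
        omega)) h1
  have g2 := gap h (d := 2 * w) (e := b) (by omega) (by omega) (by omega) hbn
    (hc b hb hb2 hne').symm (by
      intro h0
      rw [← h0] at hb
      exact absurd hb (by
        intro hp
        have := (Nat.prime_mul_iff.1 hp)
        have := hw.one_lt
        omega)) h2
  push_cast at g1 g2
  have e1 : (n : ℤ) < 8 * w := by exact_mod_cast hw1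
  have e2 : 4 * (w : ℤ) ≤ n := by exact_mod_cast hw2
  have e3 : (100 : ℤ) ≤ n := by exact_mod_cast hn
  have e4 : 0 ≤ ((a : ℤ) - 2 * w) ^ 2 := sq_nonneg _
  have e5 : 0 ≤ ((b : ℤ) - 2 * w) ^ 2 := sq_nonneg _
  have e6 : 2 * (w : ℤ) * ((n : ℤ) - 1 - 3 * w)
      ≤ (2 * (y w - y a) - 2 * ((n : ℤ) - 1) * a + (a : ℤ) ^ 2 + (w : ℤ) ^ 2)
      + (2 * (y b - y w) - 2 * ((n : ℤ) - 1) * w + (w : ℤ) ^ 2 + (b : ℤ) ^ 2) := by nlinarith
  have e7 : (n : ℤ) * (n - 4) ≤ 16 * (2 * (w : ℤ) * ((n : ℤ) - 1 - 3 * w)) := by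
    have : (n : ℤ) * (n - 4) ≤ (8 * w) * (4 * ((n : ℤ) - 1 - 3 * w)) := by
      apply mul_le_mul e1.le (by linarith) (by linarith) (by positivity)
    linarith
  nlinarith

lemma even_sep {n : ℕ} {y : ℕ → ℤ} (h : Dis n y) (hn : 100 ≤ n) {w w' : ℕ}
    (hw : w.Prime ∧ n < 8 * w ∧ 4 * w ≤ n) (hw' : w'.Prime ∧ n < 8 * w' ∧ 4 * w' ≤ n)
    (hpar : (2 : ℤ) ∣ y (2 * w') - y (2 * w)) (hlt : y (2 * w) < y (2 * w')) :
    (n : ℤ) ^ 2 ≤ 8 * y (2 * w') - 8 * y (2 * w) := by
  have hne : w ≠ w' := by rintro rfl; exact absurd hlt (lt_irrefl _)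
  have g := gap_even h hw.1.one_le (by omega) hw'.1.one_le (by omega)
    ((Nat.coprime_primes hw.1 hw'.1).2 hne) hne hpar hlt
  have e1 : (n : ℤ) < 8 * w := by exact_mod_cast hw.2.1
  have e2 : 4 * (w' : ℤ) ≤ n := by exact_mod_cast hw'.2.2
  have e3 : (100 : ℤ) ≤ n := by exact_mod_cast hn
  have e4 : (n : ℤ) * (n / 1) ≤ (8 * w) * (2 * ((n : ℤ) - 1 - w')) := by
    apply mul_le_mul e1.le _ (by simp) (by positivity)
    rw [Int.ediv_one]
    linarith
  rw [Int.ediv_one] at e4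
  nlinarith

/-- **The main inequality**, for one class of even differences. -/
lemma main_ineq {n m : ℕ} {y : ℕ → ℤ} (h : Dis n y) (hn : 100 ≤ n)
    (hm : ∀ d, 1 ≤ d → d ≤ n → 1 ≤ y d ∧ y d ≤ m) (R : Finset ℕ)
    (hR : ∀ w ∈ R, w.Prime ∧ n < 8 * w ∧ 4 * w ≤ n)
    (hpar : ∀ w ∈ R, ∀ w' ∈ R, (2 : ℤ) ∣ y (2 * w') - y (2 * w))
    (P : Finset ℕ) (hP : ∀ p, p ∈ P ↔ p.Prime ∧ 3 ≤ p ∧ p + 1 ≤ n) :
    (R.card : ℤ) * (n : ℤ) ^ 2 + 3264 * ∑ p ∈ P, (((n : ℤ) - 1) * p - (p : ℤ) ^ 2)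
      ≤ 3264 * m + 3300 * (n : ℤ) ^ 2 := by
  classical
  have hn2 : (0 : ℤ) ≤ (n : ℤ) ^ 2 := by positivity
  have hinj : Set.InjOn y (P : Set ℕ) := by
    intro p hp p' hp' hpp
    by_contra hne
    have a1 := (hP p).1 hp
    have a2 := (hP p').1 hp'
    apply h p p' (by omega) (by omega) (by omega) (by omega) hne 0 (by omega) 0 (by omega)
    simpa using hpp
  obtain ⟨q, hqP, hmono, himg⟩ := exists_enum P y hinj
  have hcard : 0 < P.card := Finset.card_pos.2 ⟨3, (hP 3).2 ⟨Nat.prime_three, le_rfl, by omega⟩⟩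
  obtain ⟨s, hs⟩ : ∃ s, P.card = s + 1 := ⟨P.card - 1, by omega⟩
  have hq : ∀ i ≤ s, (q i).Prime ∧ 3 ≤ q i ∧ q i + 1 ≤ n := fun i hi =>
    (hP _).1 (hqP i (by omega))
  have hmono' : ∀ i j, i < j → j ≤ s → y (q i) < y (q j) := fun i j hij hj =>
    hmono i j hij (by omega)
  have hqinj : ∀ i j, i < j → j ≤ s → q i ≠ q j := by
    intro i j hij hj h0
    have := hmono' i j hij hj
    rw [h0] at this
    exact absurd this (lt_irrefl _)
  have hyq : ∀ i ≤ s, 1 ≤ y (q i) ∧ y (q i) ≤ m := by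
    intro i hi
    have := hq i hi
    exact hm _ (by omega) (by omega)
  have hlast : ∀ i ≤ s, (q i : ℤ) + 1 ≤ n := fun i hi => by exact_mod_cast (hq i hi).2.2
  -- the excesses
  set F : ℕ → ℤ := fun k => if 1 ≤ k ∧ k ≤ s then
    2 * (y (q k) - y (q (k - 1))) - 2 * ((n : ℤ) - 1) * q (k - 1) + (q (k - 1) : ℤ) ^ 2
      + (q k : ℤ) ^ 2 else 0 with hF
  have hFk : ∀ i < s, F (i + 1) = 2 * (y (q (i + 1)) - y (q i)) - 2 * ((n : ℤ) - 1) * q i
      + (q i : ℤ) ^ 2 + (q (i + 1) : ℤ) ^ 2 := by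
    intro i hi
    rw [hF]
    simp only
    rw [if_pos ⟨by omega, by omega⟩]
    rfl
  have hF0 : F 0 = 0 := by
    rw [hF]
    simp
  have hFs : F (s + 1) = 0 := by
    rw [hF]
    simp
  have hFnn : ∀ k, 0 ≤ F k := by
    intro k
    by_cases hk : 1 ≤ k ∧ k ≤ s
    · obtain ⟨i, rfl⟩ : ∃ i, k = i + 1 := ⟨k - 1, by omega⟩
      rw [hFk i (by omega)]
      have a1 := hq i (by omega)
      have a2 := hq (i + 1) (by omega)
      have g := gap h (d := q i) (e := q (i + 1)) (by omega) (by omega) (by omega) (by omega)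
        ((Nat.coprime_primes a1.1 a2.1).2 (hqinj i (i + 1) (by omega) (by omega)))
        (hqinj i (i + 1) (by omega) (by omega)) (hmono' i (i + 1) (by omega) (by omega))
      nlinarith [sq_nonneg ((q i : ℤ) - q (i + 1))]
    · rw [hF]
      simp only
      rw [if_neg hk]
  set T := ∑ i ∈ range s, F (i + 1) with hT
  -- the total length
  have hlen : T + 2 * ∑ p ∈ P, (((n : ℤ) - 1) * p - (p : ℤ) ^ 2) - 2 * (n : ℤ) ^ 2
      ≤ 2 * (y (q s) - y (q 0)) := by
    have b1 : ∑ i ∈ range s, (y (q (i + 1)) - y (q i)) = y (q s) - y (q 0) :=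
      Finset.sum_range_sub (fun i => y (q i)) s
    have b2 : T = 2 * ∑ i ∈ range s, (y (q (i + 1)) - y (q i))
        - 2 * ((n : ℤ) - 1) * ∑ i ∈ range s, (q i : ℤ)
        + ∑ i ∈ range s, (q i : ℤ) ^ 2 + ∑ i ∈ range s, (q (i + 1) : ℤ) ^ 2 := by
      rw [hT, Finset.sum_congr rfl (fun i hi => hFk i (Finset.mem_range.1 hi)),
        Finset.sum_add_distrib, Finset.sum_add_distrib, Finset.sum_sub_distrib, Finset.mul_sum,
        Finset.mul_sum]
    have b3 := enum_sum hmono himg (fun p => (p : ℤ))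
    have b4 := enum_sum hmono himg (fun p => (p : ℤ) ^ 2)
    rw [hs, Finset.sum_range_succ] at b3
    rw [hs] at b4
    have b5 := Finset.sum_range_succ (fun i => (q i : ℤ) ^ 2) s
    have b6 := Finset.sum_range_succ' (fun i => (q i : ℤ) ^ 2) s
    have b7 : ∑ p ∈ P, (((n : ℤ) - 1) * p - (p : ℤ) ^ 2)
        = ((n : ℤ) - 1) * ∑ p ∈ P, (p : ℤ) - ∑ p ∈ P, (p : ℤ) ^ 2 := by
      rw [Finset.sum_sub_distrib, Finset.mul_sum]
    have b8 := hlast s le_rfl
    have b9 : (0 : ℤ) ≤ q s := by positivity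
    have b10 : ((n : ℤ) - 1) * q s ≤ (n : ℤ) ^ 2 := by nlinarith
    have b11 : 0 ≤ (q s : ℤ) ^ 2 := by positivity
    have b12 : 0 ≤ (q 0 : ℤ) ^ 2 := by positivity
    have b13 : ∑ i ∈ range s, (q i : ℤ) = ∑ p ∈ P, (p : ℤ) - q s := by linarith
    have b14 : ∑ i ∈ range s, (q i : ℤ) ^ 2 = ∑ p ∈ P, (p : ℤ) ^ 2 - (q s : ℤ) ^ 2 := by linarith
    have b15 : ∑ i ∈ range s, (q (i + 1) : ℤ) ^ 2 = ∑ p ∈ P, (p : ℤ) ^ 2 - (q 0 : ℤ) ^ 2 := by
      linarith
    rw [b1, b13, b14, b15] at b2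
    rw [b7]
    nlinarith
  -- the position of an even difference
  have hpos : ∀ w ∈ R, ∃ k, k ≤ s + 1 ∧ (k ≤ s → y (2 * w) < y (q k)) ∧
      (∀ i < k, y (q i) < y (2 * w)) := by
    intro w hw
    have hRw := hR w hw
    have hne : ∀ i ≤ s, y (q i) ≠ y (2 * w) := by
      intro i hi heq
      have a1 := hq i hi
      have a2 : q i ≠ 2 * w := by
        intro h0
        have a3 := a1.1
        rw [h0] at a3
        have a4 := Nat.prime_mul_iff.1 a3
        have a5 := hRw.1.one_lt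
        omega
      apply h (q i) (2 * w) (by omega) (by omega) (by omega) (by omega) a2 0 (by omega) 0 (by omega)
      simpa using heq
    have hex : ∃ k, s + 1 ≤ k ∨ y (2 * w) < y (q k) := ⟨s + 1, Or.inl le_rfl⟩
    refine ⟨Nat.find hex, Nat.find_min' hex (Or.inl le_rfl), ?_, ?_⟩
    · intro hk
      rcases Nat.find_spec hex with h0 | h0
      · omega
      · exact h0
    · intro i hi
      have h0 := Nat.find_min hex hi
      push Not at h0
      exact lt_of_le_of_ne h0.2 (hne i (by omega))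
  choose! kk hkk1 hkk2 hkk3 using hpos
  -- separated points
  have hsepR : ∀ (k : ℕ) (a b : ℤ), a ≤ b → (∀ w ∈ R, kk w = k → a ≤ y (2 * w) ∧ y (2 * w) ≤ b) →
      (((R.filter (fun w => kk w = k)).card : ℤ) - 1) * (n : ℤ) ^ 2 ≤ 8 * b - 8 * a := by
    intro k a b hab hw
    apply sep_card (R.filter (fun w => kk w = k)) (fun w => 8 * y (2 * w)) ((n : ℤ) ^ 2)
      (8 * a) (8 * b) (by linarith) hn2
    · intro w hw w' hw' hww
      simp only at hww
      have c1 := hR w (Finset.mem_filter.1 hw).1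
      have c2 := hR w' (Finset.mem_filter.1 hw').1
      by_contra hne
      apply h (2 * w) (2 * w') (by omega) (by omega) (by omega) (by omega) (by omega)
        0 (by omega) 0 (by omega)
      simp only [Nat.cast_zero, zero_mul, add_zero]
      linarith
    · intro w hw w' hw' hww
      have c1 := hR w (Finset.mem_filter.1 hw).1
      have c2 := hR w' (Finset.mem_filter.1 hw').1
      exact even_sep h hn c1 c2 (hpar w (Finset.mem_filter.1 hw).1 w' (Finset.mem_filter.1 hw').1)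
        (by linarith)
    · intro w hw'
      have c1 := Finset.mem_filter.1 hw'
      have := hw w c1.1 c1.2
      constructor <;> linarith [this.1, this.2]
  -- the interior gaps
  have hint : ∀ i < s, ((R.filter (fun w => kk w = i + 1)).card : ℤ) * (n : ℤ) ^ 2
      ≤ 544 * (F i + F (i + 1) + F (i + 2)) + (if i = 0 then 17 * (n : ℤ) ^ 2 else 0)
        + (if i + 1 = s then 17 * (n : ℤ) ^ 2 else 0) := by
    intro i hi
    set ν := (R.filter (fun w => kk w = i + 1)).card with hν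
    have f1 := hFnn i
    have f2 := hFnn (i + 1)
    have f3 := hFnn (i + 2)
    have t1 : (0 : ℤ) ≤ (if i = 0 then 17 * (n : ℤ) ^ 2 else 0) := by
      split_ifs
      · positivity
      · exact le_rfl
    have t2 : (0 : ℤ) ≤ (if i + 1 = s then 17 * (n : ℤ) ^ 2 else 0) := by
      split_ifs
      · positivity
      · exact le_rfl
    rcases Nat.eq_zero_or_pos ν with h0 | h0
    · rw [h0]
      push_cast
      linarith
    rcases Nat.lt_or_ge 17 ν with h18 | h17
    · -- many even differences in one gap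
      have g1 := hsepR (i + 1) (y (q i)) (y (q (i + 1))) (hmono' i (i + 1) (by omega) (by omega)).le
        (by
          intro w hw hwk
          have c1 := hkk2 w hw (by omega)
          rw [hwk] at c1
          have c2 := hkk3 w hw i (by omega)
          exact ⟨c2.le, c1.le⟩)
      rw [← hν] at g1
      have g2 := hFk i hi
      have g3 := hlast i (by omega)
      have g4 : (0 : ℤ) ≤ q i := by positivity
      have g5 : ((n : ℤ) - 1) * q i ≤ (n : ℤ) ^ 2 := by nlinarith
      have g6 : 0 ≤ (q i : ℤ) ^ 2 := by positivity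
      have g7 : 0 ≤ (q (i + 1) : ℤ) ^ 2 := by positivity
      have g8 : ((ν : ℤ) - 9) * (n : ℤ) ^ 2 ≤ 4 * F (i + 1) := by nlinarith
      have g9 : (18 : ℤ) ≤ ν := by exact_mod_cast h18
      have g10 : (ν : ℤ) * (n : ℤ) ^ 2 ≤ 2 * (((ν : ℤ) - 9) * (n : ℤ) ^ 2) := by nlinarith
      linarith
    · -- at least one
      obtain ⟨w, hw⟩ := Finset.card_pos.1 h0
      rw [Finset.mem_filter] at hw
      obtain ⟨hwR, hwk⟩ := hw
      have c0 := hR w hwR
      have c1 := hkk2 w hwR (by omega)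
      rw [hwk] at c1
      have c2 := hkk3 w hwR i (by omega)
      have hνn : (ν : ℤ) * (n : ℤ) ^ 2 ≤ 17 * (n : ℤ) ^ 2 := by
        have : (ν : ℤ) ≤ 17 := by exact_mod_cast h17
        exact mul_le_mul_of_nonneg_right this hn2
      have a1 := hq i (by omega)
      have a2 := hq (i + 1) (by omega)
      by_cases hwi : w = q i
      · by_cases hi0 : i = 0
        · rw [if_pos hi0]
          linarith
        · obtain ⟨j, rfl⟩ : ∃ j, i = j + 1 := ⟨i - 1, by omega⟩
          have a3 := hq j (by omega)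
          have key := claimC h hn (a := q j) (b := q (j + 1 + 1)) a3.1 a3.2.1 a3.2.2 a2.1 a2.2.1
            a2.2.2 c0.1 c0.2.1 c0.2.2 (by
              rw [hwi]; exact (hqinj j (j + 1) (by omega) (by omega)).symm) (by
              rw [hwi]; exact (hqinj (j + 1) (j + 1 + 1) (by omega) (by omega)))
            (lt_trans (hmono' j (j + 1) (by omega) (by omega)) c2) c1
          rw [hwi] at key
          have k1 := hFk j (by omega)
          have k2 := hFk (j + 1) hi
          linarith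
      · by_cases hwi' : w = q (i + 1)
        · by_cases his : i + 1 = s
          · rw [if_pos his]
            linarith
          · have a3 := hq (i + 2) (by omega)
            have key := claimC h hn (a := q i) (b := q (i + 2)) a1.1 a1.2.1 a1.2.2 a3.1 a3.2.1
              a3.2.2 c0.1 c0.2.1 c0.2.2 (by
                rw [hwi']; exact (hqinj i (i + 1) (by omega) (by omega)).symm) (by
                rw [hwi']; exact (hqinj (i + 1) (i + 2) (by omega) (by omega)))
              c2 (lt_trans c1 (hmono' (i + 1) (i + 2) (by omega) (by omega)))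
            rw [hwi'] at key
            have k1 := hFk i hi
            have k2 := hFk (i + 1) (by omega)
            have k3 : F (i + 2) = F (i + 1 + 1) := rfl
            rw [← k3] at k2
            linarith
        · have key := claimB h hn a1.1 a1.2.1 a1.2.2 a2.1 a2.2.1 a2.2.2 c0.1 c0.2.1 c0.2.2
            hwi hwi' c2 c1
          have k1 := hFk i hi
          linarith
  -- counting
  have hcount : (R.card : ℤ) = ((R.filter (fun w => kk w = 0)).card : ℤ)
      + ∑ i ∈ range s, ((R.filter (fun w => kk w = i + 1)).card : ℤ)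
      + ((R.filter (fun w => kk w = s + 1)).card : ℤ) := by
    have c1 : R.card = ∑ k ∈ range (s + 2), (R.filter (fun w => kk w = k)).card := by
      apply Finset.card_eq_sum_card_fiberwise
      intro w hw
      have := hkk1 w hw
      simp only [Finset.coe_range, Set.mem_Iio]
      omega
    rw [Finset.sum_range_succ, Finset.sum_range_succ'] at c1
    rw [c1]
    push_cast
    ring
  have hlow := hsepR 0 0 (y (q 0)) (by linarith [(hyq 0 (by omega)).1]) (by
    intro w hw hwk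
    have c1 := hkk2 w hw (by omega)
    rw [hwk] at c1
    have c2 := hR w hw
    exact ⟨by linarith [(hm (2 * w) (by omega) (by omega)).1], c1.le⟩)
  have hhigh := hsepR (s + 1) (y (q s)) m (hyq s le_rfl).2 (by
    intro w hw hwk
    have c1 := hkk3 w hw s (by omega)
    have c2 := hR w hw
    exact ⟨c1.le, (hm (2 * w) (by omega) (by omega)).2⟩)
  have hsum := Finset.sum_le_sum (fun i hi => hint i (Finset.mem_range.1 hi))
  rw [← Finset.sum_mul, Finset.sum_add_distrib, Finset.sum_add_distrib, ← Finset.mul_sum,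
    Finset.sum_add_distrib, Finset.sum_add_distrib] at hsum
  have s1 : ∑ i ∈ range s, F i ≤ T := by
    have d1 := Finset.sum_range_succ F s
    have d2 := Finset.sum_range_succ' F s
    have d3 := hFnn s
    linarith
  have s2 : ∑ i ∈ range s, F (i + 2) ≤ T := by
    have d1 := Finset.sum_range_succ (fun i => F (i + 1)) s
    have d2 := Finset.sum_range_succ' (fun i => F (i + 1)) s
    have d3 := hFnn (0 + 1)
    linarith
  have s3 : ∑ i ∈ range s, (if i = 0 then 17 * (n : ℤ) ^ 2 else 0) ≤ 17 * (n : ℤ) ^ 2 := by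
    rw [Finset.sum_ite_eq']
    split_ifs
    · exact le_rfl
    · positivity
  have s4 : ∑ i ∈ range s, (if i + 1 = s then 17 * (n : ℤ) ^ 2 else 0) ≤ 17 * (n : ℤ) ^ 2 := by
    have d1 : ∀ i ∈ range s, (if i + 1 = s then 17 * (n : ℤ) ^ 2 else 0)
        = (if i = s - 1 then 17 * (n : ℤ) ^ 2 else 0) := by
      intro i hi
      rw [Finset.mem_range] at hi
      by_cases h0 : i + 1 = s
      · rw [if_pos h0, if_pos (by omega)]
      · rw [if_neg h0, if_neg (by omega)]
    rw [Finset.sum_congr rfl d1, Finset.sum_ite_eq']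
    split_ifs
    · exact le_rfl
    · positivity
  have e1 := (hyq 0 (by omega)).1
  have e2 := (hyq s le_rfl).2
  rw [hcount]
  nlinarith

end Pool.Agent.R98.EvenGap
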