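import Mathlib

/-!
# Gaps between starting points of disjoint progressions
-/

set_option autoImplicit false

open Finset

namespace Pool.Agent.R98

lemma exists_common {p q : ℕ} (hpq : p.Coprime q) (hp : 0 < p) (hq : 0 < q) (x y : ℤ) :
    ∃ z : ℤ, y ≤ z ∧ z < y + p * q ∧ (p : ℤ) ∣ z - x ∧ (q : ℤ) ∣ z - y := by
  obtain ⟨a, b, hab⟩ := (Nat.isCoprime_iff_coprime.2 hpq)
  have hpq0 : (0 : ℤ) < p * q := by positivity
  set z0 : ℤ := x * (b * q) + y * (a * p) with hz0
  refine ⟨y + (z0 - y) % (p * q), ?_, ?_, ?_, ?_⟩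
  · have := Int.emod_nonneg (z0 - y) hpq0.ne'
    omega
  · have := Int.emod_lt_of_pos (z0 - y) hpq0
    omega
  · have h1 : (p : ℤ) ∣ z0 - x := ⟨a * (y - x), by rw [hz0]; linear_combination x * hab⟩
    have h2 : (p : ℤ) ∣ (z0 - y) - (z0 - y) % (p * q) := by
      have h3 := Int.emod_add_mul_ediv (z0 - y) (p * q)
      exact ⟨q * ((z0 - y) / (p * q)), by linear_combination (-1 : ℤ) * h3⟩
    have h4 : y + (z0 - y) % (p * q) - x = (z0 - x) - ((z0 - y) - (z0 - y) % (p * q)) := by ring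
    rw [h4]
    exact dvd_sub h1 h2
  · have h1 : (q : ℤ) ∣ z0 - y := ⟨b * (x - y), by rw [hz0]; linear_combination y * hab⟩
    have h2 : (q : ℤ) ∣ (z0 - y) - (z0 - y) % (p * q) := by
      have h3 := Int.emod_add_mul_ediv (z0 - y) (p * q)
      exact ⟨p * ((z0 - y) / (p * q)), by linear_combination (-1 : ℤ) * h3⟩
    have h4 : y + (z0 - y) % (p * q) - y = (z0 - y) - ((z0 - y) - (z0 - y) % (p * q)) := by ring
    rw [h4]
    exact dvd_sub h1 h2

/-- Two disjoint progressions with coprime differences overlap on a short interval only. -/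
lemma crt_gap {p q : ℕ} (hpq : p.Coprime q) (hp : 0 < p) (hq : 0 < q) (x y : ℤ) (hxy : x ≤ y)
    (N N' : ℕ)
    (hdis : ∀ u < N, ∀ v < N', x + (u : ℤ) * p ≠ y + (v : ℤ) * q) :
    x + ((N : ℤ) - 1) * p + 2 ≤ y + p * q ∨ ((N' : ℤ) - 1) * q + 2 ≤ p * q := by
  by_contra hcon
  push Not at hcon
  obtain ⟨h1, h2⟩ := hcon
  obtain ⟨z, hz1, hz2, ⟨u, hu⟩, ⟨v, hv⟩⟩ := exists_common hpq hp hq x y
  have hp' : (0 : ℤ) < p := by exact_mod_cast hp
  have hq' : (0 : ℤ) < q := by exact_mod_cast hq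
  have hu0 : 0 ≤ u := by
    by_contra h
    push Not at h
    have : (p : ℤ) * u < 0 := mul_neg_of_pos_of_neg hp' h
    omega
  have hv0 : 0 ≤ v := by
    by_contra h
    push Not at h
    have : (q : ℤ) * v < 0 := mul_neg_of_pos_of_neg hq' h
    omega
  have huN : u < N := by
    by_contra h
    push Not at h
    have h3 : (p : ℤ) * N ≤ p * u := mul_le_mul_of_nonneg_left h hp'.le
    have h4 : ((N : ℤ) - 1) * p = p * N - p := by ring
    omega
  have hvN : v < N' := by
    by_contra h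
    push Not at h
    have h3 : (q : ℤ) * N' ≤ q * v := mul_le_mul_of_nonneg_left h hq'.le
    have h4 : ((N' : ℤ) - 1) * q = q * N' - q := by ring
    omega
  obtain ⟨u', rfl⟩ := Int.eq_ofNat_of_zero_le hu0
  obtain ⟨v', rfl⟩ := Int.eq_ofNat_of_zero_le hv0
  apply hdis u' (by exact_mod_cast huN) v' (by exact_mod_cast hvN)
  linarith

/-- Enumerate a finite set in the order of the starting points. -/
lemma exists_enum (P : Finset ℕ) (y : ℕ → ℤ) (hinj : Set.InjOn y (P : Set ℕ)) :
    ∃ q : ℕ → ℕ, (∀ i < P.card, q i ∈ P) ∧ (∀ i j, i < j → j < P.card → y (q i) < y (q j)) ∧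
      (range P.card).image q = P := by
  classical
  have hcard : (P.image y).card = P.card := Finset.card_image_of_injOn hinj
  set e := (P.image y).orderEmbOfFin hcard with he
  have hmem : ∀ i : Fin P.card, ∃ p ∈ P, y p = e i := by
    intro i
    have := Finset.orderEmbOfFin_mem (P.image y) hcard i
    exact Finset.mem_image.1 this
  choose g hgP hgy using hmem
  let q : ℕ → ℕ := fun i => if h : i < P.card then g ⟨i, h⟩ else 0
  have hq : ∀ i (h : i < P.card), q i = g ⟨i, h⟩ := fun i h => dif_pos h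
  have hmono : ∀ i j, i < j → j < P.card → y (q i) < y (q j) := by
    intro i j hij hj
    rw [hq i (by omega), hq j hj, hgy, hgy]
    exact e.strictMono (by simpa using hij)
  have hqP : ∀ i < P.card, q i ∈ P := fun i hi => by rw [hq i hi]; exact hgP _
  refine ⟨q, hqP, hmono, ?_⟩
  apply Finset.eq_of_subset_of_card_le
  · intro p hp
    obtain ⟨i, hi, rfl⟩ := Finset.mem_image.1 hp
    exact hqP i (Finset.mem_range.1 hi)
  · rw [Finset.card_image_of_injOn, Finset.card_range]
    intro i hi j hj hij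
    simp only [Finset.coe_range, Set.mem_Iio] at hi hj
    rcases Nat.lt_trichotomy i j with h | h | h
    · have := hmono i j h hj
      rw [hij] at this
      exact absurd this (lt_irrefl _)
    · exact h
    · have := hmono j i h hi
      rw [hij] at this
      exact absurd this (lt_irrefl _)

lemma enum_sum {P : Finset ℕ} {y : ℕ → ℤ} {q : ℕ → ℕ}
    (hmono : ∀ i j, i < j → j < P.card → y (q i) < y (q j))
    (himg : (range P.card).image q = P) (f : ℕ → ℤ) :
    ∑ i ∈ range P.card, f (q i) = ∑ p ∈ P, f p := by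
  conv_rhs => rw [← himg]
  rw [Finset.sum_image]
  intro i hi j hj hij
  simp only [Finset.coe_range, Set.mem_Iio] at hi hj
  rcases Nat.lt_trichotomy i j with h | h | h
  · have := hmono i j h hj
    rw [hij] at this
    exact absurd this (lt_irrefl _)
  · exact h
  · have := hmono j i h hi
    rw [hij] at this
    exact absurd this (lt_irrefl _)

/-- The total length of a chain of differences with prescribed gaps. -/
lemma chain_length (P : Finset ℕ) (hP : P.Nonempty) (y w : ℕ → ℤ)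
    (hinj : Set.InjOn y (P : Set ℕ)) (W : ℤ) (hW : ∀ p ∈ P, w p ≤ W)
    (h : ∀ p ∈ P, ∀ q ∈ P, y p < y q → w p - p * q ≤ y q - y p) :
    ∃ a ∈ P, ∃ b ∈ P, ∑ p ∈ P, (w p - (p : ℤ) ^ 2) - W ≤ y b - y a := by
  obtain ⟨q, hqP, hmono, himg⟩ := exists_enum P y hinj
  have hr : 0 < P.card := hP.card_pos
  obtain ⟨r, hr⟩ : ∃ r, P.card = r + 1 := ⟨P.card - 1, by omega⟩
  refine ⟨q 0, hqP 0 (by omega), q r, hqP r (by omega), ?_⟩
  have h1 : ∑ i ∈ range r, (y (q (i + 1)) - y (q i)) = y (q r) - y (q 0) :=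
    Finset.sum_range_sub (fun i => y (q i)) r
  have h2 : ∀ i ∈ range r, (2 * w (q i) - (q i : ℤ) ^ 2 - (q (i + 1) : ℤ) ^ 2)
      ≤ 2 * (y (q (i + 1)) - y (q i)) := by
    intro i hi
    rw [Finset.mem_range] at hi
    have h3 := h (q i) (hqP i (by omega)) (q (i + 1)) (hqP (i + 1) (by omega))
      (hmono i (i + 1) (by omega) (by omega))
    nlinarith [sq_nonneg ((q i : ℤ) - q (i + 1))]
  have h3 := Finset.sum_le_sum h2
  rw [← Finset.mul_sum, h1] at h3
  have h4 : ∑ i ∈ range r, (2 * w (q i) - (q i : ℤ) ^ 2 - (q (i + 1) : ℤ) ^ 2)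
      = 2 * ∑ i ∈ range r, w (q i) - ∑ i ∈ range r, (q i : ℤ) ^ 2
        - ∑ i ∈ range r, (q (i + 1) : ℤ) ^ 2 := by
    rw [Finset.sum_sub_distrib, Finset.sum_sub_distrib, Finset.mul_sum]
  have h5 := enum_sum hmono himg w
  have h6 := enum_sum hmono himg (fun p => (p : ℤ) ^ 2)
  rw [hr, Finset.sum_range_succ] at h5
  rw [hr] at h6
  have h7 := Finset.sum_range_succ (fun i => (q i : ℤ) ^ 2) r
  have h8 := Finset.sum_range_succ' (fun i => (q i : ℤ) ^ 2) r
  have h9 := hW (q r) (hqP r (by omega))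
  rw [Finset.sum_sub_distrib]
  have h10 : 0 ≤ (q r : ℤ) ^ 2 := by positivity
  have h11 : 0 ≤ (q 0 : ℤ) ^ 2 := by positivity
  rw [h4] at h3
  linarith

end Pool.Agent.R98
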