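import Pool.Agent.R98.Chain

/-!
# Groups of multiples of a common divisor, and the greedy packing of short progressions
-/

set_option autoImplicit false

open Finset

namespace Pool.Agent.R98.Groups

open Pool.Agent.R98

/-- the multiples of `g` up to `D` in the chunk `c` -/
def chunk (g D c : ℕ) : Finset ℕ := (Icc 1 D).filter (fun d => g ∣ d ∧ d / g / g = c)

lemma packs_chunk (g D c n : ℕ) (hg : 1 ≤ g) : Packs (chunk g D c) (fun d => n / d) (n + g) := by
  have hg' : (0 : ℤ) < g := by exact_mod_cast hg
  refine ⟨fun d => ((d / g % g : ℕ) : ℤ), ?_, ?_⟩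
  · intro d hd v hv
    rw [chunk, Finset.mem_filter, Finset.mem_Icc] at hd
    rw [Finset.mem_Icc] at hv
    have h1 : v * d ≤ n := (Nat.mul_le_mul_right _ hv.2).trans (Nat.div_mul_le_self _ _)
    have h2 : 1 ≤ v * d := Nat.mul_pos hv.1 hd.1.1
    have h3 : d / g % g < g := Nat.mod_lt _ hg
    have h1' : (v : ℤ) * d ≤ n := by exact_mod_cast h1
    have h2' : (1 : ℤ) ≤ (v : ℤ) * d := by exact_mod_cast h2
    have h3' : ((d / g % g : ℕ) : ℤ) < g := by exact_mod_cast h3
    have h4' : (0 : ℤ) ≤ ((d / g % g : ℕ) : ℤ) := by positivity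
    simp only
    constructor
    · linarith
    · push_cast at h3' ⊢
      linarith
  · intro d hd e he hde v hv w hw heq
    rw [chunk, Finset.mem_filter, Finset.mem_Icc] at hd he
    obtain ⟨⟨hd1, _⟩, ⟨a, rfl⟩, hdc⟩ := hd
    obtain ⟨⟨he1, _⟩, ⟨b, rfl⟩, hec⟩ := he
    rw [Nat.mul_div_cancel_left _ hg] at hdc hec
    simp only at heq
    rw [Nat.mul_div_cancel_left _ hg, Nat.mul_div_cancel_left _ hg] at heq
    have h3 : a % g < g := Nat.mod_lt _ hg
    have h4 : b % g < g := Nat.mod_lt _ hg
    have h5 : (g : ℤ) ∣ ((a % g : ℕ) : ℤ) - ((b % g : ℕ) : ℤ) := by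
      refine ⟨w * b - v * a, ?_⟩
      push_cast at heq ⊢
      linear_combination heq
    have h6 : a % g = b % g := by
      have h7 : |((a % g : ℕ) : ℤ) - ((b % g : ℕ) : ℤ)| < g := by
        rw [abs_lt]
        constructor <;> omega
      have h8 := Int.eq_zero_of_abs_lt_dvd h5 h7
      omega
    apply hde
    rw [← Nat.div_add_mod a g, ← Nat.div_add_mod b g, hdc, hec, h6]

/-- all multiples of `g` up to `D` -/
lemma packs_multiples (g D n : ℕ) (hg : 1 ≤ g) :
    Packs ((Icc 1 D).filter (fun d => g ∣ d)) (fun d => n / d) ((D / g / g + 1) * (n + g)) := by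
  classical
  have h1 : ∀ c, Packs ((range c).biUnion (chunk g D)) (fun d => n / d) (c * (n + g)) := by
    intro c
    induction c with
    | zero => simpa using packs_empty _
    | succ c ih =>
      have h2 := ih.union (packs_chunk g D c n hg)
      have h3 : (range (c + 1)).biUnion (chunk g D) ⊆ (range c).biUnion (chunk g D) ∪ chunk g D c := by
        intro d hd
        rw [Finset.mem_biUnion] at hd
        obtain ⟨b, hb, hdb⟩ := hd
        rw [Finset.mem_range] at hb
        rw [Finset.mem_union, Finset.mem_biUnion]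
        rcases Nat.lt_or_ge b c with h | h
        · exact Or.inl ⟨b, Finset.mem_range.2 h, hdb⟩
        · have : b = c := by omega
          rw [this] at hdb
          exact Or.inr hdb
      refine (h2.subset h3).mono (le_of_eq ?_)
      ring
  refine (h1 (D / g / g + 1)).subset ?_
  intro d hd
  rw [Finset.mem_filter, Finset.mem_Icc] at hd
  rw [Finset.mem_biUnion]
  refine ⟨d / g / g, ?_, ?_⟩
  · rw [Finset.mem_range]
    have : d / g / g ≤ D / g / g := Nat.div_le_div_right (Nat.div_le_div_right hd.1.2)
    omega
  · rw [chunk, Finset.mem_filter, Finset.mem_Icc]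
    exact ⟨hd.1, hd.2, rfl⟩

/-- a divisor in a short range -/
lemma exists_divisor {d G z : ℕ} (hd : G < d) (hG : 1 ≤ G)
    (hz : ∀ p : ℕ, p.Prime → p ∣ d → p ≤ z) : ∃ g, g ∣ d ∧ G < g ∧ g ≤ G * z := by
  classical
  have hex : ∃ g, g ∣ d ∧ G < g := ⟨d, dvd_rfl, hd⟩
  set g := Nat.find hex with hg
  obtain ⟨h1, h2⟩ := Nat.find_spec hex
  rw [← hg] at h1 h2
  refine ⟨g, h1, h2, ?_⟩
  obtain ⟨p, hp, hpg⟩ := Nat.exists_prime_and_dvd (show g ≠ 1 by omega)
  obtain ⟨e, he⟩ := hpg
  have hd0 : 0 < d := by omega
  have hg0 : 0 < g := by omega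
  have he0 : 0 < e := by
    rcases Nat.eq_zero_or_pos e with h | h
    · rw [h, mul_zero] at he
      omega
    · exact h
  have hlt : e < g := by
    rw [he]
    have := hp.two_le
    nlinarith
  have h3 : ¬ (e ∣ d ∧ G < e) := Nat.find_min hex hlt
  have h4 : e ∣ d := (Dvd.intro_left p he.symm).trans h1
  have h5 : e ≤ G := by
    by_contra h
    push Not at h
    exact h3 ⟨h4, h⟩
  have h6 : p ≤ z := hz p hp ((Dvd.intro e he.symm).trans h1)
  rw [he, mul_comm G z]
  exact Nat.mul_le_mul h6 h5

/-- **The greedy packing.** -/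
theorem greedy (n L : ℕ) (S : Finset ℕ) (hpos : ∀ d ∈ S, 0 < d)
    (h : ∀ d ∈ S, (n / d) * ∑ e ∈ S.filter (fun e => e < d), (n / e) < L) :
    Packs S (fun d => n / d) (n + L) := by
  classical
  have key : ∀ T : Finset ℕ, T ⊆ S → (∀ d ∈ T, ∀ e ∈ S, e < d → e ∈ T) →
      ∃ s : ℕ → ℕ, (∀ d ∈ T, s d < L) ∧ ∀ d ∈ T, ∀ e ∈ T, d ≠ e → ∀ v ∈ Icc 1 (n / d),
        ∀ w ∈ Icc 1 (n / e), s d + v * d ≠ s e + w * e := by
    intro T
    induction T using Finset.induction_on_max with
    | empty => intro _ _; exact ⟨0, by simp, by simp⟩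
    | insert a T haT ih =>
      intro hTS hdown
      obtain ⟨s, h1, h2⟩ := ih (fun d hd => hTS (Finset.mem_insert_of_mem hd)) (by
        intro d hd e he hed
        have h3 := hdown d (Finset.mem_insert_of_mem hd) e he hed
        rcases Finset.mem_insert.1 h3 with h4 | h4
        · have := haT d hd
          omega
        · exact h4)
      have haS : a ∈ S := hTS (Finset.mem_insert_self _ _)
      have hanot : a ∉ T := fun h => absurd (haT a h) (lt_irrefl _)
      -- the blocked positions
      set bad : Finset ℕ := T.biUnion (fun e => ((Icc 1 (n / a)) ×ˢ (Icc 1 (n / e))).image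
        (fun x => s e + x.2 * e - x.1 * a)) with hbad
      have hbadc : bad.card < L := by
        calc bad.card ≤ ∑ e ∈ T, (n / a) * (n / e) := by
              refine Finset.card_biUnion_le.trans (Finset.sum_le_sum ?_)
              intro e _
              refine Finset.card_image_le.trans (le_of_eq ?_)
              rw [Finset.card_product, Nat.card_Icc, Nat.card_Icc, Nat.add_sub_cancel,
                Nat.add_sub_cancel]
          _ = (n / a) * ∑ e ∈ T, (n / e) := by rw [Finset.mul_sum]
          _ ≤ (n / a) * ∑ e ∈ S.filter (fun e => e < a), (n / e) := by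
              apply Nat.mul_le_mul_left
              apply Finset.sum_le_sum_of_subset
              intro e he
              rw [Finset.mem_filter]
              exact ⟨hTS (Finset.mem_insert_of_mem he), haT e he⟩
          _ < L := h a haS
      have hex : ∃ x ∈ range L, x ∉ bad := by
        by_contra hcon
        push Not at hcon
        have h5 := Finset.card_le_card (show range L ⊆ bad from hcon)
        rw [Finset.card_range] at h5
        omega
      obtain ⟨x, hxL, hxb⟩ := hex
      rw [Finset.mem_range] at hxL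
      have hnew : ∀ e ∈ T, ∀ v ∈ Icc 1 (n / a), ∀ w ∈ Icc 1 (n / e), x + v * a ≠ s e + w * e := by
        intro e he v hv w hw heq
        apply hxb
        rw [hbad, Finset.mem_biUnion]
        refine ⟨e, he, Finset.mem_image.2 ⟨(v, w), Finset.mem_product.2 ⟨hv, hw⟩, ?_⟩⟩
        simp only
        omega
      refine ⟨Function.update s a x, ?_, ?_⟩
      · intro d hd
        by_cases hda : d = a
        · rw [hda, Function.update_self]; exact hxL
        · rw [Function.update_of_ne hda]
          exact h1 d (Finset.mem_of_mem_insert_of_ne hd hda)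
      · intro d hd e he hde
        by_cases hda : d = a
        · have hea : e ≠ a := fun h => hde (hda.trans h.symm)
          rw [hda, Function.update_self, Function.update_of_ne hea]
          exact hnew e (Finset.mem_of_mem_insert_of_ne he hea)
        · by_cases hea : e = a
          · rw [hea, Function.update_self, Function.update_of_ne hda]
            intro v hv w hw heq
            exact hnew d (Finset.mem_of_mem_insert_of_ne hd hda) w hw v hv heq.symm
          · rw [Function.update_of_ne hda, Function.update_of_ne hea]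
            exact h2 d (Finset.mem_of_mem_insert_of_ne hd hda) e
              (Finset.mem_of_mem_insert_of_ne he hea) hde
  obtain ⟨s, h1, h2⟩ := key S (le_refl _) (fun d _ e he _ => he)
  refine ⟨fun d => (s d : ℤ), ?_, ?_⟩
  · intro d hd v hv
    rw [Finset.mem_Icc] at hv
    have h3 : v * d ≤ n := (Nat.mul_le_mul_right _ hv.2).trans (Nat.div_mul_le_self _ _)
    have h4 : 1 ≤ v * d := Nat.mul_pos hv.1 (hpos d hd)
    have h5 := h1 d hd
    have h3' : (v : ℤ) * d ≤ n := by exact_mod_cast h3
    have h4' : (1 : ℤ) ≤ (v : ℤ) * d := by exact_mod_cast h4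
    have h5' : (s d : ℤ) < L := by exact_mod_cast h5
    have h6' : (0 : ℤ) ≤ s d := by positivity
    push_cast
    constructor <;> linarith
  · intro d hd e he hde v hv w hw heq
    apply h2 d hd e he hde v hv w hw
    simp only at heq
    exact_mod_cast heq

end Pool.Agent.R98.Groups
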