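import Pool.Agent.R98.HubMain

/-! Assembly: upper bound, lower bound, strong hub sets of cycles. -/

namespace Pool.Agent.R98.Hub

open Finset

variable {n : ℕ}

theorem caseB (hn : 4 ≤ n) {p : Fin n → ℕ} {s : Fin n → Fin n} (hf : Feas p s) (he : Ex p s)
    (hns : ¬ Sol p) {o a b : Fin n} (hab : a ≠ b) (ha : a ∈ TT p s) (hb : b ∈ TT p s)
    (hT : ∀ z ∈ TT p s, z = a ∨ z = b) (hoa : dd o a = 1) (hob : dd o b = 1)
    {N : ℕ} (hsum : ∑ v, p v = N)
    (hG : ∀ M, (n - 3) + G (n - 3) M + 1 ≤ N) : False := by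
  obtain ⟨v, w, hv, hw, hv0, hw0, hwv⟩ := exists_co o
  obtain ⟨i, hi, hvi⟩ := hv.surj a
  obtain ⟨k, hk, hvk⟩ := hv.surj b
  rw [← hv0, ← hvi, hv.dist 0 i (by omega) hi.le] at hoa
  rw [← hv0, ← hvk, hv.dist 0 k (by omega) hk.le] at hob
  have hik : i ≠ k := by
    rintro rfl
    exact hab (hvi.symm.trans hvk)
  have h1 : (i = 1 ∧ k = n - 1) ∨ (i = n - 1 ∧ k = 1) := by
    unfold cd at hoa hob
    omega
  have hBC : BC p s v := by
    rcases h1 with ⟨h1, h2⟩ | ⟨h1, h2⟩
    · subst h1 h2
      refine ⟨hn, hf, he, hns, hv, by rw [hvi]; exact ha, by rw [hvk]; exact hb, ?_⟩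
      intro z hz
      rw [hvi, hvk]
      exact hT z hz
    · subst h1 h2
      refine ⟨hn, hf, he, hns, hv, by rw [hvk]; exact hb, by rw [hvi]; exact ha, ?_⟩
      intro z hz
      rw [hvi, hvk]
      exact (hT z hz).symm
  have hBCw := hBC.flip hw hwv
  obtain ⟨hE1, hE2⟩ := hBC.exact hsum hG
  rcases Nat.even_or_odd n with hev | hod
  · obtain ⟨r, hr⟩ : ∃ r, n = 2 * r + 4 := by
      obtain ⟨m, hm⟩ := hev
      exact ⟨m - 2, by omega⟩
    have h2 : (HH p s r).card = 1 := by rw [hE1]; omega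
    obtain ⟨x, hx⟩ := Finset.card_pos.1 (by omega : 0 < (HH p s r).card)
    obtain ⟨f, hfA⟩ := A_of_H hf hx
    obtain ⟨m, hm, hvm⟩ := hv.surj f
    rw [← hvm] at hfA
    have h3 := hBC.idxA hm hfA
    have h4 : m = r + 2 := by omega
    subst h4
    exact hBC.evenEnd hr hE1 hE2 hfA
  · obtain ⟨r, hr⟩ : ∃ r, n = 2 * r + 5 := by
      obtain ⟨m, hm⟩ := hod
      exact ⟨m - 2, by omega⟩
    have h2 : (HH p s r).card = 2 := by rw [hE1]; omega
    obtain ⟨x, hx⟩ := Finset.card_pos.1 (by omega : 0 < (HH p s r).card)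
    obtain ⟨f, hfA⟩ := A_of_H hf hx
    obtain ⟨m, hm, hvm⟩ := hv.surj f
    rw [← hvm] at hfA
    have h3 := hBC.idxA hm hfA
    by_cases h4 : m = r + 2
    · subst h4
      exact hBC.oddEnd hr hE1 hE2 hfA
    · have h5 : m = r + 3 := by omega
      subst h5
      have h6 : w (r + 2) = v (r + 3) := by
        rw [hwv (r + 2) (by omega)]
        congr 1
        omega
      exact hBCw.oddEnd hr hE1 hE2 (by rw [h6]; exact hfA)

theorem exists_nb (hn : 3 ≤ n) (a : Fin n) : ∃ b, dd a b = 1 := by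
  obtain ⟨v, -, hv, -, hv0, -, -⟩ := exists_co a
  refine ⟨v 1, ?_⟩
  rw [← hv0, hv.dist 0 1 (by omega) (by omega)]
  unfold cd; omega

/-- the upper bound -/
theorem upper (hn : 4 ≤ n) {N : ℕ}
    (hN : (∃ r, n = 2 * r + 4 ∧ N + 3 = 3 * 2 ^ (r + 1)) ∨ (∃ r, n = 2 * r + 5 ∧ N + 3 = 2 ^ (r + 3)))
    (p : Fin n → ℕ) (hsum : ∑ v, p v = N) : Sol p := by
  classical
  by_contra hns
  obtain ⟨s, hf, he⟩ := exists_ex p
  have hG : ∀ M, (n - 3) + G (n - 3) M + 1 ≤ N := by
    intro M
    rcases hN with ⟨r, hr, hN⟩ | ⟨r, hr, hN⟩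
    · have h1 := G_odd r M
      rw [show n - 3 = 2 * r + 1 by omega]
      omega
    · have h1 := G_even (r + 1) M
      rw [show r + 1 + 2 = r + 3 by ring] at h1
      rw [show n - 3 = 2 * (r + 1) by omega]
      omega
  have hG' : 6 ≤ n → ∀ M, (n - 4) + G (n - 4) M + 4 < N := by
    intro h6 M
    rcases hN with ⟨r, hr, hN⟩ | ⟨r, hr, hN⟩
    · have h1 := G_even r M
      have h2 : 2 ^ (r + 2) = 2 * 2 ^ (r + 1) := by ring
      have h3 : 2 ^ 2 ≤ 2 ^ (r + 1) := Nat.pow_le_pow_right (by omega) (by omega)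
      rw [show n - 4 = 2 * r by omega]
      omega
    · have h1 := G_odd r M
      have h2 : 2 ^ (r + 3) = 4 * 2 ^ (r + 1) := by ring
      have h3 : 2 ^ 2 ≤ 2 ^ (r + 1) := Nat.pow_le_pow_right (by omega) (by omega)
      rw [show n - 4 = 2 * r + 1 by omega]
      omega
  by_cases h3 : 3 ≤ (TT p s).card
  · exact caseBig hf he h3 hsum hG
  · by_cases h4 : ∃ a ∈ TT p s, ∃ b ∈ TT p s, a ≠ b ∧ dd a b ≠ 1
    · obtain ⟨a, ha, b, hb, hab, hd⟩ := h4
      have hT : ∀ z ∈ TT p s, z = a ∨ z = b := by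
        intro z hz
        by_contra hcon
        push Not at hcon
        have h5 : ({a, b, z} : Finset (Fin n)) ⊆ TT p s := by
          intro x hx
          simp only [Finset.mem_insert, Finset.mem_singleton] at hx
          rcases hx with rfl | rfl | rfl
          · exact ha
          · exact hb
          · exact hz
        have h6 := Finset.card_le_card h5
        rw [Finset.card_eq_three.2 ⟨a, b, z, hab, hcon.1.symm, hcon.2.symm, rfl⟩] at h6
        omega
      have hc2 : (TT p s).card = 2 := by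
        have h5 : ({a, b} : Finset (Fin n)) ⊆ TT p s := by
          intro x hx
          simp only [Finset.mem_insert, Finset.mem_singleton] at hx
          rcases hx with rfl | rfl
          · exact ha
          · exact hb
        have h6 := Finset.card_le_card h5
        rw [Finset.card_pair hab] at h6
        omega
      obtain ⟨v, -, hv, -, hv0, -, -⟩ := exists_co a
      obtain ⟨k, hk, hvk⟩ := hv.surj b
      have hk0 : k ≠ 0 := by
        rintro rfl
        exact hab (hv0.symm.trans hvk)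
      rw [← hv0, ← hvk, hv.dist 0 k (by omega) hk.le] at hd
      have hk2 : 2 ≤ k ∧ k + 2 ≤ n := by
        unfold cd at hd
        omega
      by_cases h5 : k = 2
      · refine caseB hn hf he hns (o := v 1) hab ha hb hT ?_ ?_ hsum hG
        · rw [← hv0, hv.dist _ _ (by omega) (by omega)]; unfold cd; omega
        · rw [← hvk, hv.dist _ _ (by omega) (by omega)]; unfold cd; omega
      · by_cases h6 : k = n - 2
        · refine caseB hn hf he hns (o := v (n - 1)) hab ha hb hT ?_ ?_ hsum hG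
          · rw [← hv0, hv.dist _ _ (by omega) (by omega)]; unfold cd; omega
          · rw [← hvk, hv.dist _ _ (by omega) (by omega)]; unfold cd; omega
        · exact caseA hf he hv (k := k) (by omega) (by omega) (by rw [hv0]; exact ha)
            (by rw [hvk]; exact hb) hc2 hsum (hG' (by omega))
    · push Not at h4
      apply hns
      by_cases h5 : (TT p s).Nonempty
      · obtain ⟨a, ha⟩ := h5
        by_cases h6 : ∃ b ∈ TT p s, b ≠ a
        · obtain ⟨b, hb, hba⟩ := h6
          refine sol_of_feas (by omega) hf a b (h4 a ha b hb hba.symm) ?_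
          intro z hz1 hz2
          by_contra hcon
          push Not at hcon
          have h5 : ({a, b, z} : Finset (Fin n)) ⊆ TT p s := by
            intro x hx
            simp only [Finset.mem_insert, Finset.mem_singleton] at hx
            rcases hx with rfl | rfl | rfl
            · exact ha
            · exact hb
            · exact mem_TT.2 ⟨hz1, hz2⟩
          have h6 := Finset.card_le_card h5
          rw [Finset.card_eq_three.2 ⟨a, b, z, hba.symm, hcon.1.symm, hcon.2.symm, rfl⟩] at h6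
          omega
        · push Not at h6
          obtain ⟨b, hb⟩ := exists_nb (by omega) a
          refine sol_of_feas (by omega) hf a b hb ?_
          intro z hz1 hz2
          exact Or.inl (h6 z (mem_TT.2 ⟨hz1, hz2⟩))
      · obtain ⟨b, hb⟩ := exists_nb (by omega) (⟨0, by omega⟩ : Fin n)
        refine sol_of_feas (by omega) hf _ b hb ?_
        intro z hz1 hz2
        exact absurd ⟨z, mem_TT.2 ⟨hz1, hz2⟩⟩ h5

theorem upper3 (p : Fin 3 → ℕ) (hsum : ∑ v, p v = 1) : Sol p := by
  have h1 : ∃ v, p v ≠ 0 := by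
    by_contra hcon
    push Not at hcon
    rw [Finset.sum_eq_zero (fun v _ => hcon v)] at hsum
    omega
  obtain ⟨x, hx⟩ := h1
  obtain ⟨v, -, hv, -, hv0, -, -⟩ := exists_co x
  refine ⟨p, Relation.ReflTransGen.refl, v 1, v 2, ?_, ?_⟩
  · rw [hv.dist _ _ (by omega) (by omega)]; unfold cd; omega
  · intro z h1 h2
    obtain ⟨i, hi, hvi⟩ := hv.surj z
    have h3 : i = 0 := by
      rcases (by omega : i = 0 ∨ i = 1 ∨ i = 2) with h | h | h
      · exact h
      · exact absurd (h ▸ hvi).symm h1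
      · exact absurd (h ▸ hvi).symm h2
    rw [← hvi, h3, hv0]
    omega

/-- the vertices outside two adjacent ones form a strong hub set -/
theorem strongHub_of (hn : 3 ≤ n) {a b : Fin n} (hab : dd a b = 1) :
    StrongHub (SimpleGraph.cycleGraph n) {z | z ≠ a ∧ z ≠ b} := by
  obtain ⟨v', w', hv', hw', hv0', hw0', hwv'⟩ := exists_co a
  obtain ⟨v, hv, hv0, hvb⟩ : ∃ v : ℕ → Fin n, Co n v ∧ v 0 = a ∧ v (n - 1) = b := by
    obtain ⟨i, hi, hvi⟩ := hv'.surj b
    rw [← hv0', ← hvi, hv'.dist 0 i (by omega) hi.le] at hab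
    have h1 : i = 1 ∨ i = n - 1 := by
      unfold cd at hab; omega
    rcases h1 with h1 | h1
    · refine ⟨w', hw', hw0', ?_⟩
      rw [hwv' (n - 1) (by omega), show n - (n - 1) = 1 by omega, ← h1]
      exact hvi
    · exact ⟨v', hv', hv0', by rw [← h1]; exact hvi⟩
  have hwalk : ∀ m i, i + m < n → ∃ w : (SimpleGraph.cycleGraph n).Walk (v i) (v (i + m)),
      w.IsPath ∧ ∀ z ∈ w.support, ∃ l, i ≤ l ∧ l ≤ i + m ∧ z = v l := by
    intro m
    induction m with
    | zero =>
      intro i _
      refine ⟨SimpleGraph.Walk.nil, SimpleGraph.Walk.IsPath.nil, ?_⟩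
      intro z hz
      rw [SimpleGraph.Walk.support_nil, List.mem_singleton] at hz
      exact ⟨i, le_rfl, le_rfl, hz⟩
    | succ m ih =>
      intro i hi
      obtain ⟨w, hw1, hw2⟩ := ih (i + 1) (by omega)
      have hadj : (SimpleGraph.cycleGraph n).Adj (v i) (v (i + 1)) := by
        rw [cyc_adj hn]
        have := hv.dist i (i + 1) (by omega) (by omega)
        unfold dd at this
        rw [this]
        unfold cd
        omega
      have e : i + 1 + m = i + (m + 1) := by ring
      refine ⟨(SimpleGraph.Walk.cons hadj w).copy rfl (by rw [e]), ?_, ?_⟩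
      · rw [SimpleGraph.Walk.isPath_copy, SimpleGraph.Walk.cons_isPath_iff]
        refine ⟨hw1, ?_⟩
        intro hmem
        obtain ⟨l, hl1, hl2, hl3⟩ := hw2 _ hmem
        have := hv.inj (by omega) (by omega) hl3
        omega
      · intro z hz
        rw [SimpleGraph.Walk.support_copy, SimpleGraph.Walk.support_cons, List.mem_cons] at hz
        rcases hz with hz | hz
        · exact ⟨i, le_rfl, by omega, hz⟩
        · obtain ⟨l, hl1, hl2, hl3⟩ := hw2 _ hz
          exact ⟨l, by omega, by omega, hl3⟩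
  have hfwd : ∀ i k, i < k → k < n → ∃ w : (SimpleGraph.cycleGraph n).Walk (v i) (v k),
      w.IsPath ∧ ∀ z ∈ w.support, z ≠ v i → z ≠ v k → z ∈ {z | z ≠ a ∧ z ≠ b} := by
    intro i k hik hk
    obtain ⟨m, rfl⟩ : ∃ m, k = i + m := ⟨k - i, by omega⟩
    obtain ⟨w, hw1, hw2⟩ := hwalk m i hk
    refine ⟨w, hw1, ?_⟩
    intro z hz h1 h2
    obtain ⟨l, hl1, hl2, rfl⟩ := hw2 z hz
    have h3 : l ≠ i := by rintro rfl; exact h1 rfl
    have h4 : l ≠ i + m := by rintro rfl; exact h2 rfl
    refine ⟨?_, ?_⟩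
    · intro h5
      rw [← hv0] at h5
      have := hv.inj (by omega) (by omega) h5
      omega
    · intro h5
      rw [← hvb] at h5
      have := hv.inj (by omega) (by omega) h5
      omega
  refine ⟨⟨v 1, ?_, ?_⟩, ?_⟩
  · intro h5
    rw [← hv0] at h5
    have := hv.inj (by omega) (by omega) h5
    omega
  · intro h5
    rw [← hvb] at h5
    have := hv.inj (by omega) (by omega) h5
    omega
  · intro x y hxy
    obtain ⟨i, hi, hvi⟩ := hv.surj x
    obtain ⟨k, hk, hvk⟩ := hv.surj y
    subst hvi hvk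
    have hik : i ≠ k := by rintro rfl; exact hxy rfl
    rcases Nat.lt_or_ge i k with h1 | h1
    · exact hfwd i k h1 hk
    · obtain ⟨w, hw1, hw2⟩ := hfwd k i (by omega) hi
      refine ⟨w.reverse, hw1.reverse, ?_⟩
      intro z hz h2 h3
      rw [SimpleGraph.Walk.support_reverse, List.mem_reverse] at hz
      exact hw2 z hz h3 h2

/-- a strong hub set of a cycle omits at most two vertices, which are adjacent -/
theorem of_strongHub (hn : 3 ≤ n) {U : Set (Fin n)}
    (hU : StrongHub (SimpleGraph.cycleGraph n) U) :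
    ∃ a b : Fin n, dd a b = 1 ∧ ∀ z, z ≠ a → z ≠ b → z ∈ U := by
  have key : ∀ c d : Fin n, c ∉ U → d ∉ U → c ≠ d → dd c d = 1 := by
    intro c d hc hd hcd
    by_contra hne
    obtain ⟨v, -, hv, -, hv0, -, -⟩ := exists_co c
    obtain ⟨k, hk, hvk⟩ := hv.surj d
    have hk0 : k ≠ 0 := by
      rintro rfl
      exact hcd (hv0.symm.trans hvk)
    rw [← hv0, ← hvk, hv.dist 0 k (by omega) hk.le] at hne
    have hk2 : 2 ≤ k ∧ k + 2 ≤ n := by
      unfold cd at hne
      omega
    have stay : ∀ {x y : Fin n} (w : (SimpleGraph.cycleGraph n).Walk x y), v 0 ∉ w.support →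
        v k ∉ w.support → (∃ i, 1 ≤ i ∧ i < k ∧ x = v i) → ∃ i, 1 ≤ i ∧ i < k ∧ y = v i := by
      intro x y w
      induction w with
      | nil => intro _ _ h; exact h
      | cons h w ih =>
        rename_i x x' y
        intro h0 h1 hx
        rw [SimpleGraph.Walk.support_cons, List.mem_cons] at h0 h1
        push Not at h0 h1
        apply ih h0.2 h1.2
        obtain ⟨i, hi1, hi2, rfl⟩ := hx
        obtain ⟨m, hm, rfl⟩ := hv.surj x'
        rw [cyc_adj hn] at h
        have hd := hv.dist i m (by omega) hm.le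
        unfold dd at hd
        rw [hd] at h
        have hm0 : m ≠ 0 := by
          rintro rfl
          exact h0.2 (SimpleGraph.Walk.start_mem_support w)
        have hmk : m ≠ k := by
          rintro rfl
          exact h1.2 (SimpleGraph.Walk.start_mem_support w)
        refine ⟨m, by omega, ?_, rfl⟩
        unfold cd at h
        omega
    have h1n : v 1 ≠ v (n - 1) := fun h => by
      have := hv.inj (by omega) (by omega) h
      omega
    obtain ⟨w, -, hw⟩ := hU.2 (v 1) (v (n - 1)) h1n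
    have h2 := stay w
      (by
        intro hmem
        have h3 := hw (v 0) hmem
          (fun h => by have := hv.inj (by omega) (by omega) h; omega)
          (fun h => by have := hv.inj (by omega) (by omega) h; omega)
        rw [hv0] at h3
        exact hc h3)
      (by
        intro hmem
        have h3 := hw (v k) hmem
          (fun h => by have := hv.inj (by omega) (by omega) h; omega)
          (fun h => by have := hv.inj (by omega) (by omega) h; omega)
        rw [hvk] at h3
        exact hd h3)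
      ⟨1, le_rfl, by omega, rfl⟩
    obtain ⟨i, hi1, hi2, hi3⟩ := h2
    have := hv.inj (by omega) (by omega) hi3
    omega
  obtain ⟨u, hu⟩ := hU.1
  by_cases h1 : ∃ a, a ∉ U
  · obtain ⟨a, ha⟩ := h1
    by_cases h2 : ∃ b, b ∉ U ∧ b ≠ a
    · obtain ⟨b, hb, hba⟩ := h2
      refine ⟨a, b, key a b ha hb hba.symm, ?_⟩
      intro z hza hzb
      by_contra hz
      have e1 := key a b ha hb hba.symm
      have e2 := key a z ha hz hza.symm
      have e3 := key b z hb hz hzb.symm
      have ua : u ≠ a := by rintro rfl; exact ha hu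
      have ub : u ≠ b := by rintro rfl; exact hb hu
      have uz : u ≠ z := by rintro rfl; exact hz hu
      rw [Ne, Fin.ext_iff] at ua ub uz hza hzb hba
      have l1 := u.isLt
      have l2 := a.isLt
      have l3 := b.isLt
      have l4 := z.isLt
      unfold dd cd at e1 e2 e3
      omega
    · push Not at h2
      obtain ⟨b, hb⟩ := exists_nb hn a
      refine ⟨a, b, hb, ?_⟩
      intro z hza _
      by_contra hz
      exact hza (h2 z hz)
  · push Not at h1
    obtain ⟨b, hb⟩ := exists_nb hn u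
    exact ⟨u, b, hb, fun z _ _ => h1 z⟩

/-- total weight -/
def TW (n : ℕ) : ℕ := ∑ i ∈ range n, 2 ^ min i (n - i)

theorem TW_succ (n : ℕ) : TW (n + 2) = 2 * TW n + 3 := by
  unfold TW
  rw [Finset.sum_range_succ', Finset.sum_range_succ, Finset.mul_sum]
  have h1 : ∑ k ∈ range n, 2 ^ min (k + 1) (n + 2 - (k + 1)) =
      ∑ i ∈ range n, 2 * 2 ^ min i (n - i) := by
    apply Finset.sum_congr rfl
    intro i hi
    rw [Finset.mem_range] at hi
    rw [show min (i + 1) (n + 2 - (i + 1)) = min i (n - i) + 1 by omega, pow_succ]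
    ring
  rw [h1]
  have h2 : min (n + 1) (n + 2 - (n + 1)) = 1 := by omega
  have h3 : min 0 (n + 2 - 0) = 0 := by omega
  rw [h2, h3, pow_one, pow_zero]
  omega

theorem TW_even : ∀ k, TW (2 * k) + 3 = 3 * 2 ^ k := by
  intro k
  induction k with
  | zero => simp [TW]
  | succ k ih =>
    rw [show 2 * (k + 1) = 2 * k + 2 by ring, TW_succ, pow_succ]
    omega

theorem TW_odd : ∀ k, TW (2 * k + 1) + 3 = 2 ^ (k + 2) := by
  intro k
  induction k with
  | zero => simp [TW]
  | succ k ih =>
    rw [show 2 * (k + 1) + 1 = (2 * k + 1) + 2 by ring, TW_succ,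
      show k + 1 + 2 = (k + 2) + 1 by ring, pow_succ]
    omega

theorem weight_move {q q' : Fin n → ℕ} (hn : 3 ≤ n) (f : Fin n)
    (h : Move (SimpleGraph.cycleGraph n) q q') :
    ∑ x, q' x * 2 ^ dd f x ≤ ∑ x, q x * 2 ^ dd f x := by
  obtain ⟨u, v, huv, h2, rfl⟩ := h
  have hne : u ≠ v := huv.ne
  have h1 : ∀ x, Function.update (Function.update q u (q u - 2)) v (q v + 1) x +
      (if x = u then 2 else 0) = q x + (if x = v then 1 else 0) := by
    intro x
    by_cases hxv : x = v
    · subst hxv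
      simp [hne.symm]
    · by_cases hxu : x = u
      · subst hxu
        simp [hxv]; omega
      · simp [hxv, hxu]
  have h3 : ∑ x, Function.update (Function.update q u (q u - 2)) v (q v + 1) x * 2 ^ dd f x +
      2 * 2 ^ dd f u = ∑ x, q x * 2 ^ dd f x + 2 ^ dd f v := by
    have e1 : 2 * 2 ^ dd f u = ∑ x, (if x = u then 2 else 0) * 2 ^ dd f x := by
      rw [Finset.sum_eq_single u]
      · simp
      · intro b _ hb; simp [hb]
      · intro h; exact absurd (Finset.mem_univ _) h
    have e2 : 2 ^ dd f v = ∑ x, (if x = v then 1 else 0) * 2 ^ dd f x := by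
      rw [Finset.sum_eq_single v]
      · simp
      · intro b _ hb; simp [hb]
      · intro h; exact absurd (Finset.mem_univ _) h
    rw [e1, e2, ← Finset.sum_add_distrib, ← Finset.sum_add_distrib]
    apply Finset.sum_congr rfl
    intro x _
    rw [← add_mul, ← add_mul, h1]
  have h4 : 2 ^ dd f v ≤ 2 * 2 ^ dd f u := by
    have h5 : dd f v ≤ dd f u + 1 := by
      rw [cyc_adj hn] at huv
      have l1 := f.isLt
      have l2 := u.isLt
      have l3 := v.isLt
      unfold cd at huv
      unfold dd cd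
      omega
    calc 2 ^ dd f v ≤ 2 ^ (dd f u + 1) := Nat.pow_le_pow_right (by omega) h5
      _ = 2 * 2 ^ dd f u := by rw [pow_succ]; ring
  omega

theorem weight_reach {q q' : Fin n → ℕ} (hn : 3 ≤ n) (f : Fin n)
    (h : Reach (SimpleGraph.cycleGraph n) q q') :
    ∑ x, q' x * 2 ^ dd f x ≤ ∑ x, q x * 2 ^ dd f x := by
  induction h with
  | refl => exact le_rfl
  | tail _ h1 ih => exact (weight_move hn f h1).trans ih

/-- the lower bound -/
theorem lower (hn : 3 ≤ n) {N : ℕ}
    (hN : (∃ k, n = 2 * (k + 1) ∧ N + 3 = 3 * 2 ^ k) ∨ (∃ k, n = 2 * k + 1 ∧ N + 3 = 2 ^ (k + 1)))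
    (t : ℕ) (ht : CoverProp (SimpleGraph.cycleGraph n) t) : N ≤ t := by
  set f : Fin n := ⟨0, by omega⟩ with hfdef
  obtain ⟨q, hq, U, hU, hcov⟩ := ht (fun v => if v = f then t else 0) (by simp)
  have h1 := weight_reach hn f hq
  have h2 : ∑ x, (if x = f then t else 0) * 2 ^ dd f x = t := by
    rw [Finset.sum_eq_single f]
    · simp [dd_self]
    · intro b _ hb; simp [hb]
    · intro h; exact absurd (Finset.mem_univ _) h
  rw [h2] at h1
  obtain ⟨a, b, hab, hz⟩ := of_strongHub hn hU
  have h3 : ∑ x, 2 ^ dd f x ≤ ∑ x, q x * 2 ^ dd f x + 2 ^ dd f a + 2 ^ dd f b := by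
    have e1 : 2 ^ dd f a = ∑ x, if x = a then 2 ^ dd f a else 0 := by simp
    have e2 : 2 ^ dd f b = ∑ x, if x = b then 2 ^ dd f b else 0 := by simp
    rw [e1, e2, ← Finset.sum_add_distrib, ← Finset.sum_add_distrib]
    apply Finset.sum_le_sum
    intro x _
    by_cases hxa : x = a
    · rw [if_pos hxa, hxa]; omega
    · by_cases hxb : x = b
      · rw [if_neg hxa, if_pos hxb, hxb]; omega
      · rw [if_neg hxa, if_neg hxb, add_zero, add_zero]
        have h4 := hcov x (hz x hxa hxb)
        exact Nat.le_mul_of_pos_left _ h4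
  have h4 : ∑ x, 2 ^ dd f x = TW n := by
    unfold TW
    rw [← Fin.sum_univ_eq_sum_range (fun i => 2 ^ min i (n - i)) n]
    apply Finset.sum_congr rfl
    intro x _
    congr 1
    have := x.isLt
    unfold dd cd
    rw [hfdef]
    simp only
    omega
  have l1 := a.isLt
  have l2 := b.isLt
  have ea : dd f a = min (a : ℕ) (n - a) := by
    unfold dd cd; rw [hfdef]; simp only; omega
  have eb : dd f b = min (b : ℕ) (n - b) := by
    unfold dd cd; rw [hfdef]; simp only; omega
  rw [h4] at h3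
  rcases hN with ⟨k, hk, hN⟩ | ⟨k, hk, hN⟩
  · have h5 := TW_even (k + 1)
    rw [← hk, pow_succ] at h5
    have h6 : 2 ^ dd f a + 2 ^ dd f b ≤ 2 ^ (k + 1) + 2 ^ k := by
      rcases Nat.lt_or_ge (dd f a) (k + 1) with h7 | h7
      · have h8 : 2 ^ dd f a ≤ 2 ^ k := Nat.pow_le_pow_right (by omega) (by omega)
        have h9 : 2 ^ dd f b ≤ 2 ^ (k + 1) := Nat.pow_le_pow_right (by omega) (by omega)
        omega
      · have h10 : dd f b ≤ k := by
          unfold dd cd at hab
          omega
        have h8 : 2 ^ dd f b ≤ 2 ^ k := Nat.pow_le_pow_right (by omega) h10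
        have h9 : 2 ^ dd f a ≤ 2 ^ (k + 1) := Nat.pow_le_pow_right (by omega) (by omega)
        omega
    rw [pow_succ] at h6
    omega
  · have h5 := TW_odd k
    rw [← hk, show k + 2 = (k + 1) + 1 by ring, pow_succ] at h5
    have h8 : 2 ^ dd f a ≤ 2 ^ k := Nat.pow_le_pow_right (by omega) (by omega)
    have h9 : 2 ^ dd f b ≤ 2 ^ k := Nat.pow_le_pow_right (by omega) (by omega)
    rw [pow_succ] at h5 hN
    omega

theorem cover_of_sol (hn : 3 ≤ n) {N : ℕ} (h : ∀ p : Fin n → ℕ, ∑ v, p v = N → Sol p) :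
    CoverProp (SimpleGraph.cycleGraph n) N := by
  intro p hp
  obtain ⟨q, hq, a, b, hab, hz⟩ := h p hp
  exact ⟨q, hq, _, strongHub_of hn hab, fun v hv => hz v hv.1 hv.2⟩

theorem even_case (k : ℕ) (hk : 2 ≤ k) :
    IsLeast {t | CoverProp (SimpleGraph.cycleGraph (2 * k)) t} (2 ^ k + 2 ^ (k - 1) - 3) := by
  obtain ⟨r, rfl⟩ : ∃ r, k = r + 2 := ⟨k - 2, by omega⟩
  have e1 : 2 ^ (r + 2) = 2 * 2 ^ (r + 1) := by ring
  have e2 : r + 2 - 1 = r + 1 := by omega
  have e3 : 2 ≤ 2 ^ (r + 1) := by
    rw [pow_succ]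
    have := Nat.two_pow_pos r
    omega
  rw [e2, e1]
  constructor
  · apply cover_of_sol (by omega)
    intro p hp
    exact upper (by omega) (Or.inl ⟨r, by ring, by omega⟩) p hp
  · intro t ht
    exact lower (by omega) (Or.inl ⟨r + 1, by ring, by omega⟩) t ht

theorem odd_case (k : ℕ) (hk : 1 ≤ k) :
    IsLeast {t | CoverProp (SimpleGraph.cycleGraph (2 * k + 1)) t} (2 ^ (k + 1) - 3) := by
  have e3 : 2 ≤ 2 ^ k := by
    calc 2 = 2 ^ 1 := by norm_num
      _ ≤ 2 ^ k := Nat.pow_le_pow_right (by omega) hk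
  constructor
  · apply cover_of_sol (by omega)
    intro p hp
    rcases Nat.lt_or_ge k 2 with h1 | h1
    · have hk1 : k = 1 := by omega
      subst hk1
      exact upper3 p (by rw [hp]; norm_num)
    · obtain ⟨r, rfl⟩ : ∃ r, k = r + 2 := ⟨k - 2, by omega⟩
      have e4 : 2 ^ (r + 2 + 1) - 3 + 3 = 2 ^ (r + 3) := by
        have e5 : 2 ^ (r + 2 + 1) = 2 * 2 ^ (r + 2) := by ring
        have e6 : 2 ^ (r + 3) = 2 * 2 ^ (r + 2) := by ring
        rw [e5]
        omega
      exact upper (by omega) (Or.inr ⟨r, by ring, e4⟩) p hp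
  · intro t ht
    rw [pow_succ]
    exact lower (by omega) (Or.inr ⟨k, rfl, by rw [pow_succ]; omega⟩) t ht

end Pool.Agent.R98.Hub
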