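import Pool.Agent.R98.HubPeb

/-! Extremal fillings and the level sets of the charges. -/

namespace Pool.Agent.R98.Hub

open Finset

variable {n : ℕ}

/-- a potential encoding the lexicographic order of the numbers of fillings at distance 1, 2, … -/
def pot (s : Fin n → Fin n) : ℕ := ∑ t, if s t = t then 0 else (n + 1) ^ (n - dd (s t) t)

/-- the exchange property of an extremal filling -/
def Ex (p : Fin n → ℕ) (s : Fin n → Fin n) : Prop :=
  ∀ f t, p t = 0 → f ≠ t → (s t = t ∨ dd f t < dd (s t) t) → p f ≤ lc s f (dd f t) + 2 ^ dd f t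

theorem exists_ex (p : Fin n → ℕ) : ∃ s, Feas p s ∧ Ex p s := by
  classical
  obtain ⟨s, hs, hmax⟩ := Finset.exists_max_image
    (univ.filter (fun s : Fin n → Fin n => Feas p s)) pot
    ⟨fun x => x, by simp [Feas]⟩
  rw [Finset.mem_filter] at hs
  have hfeas := hs.2
  refine ⟨s, hfeas, ?_⟩
  intro f t hpt hft hst
  by_contra hcon
  push Not at hcon
  set i := dd f t with hi
  obtain ⟨s', hs'⟩ : ∃ s' : Fin n → Fin n, s' = fun u => if u = t then f else
    if dd (s u) u ≤ i then s u else u := ⟨_, rfl⟩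
  have hs1 : s' t = f := by rw [hs']; simp
  have hs2 : ∀ u, u ≠ t → dd (s u) u ≤ i → s' u = s u := by
    intro u h1 h2; rw [hs']; simp only [if_neg h1, if_pos h2]
  have hs3 : ∀ u, u ≠ t → ¬ dd (s u) u ≤ i → s' u = u := by
    intro u h1 h2; rw [hs']; simp only [if_neg h1, if_neg h2]
  have hcost : ∀ g, cost s' g ≤ (if g = f then 2 ^ i else 0) + lc s g i := by
    intro g
    have e : (if g = f then 2 ^ i else 0) = ∑ u : Fin n, if u = t then (if g = f then 2 ^ i else 0) else 0 := by
      simp
    rw [e]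
    unfold cost lc
    rw [← Finset.sum_add_distrib]
    apply Finset.sum_le_sum
    intro u _
    by_cases hu : u = t
    · rw [hu, hs1, if_pos rfl]
      by_cases hg : f = g
      · subst hg
        simp [hft.symm, hi]
      · rw [if_neg (fun h => hg h.1)]
        exact Nat.zero_le _
    · rw [if_neg hu]
      by_cases h1 : dd (s u) u ≤ i
      · rw [hs2 u hu h1]
        by_cases h2 : s u = g ∧ u ≠ g
        · rw [if_pos h2, if_pos ⟨h2.1, h2.2, by rw [← h2.1]; exact h1⟩]
          omega
        · rw [if_neg h2]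
          exact Nat.zero_le _
      · rw [hs3 u hu h1]
        rw [if_neg (fun h => h.2 h.1)]
        exact Nat.zero_le _
  have hfeas' : Feas p s' := by
    intro u hu
    by_cases hut : u = t
    · subst hut
      refine ⟨hpt, ?_⟩
      rw [hs1]
      have := hcost f
      simp only [if_true] at this
      omega
    · by_cases h2 : dd (s u) u ≤ i
      · rw [hs2 u hut h2] at hu ⊢
        obtain ⟨h3, h4⟩ := hfeas u hu
        refine ⟨h3, ?_⟩
        have h5 := hcost (s u)
        by_cases h6 : s u = f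
        · rw [if_pos h6] at h5
          rw [h6] at h5 ⊢
          omega
        · rw [if_neg h6] at h5
          have := lc_le_cost s (s u) i
          omega
      · exact absurd (hs3 u hut h2) hu
  have hlt : i < n := by
    have h1 := dd_le f t
    have h2 := f.isLt
    rw [← hi] at h1
    omega
  have hpot : pot s < pot s' := by
    have h1 : pot s + (n + 1) ^ (n - i) ≤ pot s' + n * (n + 1) ^ (n - i - 1) := by
      have e1 : (n + 1) ^ (n - i) = ∑ u : Fin n, if u = t then (n + 1) ^ (n - i) else 0 := by simp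
      have e2 : n * (n + 1) ^ (n - i - 1) = ∑ u : Fin n, (n + 1) ^ (n - i - 1) := by simp
      rw [e1, e2]
      unfold pot
      rw [← Finset.sum_add_distrib, ← Finset.sum_add_distrib]
      apply Finset.sum_le_sum
      intro u _
      have hbig : i < dd (s u) u → (n + 1) ^ (n - dd (s u) u) ≤ (n + 1) ^ (n - i - 1) := by
        intro h
        apply Nat.pow_le_pow_right (by omega)
        omega
      by_cases hu : u = t
      · rw [if_pos hu]
        have h2 : (if s u = u then 0 else (n + 1) ^ (n - dd (s u) u)) ≤ (n + 1) ^ (n - i - 1) := by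
          split_ifs with h3
          · exact Nat.zero_le _
          · apply hbig
            rcases hst with h4 | h4
            · rw [hu] at h3; exact absurd h4 h3
            · rw [hu]; exact h4
        rw [hu] at h2 ⊢
        rw [hs1, if_neg hft, ← hi]
        omega
      · rw [if_neg hu]
        by_cases h3 : dd (s u) u ≤ i
        · rw [hs2 u hu h3]; omega
        · rw [hs3 u hu h3, if_pos rfl]
          split_ifs with h4
          · exact Nat.zero_le _
          · have := hbig (by omega)
            omega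
    have h2 : (n + 1) ^ (n - i) = n * (n + 1) ^ (n - i - 1) + (n + 1) ^ (n - i - 1) := by
      have : n - i = (n - i - 1) + 1 := by omega
      conv_lhs => rw [this, pow_succ]
      ring
    have h3 : 0 < (n + 1) ^ (n - i - 1) := Nat.pow_pos (by omega)
    omega
  have := hmax s' (by rw [Finset.mem_filter]; exact ⟨Finset.mem_univ _, hfeas'⟩)
  omega

/-- the charge of a vertex -/
def ch (p : Fin n → ℕ) (s : Fin n → Fin n) (v : Fin n) : ℕ :=
  (p v - cost s v) + (if s v = v then 0 else 2 ^ dd (s v) v)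

theorem sum_ch {p : Fin n → ℕ} {s : Fin n → Fin n} (hf : Feas p s) :
    ∑ v, ch p s v = ∑ v, p v := by
  unfold ch
  rw [Finset.sum_add_distrib]
  have h1 : ∑ v, cost s v = ∑ v, if s v = v then 0 else 2 ^ dd (s v) v := by
    unfold cost
    rw [Finset.sum_comm]
    apply Finset.sum_congr rfl
    intro t _
    rw [Finset.sum_eq_single (s t)]
    · by_cases h : s t = t
      · rw [if_neg (fun h' => h'.2 h.symm), if_pos h]
      · rw [if_pos ⟨rfl, fun h' => h h'.symm⟩, if_neg h]
    · intro b _ hb
      rw [if_neg (fun h' => hb h'.1.symm)]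
    · intro h; exact absurd (Finset.mem_univ _) h
  rw [← h1, ← Finset.sum_add_distrib]
  apply Finset.sum_congr rfl
  intro v _
  have := cost_le hf v
  omega

/-- the vertices with charge more than `2^j` -/
def HH (p : Fin n → ℕ) (s : Fin n → Fin n) (j : ℕ) : Finset (Fin n) :=
  univ.filter (fun v => 2 ^ j < ch p s v)

/-- active at level `j` -/
def isA (p : Fin n → ℕ) (s : Fin n → Fin n) (j : ℕ) (f : Fin n) : Prop := lc s f j + 2 ^ j < p f

/-- thin at level `j` -/
def isT (p : Fin n → ℕ) (s : Fin n → Fin n) (j : ℕ) (t : Fin n) : Prop :=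
  p t = 0 ∧ (s t = t ∨ j < dd (s t) t)

/-- the vertices that remain empty -/
def TT (p : Fin n → ℕ) (s : Fin n → Fin n) : Finset (Fin n) :=
  univ.filter (fun t => p t = 0 ∧ s t = t)

theorem mem_TT {p : Fin n → ℕ} {s : Fin n → Fin n} {t : Fin n} :
    t ∈ TT p s ↔ p t = 0 ∧ s t = t := by simp [TT]

theorem mem_HH {p : Fin n → ℕ} {s : Fin n → Fin n} {j : ℕ} {t : Fin n} :
    t ∈ HH p s j ↔ 2 ^ j < ch p s t := by simp [HH]

theorem isT_of_TT {p : Fin n → ℕ} {s : Fin n → Fin n} {t : Fin n} (h : t ∈ TT p s) (j : ℕ) :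
    isT p s j t := by
  rw [mem_TT] at h
  exact ⟨h.1, Or.inl h.2⟩

theorem sep {p : Fin n → ℕ} {s : Fin n → Fin n} (he : Ex p s) {j : ℕ} {f t : Fin n}
    (hA : isA p s j f) (hT : isT p s j t) : j < dd f t := by
  by_contra h
  push Not at h
  have hft : f ≠ t := by
    rintro rfl
    have h1 := hT.1
    unfold isA at hA
    have := Nat.two_pow_pos j
    omega
  have h1 := he f t hT.1 hft (by
    rcases hT.2 with h2 | h2
    · exact Or.inl h2
    · exact Or.inr (by omega))
  have h2 := lc_mono s f h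
  have h3 : 2 ^ dd f t ≤ 2 ^ j := Nat.pow_le_pow_right (by omega) h
  unfold isA at hA
  omega

theorem filler_strong {p : Fin n → ℕ} {s : Fin n → Fin n} (hf : Feas p s) {v : Fin n}
    (hv : s v ≠ v) {i : ℕ} (hi : i < dd (s v) v) : lc s (s v) i + 2 ^ dd (s v) v < p (s v) := by
  have h1 := (hf v hv).2
  have h2 : lc s (s v) i + 2 ^ dd (s v) v ≤ cost s (s v) := by
    have e : 2 ^ dd (s v) v = ∑ u : Fin n, if u = v then 2 ^ dd (s v) v else 0 := by simp
    rw [e]
    unfold lc cost
    rw [← Finset.sum_add_distrib]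
    apply Finset.sum_le_sum
    intro u _
    by_cases hu : u = v
    · subst hu
      rw [if_neg (fun h => absurd h.2.2 (by omega)), if_pos rfl, if_pos ⟨rfl, hv.symm⟩]
      omega
    · rw [if_neg hu, add_zero]
      split_ifs with h3 h4 h4
      · exact le_rfl
      · exact absurd ⟨h3.1, h3.2.1⟩ h4
      · exact Nat.zero_le _
      · exact le_rfl
  omega

theorem filler {p : Fin n → ℕ} {s : Fin n → Fin n} (hf : Feas p s) {v : Fin n}
    (hv : s v ≠ v) {j : ℕ} (hj : j < dd (s v) v) : isA p s j (s v) := by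
  have h1 := filler_strong hf hv hj
  have h2 : 2 ^ j < 2 ^ dd (s v) v := Nat.pow_lt_pow_right (by omega) hj
  unfold isA
  omega

theorem H_cases {p : Fin n → ℕ} {s : Fin n → Fin n} (hf : Feas p s) {j : ℕ} {v : Fin n}
    (h : v ∈ HH p s j) : isA p s j v ∨ (isT p s j v ∧ s v ≠ v ∧ j < dd (s v) v) := by
  rw [mem_HH] at h
  unfold ch at h
  by_cases hv : s v = v
  · left
    rw [if_pos hv] at h
    have := lc_le_cost s v j
    have := Nat.two_pow_pos j
    unfold isA
    omega
  · right
    rw [if_neg hv, (hf v hv).1] at h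
    have h1 : j < dd (s v) v := by
      have h2 : 2 ^ j < 2 ^ dd (s v) v := by omega
      exact (Nat.pow_lt_pow_iff_right (by omega)).1 h2
    exact ⟨⟨(hf v hv).1, Or.inr h1⟩, hv, h1⟩

theorem A_of_H {p : Fin n → ℕ} {s : Fin n → Fin n} (hf : Feas p s) {j : ℕ} {v : Fin n}
    (h : v ∈ HH p s j) : ∃ f, isA p s j f := by
  rcases H_cases hf h with h1 | h1
  · exact ⟨v, h1⟩
  · exact ⟨s v, filler hf h1.2.1 h1.2.2⟩

theorem ch_TT {p : Fin n → ℕ} {s : Fin n → Fin n} {t : Fin n} (h : t ∈ TT p s) : ch p s t = 0 := by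
  rw [mem_TT] at h
  unfold ch
  rw [if_pos h.2, h.1]
  simp

/-- the gap lemma -/
theorem gap (P Q : ℕ → Prop) [DecidablePred P] [DecidablePred Q] (j : ℕ) :
    ∀ (m l r : ℕ), r - l = m → l < r → P l → Q r →
    (∀ i k, l ≤ i → i < k → k ≤ r → P i → Q k → j < k - i) →
    j ≤ ((Ioo l r).filter (fun i => ¬ P i ∧ ¬ Q i)).card := by
  intro m
  induction m using Nat.strong_induction_on with
  | _ m ih =>
    intro l r hm hlr hl hr hsep
    by_cases h1 : ∃ i ∈ Ioo l r, P i
    · obtain ⟨i, hi, hPi⟩ := h1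
      rw [Finset.mem_Ioo] at hi
      have := ih (r - i) (by omega) i r rfl hi.2 hPi hr
        (fun a b ha hab hb => hsep a b (by omega) hab hb)
      refine this.trans (Finset.card_le_card ?_)
      apply Finset.filter_subset_filter
      intro x hx
      rw [Finset.mem_Ioo] at hx ⊢
      omega
    · by_cases h2 : ∃ i ∈ Ioo l r, Q i
      · obtain ⟨i, hi, hQi⟩ := h2
        rw [Finset.mem_Ioo] at hi
        have := ih (i - l) (by omega) l i rfl hi.1 hl hQi
          (fun a b ha hab hb => hsep a b ha hab (by omega))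
        refine this.trans (Finset.card_le_card ?_)
        apply Finset.filter_subset_filter
        intro x hx
        rw [Finset.mem_Ioo] at hx ⊢
        omega
      · push Not at h1 h2
        rw [Finset.filter_true_of_mem (fun x hx => ⟨h1 x hx, h2 x hx⟩), Nat.card_Ioo]
        have := hsep l r le_rfl hlr le_rfl hl hr
        omega

/-- a coordinate system on the cycle -/
structure Co (n : ℕ) (v : ℕ → Fin n) : Prop where
  dist : ∀ i k, i ≤ n → k ≤ n → dd (v i) (v k) = cd n i k
  surj : ∀ u, ∃ i, i < n ∧ v i = u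

theorem Co.inj {v : ℕ → Fin n} (hv : Co n v) {i k : ℕ} (hi : i < n) (hk : k < n)
    (h : v i = v k) : i = k := by
  have h1 := hv.dist i k hi.le hk.le
  rw [h, dd_self] at h1
  unfold cd at h1
  omega

theorem Co.per {v : ℕ → Fin n} (hv : Co n v) : v n = v 0 := by
  apply dd_eq_zero
  rw [hv.dist n 0 le_rfl (Nat.zero_le _)]
  unfold cd
  omega

theorem exists_co (o : Fin n) : ∃ v w : ℕ → Fin n, Co n v ∧ Co n w ∧ v 0 = o ∧ w 0 = o ∧
    ∀ i, i ≤ n → w i = v (n - i) := by
  have ho := o.isLt
  have h0 : 0 < n := by omega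
  have key : ∀ i, i ≤ n → ((o : ℕ) + i) % n = if (o : ℕ) + i < n then (o : ℕ) + i else o + i - n := by
    intro i hi
    split_ifs with h
    · exact Nat.mod_eq_of_lt h
    · rw [Nat.mod_eq_sub_mod (by omega), Nat.mod_eq_of_lt (by omega)]
  obtain ⟨v, hvd⟩ : ∃ v : ℕ → Fin n, v = fun i => ⟨((o : ℕ) + i) % n, Nat.mod_lt _ h0⟩ := ⟨_, rfl⟩
  obtain ⟨w, hwd⟩ : ∃ w : ℕ → Fin n, w = fun i => ⟨((o : ℕ) + (n - i)) % n, Nat.mod_lt _ h0⟩ :=
    ⟨_, rfl⟩
  have hv1 : ∀ i, i ≤ n → ((v i : Fin n) : ℕ) = if (o : ℕ) + i < n then (o : ℕ) + i else o + i - n := by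
    intro i hi
    rw [hvd]
    exact key i hi
  have hw1 : ∀ i, ((w i : Fin n) : ℕ) = if (o : ℕ) + (n - i) < n then (o : ℕ) + (n - i)
      else o + (n - i) - n := by
    intro i
    rw [hwd]
    exact key (n - i) (by omega)
  refine ⟨v, w, ⟨?_, ?_⟩, ⟨?_, ?_⟩, ?_, ?_, ?_⟩
  · intro i k hi hk
    unfold dd
    rw [hv1 i hi, hv1 k hk]
    unfold cd
    split_ifs <;> omega
  · intro u
    have hu := u.isLt
    by_cases h : (o : ℕ) ≤ u
    · refine ⟨u - o, by omega, ?_⟩
      apply Fin.ext
      rw [hv1 _ (by omega)]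
      split_ifs <;> omega
    · refine ⟨n + u - o, by omega, ?_⟩
      apply Fin.ext
      rw [hv1 _ (by omega)]
      split_ifs <;> omega
  · intro i k hi hk
    unfold dd
    rw [hw1 i, hw1 k]
    unfold cd
    split_ifs <;> omega
  · intro u
    have hu := u.isLt
    by_cases h : (u : ℕ) ≤ o
    · refine ⟨o - u, by omega, ?_⟩
      apply Fin.ext
      rw [hw1]
      split_ifs <;> omega
    · refine ⟨n + o - u, by omega, ?_⟩
      apply Fin.ext
      rw [hw1]
      split_ifs <;> omega
  · apply Fin.ext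
    rw [hv1 0 (by omega)]
    split_ifs <;> omega
  · apply Fin.ext
    rw [hw1]
    split_ifs <;> omega
  · intro i hi
    rw [hwd, hvd]

/-- the number of indices in a gap on both sides of an active vertex -/
theorem low {p : Fin n → ℕ} {s : Fin n → Fin n} (he : Ex p s) {v : ℕ → Fin n} (hv : Co n v)
    {j l a r : ℕ} (hla : l < a) (har : a < r) (hrn : r ≤ n) (hl : isT p s j (v l))
    (hr : isT p s j (v r)) (ha : isA p s j (v a)) [DecidablePred (isA p s j)]
    [DecidablePred (isT p s j)] :
    j ≤ ((Ioo l a).filter (fun i => ¬ isA p s j (v i) ∧ ¬ isT p s j (v i))).card ∧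
    j ≤ ((Ioo a r).filter (fun i => ¬ isA p s j (v i) ∧ ¬ isT p s j (v i))).card := by
  have hc : ∀ i k, i < k → k ≤ n → dd (v i) (v k) ≤ k - i := by
    intro i k h1 h2
    rw [hv.dist i k (by omega) h2]
    unfold cd
    omega
  constructor
  · have := gap (fun i => isT p s j (v i)) (fun i => isA p s j (v i)) j (a - l) l a rfl hla hl ha
      (by
        intro i k h1 h2 h3 h4 h5
        have h6 := sep he h5 h4
        rw [dd_comm] at h6
        have h7 := hc i k h2 (by omega)
        omega)
    refine this.trans (le_of_eq ?_)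
    congr 1
    apply Finset.filter_congr
    intro x _
    tauto
  · have := gap (fun i => isA p s j (v i)) (fun i => isT p s j (v i)) j (r - a) a r rfl har ha hr
      (by
        intro i k h1 h2 h3 h4 h5
        have h6 := sep he h4 h5
        have h7 := hc i k h2 (by omega)
        omega)
    exact this

theorem low2 {p : Fin n → ℕ} {s : Fin n → Fin n} (he : Ex p s) {v : ℕ → Fin n} (hv : Co n v)
    {j l a r : ℕ} (hla : l < a) (har : a < r) (hrn : r ≤ n) (hl : isT p s j (v l))
    (hr : isT p s j (v r)) (ha : isA p s j (v a)) [DecidablePred (isA p s j)]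
    [DecidablePred (isT p s j)] :
    2 * j ≤ ((Ioo l r).filter (fun i => ¬ isA p s j (v i) ∧ ¬ isT p s j (v i))).card := by
  obtain ⟨h1, h2⟩ := low he hv hla har hrn hl hr ha
  have h3 : ((Ioo l a).filter (fun i => ¬ isA p s j (v i) ∧ ¬ isT p s j (v i))) ∪
      ((Ioo a r).filter (fun i => ¬ isA p s j (v i) ∧ ¬ isT p s j (v i))) ⊆
      ((Ioo l r).filter (fun i => ¬ isA p s j (v i) ∧ ¬ isT p s j (v i))) := by
    intro x hx
    rw [Finset.mem_union, Finset.mem_filter, Finset.mem_filter, Finset.mem_Ioo,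
      Finset.mem_Ioo] at hx
    rw [Finset.mem_filter, Finset.mem_Ioo]
    rcases hx with hx | hx
    · exact ⟨by omega, hx.2⟩
    · exact ⟨by omega, hx.2⟩
  have h4 := Finset.card_le_card h3
  rw [Finset.card_union_of_disjoint] at h4
  · omega
  · rw [Finset.disjoint_left]
    intro x hx hy
    rw [Finset.mem_filter, Finset.mem_Ioo] at hx hy
    omega

theorem not_H_of_low {p : Fin n → ℕ} {s : Fin n → Fin n} (hf : Feas p s) {j : ℕ} {v : Fin n}
    (h : ¬ isA p s j v ∧ ¬ isT p s j v) : v ∉ HH p s j := by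
  intro h1
  rcases H_cases hf h1 with h2 | h2
  · exact h.1 h2
  · exact h.2 h2.1

theorem count {p : Fin n → ℕ} {s : Fin n → Fin n} {v : ℕ → Fin n}
    (hv : Co n v) {j : ℕ} (S : Finset ℕ) (hS : ∀ i ∈ S, i < n)
    (h1 : ∀ i ∈ S, v i ∉ HH p s j) (h2 : ∀ i ∈ S, v i ∉ TT p s) :
    (HH p s j).card + (TT p s).card + S.card ≤ n := by
  classical
  have h3 : (S.image v).card = S.card := by
    apply Finset.card_image_of_injOn
    intro a ha b hb hab
    exact hv.inj (hS a ha) (hS b hb) hab
  have h4 : Disjoint (HH p s j) (TT p s) := by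
    rw [Finset.disjoint_left]
    intro a ha hb
    rw [mem_HH, ch_TT hb] at ha
    have := Nat.two_pow_pos j
    omega
  have h5 : Disjoint (HH p s j ∪ TT p s) (S.image v) := by
    rw [Finset.disjoint_left]
    intro a ha hb
    rw [Finset.mem_image] at hb
    obtain ⟨i, hi, rfl⟩ := hb
    rw [Finset.mem_union] at ha
    rcases ha with ha | ha
    · exact h1 i hi ha
    · exact h2 i hi ha
  have h6 := Finset.card_le_univ ((HH p s j ∪ TT p s) ∪ (S.image v))
  rw [Finset.card_union_of_disjoint h5, Finset.card_union_of_disjoint h4, h3,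
    Fintype.card_fin] at h6
  exact h6

/-- the level lemma -/
theorem level {p : Fin n → ℕ} {s : Fin n → Fin n} (hf : Feas p s) (he : Ex p s)
    (hT : (TT p s).Nonempty) {j : ℕ} (hA : ∃ f, isA p s j f) :
    (HH p s j).card + (TT p s).card + 2 * j ≤ n := by
  classical
  obtain ⟨t, ht⟩ := hT
  obtain ⟨f, hfA⟩ := hA
  obtain ⟨v, -, hv, -, hv0, -, -⟩ := exists_co t
  obtain ⟨a, ha, hva⟩ := hv.surj f
  have ha0 : 0 < a := by
    rcases Nat.eq_zero_or_pos a with h | h
    · exfalso
      rw [h, hv0] at hva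
      rw [← hva] at hfA
      rw [mem_TT] at ht
      unfold isA at hfA
      have := Nat.two_pow_pos j
      omega
    · exact h
  have h1 := low2 he hv (j := j) ha0 ha le_rfl (by rw [hv0]; exact isT_of_TT ht j)
    (by rw [hv.per, hv0]; exact isT_of_TT ht j) (by rw [hva]; exact hfA)
  have h2 := count (p := p) (s := s) hv (j := j)
    ((Ioo 0 n).filter (fun i => ¬ isA p s j (v i) ∧ ¬ isT p s j (v i)))
    (by intro i hi; rw [Finset.mem_filter, Finset.mem_Ioo] at hi; exact hi.1.2)
    (by intro i hi; rw [Finset.mem_filter] at hi; exact not_H_of_low hf hi.2)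
    (by
      intro i hi h
      rw [Finset.mem_filter] at hi
      exact hi.2.2 (isT_of_TT h j))
  omega

end Pool.Agent.R98.Hub
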