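import Pool.Agent.R98.HubSum

/-! The upper bound. -/

namespace Pool.Agent.R98.Hub

open Finset

variable {n : ℕ}

theorem ch_le {p : Fin n → ℕ} {s : Fin n → Fin n} (hf : Feas p s) (v : Fin n) :
    ch p s v ≤ ∑ v, p v := by
  rw [← sum_ch hf]
  exact Finset.single_le_sum (f := ch p s) (fun _ _ => Nat.zero_le _) (Finset.mem_univ v)

theorem chain {p : Fin n → ℕ} {s : Fin n → Fin n} (hf : Feas p s) {M : ℕ}
    (hM : ∑ v, p v ≤ 2 ^ M) : ∀ v, ch p s v ≤ Lay M (ch p s v) :=
  fun v => le_Lay M _ ((ch_le hf v).trans hM)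

theorem pos_card (p : Fin n → ℕ) (s : Fin n → Fin n) :
    (univ.filter (fun v => 0 < ch p s v)).card + (TT p s).card ≤ n := by
  classical
  have h : Disjoint (univ.filter (fun v => 0 < ch p s v)) (TT p s) := by
    rw [Finset.disjoint_left]
    intro a ha hb
    rw [Finset.mem_filter, ch_TT hb] at ha
    exact absurd ha.2 (lt_irrefl _)
  have h6 := Finset.card_le_univ (univ.filter (fun v => 0 < ch p s v) ∪ TT p s)
  rw [Finset.card_union_of_disjoint h, Fintype.card_fin] at h6
  exact h6

theorem HH_empty {p : Fin n → ℕ} {s : Fin n → Fin n} (hf : Feas p s) {j : ℕ}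
    (h : ¬ ∃ f, isA p s j f) : (HH p s j).card = 0 := by
  rw [Finset.card_eq_zero]
  by_contra h1
  obtain ⟨v, hv⟩ := Finset.nonempty_iff_ne_empty.2 h1
  exact h (A_of_H hf hv)

theorem caseBig {p : Fin n → ℕ} {s : Fin n → Fin n} (hf : Feas p s) (he : Ex p s)
    (h3 : 3 ≤ (TT p s).card) {N : ℕ} (hsum : ∑ v, p v = N)
    (hG : ∀ M, (n - 3) + G (n - 3) M + 1 ≤ N) : False := by
  have h1 : ∑ v, p v ≤ ∑ v, Lay N (ch p s v) := by
    rw [← sum_ch hf]
    apply Finset.sum_le_sum
    intro v _
    apply chain hf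
    rw [hsum]
    exact Nat.lt_two_pow_self.le
  rw [sum_Lay, hsum] at h1
  have h2 := pos_card p s
  have h4 : ∑ j ∈ range N, 2 ^ j * (HH p s j).card ≤ G (n - 3) N := by
    unfold G
    apply Finset.sum_le_sum
    intro j _
    apply Nat.mul_le_mul_left
    by_cases hA : ∃ f, isA p s j f
    · have := level hf he (Finset.card_pos.1 (by omega)) hA
      omega
    · rw [HH_empty hf hA]
      exact Nat.zero_le _
  have h5 := hG N
  omega

theorem arcB {p : Fin n → ℕ} {s : Fin n → Fin n} (hf : Feas p s) (he : Ex p s)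
    {v : ℕ → Fin n} (hv : Co n v) {j l i r : ℕ} (hl : v l ∈ TT p s) (hr : v r ∈ TT p s)
    (hli : l < i) (hir : i < r) (hrn : r ≤ n) (hi : v i ∈ HH p s j) :
    ∃ a ∈ Ioo l r, isA p s j (v a) := by
  rcases H_cases hf hi with h1 | ⟨-, h2, h3⟩
  · exact ⟨i, by rw [Finset.mem_Ioo]; exact ⟨hli, hir⟩, h1⟩
  · obtain ⟨m, hm, hvm⟩ := hv.surj (s (v i))
    refine ⟨m, ?_, by rw [hvm]; exact filler hf h2 h3⟩
    rw [Finset.mem_Ioo]
    by_contra hcon
    have h4 := FP hf he h2 hl
    have h5 := FP hf he h2 hr
    rw [← hvm, hv.dist m i hm.le (by omega), hv.dist m l hm.le (by omega)] at h4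
    rw [← hvm, hv.dist m i hm.le (by omega), hv.dist m r hm.le (by omega)] at h5
    have h6 := filler_big hf h2
    have h7 : m ≠ l := by
      rintro rfl
      rw [hvm, mem_TT] at hl
      omega
    unfold cd at h4 h5
    omega

theorem arcCount {p : Fin n → ℕ} {s : Fin n → Fin n} (hf : Feas p s) (he : Ex p s)
    {v : ℕ → Fin n} (hv : Co n v) {j l r : ℕ} (hl : v l ∈ TT p s) (hr : v r ∈ TT p s)
    (hrn : r ≤ n) : ((∃ a ∈ Ioo l r, isA p s j (v a)) →
      2 * j ≤ ((Ioo l r).filter (fun i => v i ∉ HH p s j)).card) ∧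
      ((¬ ∃ a ∈ Ioo l r, isA p s j (v a)) →
      r - l - 1 ≤ ((Ioo l r).filter (fun i => v i ∉ HH p s j)).card) := by
  classical
  constructor
  · rintro ⟨a, ha, hA⟩
    rw [Finset.mem_Ioo] at ha
    have h1 := low2 he hv ha.1 ha.2 hrn (isT_of_TT hl j) (isT_of_TT hr j) hA
    refine h1.trans (Finset.card_le_card ?_)
    intro x hx
    rw [Finset.mem_filter] at hx ⊢
    exact ⟨hx.1, not_H_of_low hf hx.2⟩
  · intro h
    rw [Finset.filter_true_of_mem, Nat.card_Ioo]
    intro i hi hiH
    rw [Finset.mem_Ioo] at hi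
    exact h (arcB hf he hv hl hr hi.1 hi.2 hrn hiH)

theorem caseA {p : Fin n → ℕ} {s : Fin n → Fin n} (hf : Feas p s) (he : Ex p s)
    {v : ℕ → Fin n} (hv : Co n v) {k : ℕ} (hk1 : 3 ≤ k) (hk2 : k + 3 ≤ n)
    (h0 : v 0 ∈ TT p s) (hk : v k ∈ TT p s) (hT : (TT p s).card = 2)
    {N : ℕ} (hsum : ∑ v, p v = N)
    (hG : ∀ M, (n - 4) + G (n - 4) M + 4 < N) : False := by
  classical
  have hH : ∀ j, 1 ≤ j → (HH p s j).card ≤ n - 4 - 2 * j := by
    intro j hj
    by_cases hA : ∃ f, isA p s j f
    · obtain ⟨f, hfA⟩ := hA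
      obtain ⟨a, ha, hva⟩ := hv.surj f
      have hpf : 0 < p f := by
        have := Nat.two_pow_pos j
        unfold isA at hfA; omega
      have ha0 : a ≠ 0 := by
        rintro rfl
        rw [hva, mem_TT] at h0
        omega
      have hak : a ≠ k := by
        rintro rfl
        rw [hva, mem_TT] at hk
        omega
      have hn0 : v n ∈ TT p s := by rw [hv.per]; exact h0
      obtain ⟨c1, c2⟩ := arcCount hf he hv (j := j) h0 hk (by omega)
      obtain ⟨c3, c4⟩ := arcCount hf he hv (j := j) hk hn0 le_rfl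
      have h1 := count (p := p) (s := s) hv (j := j)
        (((Ioo 0 k).filter (fun i => v i ∉ HH p s j)) ∪ ((Ioo k n).filter (fun i => v i ∉ HH p s j)))
        (by
          intro i hi
          rw [Finset.mem_union, Finset.mem_filter, Finset.mem_filter, Finset.mem_Ioo,
            Finset.mem_Ioo] at hi
          omega)
        (by
          intro i hi
          rw [Finset.mem_union, Finset.mem_filter, Finset.mem_filter] at hi
          rcases hi with hi | hi <;> exact hi.2)
        (by
          intro i hi hiT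
          rw [Finset.mem_union, Finset.mem_filter, Finset.mem_filter, Finset.mem_Ioo,
            Finset.mem_Ioo] at hi
          have h2 : ({v 0, v k, v i} : Finset (Fin n)) ⊆ TT p s := by
            intro x hx
            simp only [Finset.mem_insert, Finset.mem_singleton] at hx
            rcases hx with rfl | rfl | rfl
            · exact h0
            · exact hk
            · exact hiT
          have h3 := Finset.card_le_card h2
          have hin : i < n := by omega
          have h4 : v 0 ≠ v k := fun h => by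
            have := hv.inj (by omega) (by omega) h
            omega
          have h5 : v 0 ≠ v i := fun h => by
            have := hv.inj (by omega) (by omega) h
            omega
          have h6 : v k ≠ v i := fun h => by
            have := hv.inj (by omega) (by omega) h
            omega
          rw [Finset.card_eq_three.2 ⟨v 0, v k, v i, h4, h5, h6, rfl⟩] at h3
          omega)
      rw [Finset.card_union_of_disjoint (by
        rw [Finset.disjoint_left]
        intro x hx hy
        rw [Finset.mem_filter, Finset.mem_Ioo] at hx hy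
        omega)] at h1
      by_cases e1 : ∃ a ∈ Ioo 0 k, isA p s j (v a)
      · have d1 := c1 e1
        by_cases e2 : ∃ a ∈ Ioo k n, isA p s j (v a)
        · have d2 := c3 e2
          omega
        · have d2 := c4 e2
          omega
      · have d1 := c2 e1
        have e2 : ∃ a ∈ Ioo k n, isA p s j (v a) := by
          refine ⟨a, ?_, by rw [hva]; exact hfA⟩
          rw [Finset.mem_Ioo]
          by_contra hcon
          apply e1
          refine ⟨a, ?_, by rw [hva]; exact hfA⟩
          rw [Finset.mem_Ioo]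
          omega
        have d2 := c3 e2
        omega
    · rw [HH_empty hf hA]
      exact Nat.zero_le _
  have h1 : ∑ v, p v ≤ ∑ v, Lay (N + 1) (ch p s v) := by
    rw [← sum_ch hf]
    apply Finset.sum_le_sum
    intro v _
    apply chain hf
    rw [hsum]
    exact Nat.lt_two_pow_self.le.trans (Nat.pow_le_pow_right (by omega) (by omega))
  rw [sum_Lay, hsum, Finset.sum_range_succ'] at h1
  have h2 := pos_card p s
  have h3 : (HH p s 0).card ≤ (univ.filter (fun v => 0 < ch p s v)).card := by
    apply Finset.card_le_card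
    intro x hx
    rw [mem_HH] at hx
    rw [Finset.mem_filter]
    exact ⟨Finset.mem_univ _, by omega⟩
  have h4 : ∑ j ∈ range N, 2 ^ (j + 1) * (HH p s (j + 1)).card ≤
      ∑ j ∈ range N, 2 ^ (j + 1) * (n - 4 - 2 * (j + 1)) := by
    apply Finset.sum_le_sum
    intro j _
    exact Nat.mul_le_mul_left _ (hH (j + 1) (by omega))
  have h5 : G (n - 4) (N + 1) = ∑ j ∈ range N, 2 ^ (j + 1) * (n - 4 - 2 * (j + 1)) +
      2 ^ 0 * (n - 4 - 2 * 0) := by
    unfold G
    rw [Finset.sum_range_succ']
  have h6 := hG (N + 1)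
  rw [h5] at h6
  simp only [pow_zero, one_mul] at h1 h6
  omega

/-- the context of the second endgame: two vertices at distance two remain empty -/
structure BC (p : Fin n → ℕ) (s : Fin n → Fin n) (u : ℕ → Fin n) : Prop where
  hn : 4 ≤ n
  hf : Feas p s
  he : Ex p s
  hns : ¬ Sol p
  co : Co n u
  t1 : u 1 ∈ TT p s
  t2 : u (n - 1) ∈ TT p s
  all : ∀ z ∈ TT p s, z = u 1 ∨ z = u (n - 1)

namespace BC

variable {p : Fin n → ℕ} {s : Fin n → Fin n} {u : ℕ → Fin n}

theorem flip (h : BC p s u) {w : ℕ → Fin n} (hw : Co n w) (hwu : ∀ i, i ≤ n → w i = u (n - i)) :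
    BC p s w := by
  have hn := h.hn
  have e1 : w 1 = u (n - 1) := hwu 1 (by omega)
  have e2 : w (n - 1) = u 1 := by
    rw [hwu (n - 1) (by omega)]
    congr 1
    omega
  refine ⟨h.hn, h.hf, h.he, h.hns, hw, ?_, ?_, ?_⟩
  · rw [e1]; exact h.t2
  · rw [e2]; exact h.t1
  · intro z hz
    rw [e1, e2]
    exact (h.all z hz).symm

theorem idx {i : ℕ} (h : BC p s u) (hi : i < n) (hp : 2 ≤ p (u i)) (h0 : p (u 0) ≤ 1) :
    1 < i ∧ i < n - 1 := by
  have hn := h.hn
  have h1 : i ≠ 0 := by
    rintro rfl
    omega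
  have h2 : i ≠ 1 := by
    rintro rfl
    have := (mem_TT.1 h.t1).1
    omega
  have h3 : i ≠ n - 1 := by
    rintro rfl
    have := (mem_TT.1 h.t2).1
    omega
  omega

theorem o_facts (h : BC p s u) : s (u 0) = u 0 ∧ p (u 0) = 1 ∧ ch p s (u 0) = 1 := by
  have hn := h.hn
  have d01 : dd (u 0) (u 1) = 1 := by
    rw [h.co.dist 0 1 (by omega) (by omega)]; unfold cd; omega
  have d02 : dd (u 0) (u (n - 1)) = 1 := by
    rw [h.co.dist 0 (n - 1) (by omega) (by omega)]; unfold cd; omega
  have hs : s (u 0) = u 0 := by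
    by_contra hcon
    obtain ⟨m, hm, hum⟩ := h.co.surj (s (u 0))
    have h4 := FP h.hf h.he hcon h.t1
    have h5 := FP h.hf h.he hcon h.t2
    have h6 := filler_big h.hf hcon
    rw [← hum, h.co.dist m 0 hm.le (by omega), h.co.dist m 1 hm.le (by omega)] at h4
    rw [← hum, h.co.dist m 0 hm.le (by omega), h.co.dist m (n - 1) hm.le (by omega)] at h5
    have hm0 : m ≠ 0 := by
      rintro rfl
      exact hcon hum.symm
    unfold cd at h4 h5
    omega
  have hp : p (u 0) ≠ 0 := by
    intro h0
    rcases h.all (u 0) (mem_TT.2 ⟨h0, hs⟩) with h1 | h1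
    · rw [← h1, dd_self] at d01; omega
    · rw [← h1, dd_self] at d02; omega
  have hcost : cost s (u 0) = 0 := by
    unfold cost
    apply Finset.sum_eq_zero
    intro x _
    rw [if_neg]
    rintro ⟨hx1, hx2⟩
    have hsx : s x ≠ x := by rw [hx1]; exact hx2.symm
    have h1 := FP h.hf h.he hsx h.t1
    rw [hx1, d01] at h1
    obtain ⟨m, hm, hum⟩ := h.co.surj x
    rw [← hum, h.co.dist 0 m (by omega) hm.le] at h1
    have hm0 : m ≠ 0 := by
      rintro rfl
      exact hx2 hum.symm
    have h2 : m = 1 ∨ m = n - 1 := by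
      unfold cd at h1
      omega
    rcases h2 with h2 | h2
    · rw [← hum, h2] at hsx
      exact hsx (mem_TT.1 h.t1).2
    · rw [← hum, h2] at hsx
      exact hsx (mem_TT.1 h.t2).2
  have hle : p (u 0) ≤ 2 := by
    have h1 := h.he (u 0) (u 1) (mem_TT.1 h.t1).1 (by
      intro h1
      rw [← h1, dd_self] at d01
      omega) (Or.inl (mem_TT.1 h.t1).2)
    have h2 := lc_le_cost s (u 0) (dd (u 0) (u 1))
    rw [d01] at h1 h2
    omega
  have hne : p (u 0) ≠ 2 := by
    intro h2
    apply h.hns
    apply sol_step1 (by omega) h.hf (u 0) (u 1) (u (n - 1)) _ h.all d02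
    rw [d01]
    unfold fin
    rw [hcost, h2]
    omega
  refine ⟨hs, by omega, ?_⟩
  unfold ch
  rw [if_pos hs, hcost]
  omega

theorem cardTT (h : BC p s u) : 2 ≤ (TT p s).card := by
  have hn := h.hn
  have h2 : ({u 1, u (n - 1)} : Finset (Fin n)) ⊆ TT p s := by
    intro x hx
    simp only [Finset.mem_insert, Finset.mem_singleton] at hx
    rcases hx with rfl | rfl
    · exact h.t1
    · exact h.t2
  have h3 := Finset.card_le_card h2
  have h4 : u 1 ≠ u (n - 1) := fun h' => by
    have := h.co.inj (by omega) (by omega) h'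
    omega
  rw [Finset.card_pair h4] at h3
  exact h3

theorem card (h : BC p s u) {j : ℕ} (S : Finset ℕ) (hS : ∀ i ∈ S, 1 < i ∧ i < n - 1)
    (h1 : ∀ i ∈ S, u i ∉ HH p s j) : (HH p s j).card + 3 + S.card ≤ n := by
  have hn := h.hn
  obtain ⟨o1, o2, o3⟩ := h.o_facts
  have h0 : 0 ∉ S := fun h' => by
    have := hS 0 h'
    omega
  have h2 := count (p := p) (s := s) h.co (j := j) (insert 0 S)
    (by
      intro i hi
      rw [Finset.mem_insert] at hi
      rcases hi with rfl | hi
      · omega
      · have := hS i hi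
        omega)
    (by
      intro i hi
      rw [Finset.mem_insert] at hi
      rcases hi with rfl | hi
      · rw [mem_HH, o3]
        have := Nat.two_pow_pos j
        omega
      · exact h1 i hi)
    (by
      intro i hi hiT
      rw [Finset.mem_insert] at hi
      rcases hi with rfl | hi
      · have := (mem_TT.1 hiT).1
        omega
      · have h3 := hS i hi
        rcases h.all _ hiT with h4 | h4
        · have := h.co.inj (by omega) (by omega) h4
          omega
        · have := h.co.inj (by omega) (by omega) h4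
          omega)
  rw [Finset.card_insert_of_notMem h0] at h2
  have h3 := h.cardTT
  omega

theorem idxA (h : BC p s u) {i j : ℕ} (hi : i < n) (hA : isA p s j (u i)) :
    j + 1 < i ∧ i + j + 1 < n := by
  have hn := h.hn
  have h1 := sep h.he hA (isT_of_TT h.t1 j)
  have h2 := sep h.he hA (isT_of_TT h.t2 j)
  rw [h.co.dist i 1 hi.le (by omega)] at h1
  rw [h.co.dist i (n - 1) hi.le (by omega)] at h2
  have h3 : i ≠ 0 := by
    rintro rfl
    have := h.o_facts.2.1
    unfold isA at hA
    have := Nat.two_pow_pos j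
    omega
  unfold cd at h1 h2
  omega

theorem lowB (h : BC p s u) {j : ℕ} (hA : ∃ f, isA p s j f) [DecidablePred (isA p s j)]
    [DecidablePred (isT p s j)] : 2 * j ≤
      ((Ioo 1 (n - 1)).filter (fun i => ¬ isA p s j (u i) ∧ ¬ isT p s j (u i))).card := by
  obtain ⟨f, hfA⟩ := hA
  obtain ⟨a, ha, hua⟩ := h.co.surj f
  rw [← hua] at hfA
  have h1 := h.idxA ha hfA
  exact low2 h.he h.co (by omega) (by omega) (by omega) (isT_of_TT h.t1 j) (isT_of_TT h.t2 j) hfA

theorem cardHH (h : BC p s u) (j : ℕ) : (HH p s j).card ≤ n - 3 - 2 * j := by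
  classical
  by_cases hA : ∃ f, isA p s j f
  · have h1 := h.lowB hA
    have h2 := h.card (j := j)
      ((Ioo 1 (n - 1)).filter (fun i => ¬ isA p s j (u i) ∧ ¬ isT p s j (u i)))
      (by intro i hi; rw [Finset.mem_filter, Finset.mem_Ioo] at hi; exact hi.1)
      (by intro i hi; rw [Finset.mem_filter] at hi; exact not_H_of_low h.hf hi.2)
    omega
  · rw [HH_empty h.hf hA]
    exact Nat.zero_le _

theorem full (h : BC p s u) {j : ℕ} (hc : (HH p s j).card = n - 3 - 2 * j) (hj : 2 * j + 4 ≤ n)
    {i : ℕ} (hi1 : 1 < i) (hi2 : i < n - 1) (hi : isA p s j (u i) ∨ isT p s j (u i)) :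
    u i ∈ HH p s j := by
  classical
  by_contra hcon
  have hA : ∃ f, isA p s j f := by
    have : (HH p s j).Nonempty := by
      rw [← Finset.card_pos]; omega
    obtain ⟨x, hx⟩ := this
    exact A_of_H h.hf hx
  have h1 := h.lowB hA
  have h0 : i ∉ (Ioo 1 (n - 1)).filter (fun i => ¬ isA p s j (u i) ∧ ¬ isT p s j (u i)) := by
    rw [Finset.mem_filter]
    rintro ⟨-, h2, h3⟩
    rcases hi with h4 | h4
    · exact h2 h4
    · exact h3 h4
  have h2 := h.card (j := j)
    (insert i ((Ioo 1 (n - 1)).filter (fun i => ¬ isA p s j (u i) ∧ ¬ isT p s j (u i))))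
    (by
      intro k hk
      rw [Finset.mem_insert, Finset.mem_filter, Finset.mem_Ioo] at hk
      rcases hk with rfl | hk
      · exact ⟨hi1, hi2⟩
      · exact hk.1)
    (by
      intro k hk
      rw [Finset.mem_insert, Finset.mem_filter] at hk
      rcases hk with rfl | hk
      · exact hcon
      · exact not_H_of_low h.hf hk.2)
  rw [Finset.card_insert_of_notMem h0] at h2
  omega

theorem exact (h : BC p s u) {N : ℕ} (hsum : ∑ v, p v = N)
    (hG : ∀ M, (n - 3) + G (n - 3) M + 1 ≤ N) :
    (∀ j, (HH p s j).card = n - 3 - 2 * j) ∧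
    (∀ v a, 2 ^ a < ch p s v → 2 ^ (a + 1) ≤ ch p s v) := by
  have hn := h.hn
  have key : ∀ M, N ≤ M → (∀ v, ch p s v = Lay M (ch p s v)) ∧
      (∀ j, j < M → (HH p s j).card = n - 3 - 2 * j) := by
    intro M hM
    have hM2 : ∑ v, p v ≤ 2 ^ M := by
      rw [hsum]
      exact Nat.lt_two_pow_self.le.trans (Nat.pow_le_pow_right (by omega) hM)
    have h1 : ∑ v, ch p s v ≤ ∑ v, Lay M (ch p s v) :=
      Finset.sum_le_sum (fun v _ => chain h.hf hM2 v)
    have h2 := sum_Lay p s M
    have h3 := pos_card p s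
    have h4 : ∑ j ∈ range M, 2 ^ j * (HH p s j).card ≤ G (n - 3) M := by
      unfold G
      apply Finset.sum_le_sum
      intro j _
      exact Nat.mul_le_mul_left _ (h.cardHH j)
    have h5 := hG M
    have h6 := h.cardTT
    have h7 : ∑ v, ch p s v = N := by rw [sum_ch h.hf, hsum]
    constructor
    · have h8 : ∑ v, ch p s v = ∑ v, Lay M (ch p s v) := by omega
      have h9 := (Finset.sum_eq_sum_iff_of_le (fun v _ => chain h.hf hM2 v)).1 h8
      intro v
      exact h9 v (Finset.mem_univ v)
    · have h8 : ∑ j ∈ range M, 2 ^ j * (HH p s j).card =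
          ∑ j ∈ range M, 2 ^ j * (n - 3 - 2 * j) := by
        have : G (n - 3) M = ∑ j ∈ range M, 2 ^ j * (n - 3 - 2 * j) := rfl
        omega
      have h9 := (Finset.sum_eq_sum_iff_of_le
        (fun j _ => Nat.mul_le_mul_left _ (h.cardHH j))).1 h8
      intro j hj
      exact Nat.eq_of_mul_eq_mul_left (Nat.two_pow_pos j) (h9 j (Finset.mem_range.2 hj))
  constructor
  · intro j
    exact (key (N + j + 1) (by omega)).2 j (by omega)
  · intro v a ha
    have h1 := (key (N + a + 1) (by omega)).1 v
    rw [h1]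
    exact Lay_ge (by omega) ha

theorem oddEnd (h : BC p s u) {r : ℕ} (hr : n = 2 * r + 5)
    (hE1 : ∀ j, (HH p s j).card = n - 3 - 2 * j)
    (hE2 : ∀ v a, 2 ^ a < ch p s v → 2 ^ (a + 1) ≤ ch p s v)
    (hx : isA p s r (u (r + 2))) : False := by
  have hn := h.hn
  obtain ⟨o1, o2, o3⟩ := h.o_facts
  have hx1 : u (r + 2) ∈ HH p s r := h.full (hE1 r) (by omega) (by omega) (by omega) (Or.inl hx)
  have hc2 : (HH p s r).card = 2 := by rw [hE1 r]; omega
  obtain ⟨y, hy, hyx⟩ := Finset.exists_mem_ne (by omega : 1 < (HH p s r).card) (u (r + 2))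
  obtain ⟨k, hk, huk⟩ := h.co.surj y
  have hpx : 2 ^ r < p (u (r + 2)) := by unfold isA at hx; omega
  have hpr0 := Nat.two_pow_pos r
  have hsx : s (u (r + 2)) = u (r + 2) := by
    by_contra hcon
    have := (h.hf _ hcon).1
    omega
  have hchx : ch p s (u (r + 2)) = p (u (r + 2)) - cost s (u (r + 2)) := by
    unfold ch; rw [if_pos hsx]; rfl
  have hfx : fin p s (u (r + 2)) = p (u (r + 2)) - cost s (u (r + 2)) := by
    unfold fin; rw [if_pos hsx]; rfl
  have hx2 : 2 ^ (r + 1) ≤ ch p s (u (r + 2)) := hE2 _ _ (mem_HH.1 hx1)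
  have hxt : dd (u (r + 2)) (u 1) = r + 1 := by
    rw [h.co.dist _ _ (by omega) (by omega)]; unfold cd; omega
  have h0t' : dd (u 0) (u (n - 1)) = 1 := by
    rw [h.co.dist _ _ (by omega) (by omega)]; unfold cd; omega
  rcases H_cases h.hf hy with hyA | ⟨hyT, hsy, hdy⟩
  · rw [← huk] at hyA
    have hk2 := h.idxA hk hyA
    have hk3 : k = r + 3 := by
      have : k ≠ r + 2 := by
        rintro rfl
        exact hyx huk.symm
      omega
    subst hk3
    have hsy : s y = y := by
      by_contra hcon
      have := (h.hf _ hcon).1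
      rw [huk] at hyA
      unfold isA at hyA
      omega
    have hfy : fin p s y = ch p s y := by
      unfold fin ch; rw [if_pos hsy, if_pos hsy]
    have hy2 : 2 ^ (r + 1) ≤ ch p s y := hE2 _ _ (mem_HH.1 hy)
    have hpow : 2 ≤ 2 ^ (r + 1) := by
      have := Nat.two_pow_pos r
      rw [pow_succ]; omega
    apply h.hns
    apply sol_step2 (by omega) h.hf y (u (r + 2)) (u 1) (u (n - 1)) (u 0)
    · rw [← huk, h.co.dist _ _ (by omega) (by omega)]; unfold cd; omega
    · rw [hfy]; omega
    · rw [hxt, hfx, ← hchx]; exact hx2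
    · exact h.all
    · rcases Nat.eq_zero_or_pos r with hr0 | hr0
      · right
        subst hr0
        rw [← huk, h.co.dist _ _ (by omega) (by omega)]; unfold cd; omega
      · left
        rw [hfy]
        have : 2 ^ 2 ≤ 2 ^ (r + 1) := Nat.pow_le_pow_right (by omega) (by omega)
        omega
    · exact h0t'
  · -- filled
    have hchy : ch p s y = 2 ^ dd (s y) y := by
      unfold ch; rw [if_neg hsy, (h.hf y hsy).1]; omega
    have hy3 : y ∉ HH p s (r + 1) := by
      have : (HH p s (r + 1)).card = 0 := by rw [hE1]; omega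
      rw [Finset.card_eq_zero] at this
      rw [this]
      exact Finset.notMem_empty _
    have hd : dd (s y) y = r + 1 := by
      rw [mem_HH, hchy] at hy3
      push Not at hy3
      have := (Nat.pow_le_pow_iff_right (by omega)).1 hy3
      omega
    have hfA := filler h.hf hsy hdy
    obtain ⟨m, hm, hum⟩ := h.co.surj (s y)
    have hm2 := h.idxA hm (by rw [hum]; exact hfA)
    have hfH : s y ∈ HH p s r := by
      rw [← hum]
      exact h.full (hE1 r) (by omega) (by omega) (by omega) (Or.inl (by rw [hum]; exact hfA))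
    have hfx' : s y = u (r + 2) := by
      by_contra hcon
      have h2 : ({u (r + 2), y, s y} : Finset (Fin n)) ⊆ HH p s r := by
        intro z hz
        simp only [Finset.mem_insert, Finset.mem_singleton] at hz
        rcases hz with rfl | rfl | rfl
        · exact hx1
        · exact hy
        · exact hfH
      have h3 := Finset.card_le_card h2
      rw [Finset.card_eq_three.2 ⟨u (r + 2), y, s y, hyx.symm, fun h' => hcon h'.symm,
        fun h' => hsy h'.symm, rfl⟩] at h3
      omega
    rw [hfx', ← huk, h.co.dist _ _ (by omega) hk.le] at hd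
    have hk1 : k ≠ 1 := by
      rintro rfl
      rw [← huk] at hsy
      exact hsy (mem_TT.1 h.t1).2
    have hk2 : k = n - 2 := by
      unfold cd at hd
      omega
    apply h.hns
    apply sol_swap (by omega) h.hf (u (r + 2)) y (u 1) (u (n - 1)) hfx' hyx h.t1 h.all
    · rw [hxt, ← huk, h.co.dist _ _ (by omega) hk.le, hd]
      have := Nat.two_pow_pos (r + 1)
      omega
    · rw [← huk, hk2, h.co.dist _ _ (by omega) (by omega)]; unfold cd; omega

theorem evenEnd (h : BC p s u) {r : ℕ} (hr : n = 2 * r + 4)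
    (hE1 : ∀ j, (HH p s j).card = n - 3 - 2 * j)
    (hE2 : ∀ v a, 2 ^ a < ch p s v → 2 ^ (a + 1) ≤ ch p s v)
    (hx : isA p s r (u (r + 2))) : False := by
  classical
  have hn := h.hn
  obtain ⟨o1, o2, o3⟩ := h.o_facts
  have hx1 : u (r + 2) ∈ HH p s r := h.full (hE1 r) (by omega) (by omega) (by omega) (Or.inl hx)
  have hc1 : (HH p s r).card = 1 := by rw [hE1 r]; omega
  have hpx : 2 ^ r < p (u (r + 2)) := by unfold isA at hx; omega
  have hpr0 := Nat.two_pow_pos r
  have hsx : s (u (r + 2)) = u (r + 2) := by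
    by_contra hcon
    have := (h.hf _ hcon).1
    omega
  have hchx : ch p s (u (r + 2)) = p (u (r + 2)) - cost s (u (r + 2)) := by
    unfold ch; rw [if_pos hsx]; rfl
  have hfx : fin p s (u (r + 2)) = p (u (r + 2)) - cost s (u (r + 2)) := by
    unfold fin; rw [if_pos hsx]; rfl
  have hx3 : 2 ^ r < ch p s (u (r + 2)) := mem_HH.1 hx1
  have hx2 : 2 ^ (r + 1) ≤ ch p s (u (r + 2)) := hE2 _ _ hx3
  have h0t' : dd (u 0) (u (n - 1)) = 1 := by
    rw [h.co.dist _ _ (by omega) (by omega)]; unfold cd; omega
  rcases Nat.eq_zero_or_pos r with hr0 | hr0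
  · subst hr0
    apply h.hns
    apply sol_step1 (by omega) h.hf (u (0 + 2)) (u 1) (u (n - 1)) _ h.all
    · rw [h.co.dist _ _ (by omega) (by omega)]; unfold cd; omega
    · have : dd (u (0 + 2)) (u 1) = 1 := by
        rw [h.co.dist _ _ (by omega) (by omega)]; unfold cd; omega
      rw [this, hfx, ← hchx]
      exact hx2
  · obtain ⟨q, rfl⟩ : ∃ q, r = q + 1 := ⟨r - 1, by omega⟩
    have hpq : 2 ^ (q + 1) = 2 * 2 ^ q := by rw [pow_succ]; ring
    have hpq2 : 2 ^ (q + 1 + 1) = 4 * 2 ^ q := by rw [pow_succ, pow_succ]; ring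
    have hpq0 := Nat.two_pow_pos q
    have hxA : isA p s q (u (q + 1 + 2)) := by
      have h1 := lc_mono s (u (q + 1 + 2)) (show q ≤ q + 1 by omega)
      unfold isA at hx ⊢
      omega
    obtain ⟨k, hk, hkA⟩ : ∃ k ∈ Ioo 1 (q + 1 + 2), isA p s q (u k) ∨ isT p s q (u k) := by
      by_contra hcon
      push Not at hcon
      have h1 := (low h.he h.co (j := q) (l := 1) (a := q + 1 + 2) (r := n - 1) (by omega)
        (by omega) (by omega) (isT_of_TT h.t1 q) (isT_of_TT h.t2 q) hxA).2
      have h2 := h.card (j := q) (Ioo 1 (q + 1 + 2) ∪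
        (Ioo (q + 1 + 2) (n - 1)).filter (fun i => ¬ isA p s q (u i) ∧ ¬ isT p s q (u i)))
        (by
          intro i hi
          rw [Finset.mem_union, Finset.mem_filter, Finset.mem_Ioo, Finset.mem_Ioo] at hi
          omega)
        (by
          intro i hi
          rw [Finset.mem_union, Finset.mem_filter] at hi
          rcases hi with hi | hi
          · exact not_H_of_low h.hf (hcon i hi)
          · exact not_H_of_low h.hf hi.2)
      rw [Finset.card_union_of_disjoint (by
        rw [Finset.disjoint_left]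
        intro x hx hy
        rw [Finset.mem_filter, Finset.mem_Ioo] at hy
        rw [Finset.mem_Ioo] at hx
        omega), Nat.card_Ioo, hE1 q] at h2
      omega
    rw [Finset.mem_Ioo] at hk
    have hkH : u k ∈ HH p s q := h.full (hE1 q) (by omega) hk.1 (by omega) hkA
    rcases hkA with hkA | hkT
    · have hk2 := h.idxA (by omega) hkA
      have hk3 : k = q + 2 := by omega
      subst hk3
      have hpy : 0 < p (u (q + 2)) := by unfold isA at hkA; omega
      have hsy : s (u (q + 2)) = u (q + 2) := by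
        by_contra hcon
        have := (h.hf _ hcon).1
        omega
      have hfy : fin p s (u (q + 2)) = ch p s (u (q + 2)) := by
        unfold fin ch; rw [if_pos hsy, if_pos hsy]
      have hy2 : 2 ^ (q + 1) ≤ ch p s (u (q + 2)) := hE2 _ _ (mem_HH.1 hkH)
      apply h.hns
      apply sol_step2 (by omega) h.hf (u (q + 1 + 2)) (u (q + 2)) (u 1) (u (n - 1)) (u 0)
      · rw [h.co.dist _ _ (by omega) (by omega)]; unfold cd; omega
      · rw [hfx, ← hchx]; omega
      · have : dd (u (q + 2)) (u 1) = q + 1 := by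
          rw [h.co.dist _ _ (by omega) (by omega)]; unfold cd; omega
        rw [this, hfy]
        exact hy2
      · exact h.all
      · left
        rw [hfx, ← hchx]; omega
      · exact h0t'
    · have hsy : s (u k) ≠ u k := by
        intro hcon
        rcases h.all _ (mem_TT.2 ⟨hkT.1, hcon⟩) with h1 | h1
        · have := h.co.inj (by omega) (by omega) h1
          omega
        · have := h.co.inj (by omega) (by omega) h1
          omega
      have h1 := sep h.he hxA hkT
      rw [h.co.dist _ _ (by omega) (by omega)] at h1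
      have hk2 : k = 2 := by
        unfold cd at h1
        omega
      subst hk2
      have hdy : q < dd (s (u 2)) (u 2) := by
        rcases hkT.2 with h2 | h2
        · exact absurd h2 hsy
        · exact h2
      have hchy : ch p s (u 2) = 2 ^ dd (s (u 2)) (u 2) := by
        unfold ch; rw [if_neg hsy, (h.hf _ hsy).1]; omega
      have hyH : u 2 ∉ HH p s (q + 1) := by
        intro h2
        rw [Finset.card_eq_one] at hc1
        obtain ⟨z, hz⟩ := hc1
        rw [hz, Finset.mem_singleton] at h2 hx1
        have := h.co.inj (by omega) (by omega) (h2.trans hx1.symm)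
        omega
      have hd : dd (s (u 2)) (u 2) = q + 1 := by
        rw [mem_HH, hchy] at hyH
        push Not at hyH
        have := (Nat.pow_le_pow_iff_right (by omega)).1 hyH
        omega
      obtain ⟨m, hm, hum⟩ := h.co.surj (s (u 2))
      have h4 := FP h.hf h.he hsy h.t1
      have h5 := FP h.hf h.he hsy h.t2
      have h6 := filler_big h.hf hsy
      rw [← hum] at h6
      have h7 := h.idx hm h6 (by omega)
      rw [hd, ← hum, h.co.dist _ _ hm.le (by omega)] at h4 h5
      rw [← hum, h.co.dist _ _ hm.le (by omega)] at hd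
      have hm2 : m = q + 1 + 2 := by
        unfold cd at h4 h5 hd
        omega
      subst hm2
      have hne : u 2 ≠ u (q + 1 + 2) := by
        intro h'
        have := h.co.inj (by omega) (by omega) h'
        omega
      apply h.hns
      apply sol_swap (by omega) h.hf (u (q + 1 + 2)) (u 2) (u (n - 1)) (u 1) hum.symm hne h.t2
        (fun z hz => (h.all z hz).symm)
      · have e1 : dd (u (q + 1 + 2)) (u (n - 1)) = q + 1 + 1 := by
          rw [h.co.dist _ _ (by omega) (by omega)]; unfold cd; omega
        have e2 : dd (u (q + 1 + 2)) (u 2) = q + 1 := by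
          rw [h.co.dist _ _ (by omega) (by omega)]; unfold cd; omega
        rw [e1, e2]
        omega
      · rw [h.co.dist _ _ (by omega) (by omega)]; unfold cd; omega

end BC

end Pool.Agent.R98.Hub
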