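import Mathlib

/-! Pebbling on the cycle: moves, sending pebbles, partial fillings. -/

namespace Pool.Agent.R98.Hub

open Finset

/-- One pebbling move on the graph `G`: two pebbles leave `u`, one arrives at the neighbour `v`. -/
def Move {V : Type} [DecidableEq V] (G : SimpleGraph V) (p q : V → ℕ) : Prop :=
  ∃ u v, G.Adj u v ∧ 2 ≤ p u ∧ q = Function.update (Function.update p u (p u - 2)) v (p v + 1)

/-- `U` is a strong hub set of `G`: it is nonempty, and any two distinct vertices are joined by a
path all of whose internal vertices lie in `U`. -/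
def StrongHub {V : Type} (G : SimpleGraph V) (U : Set V) : Prop :=
  U.Nonempty ∧ ∀ x y : V, x ≠ y → ∃ w : G.Walk x y, w.IsPath ∧
    ∀ z ∈ w.support, z ≠ x → z ≠ y → z ∈ U

/-- From every configuration with `t` pebbles in total, finitely many pebbling moves lead to a
configuration in which every vertex of some strong hub set carries a pebble. -/
def CoverProp {V : Type} [Fintype V] [DecidableEq V] (G : SimpleGraph V) (t : ℕ) : Prop :=
  ∀ p : V → ℕ, ∑ v, p v = t → ∃ q : V → ℕ, Relation.ReflTransGen (Move G) p q ∧
    ∃ U : Set V, StrongHub G U ∧ ∀ v ∈ U, 1 ≤ q v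

section general

variable {V : Type} [DecidableEq V] {G : SimpleGraph V}

/-- reachability -/
abbrev Reach (G : SimpleGraph V) (p q : V → ℕ) : Prop := Relation.ReflTransGen (Move G) p q

theorem steps {u v : V} (h : G.Adj u v) : ∀ (k : ℕ) (p : V → ℕ), 2 * k ≤ p u →
    Reach G p (fun w => p w - (if w = u then 2 * k else 0) + (if w = v then k else 0)) := by
  intro k
  induction k with
  | zero =>
    intro p _
    have : (fun w => p w - (if w = u then 2 * 0 else 0) + (if w = v then 0 else 0)) = p := by
      funext w; simp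
    rw [this]
  | succ k ih =>
    intro p hp
    have huv : u ≠ v := h.ne
    have h1 := ih p (by omega)
    refine Relation.ReflTransGen.tail h1 ?_
    refine ⟨u, v, h, ?_, ?_⟩
    · simp [huv]; omega
    · funext w
      by_cases hw : w = v
      · subst hw
        simp [huv.symm]; omega
      · by_cases hwu : w = u
        · subst hwu
          simp [huv]; omega
        · simp [hw, hwu]

theorem send : ∀ {f t : V} (w : G.Walk f t) (k : ℕ) (p : V → ℕ), k * 2 ^ w.length ≤ p f →
    Reach G p (fun z => p z - (if z = f then k * 2 ^ w.length else 0) +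
      (if z = t then k else 0)) := by
  intro f t w
  induction w with
  | nil =>
    rename_i f
    intro k p hp
    have : (fun z => p z - (if z = f then k * 2 ^ (SimpleGraph.Walk.nil : G.Walk f f).length else 0)
        + (if z = f then k else 0)) = p := by
      funext z
      by_cases hz : z = f
      · subst hz
        simp at hp ⊢; omega
      · simp [hz]
    rw [this]
  | cons h w ih =>
    rename_i f g t
    intro k p hp
    rw [SimpleGraph.Walk.length_cons] at hp ⊢
    have hfg : f ≠ g := h.ne
    have e : k * 2 ^ (w.length + 1) = 2 * (k * 2 ^ w.length) := by rw [pow_succ]; ring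
    rw [e] at hp ⊢
    have h1 := steps h (k * 2 ^ w.length) p hp
    refine h1.trans ?_
    have h2 := ih k (fun w_1 => p w_1 - (if w_1 = f then 2 * (k * 2 ^ w.length) else 0) +
      if w_1 = g then k * 2 ^ w.length else 0) (by simp)
    convert h2 using 1
    funext z
    by_cases hzg : z = g
    · subst hzg
      simp [hfg.symm]
    · simp [hzg]

end general

/-- the distance on the cycle of length `n` between the positions `u` and `v` -/
def cd (n u v : ℕ) : ℕ := min (u - v + (v - u)) (n - (u - v + (v - u)))

theorem cyc_adj {n : ℕ} (hn : 3 ≤ n) (u v : Fin n) :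
    (SimpleGraph.cycleGraph n).Adj u v ↔ cd n u v = 1 := by
  rw [SimpleGraph.cycleGraph_adj']
  have hu := u.isLt
  have hv := v.isLt
  have e : ∀ a b : Fin n, ((a - b : Fin n) : ℕ) = if (b : ℕ) ≤ a then (a : ℕ) - b else n + a - b := by
    intro a b
    have ha := a.isLt
    have hb := b.isLt
    rw [Fin.sub_def]
    simp only
    split_ifs with h
    · rw [show n - (b : ℕ) + a = (a - b) + n by omega, Nat.add_mod_right,
        Nat.mod_eq_of_lt (by omega)]
    · rw [Nat.mod_eq_of_lt (by omega)]; omega
  rw [e, e]
  unfold cd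
  split_ifs <;> omega

/-- a walk along the cycle of length equal to the distance -/
theorem exists_walk {n : ℕ} (hn : 3 ≤ n) : ∀ (i : ℕ) (u v : Fin n), cd n u v = i →
    ∃ w : (SimpleGraph.cycleGraph n).Walk u v, w.length = i := by
  intro i
  induction i with
  | zero =>
    intro u v h
    have : u = v := by
      apply Fin.ext
      have hu := u.isLt
      have hv := v.isLt
      unfold cd at h
      omega
    subst this
    exact ⟨SimpleGraph.Walk.nil, rfl⟩
  | succ i ih =>
    intro u v h
    have hu := u.isLt
    have hv := v.isLt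
    obtain ⟨g, hg1, hg2⟩ : ∃ g : Fin n, cd n u g = 1 ∧ cd n g v = i := by
      by_cases h1 : (u : ℕ) ≤ v
      · by_cases h2 : 2 * ((v : ℕ) - u) ≤ n
        · refine ⟨⟨u + 1, ?_⟩, ?_, ?_⟩
          · unfold cd at h; omega
          · unfold cd; simp only; omega
          · unfold cd at h ⊢; simp only; omega
        · by_cases h3 : (u : ℕ) = 0
          · refine ⟨⟨n - 1, by omega⟩, ?_, ?_⟩
            · unfold cd; simp only; omega
            · unfold cd at h ⊢; simp only; omega
          · refine ⟨⟨u - 1, by omega⟩, ?_, ?_⟩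
            · unfold cd; simp only; omega
            · unfold cd at h ⊢; simp only; omega
      · by_cases h2 : 2 * ((u : ℕ) - v) ≤ n
        · refine ⟨⟨u - 1, by omega⟩, ?_, ?_⟩
          · unfold cd; simp only; omega
          · unfold cd at h ⊢; simp only; omega
        · by_cases h3 : (u : ℕ) = n - 1
          · refine ⟨⟨0, by omega⟩, ?_, ?_⟩
            · unfold cd; simp only; omega
            · unfold cd at h ⊢; simp only; omega
          · refine ⟨⟨u + 1, by omega⟩, ?_, ?_⟩
            · unfold cd; simp only; omega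
            · unfold cd at h ⊢; simp only; omega
    obtain ⟨w, hw⟩ := ih g v hg2
    exact ⟨SimpleGraph.Walk.cons ((cyc_adj hn u g).2 hg1) w, by simp [hw]⟩

section cyc

variable {n : ℕ}

/-- the distance between two vertices of the cycle -/
abbrev dd (u v : Fin n) : ℕ := cd n u v

theorem dd_self (u : Fin n) : dd u u = 0 := by simp [cd]

theorem dd_eq_zero {u v : Fin n} (h : dd u v = 0) : u = v := by
  apply Fin.ext
  have hu := u.isLt
  have hv := v.isLt
  unfold dd cd at h
  omega

theorem dd_comm (u v : Fin n) : dd u v = dd v u := by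
  unfold dd cd; omega

theorem dd_le (u v : Fin n) : 2 * dd u v ≤ n := by
  have hu := u.isLt
  have hv := v.isLt
  unfold dd cd; omega

/-- sending one pebble from `f` to `t` -/
theorem send1 (hn : 3 ≤ n) (f t : Fin n) (p : Fin n → ℕ) (h : 2 ^ dd f t ≤ p f) :
    Reach (SimpleGraph.cycleGraph n) p
      (fun z => p z - (if z = f then 2 ^ dd f t else 0) + (if z = t then 1 else 0)) := by
  obtain ⟨w, hw⟩ := exists_walk hn _ f t rfl
  have h1 := send w 1 p (by rw [hw, one_mul]; exact h)
  rw [hw, one_mul] at h1
  exact h1

/-- solvable: all vertices except possibly two adjacent ones can be covered -/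
def Sol (p : Fin n → ℕ) : Prop :=
  ∃ q, Reach (SimpleGraph.cycleGraph n) p q ∧ ∃ a b : Fin n, dd a b = 1 ∧
    ∀ v, v ≠ a → v ≠ b → 1 ≤ q v

/-- what `f` spends -/
def cost (s : Fin n → Fin n) (f : Fin n) : ℕ :=
  ∑ t, if s t = f ∧ t ≠ f then 2 ^ dd f t else 0

/-- what `f` spends on vertices at distance less than or equal to `i` -/
def lc (s : Fin n → Fin n) (f : Fin n) (i : ℕ) : ℕ :=
  ∑ t, if s t = f ∧ t ≠ f ∧ dd f t ≤ i then 2 ^ dd f t else 0

/-- feasible assignment of fillers -/
def Feas (p : Fin n → ℕ) (s : Fin n → Fin n) : Prop :=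
  ∀ t, s t ≠ t → p t = 0 ∧ cost s (s t) + 1 ≤ p (s t)

theorem lc_le_cost (s : Fin n → Fin n) (f : Fin n) (i : ℕ) : lc s f i ≤ cost s f := by
  unfold lc cost
  apply Finset.sum_le_sum
  intro t _
  split_ifs with h1 h2 h2
  · exact le_rfl
  · exact absurd ⟨h1.1, h1.2.1⟩ h2
  · exact Nat.zero_le _
  · exact le_rfl

theorem lc_mono (s : Fin n → Fin n) (f : Fin n) {i j : ℕ} (hij : i ≤ j) :
    lc s f i ≤ lc s f j := by
  unfold lc
  apply Finset.sum_le_sum
  intro t _
  split_ifs with h1 h2 h2
  · exact le_rfl
  · exact absurd ⟨h1.1, h1.2.1, h1.2.2.trans hij⟩ h2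
  · exact Nat.zero_le _
  · exact le_rfl

theorem cost_or {p : Fin n → ℕ} {s : Fin n → Fin n} (hf : Feas p s) (f : Fin n) :
    cost s f + 1 ≤ p f ∨ cost s f = 0 := by
  by_cases h : ∃ t, s t = f ∧ t ≠ f
  · obtain ⟨t, h1, h2⟩ := h
    left
    have := (hf t (by rw [h1]; exact h2.symm)).2
    rwa [h1] at this
  · right
    unfold cost
    apply Finset.sum_eq_zero
    intro t _
    rw [if_neg]
    exact fun h' => h ⟨t, h'⟩

theorem cost_le {p : Fin n → ℕ} {s : Fin n → Fin n} (hf : Feas p s) (f : Fin n) :
    cost s f ≤ p f := by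
  rcases cost_or hf f with h | h <;> omega

/-- the configuration after the filling -/
def fin (p : Fin n → ℕ) (s : Fin n → Fin n) (v : Fin n) : ℕ :=
  p v - cost s v + (if s v = v then 0 else 1)

theorem reach_fin (hn : 3 ≤ n) {p : Fin n → ℕ} {s : Fin n → Fin n} (hf : Feas p s) :
    Reach (SimpleGraph.cycleGraph n) p (fin p s) := by
  have key : ∀ W : Finset (Fin n), Reach (SimpleGraph.cycleGraph n) p
      (fun v => p v - (∑ u ∈ W, if s u = v ∧ u ≠ v then 2 ^ dd v u else 0) +
        (if v ∈ W ∧ s v ≠ v then 1 else 0)) := by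
    intro W
    induction W using Finset.induction_on with
    | empty =>
      have : (fun v => p v - (∑ u ∈ (∅ : Finset (Fin n)), if s u = v ∧ u ≠ v then 2 ^ dd v u else 0) +
        (if v ∈ (∅ : Finset (Fin n)) ∧ s v ≠ v then 1 else 0)) = p := by
        funext v; simp
      rw [this]
    | insert u W hu ih =>
      by_cases hsu : s u = u
      · convert ih using 2 with v
        rw [Finset.sum_insert hu]
        have h1 : (if s u = v ∧ u ≠ v then 2 ^ dd v u else 0) = 0 := by
          rw [if_neg]
          rintro ⟨h2, h3⟩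
          exact h3 (hsu.symm.trans h2)
        have h2 : (v ∈ insert u W ∧ s v ≠ v) ↔ (v ∈ W ∧ s v ≠ v) := by
          rw [Finset.mem_insert]
          constructor
          · rintro ⟨h3 | h3, h4⟩
            · subst h3; exact absurd hsu h4
            · exact ⟨h3, h4⟩
          · rintro ⟨h3, h4⟩
            exact ⟨Or.inr h3, h4⟩
        rw [h1, zero_add]
        simp only [h2]
      · refine ih.trans ?_
        obtain ⟨hpu, hc⟩ := hf u hsu
        set f := s u with hfdef
        have hfu : f ≠ u := hsu
        have hpf : 1 ≤ p f := by omega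
        have hsf : s f = f := by
          by_contra h
          have := (hf f h).1
          omega
        have hcost : (∑ t ∈ W, if s t = f ∧ t ≠ f then 2 ^ dd f t else 0) + 2 ^ dd f u ≤ cost s f := by
          have : (∑ t ∈ insert u W, if s t = f ∧ t ≠ f then 2 ^ dd f t else 0) ≤ cost s f := by
            unfold cost
            exact Finset.sum_le_sum_of_subset (Finset.subset_univ _)
          rw [Finset.sum_insert hu, if_pos ⟨hfdef.symm, hfu.symm⟩] at this
          omega
        have h1 := send1 hn f u (fun v => p v - (∑ u ∈ W, if s u = v ∧ u ≠ v then 2 ^ dd v u else 0) +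
          (if v ∈ W ∧ s v ≠ v then 1 else 0)) (by
            show 2 ^ dd f u ≤ p f - (∑ t ∈ W, if s t = f ∧ t ≠ f then 2 ^ dd f t else 0) +
              (if f ∈ W ∧ s f ≠ f then 1 else 0)
            omega)
        convert h1 using 1
        funext v
        rw [Finset.sum_insert hu]
        by_cases hvf : v = f
        · subst hvf
          simp only [hsf]
          rw [if_pos ⟨hfdef.symm, hfu.symm⟩]
          simp [hfu]
          omega
        · by_cases hvu : v = u
          · subst hvu
            simp only [hpu]
            simp [hvf, hu]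
            exact hsu
          · have : ¬ (f = v ∧ u ≠ v) := fun h => hvf h.1.symm
            rw [if_neg this]
            simp [hvf, hvu]
  have := key Finset.univ
  convert this using 1
  funext v
  unfold fin cost
  by_cases h : s v = v <;> simp [h]

theorem fin_pos {p : Fin n → ℕ} {s : Fin n → Fin n} (hf : Feas p s) (v : Fin n)
    (hv : ¬ (p v = 0 ∧ s v = v)) : 1 ≤ fin p s v := by
  unfold fin
  by_cases h : s v = v
  · rw [if_pos h]
    have hp : p v ≠ 0 := fun h' => hv ⟨h', h⟩
    rcases cost_or hf v with h1 | h1 <;> omega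
  · rw [if_neg h]; omega

theorem sol_of_feas (hn : 3 ≤ n) {p : Fin n → ℕ} {s : Fin n → Fin n} (hf : Feas p s)
    (a b : Fin n) (hab : dd a b = 1) (h : ∀ v, p v = 0 → s v = v → v = a ∨ v = b) : Sol p := by
  refine ⟨fin p s, reach_fin hn hf, a, b, hab, ?_⟩
  intro v h1 h2
  apply fin_pos hf
  rintro ⟨h3, h4⟩
  rcases h v h3 h4 with h5 | h5
  · exact h1 h5
  · exact h2 h5

end cyc

end Pool.Agent.R98.Hub
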