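import Pool.Agent.R98.HubLevel

/-! Dyadic summation and the two endgames. -/

namespace Pool.Agent.R98.Hub

open Finset

variable {n : ℕ}

theorem sum_two_pow (M : ℕ) : ∑ j ∈ range M, 2 ^ j + 1 = 2 ^ M := by
  induction M with
  | zero => simp
  | succ M ih => rw [Finset.sum_range_succ, pow_succ]; omega

/-- dyadic layers -/
def Lay (M c : ℕ) : ℕ := (if 0 < c then 1 else 0) + ∑ j ∈ range M, if 2 ^ j < c then 2 ^ j else 0

theorem le_Lay : ∀ (M c : ℕ), c ≤ 2 ^ M → c ≤ Lay M c := by
  intro M
  induction M with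
  | zero =>
    intro c hc
    unfold Lay
    simp only [pow_zero] at hc
    split_ifs <;> omega
  | succ M ih =>
    intro c hc
    by_cases h : 2 ^ M < c
    · unfold Lay
      have h1 : ∑ j ∈ range (M + 1), (if 2 ^ j < c then 2 ^ j else 0) =
          ∑ j ∈ range (M + 1), 2 ^ j := by
        apply Finset.sum_congr rfl
        intro j hj
        rw [Finset.mem_range] at hj
        rw [if_pos]
        exact lt_of_le_of_lt (Nat.pow_le_pow_right (by omega) (by omega)) h
      have h2 := sum_two_pow (M + 1)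
      have h3 := Nat.two_pow_pos M
      rw [h1, if_pos (by omega)]
      omega
    · have h1 := ih c (by omega)
      refine h1.trans ?_
      unfold Lay
      rw [Finset.sum_range_succ]
      omega

theorem Lay_ge {M c a : ℕ} (ha : a < M) (h : 2 ^ a < c) : 2 ^ (a + 1) ≤ Lay M c := by
  unfold Lay
  have h0 : ∑ j ∈ range (a + 1), (if 2 ^ j < c then 2 ^ j else 0) =
      ∑ j ∈ range (a + 1), 2 ^ j := by
    apply Finset.sum_congr rfl
    intro j hj
    rw [Finset.mem_range] at hj
    rw [if_pos]
    exact lt_of_le_of_lt (Nat.pow_le_pow_right (by omega) (by omega)) h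
  have h1 : ∑ j ∈ range (a + 1), (if 2 ^ j < c then 2 ^ j else 0) ≤
      ∑ j ∈ range M, if 2 ^ j < c then 2 ^ j else 0 := by
    apply Finset.sum_le_sum_of_subset
    intro x hx
    rw [Finset.mem_range] at hx ⊢
    omega
  have h2 := sum_two_pow (a + 1)
  have h3 := Nat.two_pow_pos a
  rw [if_pos (by omega)]
  omega

theorem sum_Lay (p : Fin n → ℕ) (s : Fin n → Fin n) (M : ℕ) :
    ∑ v, Lay M (ch p s v) = (univ.filter (fun v => 0 < ch p s v)).card +
      ∑ j ∈ range M, 2 ^ j * (HH p s j).card := by
  unfold Lay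
  rw [Finset.sum_add_distrib, Finset.sum_comm]
  congr 1
  · rw [Finset.card_filter]
  · apply Finset.sum_congr rfl
    intro j _
    unfold HH
    rw [Finset.card_filter, Finset.mul_sum]
    apply Finset.sum_congr rfl
    intro v _
    split_ifs <;> simp

/-- the weighted count -/
def G (K M : ℕ) : ℕ := ∑ j ∈ range M, 2 ^ j * (K - 2 * j)

theorem G_succ (K M : ℕ) : G (K + 2) (M + 1) = (K + 2) + 2 * G K M := by
  unfold G
  rw [Finset.sum_range_succ', Finset.mul_sum]
  rw [add_comm]
  congr 1
  · simp
  · apply Finset.sum_congr rfl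
    intro j _
    rw [show K + 2 - 2 * (j + 1) = K - 2 * j by omega, pow_succ]
    ring

theorem G_even : ∀ r M, 2 * r + G (2 * r) M + 4 ≤ 2 ^ (r + 2) := by
  intro r
  induction r with
  | zero =>
    intro M
    have : G (2 * 0) M = 0 := by
      unfold G
      apply Finset.sum_eq_zero
      intro j _
      simp
    rw [this]; norm_num
  | succ r ih =>
    intro M
    rcases M with _ | M
    · have h1 := ih 0
      have h2 : 2 ^ (r + 1 + 2) = 2 * 2 ^ (r + 2) := by ring
      have h3 : G (2 * (r + 1)) 0 = 0 := by simp [G]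
      rw [h2, h3]
      omega
    · have h1 := ih M
      have h2 : 2 ^ (r + 1 + 2) = 2 * 2 ^ (r + 2) := by ring
      rw [h2, show 2 * (r + 1) = 2 * r + 2 by ring, G_succ]
      omega

theorem G_odd : ∀ r M, (2 * r + 1) + G (2 * r + 1) M + 4 ≤ 3 * 2 ^ (r + 1) := by
  intro r
  induction r with
  | zero =>
    intro M
    have : G (2 * 0 + 1) M ≤ 1 := by
      unfold G
      rcases M with _ | M
      · simp
      · rw [Finset.sum_range_succ']
        have : ∑ k ∈ range M, 2 ^ (k + 1) * (2 * 0 + 1 - 2 * (k + 1)) = 0 := by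
          apply Finset.sum_eq_zero
          intro j _
          rw [show 2 * 0 + 1 - 2 * (j + 1) = 0 by omega]
          simp
        rw [this]
        simp
    norm_num at this ⊢
    omega
  | succ r ih =>
    intro M
    rcases M with _ | M
    · have h1 := ih 0
      have h2 : 2 ^ (r + 1 + 1) = 2 * 2 ^ (r + 1) := by ring
      have h3 : G (2 * (r + 1) + 1) 0 = 0 := by simp [G]
      rw [h2, h3]
      omega
    · have h1 := ih M
      have h2 : 2 ^ (r + 1 + 1) = 2 * 2 ^ (r + 1) := by ring
      rw [h2, show 2 * (r + 1) + 1 = (2 * r + 1) + 2 by ring, G_succ]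
      omega

theorem G_mono {K K' M : ℕ} (h : K ≤ K') : G K M ≤ G K' M := by
  unfold G
  apply Finset.sum_le_sum
  intro j _
  apply Nat.mul_le_mul_left
  omega

/-- a filler is never closer to a vertex that remains empty -/
theorem FP {p : Fin n → ℕ} {s : Fin n → Fin n} (hf : Feas p s) (he : Ex p s) {v t : Fin n}
    (hv : s v ≠ v) (ht : t ∈ TT p s) : dd (s v) v ≤ dd (s v) t := by
  by_contra h
  push Not at h
  rw [mem_TT] at ht
  have h1 := filler_strong hf hv h
  have hft : s v ≠ t := by
    intro h2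
    rw [h2, ht.1] at h1
    exact Nat.not_lt_zero _ h1
  have h2 := he (s v) t ht.1 hft (Or.inl ht.2)
  have h3 : 2 ^ dd (s v) t ≤ 2 ^ dd (s v) v := Nat.pow_le_pow_right (by omega) h.le
  omega

theorem filler_big {p : Fin n → ℕ} {s : Fin n → Fin n} (hf : Feas p s) {v : Fin n}
    (hv : s v ≠ v) : 2 ≤ p (s v) := by
  have h0 : 0 < dd (s v) v := by
    rcases Nat.eq_zero_or_pos (dd (s v) v) with h | h
    · exact absurd (dd_eq_zero h) hv
    · exact h
  have h1 := filler_strong hf hv h0
  have h2 := Nat.two_pow_pos (dd (s v) v)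
  omega

theorem sol_step1 (hn : 3 ≤ n) {p : Fin n → ℕ} {s : Fin n → Fin n} (hf : Feas p s)
    (x t t' : Fin n) (h : 2 ^ dd x t ≤ fin p s x) (hTT : ∀ z ∈ TT p s, z = t ∨ z = t')
    (hx : dd x t' = 1) : Sol p := by
  refine ⟨_, (reach_fin hn hf).trans (send1 hn x t (fin p s) h), x, t', hx, ?_⟩
  intro z h1 h2
  rw [if_neg h1]
  by_cases h3 : z = t
  · rw [if_pos h3]; omega
  · have h4 := fin_pos hf z (by
      intro h5
      rcases hTT z (mem_TT.2 h5) with h6 | h6
      · exact h3 h6
      · exact h2 h6)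
    omega

theorem sol_step2 (hn : 3 ≤ n) {p : Fin n → ℕ} {s : Fin n → Fin n} (hf : Feas p s)
    (x y t t' o : Fin n) (hxy : dd x y = 1) (h : 2 ≤ fin p s x) (h' : 2 ^ dd y t ≤ fin p s y)
    (hTT : ∀ z ∈ TT p s, z = t ∨ z = t')
    (hx : 3 ≤ fin p s x ∨ dd x t' = 1) (ho : dd o t' = 1) : Sol p := by
  have hne : x ≠ y := by
    rintro rfl
    rw [dd_self] at hxy
    omega
  have r1 := (reach_fin hn hf).trans (send1 hn x y (fin p s) (by rw [hxy]; exact h))
  have r2 := r1.trans (send1 hn y t _ (by
    show 2 ^ dd y t ≤ fin p s y - (if y = x then 2 ^ dd x y else 0) + (if y = y then 1 else 0)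
    rw [if_neg hne.symm]
    omega))
  have key : ∀ z, z ≠ t' → (z ≠ x ∨ 3 ≤ fin p s x) →
      1 ≤ (fin p s z - (if z = x then 2 ^ dd x y else 0) + (if z = y then 1 else 0)) -
        (if z = y then 2 ^ dd y t else 0) + (if z = t then 1 else 0) := by
    intro z h1 h2
    by_cases h3 : z = t
    · rw [if_pos h3]; omega
    · have h4 := fin_pos hf z (by
        intro h5
        rcases hTT z (mem_TT.2 h5) with h6 | h6
        · exact h3 h6
        · exact h1 h6)
      by_cases h5 : z = y
      · have h6 : z ≠ x := fun h7 => hne (h7.symm.trans h5)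
        rw [if_neg h6, if_pos h5, if_pos h5, h5]
        rw [h5] at h4
        omega
      · rw [if_neg h5, if_neg h5]
        by_cases h6 : z = x
        · rw [if_pos h6, hxy]
          rcases h2 with h2 | h2
          · exact absurd h6 h2
          · rw [h6]; omega
        · rw [if_neg h6]; omega
  rcases hx with hx | hx
  · exact ⟨_, r2, o, t', ho, fun z _ h2 => key z h2 (Or.inr hx)⟩
  · exact ⟨_, r2, x, t', hx, fun z h1 h2 => key z h2 (Or.inl h1)⟩

theorem sol_swap (hn : 3 ≤ n) {p : Fin n → ℕ} {s : Fin n → Fin n} (hf : Feas p s)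
    (x y t t' : Fin n) (hs : s y = x) (hyx : y ≠ x) (ht : t ∈ TT p s)
    (hTT : ∀ z ∈ TT p s, z = t ∨ z = t')
    (h : 2 ^ dd x t + 1 ≤ p x - cost s x + 2 ^ dd x y) (hy : dd y t' = 1) : Sol p := by
  rw [mem_TT] at ht
  have hpx : 2 ≤ p x := by
    have := filler_big hf (v := y) (by rw [hs]; exact hyx.symm)
    rwa [hs] at this
  have hxt : x ≠ t := by
    rintro rfl
    omega
  have hyt : y ≠ t := by
    rintro rfl
    exact hyx (ht.2.symm.trans hs)
  obtain ⟨s', hs'⟩ : ∃ s' : Fin n → Fin n, s' = Function.update (Function.update s y y) t x :=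
    ⟨_, rfl⟩
  have h1 : s' t = x := by rw [hs']; simp
  have h2 : s' y = y := by rw [hs']; simp [hyt]
  have h3 : ∀ u, u ≠ t → u ≠ y → s' u = s u := by
    intro u hu1 hu2; rw [hs']; simp [hu1, hu2]
  have hcost : ∀ g, cost s' g + (if g = x then 2 ^ dd x y else 0) ≤
      cost s g + (if g = x then 2 ^ dd x t else 0) := by
    intro g
    have e1 : (if g = x then 2 ^ dd x y else 0) =
        ∑ u : Fin n, if u = y then (if g = x then 2 ^ dd x y else 0) else 0 := by simp
    have e2 : (if g = x then 2 ^ dd x t else 0) =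
        ∑ u : Fin n, if u = t then (if g = x then 2 ^ dd x t else 0) else 0 := by simp
    rw [e1, e2]
    unfold cost
    rw [← Finset.sum_add_distrib, ← Finset.sum_add_distrib]
    apply Finset.sum_le_sum
    intro u _
    by_cases hu1 : u = t
    · rw [hu1, h1, if_neg (show ¬ t = y from fun h => hyt h.symm)]
      by_cases hg : g = x
      · subst hg
        rw [if_pos ⟨rfl, hxt.symm⟩, if_pos rfl, if_pos rfl]
        omega
      · rw [if_neg (fun h => hg h.1.symm)]
        exact Nat.zero_le _
    · by_cases hu2 : u = y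
      · rw [hu2, h2, if_neg (fun h => h.2 h.1), if_pos rfl, hs]
        by_cases hg : g = x
        · subst hg
          rw [if_pos rfl, if_pos ⟨rfl, hyx⟩]
          omega
        · rw [if_neg hg]
          exact Nat.zero_le _
      · rw [h3 u hu1 hu2, if_neg hu1, if_neg hu2]
  have hfeas : Feas p s' := by
    intro u hu
    have hcx : cost s' x + 1 ≤ p x := by
      have h4 := hcost x
      rw [if_pos rfl, if_pos rfl] at h4
      have h5 := cost_le hf x
      omega
    by_cases hu1 : u = t
    · rw [hu1, h1]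
      exact ⟨ht.1, hcx⟩
    · by_cases hu2 : u = y
      · rw [hu2] at hu
        exact absurd h2 hu
      · rw [h3 u hu1 hu2] at hu ⊢
        refine ⟨(hf u hu).1, ?_⟩
        by_cases hg : s u = x
        · rw [hg]; exact hcx
        · have h4 := hcost (s u)
          rw [if_neg hg, if_neg hg] at h4
          have h5 := (hf u hu).2
          omega
  refine sol_of_feas hn hfeas y t' hy ?_
  intro z hz1 hz2
  by_cases hu1 : z = t
  · rw [hu1, h1] at hz2
    exact absurd hz2 hxt
  · by_cases hu2 : z = y
    · exact Or.inl hu2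
    · rw [h3 z hu1 hu2] at hz2
      rcases hTT z (mem_TT.2 ⟨hz1, hz2⟩) with h4 | h4
      · exact absurd h4 hu1
      · exact Or.inr h4

end Pool.Agent.R98.Hub
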