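import Pool.Agent.R98.Order

/-!
# Placing multiples of primes in layers
-/

set_option autoImplicit false

open Finset

namespace Pool.Agent.R98.Layer

open Pool.Agent.R98

/-- a window of residues that avoids few intervals -/
lemma exists_beta (q A F W : ℕ) (hq : 0 < q) (Γ : Finset ℤ) (hΓ : Γ.card ≤ A) (u0 : ℤ)
    (h : A * (F + W) < q) :
    ∃ β : ℤ, ∀ γ ∈ Γ, ∀ u : ℤ, u0 ≤ u → u < u0 + F → ∀ w : ℕ, w < W →
      ¬ (q : ℤ) ∣ γ - u - (β + w) := by
  classical
  have hq' : (0 : ℤ) < q := by exact_mod_cast hq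
  by_contra hcon
  push Not at hcon
  have h1 : (range q).image (fun b : ℕ => (b : ℤ))
      ⊆ (Γ ×ˢ (range (F + W))).image (fun x => (x.1 - u0 - (x.2 : ℤ)) % q) := by
    intro b hb
    rw [Finset.mem_image] at hb
    obtain ⟨b', hb', rfl⟩ := hb
    rw [Finset.mem_range] at hb'
    obtain ⟨γ, hγ, u, hu1, hu2, w, hw, hdvd⟩ := hcon b'
    rw [Finset.mem_image]
    refine ⟨(γ, (u - u0).toNat + w), ?_, ?_⟩
    · rw [Finset.mem_product, Finset.mem_range]
      refine ⟨hγ, ?_⟩
      simp only
      omega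
    · simp only
      push_cast
      rw [Int.toNat_of_nonneg (by omega)]
      have h2 : γ - u0 - (u - u0 + (w : ℤ)) = (b' : ℤ) + (γ - u - ((b' : ℤ) + w)) := by ring
      rw [h2]
      obtain ⟨e, he⟩ := hdvd
      rw [he, Int.add_mul_emod_self_left]
      exact Int.emod_eq_of_lt (by positivity) (by exact_mod_cast hb')
  have h2 := Finset.card_le_card h1
  rw [Finset.card_image_of_injective _ (fun a b hab => by exact_mod_cast hab), Finset.card_range] at h2
  have h3 : ((Γ ×ˢ (range (F + W))).image (fun x => (x.1 - u0 - (x.2 : ℤ)) % q)).card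
      ≤ A * (F + W) := by
    refine Finset.card_image_le.trans ?_
    rw [Finset.card_product, Finset.card_range]
    exact Nat.mul_le_mul_right _ hΓ
  omega

/-- the inequality needed for `exists_residue` -/
lemma ineq_of {c M G H K p : ℕ} (hc : c ≤ M) (hK : 1 ≤ K) (hG : p ≤ G * K)
    (hH : M * G ^ (M + 1) ≤ H) (hH1 : 1 ≤ H) (hKp : K ≤ p) :
    (c : ℝ) * (p : ℝ) ^ 2 * ((p : ℝ) * K) ^ (c - 1) < 2 * H * (K : ℝ) ^ (2 * c) := by
  rcases Nat.eq_zero_or_pos c with h0 | h0
  · rw [h0]
    simp only [Nat.cast_zero, zero_mul, mul_zero, pow_zero, mul_one]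
    have : (1 : ℝ) ≤ H := by exact_mod_cast hH1
    linarith
  · obtain ⟨c, rfl⟩ : ∃ c', c = c' + 1 := ⟨c - 1, by omega⟩
    have hmain : (c + 1) * p ^ 2 * (p * K) ^ (c + 1 - 1) < 2 * H * K ^ (2 * (c + 1)) := by
      rw [Nat.add_sub_cancel]
      have hGpos : 1 ≤ G := by
        rcases Nat.eq_zero_or_pos G with h | h
        · rw [h] at hG; omega
        · exact h
      calc (c + 1) * p ^ 2 * (p * K) ^ c = (c + 1) * p ^ (c + 2) * K ^ c := by ring
        _ ≤ M * (G * K) ^ (c + 2) * K ^ c := by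
            apply Nat.mul_le_mul_right
            apply Nat.mul_le_mul (by omega)
            exact Nat.pow_le_pow_left (by omega) _
        _ = M * G ^ (c + 2) * K ^ (2 * (c + 1)) := by
            rw [mul_pow]; ring
        _ ≤ M * G ^ (M + 1) * K ^ (2 * (c + 1)) := by
            apply Nat.mul_le_mul_right
            apply Nat.mul_le_mul_left
            exact Nat.pow_le_pow_right hGpos (by omega)
        _ ≤ H * K ^ (2 * (c + 1)) := Nat.mul_le_mul_right _ hH
        _ < 2 * H * K ^ (2 * (c + 1)) := by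
            apply Nat.mul_lt_mul_of_pos_right (by omega)
            positivity
    exact_mod_cast hmain

/-- choice of the residue of a new progression with difference `a p` -/
lemma place {ι : Type} [Fintype ι] [DecidableEq ι] {p : ℕ} (hp : p.Prime) (a A K H M G F : ℕ)
    (ha : 1 ≤ a) (haA : a ≤ A) (hAp : A < p) (hK : 1 ≤ K) (hKp : K ≤ p) (hH1 : 1 ≤ H)
    (hG : p ≤ G * K) (hH : M * G ^ (M + 1) ≤ H) (hM : Fintype.card ι + 1 ≤ M)
    (q : ι → ℕ) (hq : ∀ j, (q j).Prime) (hpq : ∀ j, q j ≠ p) (hAq : ∀ j, A < q j)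
    (hrel : ∀ c : ι → ℤ, ∀ c0 : ℤ, (∀ j, |c j| ≤ (A * H : ℕ)) → |c0| ≤ (A * H : ℕ) →
      (c0 ≠ 0 ∨ ∃ j, c j ≠ 0) →
      (c0 : ZMod p) + ∑ j, (c j : ZMod p) * ((q j : ZMod p))⁻¹ ≠ 0)
    (hq2 : ∀ j, q j ≤ 2 * p) (Γ : ι → Finset ℤ) (hΓ : ∀ j, (Γ j).card ≤ a)
    (hF : ∀ j, a * (F + 4 * K) < q j) (u0 : ι → ℤ) (t κ : ℤ) :
    ∃ r' : ℤ, 0 ≤ r' ∧ r' < p ∧ (∃ w : ℕ, w + 2 ≤ 2 * K ∧ (p : ℤ) ∣ a * r' - κ - w) ∧
      ∀ j, ∀ Y ∈ Γ j, ∀ u : ℤ, u0 j ≤ u → u < u0 j + F →
        ¬ (q j : ℤ) ∣ a * r' + a * p * (t + u) - Y := by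
  classical
  have : Fact p.Prime := ⟨hp⟩
  have hp0 : (0 : ℤ) < p := by exact_mod_cast hp.pos
  have hqne : ∀ j, (q j : ZMod p) ≠ 0 := by
    intro j h0
    rw [ZMod.natCast_eq_zero_iff] at h0
    exact hpq j ((Nat.prime_dvd_prime_iff_eq hp (hq j)).1 h0).symm
  -- inverses of `a p` modulo the `q j`
  have hinv : ∀ j, ∃ g : ℤ, (q j : ℤ) ∣ g * (a * p) - 1 := by
    intro j
    have h1 : IsCoprime ((a * p : ℕ) : ℤ) (q j : ℤ) := by
      apply Nat.isCoprime_iff_coprime.2
      apply Nat.Coprime.mul_left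
      · apply Nat.Coprime.symm
        rw [(hq j).coprime_iff_not_dvd]
        intro h
        have := Nat.le_of_dvd (by omega) h
        have := hAq j
        omega
      · exact (Nat.coprime_primes hp (hq j)).2 (hpq j).symm
    obtain ⟨x, y, hxy⟩ := h1
    refine ⟨x, -y, ?_⟩
    push_cast at hxy
    linarith
  choose g hg using hinv
  -- windows
  have hβ : ∀ j, ∃ β : ℤ, ∀ γ ∈ (Γ j).image (fun Y => g j * Y - t), ∀ u : ℤ, u0 j ≤ u →
      u < u0 j + F → ∀ w : ℕ, w < 4 * K → ¬ (q j : ℤ) ∣ γ - u - (β + w) := by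
    intro j
    exact exists_beta (q j) a F (4 * K) (hq j).pos _ (Finset.card_image_le.trans (hΓ j)) (u0 j)
      (hF j)
  choose β hβ using hβ
  -- the starting points of the windows modulo `p`
  have he : ∀ j, ∃ e : ℤ, (p : ℤ) * β j ≤ q j * e ∧ (q j : ℤ) * e < p * β j + q j := by
    intro j
    have hqj : (0 : ℤ) < q j := by exact_mod_cast (hq j).pos
    refine ⟨-((-(p * β j)) / q j), ?_, ?_⟩
    · have h1 := Int.mul_ediv_self_le (x := -(p * β j)) (k := (q j : ℤ)) hqj.ne'
      linarith
    · have h1 := Int.lt_mul_ediv_self_add (x := -(p * β j)) (k := (q j : ℤ)) hqj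
      linarith
  choose e he1 he2 using he
  obtain ⟨r, hr⟩ := Equi.exists_residue (p := p) (ι := Option ι) K H hK hKp hH1
    (fun o => o.elim (a : ZMod p) (fun j => -((q j : ZMod p))⁻¹))
    (fun o => o.elim (κ : ZMod p) (fun j => (e j : ZMod p)))
    (by
      intro c hc h0 o
      by_cases hc0 : ∀ o, c o = 0
      · rw [hc0 o]; simp
      · exfalso
        rw [Fintype.sum_option] at h0
        simp only [Option.elim_none, Option.elim_some] at h0
        apply hrel (fun j => - c (some j)) (c none * a)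
        · intro j
          rw [abs_neg]
          have h1 := hc (some j)
          have h2 : H ≤ A * H := Nat.le_mul_of_pos_left _ (by omega)
          have h3 : (H : ℤ) ≤ ((A * H : ℕ) : ℤ) := by exact_mod_cast h2
          linarith
        · rw [abs_mul]
          have h1 := hc none
          have h2 : |(a : ℤ)| ≤ A := by
            rw [abs_of_nonneg (by positivity)]
            exact_mod_cast haA
          push_cast
          calc |c none| * |(a : ℤ)| ≤ H * A := mul_le_mul h1 h2 (abs_nonneg _) (by positivity)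
            _ = A * H := by ring
        · by_contra hcon
          push Not at hcon
          apply hc0
          intro o
          rcases o with _ | j
          · have := hcon.1
            rcases mul_eq_zero.1 this with h | h
            · exact h
            · have : (1 : ℤ) ≤ a := by exact_mod_cast ha
              omega
          · have := hcon.2 j
            omega
        · rw [← h0]
          push_cast
          congr 1
          apply Finset.sum_congr rfl
          intro j _
          ring)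
    (ineq_of (M := M) (by rw [Fintype.card_option]; exact hM) hK hG hH hH1 hKp)
  set r' : ℤ := (r.val : ℤ) with hr'
  have hrr : (r' : ZMod p) = r := by
    rw [hr']
    push_cast
    exact ZMod.natCast_zmod_val r
  have hr0 : 0 ≤ r' := by positivity
  have hrp : r' < p := by
    rw [hr']
    exact_mod_cast ZMod.val_lt r
  refine ⟨r', hr0, hrp, ?_, ?_⟩
  · obtain ⟨w, hw, h1⟩ := hr none
    refine ⟨w, hw, ?_⟩
    rw [← ZMod.intCast_zmod_eq_zero_iff_dvd]
    push_cast
    simp only [Option.elim_none] at h1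
    rw [hrr, h1]
    ring
  · intro j Y hY u hu1 hu2 hdvd
    obtain ⟨w, hw, h1⟩ := hr (some j)
    simp only [Option.elim_some] at h1
    have h2 : (p : ℤ) ∣ r' + q j * (e j + w) := by
      rw [← ZMod.intCast_zmod_eq_zero_iff_dvd]
      push_cast
      rw [hrr, ← h1]
      have := hqne j
      field_simp
      ring
    obtain ⟨f, hf⟩ := h2
    have hqj : (0 : ℤ) < q j := by exact_mod_cast (hq j).pos
    have hw' : (w : ℤ) + 2 ≤ 2 * K := by exact_mod_cast hw
    have hw0 : (0 : ℤ) ≤ w := by positivity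
    have hf1 : β j ≤ f := by
      have h3 : (p : ℤ) * β j ≤ p * f := by
        rw [← hf]
        have := he1 j
        nlinarith
      exact le_of_mul_le_mul_left h3 hp0
    have hf2 : f < β j + 4 * K := by
      have h3 : (p : ℤ) * f < p * (β j + 4 * K) := by
        rw [← hf]
        have h4 := he2 j
        have h5 : (q j : ℤ) ≤ 2 * p := by exact_mod_cast hq2 j
        have h6 : (q j : ℤ) * (1 + w) ≤ 2 * p * (2 * K - 1) := by
          apply mul_le_mul h5 (by linarith) (by linarith) (by positivity)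
        nlinarith
      exact lt_of_mul_lt_mul_left h3 hp0.le
    have hf3 : ((f - β j).toNat : ℤ) = f - β j := Int.toNat_of_nonneg (by omega)
    apply hβ j (g j * Y - t) (Finset.mem_image.2 ⟨Y, hY, rfl⟩) u hu1 hu2 (f - β j).toNat (by omega)
    rw [hf3]
    -- now the divisibility
    obtain ⟨x, hx⟩ := hdvd
    obtain ⟨y, hy⟩ := hg j
    refine ⟨-(g j * x) + y * (f + t + u) - g j * a * (e j + w), ?_⟩
    have hf' : r' = p * f - q j * (e j + w) := by linarith
    rw [hf'] at hx
    linear_combination (-(g j)) * hx + (f + t + u) * hy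

end Pool.Agent.R98.Layer
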