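import Pool.Agent.R98.Layers

/-!
# Packing all small multiples of the primes of a block
-/

set_option autoImplicit false

open Finset

namespace Pool.Agent.R98.Layer

open Pool.Agent.R98

/-- the multiples `a p`, `1 ≤ a ≤ A`, `p ∈ S` -/
def mulSet (A : ℕ) (S : Finset ℕ) : Finset ℕ := ((Icc 1 A) ×ˢ S).image (fun x => x.1 * x.2)

lemma mem_mulSet {A d : ℕ} {S : Finset ℕ} :
    d ∈ mulSet A S ↔ ∃ a p, 1 ≤ a ∧ a ≤ A ∧ p ∈ S ∧ a * p = d := by
  rw [mulSet, Finset.mem_image]
  constructor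
  · rintro ⟨⟨a, p⟩, h, rfl⟩
    rw [Finset.mem_product, Finset.mem_Icc] at h
    exact ⟨a, p, h.1.1, h.1.2, h.2, rfl⟩
  · rintro ⟨a, p, h1, h2, h3, rfl⟩
    exact ⟨(a, p), by rw [Finset.mem_product, Finset.mem_Icc]; exact ⟨⟨h1, h2⟩, h3⟩, rfl⟩

lemma card_mulSet_le (A : ℕ) (S : Finset ℕ) : (mulSet A S).card ≤ A * S.card := by
  refine Finset.card_image_le.trans ?_
  rw [Finset.card_product, Nat.card_Icc, Nat.add_sub_cancel]

/-- the number of leftover primes -/
def Bd (A H m : ℕ) : ℕ :=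
  (2 * (A * H) + 1) ^ (2 * m + 1) * (2 * m + 1) + 2 * m * (2 * (A * H) + 1) ^ (2 * m + 2)

lemma packs_layers (A X₁ Δ n r R : ℕ) (q : ℕ → ℕ) (hrR : r ≤ R)
    (hq : ∀ i < r, (q i).Prime ∧ q i ≤ X₁) (Z : ℕ → ℤ)
    (h1 : ∀ s < A * r, ((s % r : ℕ) : ℤ) * Δ ≤ Z s ∧
        Z s < ((s % r : ℕ) : ℤ) * Δ + 2 * (((s / r + 1) * q (s % r) : ℕ) : ℤ))
    (h3 : ∀ s < A * r, ∀ s' < s, ∀ u < n / ((s / r + 1) * q (s % r)),
        ∀ v < n / ((s' / r + 1) * q (s' % r)),
        Z s + (u : ℤ) * (((s / r + 1) * q (s % r) : ℕ) : ℤ)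
          ≠ Z s' + (v : ℤ) * (((s' / r + 1) * q (s' % r) : ℕ) : ℤ)) :
    Packs (mulSet A ((range r).image q)) (fun d => n / d) (R * Δ + (n + 2 * A * X₁)) := by
  classical
  have hrep : ∀ d ∈ mulSet A ((range r).image q), ∃ s < A * r, (s / r + 1) * q (s % r) = d ∧
      0 < r := by
    intro d hd
    obtain ⟨a, p, ha1, haA, hp, rfl⟩ := mem_mulSet.1 hd
    obtain ⟨k, hk, rfl⟩ := Finset.mem_image.1 hp
    rw [Finset.mem_range] at hk
    have hr : 0 < r := by omega
    refine ⟨(a - 1) * r + k, ?_, ?_, hr⟩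
    · calc (a - 1) * r + k < (a - 1) * r + r := by omega
        _ = (a - 1 + 1) * r := by ring
        _ ≤ A * r := Nat.mul_le_mul_right _ (by omega)
    · rw [mul_comm (a - 1) r, Nat.mul_add_div hr, Nat.mul_add_mod, Nat.div_eq_of_lt hk,
        Nat.mod_eq_of_lt hk]
      congr 1
      omega
  choose! idx hidx1 hidx2 hidx3 using hrep
  refine ⟨fun d => Z (idx d) - d + 1, ?_, ?_⟩
  · intro d hd v hv
    have e1 := hidx1 d hd
    have e2 := hidx2 d hd
    have e3 := h1 _ e1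
    have hr := hidx3 d hd
    have hmod : idx d % r < r := Nat.mod_lt _ hr
    obtain ⟨f1, f2⟩ := hq _ hmod
    rw [e2] at e3
    rw [Finset.mem_Icc] at hv
    have hdX : d ≤ A * X₁ := by
      rw [← e2]
      apply Nat.mul_le_mul _ f2
      have : idx d / r < A := by
        rw [Nat.div_lt_iff_lt_mul hr]
        exact e1
      omega
    have e4 : (v : ℤ) * d ≤ n := by
      have : v * d ≤ n := (Nat.mul_le_mul_right _ hv.2).trans (Nat.div_mul_le_self _ _)
      exact_mod_cast this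
    have e6 : (1 : ℤ) * d ≤ v * d :=
      mul_le_mul_of_nonneg_right (by exact_mod_cast hv.1) (by positivity)
    have e7 : (0 : ℤ) ≤ ((idx d % r : ℕ) : ℤ) * Δ := by positivity
    have e8 : ((idx d % r : ℕ) : ℤ) * Δ ≤ R * Δ := by
      apply mul_le_mul_of_nonneg_right _ (by positivity)
      exact_mod_cast (by omega : idx d % r ≤ R)
    have e9 : (d : ℤ) ≤ A * X₁ := by exact_mod_cast hdX
    constructor
    · linarith
    · push_cast
      linarith
  · intro d hd e he hde v hv w hw heq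
    have e1 := hidx1 d hd
    have e2 := hidx2 d hd
    have f1 := hidx1 e he
    have f2 := hidx2 e he
    rw [Finset.mem_Icc] at hv hw
    obtain ⟨v', rfl⟩ : ∃ v', v = v' + 1 := ⟨v - 1, by omega⟩
    obtain ⟨w', rfl⟩ : ∃ w', w = w' + 1 := ⟨w - 1, by omega⟩
    have hne : idx d ≠ idx e := by
      intro h
      apply hde
      rw [← e2, ← f2, h]
    push_cast at heq
    rcases Nat.lt_or_gt_of_ne hne with hlt | hlt
    · have := h3 (idx e) f1 (idx d) hlt w' (by rw [f2]; exact hw.2) v'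
        (by rw [e2]; exact hv.2)
      rw [e2, f2] at this
      apply this
      linarith
    · have := h3 (idx d) e1 (idx e) hlt v' (by rw [e2]; exact hv.2) w'
        (by rw [f2]; exact hw.2)
      rw [e2, f2] at this
      apply this
      linarith

/-- **The layered chain lemma.** -/
theorem layer_chain (A K H m G X₀ X₁ Δ n : ℕ) (S : Finset ℕ)
    (hS : ∀ p ∈ S, p.Prime ∧ X₀ < p ∧ p ≤ X₁) (hX2 : X₁ ≤ 2 * X₀ + 1) (hX01 : X₀ ≤ X₁)
    (hK : 1 ≤ K) (hG : X₁ ≤ G * K) (hH1 : 1 ≤ H)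
    (hH : (2 * m + 1) * G ^ (2 * m + 1 + 1) ≤ H) (hA : 1 ≤ A)
    (hAX : A * (4 * K + 5) ≤ X₀) (hAH : A * H ≤ X₀)
    (hX : (2 * m + 1) * (A * H) * X₁ ^ (2 * m) < X₀ ^ (2 * m + 1))
    (hspan : n + 2 * A * X₁ ≤ (m + 1) * Δ)
    (hov : n + 2 * A * X₁ ≤ Δ + X₀ * (X₀ - A * (4 * K + 5))) :
    Packs (mulSet A S) (fun d => n / d)
      (S.card * Δ + (n + 2 * A * X₁) + A * Bd A H m * n) := by
  classical
  have hLd : ∀ d : ℕ, (fun d => n / d) d * d ≤ n := fun d => Nat.div_mul_le_self _ _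
  have hpos : ∀ T : Finset ℕ, T ⊆ S → ∀ d ∈ mulSet A T, 0 < d := by
    intro T hT d hd
    obtain ⟨a, p, ha1, _, hp, rfl⟩ := mem_mulSet.1 hd
    exact Nat.mul_pos ha1 (hS p (hT hp)).1.pos
  rcases Nat.lt_or_ge S.card (Bd A H m) with hlt | hge
  · have h1 := packs_trivial (S := mulSet A S) (N := fun d => n / d) (L := n)
      (hpos S (le_refl _)) (fun d _ => hLd d)
    refine h1.mono ?_
    have h2 : (mulSet A S).card * n ≤ A * Bd A H m * n := by
      apply Nat.mul_le_mul_right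
      exact (card_mulSet_le A S).trans (Nat.mul_le_mul_left _ hlt.le)
    omega
  · obtain ⟨q, h1, h2, h3⟩ := exists_order S X₀ X₁ m (A * H) hS hX2 hAH hX hX01
      (S.card - Bd A H m) (by
        have e : (2 * (A * H) + 1) ^ (2 * m + 1) * (2 * m + 1)
          + 2 * m * (2 * (A * H) + 1) ^ (2 * m + 2) = Bd A H m := rfl
        rw [e]
        omega)
    set r := S.card - Bd A H m with hr
    obtain ⟨Z, g1, _, g3⟩ := layers A K H m G X₀ X₁ Δ n r q (fun i hi => hS _ (h1 i hi)) h2 h3 hX2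
      hK hG hH1 hH hA hAX hspan hov (A * r) le_rfl
    have hP1 := packs_layers A X₁ Δ n r S.card q (by omega)
      (fun i hi => ⟨(hS _ (h1 i hi)).1, (hS _ (h1 i hi)).2.2⟩) Z g1 g3
    set T := S \ (range r).image q with hT
    have hTS : T ⊆ S := Finset.sdiff_subset
    have hP2 := packs_trivial (S := mulSet A T) (N := fun d => n / d) (L := n)
      (hpos T hTS) (fun d _ => hLd d)
    have hTc : T.card ≤ Bd A H m := by
      have h6 : ((range r).image q).card = r := by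
        rw [Finset.card_image_of_injOn, Finset.card_range]
        intro a ha b hb hab
        exact h2 a (by simpa using ha) b (by simpa using hb) hab
      have h7 : (range r).image q ⊆ S := by
        intro d hd
        obtain ⟨i, hi, h⟩ := Finset.mem_image.1 hd
        rw [← h]
        exact h1 i (Finset.mem_range.1 hi)
      rw [hT, Finset.card_sdiff_of_subset h7, h6]
      omega
    have hP3 : Packs (mulSet A T) (fun d => n / d) (A * Bd A H m * n) := by
      refine hP2.mono ?_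
      apply Nat.mul_le_mul_right
      exact (card_mulSet_le A T).trans (Nat.mul_le_mul_left _ hTc)
    refine (hP1.union hP3).subset ?_
    intro d hd
    obtain ⟨a, p, ha1, ha2, hp, rfl⟩ := mem_mulSet.1 hd
    rw [Finset.mem_union]
    by_cases h : p ∈ (range r).image q
    · exact Or.inl (mem_mulSet.2 ⟨a, p, ha1, ha2, h, rfl⟩)
    · exact Or.inr (mem_mulSet.2 ⟨a, p, ha1, ha2, Finset.mem_sdiff.2 ⟨hp, h⟩, rfl⟩)

end Pool.Agent.R98.Layer
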