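import Pool.Agent.R98.Layer

/-!
# The layered placement
-/

set_option autoImplicit false

open Finset

namespace Pool.Agent.R98.Layer

open Pool.Agent.R98

lemma card_class_le {t r j : ℕ} : ((range t).filter (fun s => s % r = j)).card ≤ t / r + 1 := by
  have h1 : (((range t).filter (fun s => s % r = j)).image (fun s => s / r)).card
      = ((range t).filter (fun s => s % r = j)).card := by
    apply Finset.card_image_of_injOn
    intro a ha b hb hab
    simp only [Finset.coe_filter, Finset.mem_range, Set.mem_ofPred_eq] at ha hb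
    simp only at hab
    rw [← Nat.div_add_mod a r, ← Nat.div_add_mod b r, hab, ha.2, hb.2]
  rw [← h1]
  have h2 : ((range t).filter (fun s => s % r = j)).image (fun s => s / r) ⊆ range (t / r + 1) := by
    intro x hx
    obtain ⟨s, hs, rfl⟩ := Finset.mem_image.1 hx
    rw [Finset.mem_filter, Finset.mem_range] at hs
    rw [Finset.mem_range]
    have := Nat.div_le_div_right (c := r) hs.1.le
    omega
  exact (Finset.card_le_card h2).trans (by rw [Finset.card_range])

/-- the case of two different windows at bounded distance: the index range -/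
lemma index_range {n A X₁ Δ a p b q k j : ℕ} {x z : ℤ} {u v : ℕ} (hap : 0 < a * p)
    (haX : a * p ≤ A * X₁) (hbX : b * q ≤ A * X₁) (hx1 : (k : ℤ) * Δ ≤ x)
    (hx2 : x < k * Δ + 2 * (a * p : ℕ)) (hz1 : (j : ℤ) * Δ ≤ z) (hz2 : z < j * Δ + 2 * (b * q : ℕ))
    (hu : u < n / (a * p)) (hv : v < n / (b * q))
    (heq : x + (u : ℤ) * (a * p : ℕ) = z + (v : ℤ) * (b * q : ℕ)) (hjk : j ≠ k) :
    (if j < k then (0 : ℤ) else ((Δ / (a * p) : ℕ) : ℤ) - 1) ≤ u ∧
    (u : ℤ) < (if j < k then (0 : ℤ) else ((Δ / (a * p) : ℕ) : ℤ) - 1)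
      + (((n + 2 * A * X₁ - Δ) / (a * p) + 4 : ℕ) : ℤ) := by
  have hap' : (0 : ℤ) < (a * p : ℕ) := by exact_mod_cast hap
  have haX' : ((a * p : ℕ) : ℤ) ≤ A * X₁ := by exact_mod_cast haX
  have hbX' : ((b * q : ℕ) : ℤ) ≤ A * X₁ := by exact_mod_cast hbX
  have hu1 : ((u : ℤ) + 1) * (a * p : ℕ) ≤ n := by
    have h1 : (u + 1) * (a * p) ≤ n :=
      (Nat.mul_le_mul_right _ (Nat.succ_le_of_lt hu)).trans (Nat.div_mul_le_self _ _)
    exact_mod_cast h1
  have hv1 : ((v : ℤ) + 1) * (b * q : ℕ) ≤ n := by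
    have h1 : (v + 1) * (b * q) ≤ n :=
      (Nat.mul_le_mul_right _ (Nat.succ_le_of_lt hv)).trans (Nat.div_mul_le_self _ _)
    exact_mod_cast h1
  have hu0 : (0 : ℤ) ≤ u := by positivity
  have hbq0 : (0 : ℤ) ≤ (b * q : ℕ) := by positivity
  have hv0 : (0 : ℤ) ≤ (v : ℤ) * (b * q : ℕ) := by positivity
  have hΔ0 : (0 : ℤ) ≤ Δ := by positivity
  set ℓ := n + 2 * A * X₁ - Δ with hℓ
  have hℓ' : (n : ℤ) + 2 * A * X₁ - Δ ≤ ℓ := by
    have h1 : n + 2 * A * X₁ ≤ ℓ + Δ := by omega
    have h2 : (n : ℤ) + 2 * A * X₁ ≤ ℓ + Δ := by exact_mod_cast h1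
    linarith
  rcases Nat.lt_or_gt_of_ne hjk with hlt | hlt
  · rw [if_pos hlt]
    refine ⟨hu0, ?_⟩
    have h1 : ((j : ℤ) + 1) * Δ ≤ k * Δ :=
      mul_le_mul_of_nonneg_right (by exact_mod_cast hlt) hΔ0
    -- `u a p ≤ ℓ`
    have h2 : (u : ℤ) * (a * p : ℕ) ≤ ℓ := by nlinarith
    have h3 : u * (a * p) ≤ ℓ := by exact_mod_cast h2
    have h4 : u ≤ ℓ / (a * p) := by
      rw [Nat.le_div_iff_mul_le hap]
      exact h3
    have h5 : (u : ℤ) ≤ ((ℓ / (a * p) : ℕ) : ℤ) := by exact_mod_cast h4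
    push_cast at h5 ⊢
    linarith
  · rw [if_neg (by omega)]
    have h1 : ((k : ℤ) + 1) * Δ ≤ j * Δ :=
      mul_le_mul_of_nonneg_right (by exact_mod_cast hlt) hΔ0
    have h2 : (Δ : ℤ) < ((u : ℤ) + 2) * (a * p : ℕ) := by nlinarith
    have h3 : Δ < (u + 2) * (a * p) := by exact_mod_cast h2
    have h4 : Δ / (a * p) < u + 2 := by
      rw [Nat.div_lt_iff_lt_mul hap]
      exact h3
    have h4' : ((Δ / (a * p) : ℕ) : ℤ) < u + 2 := by exact_mod_cast h4
    refine ⟨by omega, ?_⟩
    have h5 : Δ < a * p * (Δ / (a * p) + 1) := Nat.lt_mul_div_succ _ hap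
    have h6 : ℓ < a * p * (ℓ / (a * p) + 1) := Nat.lt_mul_div_succ _ hap
    have h7 : n ≤ Δ + ℓ := by omega
    have h8 : (u + 1) * (a * p) ≤ n :=
      (Nat.mul_le_mul_right _ (Nat.succ_le_of_lt hu)).trans (Nat.div_mul_le_self _ _)
    have h9 : (a * p) * (u + 1) < (a * p) * (Δ / (a * p) + 1 + (ℓ / (a * p) + 1)) := by
      calc (a * p) * (u + 1) = (u + 1) * (a * p) := by ring
        _ ≤ n := h8
        _ ≤ Δ + ℓ := h7
        _ < a * p * (Δ / (a * p) + 1) + a * p * (ℓ / (a * p) + 1) := by omega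
        _ = (a * p) * (Δ / (a * p) + 1 + (ℓ / (a * p) + 1)) := by ring
    have h10 : u + 1 < Δ / (a * p) + 1 + (ℓ / (a * p) + 1) := Nat.lt_of_mul_lt_mul_left h9
    have h11 : (u : ℤ) + 1 < ((Δ / (a * p) : ℕ) : ℤ) + 1 + (((ℓ / (a * p) : ℕ) : ℤ) + 1) := by
      exact_mod_cast h10
    push_cast at h11 ⊢
    linarith

/-- windows at large distance do not interact -/
lemma far {n A X₁ Δ a p b q k j m : ℕ} {x z : ℤ} {u v : ℕ}
    (haX : a * p ≤ A * X₁) (hbX : b * q ≤ A * X₁) (hx1 : (k : ℤ) * Δ ≤ x)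
    (hx2 : x < k * Δ + 2 * (a * p : ℕ)) (hz1 : (j : ℤ) * Δ ≤ z) (hz2 : z < j * Δ + 2 * (b * q : ℕ))
    (hu : u < n / (a * p)) (hv : v < n / (b * q))
    (heq : x + (u : ℤ) * (a * p : ℕ) = z + (v : ℤ) * (b * q : ℕ))
    (hspan : n + 2 * A * X₁ ≤ (m + 1) * Δ) : j ≤ k + m ∧ k ≤ j + m := by
  have haX' : ((a * p : ℕ) : ℤ) ≤ A * X₁ := by exact_mod_cast haX
  have hbX' : ((b * q : ℕ) : ℤ) ≤ A * X₁ := by exact_mod_cast hbX
  have hu1 : ((u : ℤ) + 1) * (a * p : ℕ) ≤ n := by
    have h1 : (u + 1) * (a * p) ≤ n :=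
      (Nat.mul_le_mul_right _ (Nat.succ_le_of_lt hu)).trans (Nat.div_mul_le_self _ _)
    exact_mod_cast h1
  have hv1 : ((v : ℤ) + 1) * (b * q : ℕ) ≤ n := by
    have h1 : (v + 1) * (b * q) ≤ n :=
      (Nat.mul_le_mul_right _ (Nat.succ_le_of_lt hv)).trans (Nat.div_mul_le_self _ _)
    exact_mod_cast h1
  have hu0 : (0 : ℤ) ≤ (u : ℤ) * (a * p : ℕ) := by positivity
  have hv0 : (0 : ℤ) ≤ (v : ℤ) * (b * q : ℕ) := by positivity
  have hΔ0 : (0 : ℤ) ≤ Δ := by positivity
  have hspan' : (n : ℤ) + 2 * A * X₁ ≤ (m + 1) * Δ := by exact_mod_cast hspan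
  constructor
  · by_contra hcon
    push Not at hcon
    have h1 : (k : ℤ) + m + 1 ≤ j := by exact_mod_cast hcon
    have h2 : ((k : ℤ) + m + 1) * Δ ≤ j * Δ := mul_le_mul_of_nonneg_right h1 hΔ0
    nlinarith
  · by_contra hcon
    push Not at hcon
    have h1 : (j : ℤ) + m + 1 ≤ k := by exact_mod_cast hcon
    have h2 : ((j : ℤ) + m + 1) * Δ ≤ k * Δ := mul_le_mul_of_nonneg_right h1 hΔ0
    nlinarith

/-- **The layered placement.** -/
theorem layers (A K H m G X₀ X₁ Δ n r : ℕ) (q : ℕ → ℕ)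
    (hq : ∀ i < r, (q i).Prime ∧ X₀ < q i ∧ q i ≤ X₁)
    (hinj : ∀ i < r, ∀ j < r, q i = q j → i = j)
    (hfree : Free m (A * H) r q) (hX2 : X₁ ≤ 2 * X₀ + 1) (hK : 1 ≤ K) (hG : X₁ ≤ G * K)
    (hH1 : 1 ≤ H) (hH : (2 * m + 1) * G ^ (2 * m + 1 + 1) ≤ H) (hA : 1 ≤ A)
    (hAX : A * (4 * K + 5) ≤ X₀) (hspan : n + 2 * A * X₁ ≤ (m + 1) * Δ)
    (hov : n + 2 * A * X₁ ≤ Δ + X₀ * (X₀ - A * (4 * K + 5))) :
    ∀ t ≤ A * r, ∃ Z : ℕ → ℤ,
      (∀ s < t, ((s % r : ℕ) : ℤ) * Δ ≤ Z s ∧
        Z s < ((s % r : ℕ) : ℤ) * Δ + 2 * (((s / r + 1) * q (s % r) : ℕ) : ℤ)) ∧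
      (∀ s < t, ∃ w : ℕ, w + 2 ≤ 2 * K ∧
        (q (s % r) : ℤ) ∣ Z s - 2 * K * ((s / r + 1 : ℕ) : ℤ) - w) ∧
      (∀ s < t, ∀ s' < s, ∀ u < n / ((s / r + 1) * q (s % r)),
        ∀ v < n / ((s' / r + 1) * q (s' % r)),
        Z s + (u : ℤ) * (((s / r + 1) * q (s % r) : ℕ) : ℤ)
          ≠ Z s' + (v : ℤ) * (((s' / r + 1) * q (s' % r) : ℕ) : ℤ)) := by
  classical
  intro t
  induction t with
  | zero => intro _; exact ⟨0, by simp, by simp, by simp⟩
  | succ t ih =>
    intro ht
    obtain ⟨Z, h1, h2, h3⟩ := ih (by omega)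
    have hr : 0 < r := by
      rcases Nat.eq_zero_or_pos r with h | h
      · rw [h] at ht; omega
      · exact h
    set a := t / r + 1 with ha
    set k := t % r with hk
    have hkr : k < r := Nat.mod_lt _ hr
    have haA : a ≤ A := by
      have : t / r < A := by
        rw [Nat.div_lt_iff_lt_mul hr]
        omega
      omega
    have ha1 : 1 ≤ a := by rw [ha]; exact Nat.succ_le_succ (Nat.zero_le _)
    set p := q k with hp
    obtain ⟨hpP, hpX₀, hpX₁⟩ := hq k hkr
    have hA5 : A ≤ A * (4 * K + 5) := Nat.le_mul_of_pos_right _ (by omega)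
    have hK5 : 4 * K + 5 ≤ A * (4 * K + 5) := Nat.le_mul_of_pos_left _ hA
    have hAp : A < p := by omega
    have hKp : K ≤ p := by omega
    have hap : 0 < a * p := Nat.mul_pos ha1 hpP.pos
    let ι := {j : ℕ // j ∈ nb m r k}
    have hι : ∀ j : ι, (j : ℕ) < r := fun j => (mem_nb.1 j.2).1
    have hιk : ∀ j : ι, (j : ℕ) ≠ k := fun j => (mem_nb.1 j.2).2.1
    have hcard : Fintype.card ι + 1 ≤ 2 * m + 1 := by
      rw [Fintype.card_coe]
      have := card_nb_le m r k
      omega
    -- the starting multiple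
    have ht0 : ∃ t0 : ℤ, (k : ℤ) * Δ ≤ (a * p : ℕ) * t0 ∧ ((a * p : ℕ) : ℤ) * t0 < k * Δ + (a * p : ℕ) := by
      have hap' : (0 : ℤ) < (a * p : ℕ) := by exact_mod_cast hap
      refine ⟨-((-((k : ℤ) * Δ)) / (a * p : ℕ)), ?_, ?_⟩
      · have h1 := Int.mul_ediv_self_le (x := -((k : ℤ) * Δ)) (k := ((a * p : ℕ) : ℤ)) hap'.ne'
        linarith
      · have h1 := Int.lt_mul_ediv_self_add (x := -((k : ℤ) * Δ)) (k := ((a * p : ℕ) : ℤ)) hap'
        linarith
    obtain ⟨t0, ht01, ht02⟩ := ht0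
    set F := (n + 2 * A * X₁ - Δ) / (a * p) + 4 with hF
    have hFbound : ∀ j : ι, a * (F + 4 * K) < q j := by
      intro j
      have hj := (hq j (hι j)).2.1
      set ℓ := n + 2 * A * X₁ - Δ with hℓ
      have e1 : ℓ ≤ X₀ * (X₀ - A * (4 * K + 5)) := by omega
      have e2 : ℓ / p ≤ X₀ - A * (4 * K + 5) := by
        apply Nat.div_le_of_le_mul
        exact e1.trans (Nat.mul_le_mul_right _ hpX₀.le)
      have e3 : a * (ℓ / (a * p)) ≤ ℓ / p := by
        rw [mul_comm a p, ← Nat.div_div_eq_div_mul]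
        exact Nat.mul_div_le _ _
      have e4 : a * (4 + 4 * K) ≤ A * (4 + 4 * K) := Nat.mul_le_mul_right _ haA
      have e5 : A * (4 * K + 5) = A * (4 + 4 * K) + A := by ring
      calc a * (F + 4 * K) = a * (ℓ / (a * p)) + a * (4 + 4 * K) := by rw [hF]; ring
        _ < q j := by omega
    obtain ⟨r', hr0, hrp, ⟨w, hw, hwd⟩, hplace⟩ := place hpP a A K H (2 * m + 1) G F ha1 haA hAp hK
      hKp hH1 (hpX₁.trans hG) hH hcard (fun j : ι => q j) (fun j => (hq j (hι j)).1)
      (fun j h => hιk j (hinj _ (hι j) _ hkr h)) (fun j => by have := (hq j (hι j)).2.1; omega)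
      (by
        intro c c0 hc hc0 hne h0
        have hfk := hfree k hkr (fun j => if h : j ∈ nb m r k then c ⟨j, h⟩ else 0) c0 (by
          intro j
          by_cases h : j ∈ nb m r k
          · simp only [h, dif_pos]
            exact hc _
          · simp only [h, dif_neg, not_false_iff, abs_zero]
            positivity) hc0 (by
          rcases hne with h | ⟨j, h⟩
          · exact Or.inl h
          · right
            refine ⟨j, j.2, ?_⟩
            simp only [j.2, dif_pos]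
            exact h)
        apply hfk
        rw [← h0]
        congr 1
        rw [← Finset.sum_coe_sort (nb m r k)]
        apply Finset.sum_congr rfl
        intro j _
        simp only [j.2, dif_pos])
      (fun j => by
        have := (hq j (hι j)).2.2
        change q (j : ℕ) ≤ 2 * p
        omega)
      (fun j => ((range t).filter (fun s => s % r = j)).image Z)
      (fun j => Finset.card_image_le.trans card_class_le) hFbound
      (fun j => if (j : ℕ) < k then (0 : ℤ) else ((Δ / (a * p) : ℕ) : ℤ) - 1) t0 (2 * K * a)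
    set x : ℤ := a * r' + a * p * t0 with hx
    have hapc : ((a * p : ℕ) : ℤ) = (a : ℤ) * p := by push_cast; ring
    have hx1 : (k : ℤ) * Δ ≤ x := by
      have : (0 : ℤ) ≤ a * r' := by positivity
      rw [hx]
      rw [hapc] at ht01
      linarith
    have hx2 : x < (k : ℤ) * Δ + 2 * ((a * p : ℕ) : ℤ) := by
      have h5 : (a : ℤ) * r' < a * p := mul_lt_mul_of_pos_left hrp (by exact_mod_cast ha1)
      rw [hx]
      rw [hapc] at ht02 ⊢
      linarith
    have hZ : ∀ s < t, Function.update Z t x s = Z s := fun s hs =>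
      Function.update_of_ne (by omega) _ _
    refine ⟨Function.update Z t x, ?_, ?_, ?_⟩
    · intro s hs
      by_cases hst : s = t
      · rw [hst, Function.update_self]
        exact ⟨hx1, hx2⟩
      · rw [hZ s (by omega)]
        exact h1 s (by omega)
    · intro s hs
      by_cases hst : s = t
      · rw [hst, Function.update_self]
        refine ⟨w, hw, ?_⟩
        obtain ⟨y, hy⟩ := hwd
        refine ⟨y + a * t0, ?_⟩
        rw [hx]
        rw [← ha, ← hk, ← hp]
        linear_combination hy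
      · rw [hZ s (by omega)]
        exact h2 s (by omega)
    · intro s hs s' hs'
      by_cases hst : s = t
      · subst hst
        rw [Function.update_self, hZ s' hs', ← ha, ← hk, ← hp]
        intro u hu v hv heq
        set b := s' / r + 1 with hb
        set j := s' % r with hj
        have hjr : j < r := Nat.mod_lt _ hr
        obtain ⟨hjP, hjX₀, hjX₁⟩ := hq j hjr
        have hba : b ≤ a := by
          have := Nat.div_le_div_right (c := r) hs'.le
          omega
        have haX : a * p ≤ A * X₁ := Nat.mul_le_mul haA hpX₁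
        have hbX : b * q j ≤ A * X₁ := Nat.mul_le_mul (hba.trans haA) hjX₁
        obtain ⟨hz1, hz2⟩ := h1 s' hs'
        rw [← hj] at hz1
        rw [← hb, ← hj] at hz2
        by_cases hjk : j = k
        · -- same prime
          have hblt : b < a := by
            rcases Nat.lt_or_ge b a with h | h
            · exact h
            · exfalso
              have h5 : s' / r = s / r := by omega
              have h6 : s' = s := by
                rw [← Nat.div_add_mod s' r, ← Nat.div_add_mod s r, h5, ← hj, ← hk, hjk]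
              omega
          obtain ⟨w', hw', hwd'⟩ := h2 s' hs'
          rw [← hb, ← hj, hjk, ← hp] at hwd'
          rw [hjk, ← hp] at heq
          have h5 : (p : ℤ) ∣ 2 * K * ((a : ℤ) - b) + ((w : ℤ) - w') := by
            obtain ⟨y1, hy1⟩ := hwd
            obtain ⟨y2, hy2⟩ := hwd'
            push_cast at heq hy2
            refine ⟨-y1 + y2 - a * t0 + (v * b - u * a), ?_⟩
            rw [hx] at heq
            linear_combination heq - hy1 + hy2
          have h6 : (1 : ℤ) ≤ (a : ℤ) - b := by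
            have : (b : ℤ) + 1 ≤ a := by exact_mod_cast hblt
            linarith
          have hK0 : (1 : ℤ) ≤ K := by exact_mod_cast hK
          have hw1 : (w : ℤ) + 2 ≤ 2 * K := by exact_mod_cast hw
          have hw2 : (w' : ℤ) + 2 ≤ 2 * K := by exact_mod_cast hw'
          have h7 : (0 : ℤ) < 2 * K * ((a : ℤ) - b) + ((w : ℤ) - w') := by nlinarith
          have h8 := Int.le_of_dvd h7 h5
          have h9 : (a : ℤ) - b ≤ A := by
            have : (a : ℤ) ≤ A := by exact_mod_cast haA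
            have : (0 : ℤ) ≤ b := by positivity
            linarith
          have h10 : (A : ℤ) * (4 * K + 5) < p := by exact_mod_cast lt_of_le_of_lt hAX hpX₀
          have h11 : (1 : ℤ) ≤ A := by exact_mod_cast hA
          nlinarith
        · -- different primes
          have hfar := far haX hbX hx1 hx2 hz1 hz2 hu hv heq hspan
          have hrange := index_range hap haX hbX hx1 hx2 hz1 hz2 hu hv heq hjk
          have hjnb : j ∈ nb m r k := mem_nb.2 ⟨hjr, hjk, hfar.1, hfar.2⟩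
          apply hplace ⟨j, hjnb⟩ (Z s') (Finset.mem_image.2 ⟨s', by
            rw [Finset.mem_filter, Finset.mem_range]
            exact ⟨hs', rfl⟩, rfl⟩) (u : ℤ) hrange.1 hrange.2
          refine ⟨(v : ℤ) * b, ?_⟩
          rw [hx] at heq
          push_cast at heq
          simp only
          linear_combination heq
      · rw [hZ s (by omega), hZ s' (by omega)]
        exact h3 s (by omega) s' hs'

end Pool.Agent.R98.Layer
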