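import Mathlib

/-! Hereditary graph properties and local representations. -/

namespace Pool.Agent.R98.Loc

/-- `P n` is the set of graphs with vertex set `Fin n` that have the property. The property is
hereditary: it is closed under pulling back along injections `Fin m → Fin n`, that is, under
isomorphism and under taking induced subgraphs. -/
def Hereditary (P : (n : ℕ) → Set (SimpleGraph (Fin n))) : Prop :=
  ∀ (m n : ℕ) (φ : Fin m ↪ Fin n) (G : SimpleGraph (Fin n)), G ∈ P n → G.comap φ ∈ P m

/-- the speed limit: at most `n ^ (k n)` graphs on `n` labelled vertices, for large `n` -/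
def SpeedLimit (P : (n : ℕ) → Set (SimpleGraph (Fin n))) : Prop :=
  ∃ k n₀ : ℕ, ∀ n ≥ n₀, (P n).ncard ≤ n ^ (k * n)

/-- the labelling `ℓ` of the vertices by bit strings is decoded correctly by `A` -/
def Decodes (A : List Bool → List Bool → Bool) {n : ℕ} (G : SimpleGraph (Fin n))
    (ℓ : Fin n → List Bool) : Prop :=
  ∀ v w : Fin n, v ≠ w → (G.Adj v w ↔ A (ℓ v) (ℓ w) = true)

end Pool.Agent.R98.Loc
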