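import Mathlib

/-! A locally sparse host graph with many edges. -/

namespace Pool.Agent.R98.Loc

open Finset

/-- functions that are constant `i` on `Y` -/
theorem card_fix {α β : Type} [Fintype α] [DecidableEq α] [Fintype β] [DecidableEq β]
    (Y : Finset α) (i : β) :
    (univ.filter (fun f : α → β => ∀ y ∈ Y, f y = i)).card * (Fintype.card β) ^ Y.card =
      (Fintype.card β) ^ (Fintype.card α) := by
  have h1 : (univ.filter (fun f : α → β => ∀ y ∈ Y, f y = i)) =
      Fintype.piFinset (fun a => if a ∈ Y then ({i} : Finset β) else univ) := by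
    ext f
    rw [Finset.mem_filter, Fintype.mem_piFinset]
    constructor
    · rintro ⟨-, h⟩ a
      by_cases ha : a ∈ Y
      · rw [if_pos ha, Finset.mem_singleton]; exact h a ha
      · rw [if_neg ha]; exact Finset.mem_univ _
    · intro h
      refine ⟨Finset.mem_univ _, ?_⟩
      intro a ha
      have := h a
      rwa [if_pos ha, Finset.mem_singleton] at this
  rw [h1, Fintype.card_piFinset]
  have h2 : (Fintype.card β) ^ Y.card = ∏ a : α, if a ∈ Y then Fintype.card β else 1 := by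
    rw [Finset.prod_ite_mem, Finset.univ_inter, Finset.prod_const]
  rw [h2, ← Finset.prod_mul_distrib]
  have h3 : ∀ a : α, (if a ∈ Y then ({i} : Finset β) else univ).card *
      (if a ∈ Y then Fintype.card β else 1) = Fintype.card β := by
    intro a
    by_cases ha : a ∈ Y
    · simp [ha]
    · simp [ha]
  rw [Finset.prod_congr rfl (fun a _ => h3 a), Finset.prod_const, Finset.card_univ]

theorem fact_bound (T : ℕ) : T ^ T ≤ 3 ^ T * T.factorial := by
  have h1 := Real.pow_div_factorial_le_exp (T : ℝ) (Nat.cast_nonneg T) T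
  have h2 : Real.exp (T : ℝ) ≤ 3 ^ T := by
    have : Real.exp (T : ℝ) = (Real.exp 1) ^ T := by
      rw [← Real.exp_nat_mul, mul_one]
    rw [this]
    apply pow_le_pow_left₀ (Real.exp_pos 1).le
    have := Real.exp_one_lt_d9
    linarith
  have h3 : (0 : ℝ) < (T.factorial : ℝ) := by exact_mod_cast T.factorial_pos
  rw [div_le_iff₀ h3] at h1
  have h4 : ((T ^ T : ℕ) : ℝ) ≤ ((3 ^ T * T.factorial : ℕ) : ℝ) := by
    push_cast
    calc (T : ℝ) ^ T ≤ Real.exp T * T.factorial := h1
      _ ≤ 3 ^ T * T.factorial := by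
        apply mul_le_mul_of_nonneg_right h2 h3.le
  exact_mod_cast h4

/-- the sparsity function -/
def T (j m : ℕ) : ℕ := if m ≤ 2 ^ j then 16 * m else 16 * j * m

theorem key_ineq {j m q : ℕ} (hj : 1 ≤ j) (hm : 1 ≤ m) (hmR : m ≤ 2 ^ (4 * j))
    (hq1 : 2 ^ (3 * j) ≤ q) (hq2 : q ≤ 2 ^ (4 * j)) (hq3 : 2 ^ (4 * j) ≤ 2 * j * q) :
    q * (m * m).choose (T j m) * 2 ^ ((8 * j + 2) * m) ≤ q ^ (T j m) := by
  have hjm : j ≤ j * m := Nat.le_mul_of_pos_right j hm
  have hmj : m ≤ j * m := Nat.le_mul_of_pos_left m hj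
  unfold T
  split_ifs with h
  · -- small sets
    have h1 : (m * m).choose (16 * m) ≤ (2 ^ (2 * j)) ^ (16 * m) := by
      refine (Nat.choose_le_pow _ _).trans (Nat.pow_le_pow_left ?_ _)
      calc m * m ≤ 2 ^ j * 2 ^ j := Nat.mul_le_mul h h
        _ = 2 ^ (2 * j) := by rw [← pow_add]; congr 1; ring
    have h2 : q ^ (16 * m) = q * q ^ (16 * m - 1) := by
      rw [← pow_succ']; congr 1; omega
    have h3 : (2 ^ (3 * j)) ^ (16 * m - 1) ≤ q ^ (16 * m - 1) := Nat.pow_le_pow_left hq1 _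
    have h4 : (2 ^ (2 * j)) ^ (16 * m) * 2 ^ ((8 * j + 2) * m) ≤ (2 ^ (3 * j)) ^ (16 * m - 1) := by
      rw [← pow_mul, ← pow_mul, ← pow_add]
      apply Nat.pow_le_pow_right (by norm_num)
      have e1 : 3 * j * (16 * m - 1) = 48 * (j * m) - 3 * j := by
        rw [Nat.mul_sub, mul_one]
        congr 1
        ring
      have e2 : 2 * j * (16 * m) + (8 * j + 2) * m = 40 * (j * m) + 2 * m := by ring
      rw [e1, e2]
      omega
    rw [h2, mul_assoc]
    apply Nat.mul_le_mul_left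
    exact (Nat.mul_le_mul_right _ h1).trans (h4.trans h3)
  · -- large sets
    have hT : 16 * j * m = 16 * (j * m) := by ring
    set t := 16 * j * m with ht
    have h1 : (m * m).choose t * t ^ t ≤ (3 * (m * m)) ^ t := by
      calc (m * m).choose t * t ^ t ≤ (m * m).choose t * (3 ^ t * t.factorial) :=
            Nat.mul_le_mul_left _ (fact_bound t)
        _ = 3 ^ t * (t.factorial * (m * m).choose t) := by ring
        _ = 3 ^ t * (m * m).descFactorial t := by rw [Nat.descFactorial_eq_factorial_mul_choose]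
        _ ≤ 3 ^ t * (m * m) ^ t := Nat.mul_le_mul_left _ (Nat.descFactorial_le_pow _ _)
        _ = (3 * (m * m)) ^ t := (mul_pow 3 (m * m) t).symm
    have h2 : (m * m).choose t * 2 ^ t * (16 * j * m) ^ t ≤ q ^ t * (16 * j * m) ^ t := by
      calc (m * m).choose t * 2 ^ t * (16 * j * m) ^ t
          = ((m * m).choose t * t ^ t) * 2 ^ t := by rw [← ht]; ring
        _ ≤ (3 * (m * m)) ^ t * 2 ^ t := Nat.mul_le_mul_right _ h1
        _ = (m * (6 * m)) ^ t := by rw [← mul_pow]; congr 1; ring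
        _ ≤ (m * (16 * j * q)) ^ t := by
          apply Nat.pow_le_pow_left
          apply Nat.mul_le_mul_left
          have : 16 * j * q = 8 * (2 * j * q) := by ring
          omega
        _ = q ^ t * (16 * j * m) ^ t := by rw [← mul_pow]; congr 1; ring
    have hpos : 0 < (16 * j * m) ^ t := by
      apply Nat.pow_pos
      rw [← ht, hT]; omega
    have h3 : (m * m).choose t * 2 ^ t ≤ q ^ t := Nat.le_of_mul_le_mul_right h2 hpos
    have h4 : q * 2 ^ ((8 * j + 2) * m) ≤ 2 ^ t := by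
      calc q * 2 ^ ((8 * j + 2) * m) ≤ 2 ^ (4 * j) * 2 ^ ((8 * j + 2) * m) :=
            Nat.mul_le_mul_right _ hq2
        _ = 2 ^ (4 * j + (8 * j + 2) * m) := by rw [← pow_add]
        _ ≤ 2 ^ t := by
          apply Nat.pow_le_pow_right (by norm_num)
          have e2 : 4 * j + (8 * j + 2) * m = 4 * j + 8 * (j * m) + 2 * m := by ring
          rw [e2, hT]
          omega
    calc q * (m * m).choose t * 2 ^ ((8 * j + 2) * m)
        = (m * m).choose t * (q * 2 ^ ((8 * j + 2) * m)) := by ring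
      _ ≤ (m * m).choose t * 2 ^ t := Nat.mul_le_mul_left _ h4
      _ ≤ q ^ t := h3

/-- a good colouring of the pairs -/
theorem host {j n q : ℕ} (hj : 1 ≤ j) (hn : n = 2 ^ (8 * j)) (hq1 : 2 ^ (3 * j) ≤ q)
    (hq2 : q ≤ 2 ^ (4 * j)) (hq3 : 2 ^ (4 * j) ≤ 2 * j * q) :
    ∃ f : Fin n × Fin n → Fin q, ∀ (i : Fin q) (S : Finset (Fin n)), S.Nonempty →
      S.card ≤ 2 ^ (4 * j) → ((S ×ˢ S).filter (fun p => f p = i)).card < T j S.card := by
  classical
  by_contra hcon
  push Not at hcon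
  have hq0 : 0 < q := lt_of_lt_of_le (Nat.two_pow_pos _) hq1
  have hn0 : 0 < n := by rw [hn]; exact Nat.two_pow_pos _
  set D : Finset (Finset (Fin n)) := univ.filter (fun S => S.Nonempty ∧ S.card ≤ 2 ^ (4 * j))
    with hD
  set Fx : Finset (Fin n × Fin n) → Fin q → Finset (Fin n × Fin n → Fin q) :=
    fun Y i => univ.filter (fun f => ∀ y ∈ Y, f y = i) with hFx
  have hcover : (univ : Finset (Fin n × Fin n → Fin q)) ⊆
      D.biUnion (fun S => (univ : Finset (Fin q)).biUnion (fun i =>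
        (powersetCard (T j S.card) (S ×ˢ S)).biUnion (fun Y => Fx Y i))) := by
    intro f _
    obtain ⟨i, S, hS1, hS2, hS3⟩ := hcon f
    obtain ⟨Y, hY1, hY2⟩ := Finset.exists_subset_card_eq hS3
    rw [Finset.mem_biUnion]
    refine ⟨S, by rw [hD, Finset.mem_filter]; exact ⟨Finset.mem_univ _, hS1, hS2⟩, ?_⟩
    rw [Finset.mem_biUnion]
    refine ⟨i, Finset.mem_univ _, ?_⟩
    rw [Finset.mem_biUnion]
    refine ⟨Y, ?_, ?_⟩
    · rw [Finset.mem_powersetCard]
      exact ⟨hY1.trans (Finset.filter_subset _ _), hY2⟩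
    · rw [hFx, Finset.mem_filter]
      refine ⟨Finset.mem_univ _, ?_⟩
      intro y hy
      exact (Finset.mem_filter.1 (hY1 hy)).2
  have h1 := Finset.card_le_card hcover
  have h2 : (D.biUnion (fun S => (univ : Finset (Fin q)).biUnion (fun i =>
        (powersetCard (T j S.card) (S ×ˢ S)).biUnion (fun Y => Fx Y i)))).card ≤
      ∑ S ∈ D, ∑ i : Fin q, ∑ Y ∈ powersetCard (T j S.card) (S ×ˢ S), (Fx Y i).card := by
    refine Finset.card_biUnion_le.trans (Finset.sum_le_sum fun S _ => ?_)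
    refine Finset.card_biUnion_le.trans (Finset.sum_le_sum fun i _ => ?_)
    exact Finset.card_biUnion_le
  have hcardF : (univ : Finset (Fin n × Fin n → Fin q)).card = q ^ (n * n) := by
    rw [Finset.card_univ, Fintype.card_fun, Fintype.card_prod, Fintype.card_fin, Fintype.card_fin]
  have h3 : (q : ℝ) ^ (n * n) ≤ ∑ S ∈ D, ∑ i : Fin q,
      ∑ Y ∈ powersetCard (T j S.card) (S ×ˢ S), ((Fx Y i).card : ℝ) := by
    have := h1.trans h2
    rw [hcardF] at this
    exact_mod_cast this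
  have hqR : (0 : ℝ) < q := by exact_mod_cast hq0
  have h4 : ∀ S ∈ D, ∑ i : Fin q, ∑ Y ∈ powersetCard (T j S.card) (S ×ˢ S), ((Fx Y i).card : ℝ) ≤
      (q : ℝ) ^ (n * n) * (1 / (4 * n)) ^ S.card := by
    intro S hS
    rw [hD, Finset.mem_filter] at hS
    have hm : 1 ≤ S.card := Finset.card_pos.2 hS.2.1
    have h5 : ∀ i : Fin q, ∀ Y ∈ powersetCard (T j S.card) (S ×ˢ S),
        ((Fx Y i).card : ℝ) = (q : ℝ) ^ (n * n) / (q : ℝ) ^ (T j S.card) := by
      intro i Y hY
      rw [Finset.mem_powersetCard] at hY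
      have h6 := card_fix (β := Fin q) Y i
      rw [Fintype.card_fin, Fintype.card_prod, Fintype.card_fin, hY.2] at h6
      rw [eq_div_iff (by positivity)]
      exact_mod_cast h6
    rw [Finset.sum_congr rfl (fun i _ => Finset.sum_congr rfl (fun Y hY => h5 i Y hY))]
    rw [Finset.sum_const, Finset.sum_const, Finset.card_powersetCard, Finset.card_product,
      Finset.card_univ, Fintype.card_fin, nsmul_eq_mul, nsmul_eq_mul]
    have h7 := key_ineq hj hm hS.2.2 hq1 hq2 hq3
    have h8 : (q : ℝ) * ((S.card * S.card).choose (T j S.card) : ℝ) * 2 ^ ((8 * j + 2) * S.card) ≤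
        (q : ℝ) ^ (T j S.card) := by exact_mod_cast h7
    have h9 : (4 * (n : ℝ)) = 2 ^ (8 * j + 2) := by
      rw [hn]; push_cast; rw [pow_add]; ring
    rw [h9, one_div, inv_pow, ← pow_mul]
    have h10 : (0 : ℝ) < 2 ^ ((8 * j + 2) * S.card) := by positivity
    have h11 : (0 : ℝ) < (q : ℝ) ^ (T j S.card) := by positivity
    rw [← div_eq_mul_inv, le_div_iff₀ h10]
    have h12 : (q : ℝ) * (((S.card * S.card).choose (T j S.card) : ℝ) *
        ((q : ℝ) ^ (n * n) / (q : ℝ) ^ (T j S.card))) * 2 ^ ((8 * j + 2) * S.card) =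
        (q : ℝ) ^ (n * n) * (((q : ℝ) * ((S.card * S.card).choose (T j S.card) : ℝ) *
          2 ^ ((8 * j + 2) * S.card)) / (q : ℝ) ^ (T j S.card)) := by
      field_simp
    rw [h12]
    have h13 : ((q : ℝ) * ((S.card * S.card).choose (T j S.card) : ℝ) *
          2 ^ ((8 * j + 2) * S.card)) / (q : ℝ) ^ (T j S.card) ≤ 1 := by
      rw [div_le_one h11]; exact h8
    calc (q : ℝ) ^ (n * n) * (((q : ℝ) * ((S.card * S.card).choose (T j S.card) : ℝ) *
          2 ^ ((8 * j + 2) * S.card)) / (q : ℝ) ^ (T j S.card)) ≤ (q : ℝ) ^ (n * n) * 1 :=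
          mul_le_mul_of_nonneg_left h13 (by positivity)
      _ = (q : ℝ) ^ (n * n) := mul_one _
  have h5 := h3.trans (Finset.sum_le_sum h4)
  rw [← Finset.mul_sum] at h5
  have hnR : (0 : ℝ) < n := by exact_mod_cast hn0
  have h6 : ∑ S ∈ D, (1 / (4 * (n : ℝ))) ^ S.card < 1 := by
    have h7 : ∑ S ∈ D, (1 / (4 * (n : ℝ))) ^ S.card + 1 ≤
        ∑ S : Finset (Fin n), (1 / (4 * (n : ℝ))) ^ S.card := by
      have h8 : ∅ ∉ D := by
        rw [hD, Finset.mem_filter]
        rintro ⟨-, h, -⟩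
        exact Finset.not_nonempty_empty h
      have h9 : ∑ S ∈ insert ∅ D, (1 / (4 * (n : ℝ))) ^ S.card ≤
          ∑ S : Finset (Fin n), (1 / (4 * (n : ℝ))) ^ S.card := by
        apply Finset.sum_le_sum_of_subset_of_nonneg (Finset.subset_univ _)
        intro S _ _
        positivity
      rw [Finset.sum_insert h8, Finset.card_empty, pow_zero] at h9
      linarith
    have h8 : ∑ S : Finset (Fin n), (1 / (4 * (n : ℝ))) ^ S.card = (1 / (4 * (n : ℝ)) + 1) ^ n := by
      have := Fintype.sum_pow_mul_eq_add_pow (Fin n) (1 / (4 * (n : ℝ))) 1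
      rw [Fintype.card_fin] at this
      rw [← this]
      apply Finset.sum_congr rfl
      intro S _
      rw [one_pow, mul_one]
    have h9 : (1 / (4 * (n : ℝ)) + 1) ^ n ≤ 4 / 3 := by
      have e1 : (1 / (4 * (n : ℝ)) + 1) = (1 + (-(1 / (4 * (n : ℝ) + 1))))⁻¹ := by
        field_simp
        ring
      have e2 : 1 + (n : ℝ) * (-(1 / (4 * (n : ℝ) + 1))) ≤ (1 + (-(1 / (4 * (n : ℝ) + 1)))) ^ n := by
        apply one_add_mul_le_pow
        have : 1 / (4 * (n : ℝ) + 1) ≤ 1 := by
          rw [div_le_one (by positivity)]; linarith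
        linarith
      have e3 : (3 / 4 : ℝ) ≤ 1 + (n : ℝ) * (-(1 / (4 * (n : ℝ) + 1))) := by
        have : (n : ℝ) * (1 / (4 * (n : ℝ) + 1)) ≤ 1 / 4 := by
          rw [mul_one_div, div_le_div_iff₀ (by positivity) (by norm_num)]
          linarith
        linarith
      rw [e1, inv_pow]
      calc ((1 + (-(1 / (4 * (n : ℝ) + 1)))) ^ n)⁻¹ ≤ (3 / 4 : ℝ)⁻¹ := by
            apply inv_anti₀ (by norm_num) (e3.trans e2)
        _ = 4 / 3 := by norm_num
    rw [h8] at h7
    linarith
  have h7 : (0 : ℝ) < (q : ℝ) ^ (n * n) := by positivity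
  have h8 : (q : ℝ) ^ (n * n) * ∑ S ∈ D, (1 / (4 * (n : ℝ))) ^ S.card < (q : ℝ) ^ (n * n) * 1 :=
    mul_lt_mul_of_pos_left h6 h7
  rw [mul_one] at h8
  linarith

end Pool.Agent.R98.Loc
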