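import Pool.Agent.R98.LocHost
import Pool.Agent.R98.LocDefs

/-! Random subgraphs of the host graph defeat all decoders. -/

namespace Pool.Agent.R98.Loc

open Finset

/-- the graph of a set of ordered pairs -/
def gr {n : ℕ} (X : Finset (Fin n × Fin n)) : SimpleGraph (Fin n) where
  Adj u v := u ≠ v ∧ ((u, v) ∈ X ∨ (v, u) ∈ X)
  symm := ⟨fun _ _ h => ⟨h.1.symm, h.2.symm⟩⟩
  loopless := ⟨fun _ h => h.1 rfl⟩

/-- labels of length at most `b` -/
abbrev Lab (b : ℕ) : Type := {l : List Bool // l.length ≤ b}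

/-- encoding of labels -/
def enc (b : ℕ) (l : Lab b) : Fin (b + 1) × (Fin b → Bool) :=
  (⟨l.1.length, Nat.lt_succ_of_le l.2⟩, fun i => l.1.getD i false)

theorem enc_inj (b : ℕ) : Function.Injective (enc b) := by
  intro l l' h
  apply Subtype.ext
  unfold enc at h
  rw [Prod.mk.injEq] at h
  obtain ⟨h1, h2⟩ := h
  have h3 : l.1.length = l'.1.length := by
    have := congrArg Fin.val h1
    exact this
  apply List.ext_getElem h3
  intro i hi hi'
  have h4 := congrFun h2 ⟨i, lt_of_lt_of_le hi l.2⟩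
  simp only at h4
  rw [List.getD_eq_getElem _ _ hi, List.getD_eq_getElem _ _ hi'] at h4
  exact h4

noncomputable instance (b : ℕ) : Fintype (Lab b) := Fintype.ofInjective (enc b) (enc_inj b)

theorem card_Lab (b : ℕ) : Fintype.card (Lab b) ≤ 2 ^ (2 * b) := by
  have h1 := Fintype.card_le_of_injective (enc b) (enc_inj b)
  rw [Fintype.card_prod, Fintype.card_fin, Fintype.card_fun, Fintype.card_bool,
    Fintype.card_fin] at h1
  refine h1.trans ?_
  have h2 : b + 1 ≤ 2 ^ b := Nat.lt_two_pow_self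
  calc (b + 1) * 2 ^ b ≤ 2 ^ b * 2 ^ b := Nat.mul_le_mul_right _ h2
    _ = 2 ^ (2 * b) := by rw [← pow_add]; congr 1; ring

/-- a small collection of subgraphs of a host graph that defeats all decoders -/
theorem coll (n b : ℕ) (X : Finset (Fin n × Fin n)) (hX : ∀ p ∈ X, p.1 < p.2)
    (hbig : 1 + 2 * b * n < X.card) :
    ∃ Y : Fin (2 ^ (4 * b)) → Finset (Fin n × Fin n), (∀ i, Y i ⊆ X) ∧
      ∀ A : List Bool → List Bool → Bool, ∃ i, ∀ ℓ : Fin n → List Bool,
        (∀ v, (ℓ v).length ≤ b) → ¬ Decodes A (gr (Y i)) ℓ := by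
  classical
  by_contra hcon
  push Not at hcon
  set K := 2 ^ (4 * b) with hK
  have hKpos : 0 < K := Nat.two_pow_pos _
  have hch : ∀ Y : Fin K → {Z : Finset (Fin n × Fin n) // Z ⊆ X},
      ∃ z : (Lab b → Lab b → Bool) × (Fin K → Fin n → Lab b), ∀ i, ∀ p ∈ X,
        (p ∈ (Y i).1 ↔ z.1 (z.2 i p.1) (z.2 i p.2) = true) := by
    intro Y
    obtain ⟨A, hA⟩ := hcon (fun i => (Y i).1) (fun i => (Y i).2)
    choose ℓ hℓ1 hℓ2 using hA
    refine ⟨(fun x y => A x.1 y.1, fun i v => ⟨ℓ i v, hℓ1 i v⟩), ?_⟩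
    intro i p hp
    have hlt := hX p hp
    have h1 := hℓ2 i p.1 p.2 hlt.ne
    simp only
    rw [← h1]
    constructor
    · intro h
      exact ⟨hlt.ne, Or.inl h⟩
    · rintro ⟨-, h | h⟩
      · exact h
      · exfalso
        have h2 := hX _ ((Y i).2 h)
        simp only at h2
        exact absurd (h2.trans hlt) (lt_irrefl _)
  choose Φ hΦ using hch
  have hinj : Function.Injective Φ := by
    intro Y Y' h
    funext i
    apply Subtype.ext
    ext p
    by_cases hp : p ∈ X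
    · rw [hΦ Y i p hp, hΦ Y' i p hp, h]
    · constructor
      · intro h'; exact absurd ((Y i).2 h') hp
      · intro h'; exact absurd ((Y' i).2 h') hp
  have hcard := Fintype.card_le_of_injective Φ hinj
  have e1 : Fintype.card {Z : Finset (Fin n × Fin n) // Z ⊆ X} = 2 ^ X.card := by
    rw [← Finset.card_powerset, ← Fintype.card_coe]
    apply Fintype.card_congr
    exact Equiv.subtypeEquivRight (fun Z => by rw [Finset.mem_powerset])
  rw [Fintype.card_fun, Fintype.card_prod, Fintype.card_fun, Fintype.card_fun, Fintype.card_fun,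
    Fintype.card_fun, Fintype.card_bool, Fintype.card_fin, Fintype.card_fin, e1] at hcard
  set L := Fintype.card (Lab b) with hL
  have hL2 : L ≤ 2 ^ (2 * b) := card_Lab b
  have h2 : (2 ^ L) ^ L ≤ 2 ^ K := by
    rw [← pow_mul]
    apply Nat.pow_le_pow_right (by norm_num)
    calc L * L ≤ 2 ^ (2 * b) * 2 ^ (2 * b) := Nat.mul_le_mul hL2 hL2
      _ = K := by rw [hK, ← pow_add]; congr 1; ring
  have h3 : (L ^ n) ^ K ≤ 2 ^ (2 * b * n * K) := by
    calc (L ^ n) ^ K ≤ ((2 ^ (2 * b)) ^ n) ^ K :=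
          Nat.pow_le_pow_left (Nat.pow_le_pow_left hL2 _) _
      _ = 2 ^ (2 * b * n * K) := by rw [← pow_mul, ← pow_mul]; congr 1; ring
  have h4 : 2 ^ (X.card * K) ≤ 2 ^ (K + 2 * b * n * K) := by
    calc 2 ^ (X.card * K) = (2 ^ X.card) ^ K := by rw [← pow_mul]
      _ ≤ (2 ^ L) ^ L * (L ^ n) ^ K := hcard
      _ ≤ 2 ^ K * 2 ^ (2 * b * n * K) := Nat.mul_le_mul h2 h3
      _ = 2 ^ (K + 2 * b * n * K) := by rw [← pow_add]
  have h5 := (Nat.pow_le_pow_iff_right (by norm_num)).1 h4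
  have h6 : K + 2 * b * n * K = (1 + 2 * b * n) * K := by ring
  rw [h6] at h5
  have h7 := Nat.le_of_mul_le_mul_right h5 hKpos
  omega

/-- number of pairs -/
theorem pairs_card (n : ℕ) :
    n * n - n ≤ 2 * (univ.filter (fun p : Fin n × Fin n => p.1 < p.2)).card := by
  classical
  have h1 : (univ : Finset (Fin n)).offDiag ⊆
      (univ.filter (fun p : Fin n × Fin n => p.1 < p.2)) ∪
      (univ.filter (fun p : Fin n × Fin n => p.1 < p.2)).image Prod.swap := by
    intro p hp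
    rw [Finset.mem_offDiag] at hp
    rw [Finset.mem_union, Finset.mem_filter, Finset.mem_image]
    rcases lt_or_gt_of_ne hp.2.2 with h | h
    · exact Or.inl ⟨Finset.mem_univ _, h⟩
    · refine Or.inr ⟨p.swap, ?_, Prod.swap_swap p⟩
      rw [Finset.mem_filter]
      exact ⟨Finset.mem_univ _, h⟩
  have h2 := Finset.card_le_card h1
  have h3 := Finset.card_union_le (univ.filter (fun p : Fin n × Fin n => p.1 < p.2))
    ((univ.filter (fun p : Fin n × Fin n => p.1 < p.2)).image Prod.swap)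
  have h4 : ((univ.filter (fun p : Fin n × Fin n => p.1 < p.2)).image Prod.swap).card ≤
    (univ.filter (fun p : Fin n × Fin n => p.1 < p.2)).card := Finset.card_image_le
  rw [Finset.offDiag_card, Finset.card_univ, Fintype.card_fin] at h2
  omega

/-- the label length at level `j` -/
def bb (j : ℕ) : ℕ := j * 2 ^ (4 * j - 4)

theorem bb_eq {j : ℕ} (hj : 1 ≤ j) : 16 * bb j = j * 2 ^ (4 * j) := by
  unfold bb
  have : 2 ^ (4 * j) = 16 * 2 ^ (4 * j - 4) := by
    rw [show (16 : ℕ) = 2 ^ 4 by norm_num, ← pow_add]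
    congr 1
    omega
  rw [this]
  ring

/-- the data at level `j` -/
theorem level {j : ℕ} (hj : 1 ≤ j) : ∃ (X : Finset (Fin (2 ^ (8 * j)) × Fin (2 ^ (8 * j))))
    (Y : Fin (2 ^ (4 * bb j)) → Finset (Fin (2 ^ (8 * j)) × Fin (2 ^ (8 * j)))),
    (∀ i, Y i ⊆ X) ∧
    (∀ S : Finset (Fin (2 ^ (8 * j))), S.Nonempty → S.card ≤ 2 ^ (4 * j) →
      (X.filter (fun p => p.1 ∈ S ∧ p.2 ∈ S)).card ≤ T j S.card) ∧
    ∀ A : List Bool → List Bool → Bool, ∃ i, ∀ ℓ : Fin (2 ^ (8 * j)) → List Bool,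
        (∀ v, (ℓ v).length ≤ bb j) → ¬ Decodes A (gr (Y i)) ℓ := by
  classical
  obtain ⟨n, hn⟩ : ∃ n, n = 2 ^ (8 * j) := ⟨_, rfl⟩
  rw [← hn]
  obtain ⟨q, hq⟩ : ∃ q, q = 2 ^ (4 * j) / j := ⟨_, rfl⟩
  have hj2 : j < 2 ^ j := Nat.lt_two_pow_self
  have hsplit : 2 ^ (4 * j) = 2 ^ (3 * j) * 2 ^ j := by rw [← pow_add]; congr 1; ring
  have hq1 : 2 ^ (3 * j) ≤ q := by
    rw [hq, Nat.le_div_iff_mul_le (by omega), hsplit]
    exact Nat.mul_le_mul_left _ hj2.le
  have hq2' : j * q ≤ 2 ^ (4 * j) := by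
    rw [hq]; exact Nat.mul_div_le _ _
  have hq2 : q ≤ 2 ^ (4 * j) := (Nat.le_mul_of_pos_left q hj).trans hq2'
  have hq0 : 0 < q := lt_of_lt_of_le (Nat.two_pow_pos _) hq1
  have hq3 : 2 ^ (4 * j) ≤ 2 * j * q := by
    have h1 : 2 ^ (4 * j) < j * (q + 1) := by
      rw [hq]
      exact Nat.lt_mul_div_succ _ (by omega)
    have h2 : j * 1 ≤ j * q := Nat.mul_le_mul_left _ hq0
    have h3 : j * (q + 1) = j * q + j := by ring
    have h4 : 2 * j * q = j * q + j * q := by ring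
    omega
  obtain ⟨f, hf⟩ := host hj hn hq1 hq2 hq3
  set Pr := (univ.filter (fun p : Fin n × Fin n => p.1 < p.2)) with hPr
  have hPc := pairs_card n
  rw [← hPr] at hPc
  have hn2 : 256 ≤ n := by
    rw [hn]
    calc 256 = 2 ^ 8 := by norm_num
      _ ≤ 2 ^ (8 * j) := Nat.pow_le_pow_right (by norm_num) (by omega)
  -- a colour with many pairs
  obtain ⟨i, hi⟩ : ∃ i : Fin q, Pr.card ≤ q * (Pr.filter (fun p => f p = i)).card := by
    by_contra hcon
    push Not at hcon
    have h1 : Pr.card = ∑ i : Fin q, (Pr.filter (fun p => f p = i)).card :=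
      Finset.card_eq_sum_card_fiberwise (fun p _ => Finset.mem_coe.2 (Finset.mem_univ (f p)))
    have h2 : q * Pr.card = ∑ i : Fin q, q * (Pr.filter (fun p => f p = i)).card := by
      rw [← Finset.mul_sum, ← h1]
    have h3 : ∑ i : Fin q, q * (Pr.filter (fun p => f p = i)).card < ∑ _i : Fin q, Pr.card := by
      apply Finset.sum_lt_sum_of_nonempty
      · exact ⟨⟨0, hq0⟩, Finset.mem_univ _⟩
      · intro i _; exact hcon i
    rw [Finset.sum_const, Finset.card_univ, Fintype.card_fin, smul_eq_mul] at h3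
    omega
  set X := Pr.filter (fun p => f p = i) with hXdef
  have hXlt : ∀ p ∈ X, p.1 < p.2 := by
    intro p hp
    rw [hXdef, Finset.mem_filter, hPr, Finset.mem_filter] at hp
    exact hp.1.2
  have hbig : 1 + 2 * bb j * n < X.card := by
    -- 16 bb j = j R, R = 2^(4j)
    have h16 := bb_eq hj
    have h1 : j * Pr.card ≤ 2 ^ (4 * j) * X.card := by
      calc j * Pr.card ≤ j * (q * X.card) := Nat.mul_le_mul_left _ hi
        _ = (j * q) * X.card := by ring
        _ ≤ 2 ^ (4 * j) * X.card := Nat.mul_le_mul_right _ hq2'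
    have hRn : n = 2 ^ (4 * j) * 2 ^ (4 * j) := by
      rw [hn, ← pow_add]; congr 1; ring
    have h2 : n * n ≤ 4 * Pr.card := by
      have : n * n = n * n - n + n := by
        have : n ≤ n * n := Nat.le_mul_self n
        omega
      have h3 : 2 * n ≤ n * n := Nat.mul_le_mul_right _ (by omega)
      omega
    have h3 : j * (n * n) ≤ 4 * (2 ^ (4 * j) * X.card) := by
      calc j * (n * n) ≤ j * (4 * Pr.card) := Nat.mul_le_mul_left _ h2
        _ = 4 * (j * Pr.card) := by ring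
        _ ≤ 4 * (2 ^ (4 * j) * X.card) := Nat.mul_le_mul_left _ h1
    have hR0 : 0 < 2 ^ (4 * j) := Nat.two_pow_pos _
    have h4 : j * 2 ^ (4 * j) * n ≤ 4 * X.card := by
      have h5 : 2 ^ (4 * j) * (j * 2 ^ (4 * j) * n) ≤ 2 ^ (4 * j) * (4 * X.card) := by
        calc 2 ^ (4 * j) * (j * 2 ^ (4 * j) * n) = j * ((2 ^ (4 * j) * 2 ^ (4 * j)) * n) := by ring
          _ = j * (n * n) := by rw [← hRn]
          _ ≤ 4 * (2 ^ (4 * j) * X.card) := h3
          _ = 2 ^ (4 * j) * (4 * X.card) := by ring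
      exact Nat.le_of_mul_le_mul_left h5 hR0
    rw [← h16] at h4
    have h5 : 16 * bb j * n = 8 * (2 * bb j * n) := by ring
    have hb1 : 1 ≤ bb j := by
      have : 1 ≤ j * 2 ^ (4 * j) := Nat.mul_pos hj hR0
      omega
    have h6 : 256 ≤ bb j * n := by
      calc 256 = 1 * 256 := by norm_num
        _ ≤ bb j * n := Nat.mul_le_mul hb1 hn2
    have h7 : 2 * bb j * n = 2 * (bb j * n) := by ring
    omega
  obtain ⟨Y, hY1, hY2⟩ := coll n (bb j) X hXlt hbig
  refine ⟨X, Y, hY1, ?_, hY2⟩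
  intro S hS1 hS2
  refine le_of_lt (lt_of_le_of_lt (Finset.card_le_card ?_) (hf i S hS1 hS2))
  intro p hp
  rw [Finset.mem_filter, hXdef, Finset.mem_filter] at hp
  rw [Finset.mem_filter, Finset.mem_product]
  exact ⟨hp.2, hp.1.2⟩

end Pool.Agent.R98.Loc
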