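import Pool.Agent.R98.LocMain

/-! The speed of the property and the final statement. -/

namespace Pool.Agent.R98.Loc

open Finset

theorem T_le {j m : ℕ} (hj : 1 ≤ j) : T j m ≤ 16 * j * m := by
  unfold T
  split_ifs
  · exact Nat.mul_le_mul_right _ (by omega)
  · exact le_rfl

/-- graphs on `m > 2^j` vertices coming from level `j` -/
theorem lev_count {j m : ℕ} (hj : 1 ≤ j) (hjm : 2 ^ j < m)
    (X : Finset (Fin (2 ^ (8 * j)) × Fin (2 ^ (8 * j))))
    (Y : Fin (2 ^ (4 * bb j)) → Finset (Fin (2 ^ (8 * j)) × Fin (2 ^ (8 * j))))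
    (h1 : ∀ i, Y i ⊆ X)
    (h2 : ∀ S : Finset (Fin (2 ^ (8 * j))), S.Nonempty → S.card ≤ 2 ^ (4 * j) →
      (X.filter (fun p => p.1 ∈ S ∧ p.2 ∈ S)).card ≤ T j S.card) :
    ∃ F : Finset (SimpleGraph (Fin m)), F.card ≤ m ^ (24 * m) ∧
      ∀ (i : Fin (2 ^ (4 * bb j))) (φ : Fin m ↪ Fin (2 ^ (8 * j))), (gr (Y i)).comap φ ∈ F := by
  classical
  have hm1 : 1 ≤ m := by
    have := Nat.two_pow_pos j
    omega
  rcases Nat.lt_or_ge (2 ^ (4 * j)) m with hbig | hsmall
  · refine ⟨(univ : Finset (Fin (2 ^ (4 * bb j)) × (Fin m → Fin (2 ^ (8 * j))))).image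
      (fun z => (gr (Y z.1)).comap z.2), ?_, ?_⟩
    · refine Finset.card_image_le.trans ?_
      rw [Finset.card_univ, Fintype.card_prod, Fintype.card_fun, Fintype.card_fin,
        Fintype.card_fin, Fintype.card_fin]
      have h16 := bb_eq hj
      have h3 : 4 * bb j ≤ j * m := by
        have : j * 2 ^ (4 * j) ≤ j * m := Nat.mul_le_mul_left _ hbig.le
        omega
      calc 2 ^ (4 * bb j) * (2 ^ (8 * j)) ^ m ≤ 2 ^ (j * m) * (2 ^ (8 * j)) ^ m :=
            Nat.mul_le_mul_right _ (Nat.pow_le_pow_right (by norm_num) h3)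
        _ = (2 ^ j) ^ (9 * m) := by
            rw [← pow_mul, ← pow_mul, ← pow_add]; congr 1; ring
        _ ≤ m ^ (9 * m) := Nat.pow_le_pow_left hjm.le _
        _ ≤ m ^ (24 * m) := Nat.pow_le_pow_right hm1 (by omega)
    · intro i φ
      rw [Finset.mem_image]
      exact ⟨(i, φ), Finset.mem_univ _, rfl⟩
  · set Xf : (Fin m → Fin (2 ^ (8 * j))) → Finset (Fin (2 ^ (8 * j)) × Fin (2 ^ (8 * j))) :=
      fun φ => X.filter (fun p => p.1 ∈ univ.image φ ∧ p.2 ∈ univ.image φ) with hXf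
    refine ⟨(univ : Finset (Fin m → Fin (2 ^ (8 * j)))).biUnion
      (fun φ => (Xf φ).powerset.image (fun Z => (gr Z).comap φ)), ?_, ?_⟩
    · refine Finset.card_biUnion_le.trans ?_
      have h3 : ∀ φ : Fin m → Fin (2 ^ (8 * j)),
          ((Xf φ).powerset.image (fun Z => (gr Z).comap φ)).card ≤ 2 ^ (16 * j * m) := by
        intro φ
        refine Finset.card_image_le.trans ?_
        rw [Finset.card_powerset]
        apply Nat.pow_le_pow_right (by norm_num)
        have h4 : (univ.image φ).card ≤ m := by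
          refine Finset.card_image_le.trans ?_
          rw [Finset.card_univ, Fintype.card_fin]
        refine (h2 (univ.image φ) ?_ (h4.trans hsmall)).trans ((T_le hj).trans ?_)
        · exact ⟨φ ⟨0, hm1⟩, Finset.mem_image_of_mem _ (Finset.mem_univ _)⟩
        · exact Nat.mul_le_mul_left _ h4
      refine (Finset.sum_le_sum (fun φ _ => h3 φ)).trans ?_
      rw [Finset.sum_const, Finset.card_univ, Fintype.card_fun, Fintype.card_fin,
        Fintype.card_fin, smul_eq_mul]
      calc (2 ^ (8 * j)) ^ m * 2 ^ (16 * j * m) = (2 ^ j) ^ (24 * m) := by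
            rw [← pow_mul, ← pow_mul, ← pow_add]; congr 1; ring
        _ ≤ m ^ (24 * m) := Nat.pow_le_pow_left hjm.le _
    · intro i φ
      rw [Finset.mem_biUnion]
      refine ⟨φ, Finset.mem_univ _, ?_⟩
      rw [Finset.mem_image]
      refine ⟨(Y i).filter (fun p => p.1 ∈ univ.image φ ∧ p.2 ∈ univ.image φ), ?_, ?_⟩
      · rw [Finset.mem_powerset]
        exact Finset.filter_subset_filter _ (h1 i)
      · ext u v
        simp only [SimpleGraph.comap_adj, gr, Finset.mem_filter]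
        have hu : φ u ∈ univ.image φ := Finset.mem_image_of_mem _ (Finset.mem_univ _)
        have hv : φ v ∈ univ.image φ := Finset.mem_image_of_mem _ (Finset.mem_univ _)
        constructor
        · rintro ⟨h3, h4⟩
          exact ⟨h3, h4.imp (fun h => h.1) (fun h => h.1)⟩
        · rintro ⟨h3, h4⟩
          exact ⟨h3, h4.imp (fun h => ⟨h, hu, hv⟩) (fun h => ⟨h, hv, hu⟩)⟩

/-- sparse graphs -/
theorem sparse_count (m : ℕ) : ∃ F : Finset (SimpleGraph (Fin m)),
    F.card ≤ (m * m + 1) ^ (16 * m) ∧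
    ∀ Z : Finset (Fin m × Fin m), Z.card ≤ 16 * m → gr Z ∈ F := by
  classical
  refine ⟨(univ : Finset (Fin (16 * m) → Option (Fin m × Fin m))).image
    (fun g => gr (univ.filter (fun z => ∃ i, g i = some z))), ?_, ?_⟩
  · refine Finset.card_image_le.trans ?_
    rw [Finset.card_univ, Fintype.card_fun, Fintype.card_option, Fintype.card_prod,
      Fintype.card_fin, Fintype.card_fin]
  · intro Z hZ
    rw [Finset.mem_image]
    refine ⟨fun i => Z.toList[i.val]?, Finset.mem_univ _, ?_⟩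
    congr 1
    ext z
    rw [Finset.mem_filter]
    constructor
    · rintro ⟨-, i, hi⟩
      have := List.mem_of_getElem? hi
      rwa [Finset.mem_toList] at this
    · intro hz
      refine ⟨Finset.mem_univ _, ?_⟩
      rw [← Finset.mem_toList] at hz
      obtain ⟨i, hi⟩ := List.mem_iff_getElem?.1 hz
      have hlt : i < Z.toList.length := by
        by_contra hcon
        rw [List.getElem?_eq_none (by omega)] at hi
        exact absurd hi (by simp)
      rw [Finset.length_toList] at hlt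
      exact ⟨⟨i, by omega⟩, hi⟩

/-- graphs on `m ≤ 2^j` vertices coming from level `j` are sparse -/
theorem lev_sparse {j m : ℕ} (hj : 1 ≤ j) (hm : 1 ≤ m) (hjm : m ≤ 2 ^ j)
    (X : Finset (Fin (2 ^ (8 * j)) × Fin (2 ^ (8 * j))))
    (Y : Fin (2 ^ (4 * bb j)) → Finset (Fin (2 ^ (8 * j)) × Fin (2 ^ (8 * j))))
    (h1 : ∀ i, Y i ⊆ X)
    (h2 : ∀ S : Finset (Fin (2 ^ (8 * j))), S.Nonempty → S.card ≤ 2 ^ (4 * j) →
      (X.filter (fun p => p.1 ∈ S ∧ p.2 ∈ S)).card ≤ T j S.card)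
    (i : Fin (2 ^ (4 * bb j))) (φ : Fin m ↪ Fin (2 ^ (8 * j))) :
    ∃ Z : Finset (Fin m × Fin m), Z.card ≤ 16 * m ∧ (gr (Y i)).comap φ = gr Z := by
  classical
  refine ⟨univ.filter (fun z => (φ z.1, φ z.2) ∈ Y i), ?_, ?_⟩
  · have hS : (univ.image φ).card = m := by
      rw [Finset.card_image_of_injective _ φ.injective, Finset.card_univ, Fintype.card_fin]
    have h3 := h2 (univ.image φ) ⟨φ ⟨0, hm⟩, Finset.mem_image_of_mem _ (Finset.mem_univ _)⟩
      (by rw [hS]; exact hjm.trans (Nat.pow_le_pow_right (by norm_num) (by omega)))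
    rw [hS] at h3
    unfold T at h3
    rw [if_pos hjm] at h3
    refine le_trans ?_ h3
    apply Finset.card_le_card_of_injOn (fun z => (φ z.1, φ z.2))
    · intro z hz
      rw [Finset.mem_coe, Finset.mem_filter] at hz
      rw [Finset.mem_coe, Finset.mem_filter]
      exact ⟨h1 i hz.2, Finset.mem_image_of_mem _ (Finset.mem_univ _),
        Finset.mem_image_of_mem _ (Finset.mem_univ _)⟩
    · intro z _ z' _ h
      simp only [Prod.mk.injEq] at h
      exact Prod.ext (φ.injective h.1) (φ.injective h.2)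
  · ext u v
    simp only [SimpleGraph.comap_adj, gr, Finset.mem_filter, Finset.mem_univ, true_and]
    have : φ u ≠ φ v ↔ u ≠ v := φ.injective.ne_iff
    rw [this]

theorem arith {m : ℕ} (hm : 2 ≤ m) :
    (m * m + 1) ^ (16 * m) + m * m ^ (24 * m) ≤ m ^ (49 * m) := by
  have h1 : m * m + 1 ≤ m ^ 3 := by
    have : m ^ 3 = m * (m * m) := by ring
    rw [this]
    have h2 : 2 * (m * m) ≤ m * (m * m) := Nat.mul_le_mul_right _ hm
    have h3 : 1 ≤ m * m := Nat.mul_pos (by omega) (by omega)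
    omega
  have h2 : (m * m + 1) ^ (16 * m) ≤ m ^ (48 * m) := by
    calc (m * m + 1) ^ (16 * m) ≤ (m ^ 3) ^ (16 * m) := Nat.pow_le_pow_left h1 _
      _ = m ^ (48 * m) := by rw [← pow_mul]; congr 1; ring
  have h3 : m * m ^ (24 * m) ≤ m ^ (48 * m) := by
    rw [← pow_succ']
    exact Nat.pow_le_pow_right (by omega) (by omega)
  calc (m * m + 1) ^ (16 * m) + m * m ^ (24 * m) ≤ m ^ (48 * m) + m ^ (48 * m) :=
        Nat.add_le_add h2 h3
    _ = 2 * m ^ (48 * m) := by ring
    _ ≤ m * m ^ (48 * m) := Nat.mul_le_mul_right _ hm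
    _ = m ^ (48 * m + 1) := by rw [pow_succ']
    _ ≤ m ^ (49 * m) := Nat.pow_le_pow_right (by omega) (by omega)

/-- the main construction -/
theorem main : ∃ P : (n : ℕ) → Set (SimpleGraph (Fin n)), Hereditary P ∧
    (∀ m, 2 ≤ m → (P m).ncard ≤ m ^ (49 * m)) ∧
    ∀ j, 1 ≤ j → ∀ A : List Bool → List Bool → Bool, ∃ G ∈ P (2 ^ (8 * j)),
      ∀ ℓ : Fin (2 ^ (8 * j)) → List Bool, (∀ v, (ℓ v).length ≤ bb j) → ¬ Decodes A G ℓ := by
  classical
  choose X Y hY hX hA using @level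
  refine ⟨fun m => {G | ∃ (j : ℕ) (hj : 1 ≤ j) (i : Fin (2 ^ (4 * bb j)))
    (φ : Fin m ↪ Fin (2 ^ (8 * j))), G = (gr (Y hj i)).comap φ}, ?_, ?_, ?_⟩
  · rintro m n φ G ⟨j, hj, i, ψ, rfl⟩
    refine ⟨j, hj, i, φ.trans ψ, ?_⟩
    ext u v
    simp only [SimpleGraph.comap_adj, Function.Embedding.trans_apply]
  · intro m hm
    obtain ⟨F0, hF0, hF0'⟩ := sparse_count m
    have hlev : ∀ j, ∃ F : Finset (SimpleGraph (Fin m)), F.card ≤ m ^ (24 * m) ∧
        ∀ (hj : 1 ≤ j), 2 ^ j < m → ∀ (i : Fin (2 ^ (4 * bb j))) (φ : Fin m ↪ Fin (2 ^ (8 * j))),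
          (gr (Y hj i)).comap φ ∈ F := by
      intro j
      by_cases hj : 1 ≤ j
      · by_cases hjm : 2 ^ j < m
        · obtain ⟨F, hF1, hF2⟩ := lev_count hj hjm (X hj) (Y hj) (hY hj) (hX hj)
          exact ⟨F, hF1, fun _ _ => hF2⟩
        · exact ⟨∅, by simp, fun _ h => absurd h hjm⟩
      · exact ⟨∅, by simp, fun h => absurd h hj⟩
    choose F hF1 hF2 using hlev
    have hsub : {G | ∃ (j : ℕ) (hj : 1 ≤ j) (i : Fin (2 ^ (4 * bb j)))
        (φ : Fin m ↪ Fin (2 ^ (8 * j))), G = (gr (Y hj i)).comap φ} ⊆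
        ((F0 ∪ (range m).biUnion F : Finset (SimpleGraph (Fin m))) : Set (SimpleGraph (Fin m))) := by
      rintro G ⟨j, hj, i, φ, rfl⟩
      rw [Finset.mem_coe, Finset.mem_union]
      rcases Nat.lt_or_ge (2 ^ j) m with h | h
      · right
        rw [Finset.mem_biUnion]
        refine ⟨j, ?_, hF2 j hj h i φ⟩
        rw [Finset.mem_range]
        have : j < 2 ^ j := Nat.lt_two_pow_self
        omega
      · left
        obtain ⟨Z, hZ1, hZ2⟩ := lev_sparse hj (by omega) h (X hj) (Y hj) (hY hj) (hX hj) i φ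
        rw [hZ2]
        exact hF0' Z hZ1
    refine (Set.ncard_le_ncard hsub (Finset.finite_toSet _)).trans ?_
    rw [Set.ncard_coe_finset]
    refine (Finset.card_union_le _ _).trans ?_
    refine le_trans ?_ (arith hm)
    apply Nat.add_le_add hF0
    refine Finset.card_biUnion_le.trans ?_
    refine (Finset.sum_le_sum (fun j _ => hF1 j)).trans ?_
    rw [Finset.sum_const, Finset.card_range, smul_eq_mul]
  · intro j hj A
    obtain ⟨i, hi⟩ := hA hj A
    refine ⟨gr (Y hj i), ⟨j, hj, i, Function.Embedding.refl _, ?_⟩, hi⟩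
    ext u v
    simp only [SimpleGraph.comap_adj, Function.Embedding.refl_apply]

end Pool.Agent.R98.Loc
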