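import Mathlib
import Pool.Agent.Helper923.PNT

/-!
# Primes in blocks
-/

set_option autoImplicit false

open Finset Filter Topology

namespace Pool.Agent.R98

lemma pnt : Tendsto (fun n : ℕ => (Nat.primeCounting n : ℝ) * Real.log n / n) atTop (𝓝 1) := by
  have h := Pool.Agent.Helper923.PNT.pi_tendsto.comp (tendsto_natCast_atTop_atTop (R := ℝ))
  refine h.congr fun n => ?_
  simp only [Function.comp, Nat.floor_natCast]

lemma primeCounting_eq (n : ℕ) :
    Nat.primeCounting n = ((Icc 1 n).filter Nat.Prime).card := by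
  rw [Nat.primeCounting, Nat.primeCounting', Nat.count_eq_card_filter_range]
  congr 1
  ext p
  simp only [Finset.mem_filter, Finset.mem_range, Finset.mem_Icc]
  constructor
  · rintro ⟨h1, h2⟩; exact ⟨⟨h2.one_le, by omega⟩, h2⟩
  · rintro ⟨⟨_, h1⟩, h2⟩; exact ⟨by omega, h2⟩

/-- the primes in `(b x / T, (b + 1) x / T]` -/
def blk (T b x : ℕ) : Finset ℕ := (Ioc (b * x / T) ((b + 1) * x / T)).filter Nat.Prime

lemma card_blk (T b x : ℕ) :
    ((blk T b x).card : ℝ) = Nat.primeCounting ((b + 1) * x / T) - Nat.primeCounting (b * x / T) := by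
  have hle : b * x / T ≤ (b + 1) * x / T :=
    Nat.div_le_div_right (Nat.mul_le_mul_right _ (by omega))
  have h1 : ((Icc 1 ((b + 1) * x / T)).filter Nat.Prime)
      = ((Icc 1 (b * x / T)).filter Nat.Prime) ∪ blk T b x := by
    ext p
    simp only [blk, Finset.mem_filter, Finset.mem_Icc, Finset.mem_union, Finset.mem_Ioc]
    constructor
    · rintro ⟨⟨h1, h2⟩, h3⟩
      by_cases h : p ≤ b * x / T
      · exact Or.inl ⟨⟨h1, h⟩, h3⟩
      · exact Or.inr ⟨⟨by omega, h2⟩, h3⟩
    · rintro (⟨⟨h1, h2⟩, h3⟩ | ⟨⟨h1, h2⟩, h3⟩)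
      · exact ⟨⟨h1, by omega⟩, h3⟩
      · exact ⟨⟨h3.one_le, h2⟩, h3⟩
  have h2 : Disjoint ((Icc 1 (b * x / T)).filter Nat.Prime) (blk T b x) := by
    rw [Finset.disjoint_left]
    intro p hp hp'
    simp only [blk, Finset.mem_filter, Finset.mem_Icc, Finset.mem_Ioc] at hp hp'
    omega
  rw [primeCounting_eq, primeCounting_eq, h1, Finset.card_union_of_disjoint h2]
  push_cast
  ring

lemma primes_eq_biUnion {T : ℕ} (hT : 1 ≤ T) (x : ℕ) :
    (Icc 1 x).filter Nat.Prime = (range T).biUnion (fun b => blk T b x) := by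
  ext p
  simp only [blk, Finset.mem_filter, Finset.mem_Icc, Finset.mem_biUnion, Finset.mem_range,
    Finset.mem_Ioc]
  constructor
  · rintro ⟨⟨h1, h2⟩, h3⟩
    -- the first `b` with `p ≤ (b+1) x / T`
    have hex : ∃ b, p ≤ (b + 1) * x / T := ⟨T - 1, by
      have : T - 1 + 1 = T := by omega
      rw [this, Nat.mul_div_cancel_left _ (by omega)]
      exact h2⟩
    classical
    refine ⟨Nat.find hex, ?_, ⟨?_, Nat.find_spec hex⟩, h3⟩
    · have : Nat.find hex ≤ T - 1 := Nat.find_min' hex (by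
        have : T - 1 + 1 = T := by omega
        rw [this, Nat.mul_div_cancel_left _ (by omega)]
        exact h2)
      omega
    · rcases Nat.eq_zero_or_pos (Nat.find hex) with h0 | h0
      · rw [h0]; simp; omega
      · have := Nat.find_min hex (m := Nat.find hex - 1) (by omega)
        rw [show Nat.find hex - 1 + 1 = Nat.find hex by omega] at this
        omega
  · rintro ⟨b, hb, ⟨h1, h2⟩, h3⟩
    refine ⟨⟨h3.one_le, h2.trans ?_⟩, h3⟩
    calc (b + 1) * x / T ≤ T * x / T := Nat.div_le_div_right (Nat.mul_le_mul_right _ (by omega))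
      _ = x := Nat.mul_div_cancel_left _ (by omega)

lemma blk_disjoint {T b b' x : ℕ} (h : b < b') : Disjoint (blk T b x) (blk T b' x) := by
  rw [Finset.disjoint_left]
  intro p hp hp'
  simp only [blk, Finset.mem_filter, Finset.mem_Ioc] at hp hp'
  have : (b + 1) * x / T ≤ b' * x / T := Nat.div_le_div_right (Nat.mul_le_mul_right _ (by omega))
  omega

lemma sum_primes_eq {T : ℕ} (hT : 1 ≤ T) (x : ℕ) (f : ℕ → ℝ) :
    ∑ p ∈ (Icc 1 x).filter Nat.Prime, f p = ∑ b ∈ range T, ∑ p ∈ blk T b x, f p := by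
  rw [primes_eq_biUnion hT, Finset.sum_biUnion]
  intro b _ b' _ hbb
  rcases Nat.lt_or_gt_of_ne hbb with h | h
  · exact blk_disjoint h
  · exact (blk_disjoint h).symm

lemma tendsto_div_block (T b : ℕ) (hT : 1 ≤ T) :
    Tendsto (fun x : ℕ => ((b * x / T : ℕ) : ℝ) / x) atTop (𝓝 ((b : ℝ) / T)) := by
  have h := (tendsto_nat_floor_mul_div_atTop (R := ℝ) (a := (b : ℝ) / T) (by positivity)).comp
    (tendsto_natCast_atTop_atTop (R := ℝ))
  refine h.congr fun x => ?_
  simp only [Function.comp]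
  congr 2
  rw [← Nat.floor_div_eq_div (K := ℝ)]
  congr 1
  push_cast
  ring

lemma tendsto_pi_block (T b : ℕ) (hT : 1 ≤ T) :
    Tendsto (fun x : ℕ => (Nat.primeCounting (b * x / T) : ℝ) * Real.log x / x) atTop
      (𝓝 ((b : ℝ) / T)) := by
  rcases Nat.eq_zero_or_pos b with h0 | h0
  · subst h0
    simp
  have hT0 : (0 : ℝ) < T := by exact_mod_cast hT
  have hb0 : (0 : ℝ) < b := by exact_mod_cast h0
  have hc0 : (0 : ℝ) < (b : ℝ) / T := by positivity
  set y : ℕ → ℕ := fun x => b * x / T with hy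
  have hyx : Tendsto (fun x : ℕ => (y x : ℝ) / x) atTop (𝓝 ((b : ℝ) / T)) :=
    tendsto_div_block T b hT
  have hy1 : Tendsto y atTop atTop := by
    apply tendsto_atTop.2
    intro a
    filter_upwards [eventually_ge_atTop (a * T)] with x hx
    rw [hy]
    simp only
    rw [Nat.le_div_iff_mul_le (by omega)]
    nlinarith
  have hpi := pnt.comp hy1
  have hlogy : Tendsto (fun x : ℕ => Real.log (y x)) atTop atTop :=
    Real.tendsto_log_atTop.comp ((tendsto_natCast_atTop_atTop (R := ℝ)).comp hy1)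
  have hlogq : Tendsto (fun x : ℕ => Real.log ((y x : ℝ) / x)) atTop (𝓝 (Real.log ((b : ℝ) / T))) :=
    (Real.continuousAt_log hc0.ne').tendsto.comp hyx
  have hratio : Tendsto (fun x : ℕ => 1 - Real.log ((y x : ℝ) / x) / Real.log (y x)) atTop
      (𝓝 (1 - 0)) := tendsto_const_nhds.sub (hlogq.div_atTop hlogy)
  have hprod := (hpi.mul hratio).mul hyx
  rw [sub_zero, one_mul, one_mul] at hprod
  refine hprod.congr' ?_
  filter_upwards [eventually_ge_atTop 1, hy1.eventually (eventually_ge_atTop 2)] with x hx1 hx2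
  simp only [Function.comp]
  have hx0 : (0 : ℝ) < x := by exact_mod_cast hx1
  have hyy : (1 : ℝ) < y x := by exact_mod_cast (by omega : 1 < y x)
  have hly : 0 < Real.log (y x) := Real.log_pos hyy
  rw [Real.log_div (by linarith) hx0.ne']
  have hy0 : (y x : ℝ) ≠ 0 := by linarith
  field_simp
  ring

/-- the number of primes in a block -/
lemma tendsto_blk (T b : ℕ) (hT : 1 ≤ T) :
    Tendsto (fun x : ℕ => ((blk T b x).card : ℝ) * Real.log x / x) atTop (𝓝 (1 / (T : ℝ))) := by
  have h := (tendsto_pi_block T (b + 1) hT).sub (tendsto_pi_block T b hT)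
  have e : ((b + 1 : ℕ) : ℝ) / T - (b : ℝ) / T = 1 / T := by
    push_cast
    ring
  rw [e] at h
  refine h.congr fun x => ?_
  rw [card_blk]
  ring

lemma sum_sq_range (T : ℕ) :
    ∑ b ∈ range T, (b : ℝ) ^ 2 = ((T : ℝ) - 1) * T * (2 * T - 1) / 6 := by
  induction T with
  | zero => simp
  | succ n ih =>
    rw [Finset.sum_range_succ, ih]
    push_cast
    ring

lemma sum_id_range (T : ℕ) : ∑ b ∈ range T, (b : ℝ) = ((T : ℝ) - 1) * T / 2 := by
  induction T with
  | zero => simp
  | succ n ih =>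
    rw [Finset.sum_range_succ, ih]
    push_cast
    ring

end Pool.Agent.R98
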