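import Pool.Agent.R98.Chain
import Pool.Agent.R98.PrimeSum

/-!
# Packing all primes up to `x`, block by block
-/

set_option autoImplicit false

open Finset

namespace Pool.Agent.R98

/-- the shift used in block `b` -/
def shift (T x : ℕ) (L : ℕ → ℕ) (b : ℕ) : ℕ :=
  L b - (b * x / T) * (b * x / T - 2 * (x / (T * T)))

lemma shift_le {T x b : ℕ} {L : ℕ → ℕ} (h : (b * x / T) ^ 2 ≤ L b) :
    (shift T x L b : ℝ) ≤ L b - ((b * x / T : ℕ) : ℝ) ^ 2
      + 2 * ((1 * x / (T * T) : ℕ) : ℝ) * ((b * x / T : ℕ) : ℝ) := by
  unfold shift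
  rw [one_mul]
  set X := b * x / T
  set K := x / (T * T)
  have h1 : L b - X * (X - 2 * K) ≤ L b - X ^ 2 + 2 * K * X := by
    have h2 : X ^ 2 ≤ X * (X - 2 * K) + 2 * K * X := by
      rcases Nat.le_total (2 * K) X with h3 | h3
      · obtain ⟨e, he⟩ := Nat.exists_eq_add_of_le h3
        rw [he, Nat.add_sub_cancel_left]
        exact le_of_eq (by ring)
      · rw [Nat.sub_eq_zero_of_le h3, mul_zero, zero_add, sq]
        exact Nat.mul_le_mul_right _ h3
    omega
  have h2 : ((L b - X * (X - 2 * K) : ℕ) : ℝ) ≤ ((L b - X ^ 2 + 2 * K * X : ℕ) : ℝ) := by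
    exact_mod_cast h1
  refine h2.trans (le_of_eq ?_)
  push_cast [Nat.cast_sub h]
  ring

lemma packs_range {T : ℕ} (S : ℕ → Finset ℕ) (N M : ℕ → ℕ)
    (h : ∀ b < T, Packs (S b) N (M b)) :
    Packs ((range T).biUnion S) N (∑ b ∈ range T, M b) := by
  induction T with
  | zero => simpa using packs_empty N
  | succ T ih =>
    have h1 := ih (fun b hb => h b (by omega))
    have h2 := h T (by omega)
    have h3 := h1.union h2
    rw [Finset.sum_range_succ]
    refine h3.subset ?_
    intro p hp
    rw [Finset.mem_biUnion] at hp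
    obtain ⟨b, hb, hpb⟩ := hp
    rw [Finset.mem_range] at hb
    rw [Finset.mem_union, Finset.mem_biUnion]
    rcases Nat.lt_or_ge b T with hbT | hbT
    · exact Or.inl ⟨b, Finset.mem_range.2 hbT, hpb⟩
    · have : b = T := by omega
      subst this
      exact Or.inr hpb

/-- **Upper bound.** -/
theorem upper {T : ℕ} (hT : 2 ≤ T) : ∃ C x₀ : ℕ, ∀ x, x₀ ≤ x → ∀ (N L : ℕ → ℕ) (Lmax : ℕ),
    (∀ b < T, ∀ p ∈ blk T b x, N p * p ≤ L b) → (∀ b < T, L b ≤ Lmax) →
    (∀ b < T, 1 ≤ b → (T + 1) * (b * x / T) ^ 2 ≤ T * L b) →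
    Packs ((Icc 1 x).filter Nat.Prime) N
      (∑ b ∈ range T, (blk T b x).card * shift T x L b + C * Lmax) := by
  set G := 2 * (T * T) with hG
  set H := T * G ^ (T + 1) with hH
  set B := (2 * H + 1) ^ T * T with hB
  have hGpos : 0 < G := by positivity
  have hHpos : 0 < H := by positivity
  refine ⟨T * (B + 1), T * T + T * (H + 1) + (2 * T) ^ T * (T * H) + 2 * T + 1, ?_⟩
  intro x hx N L Lmax hN hLmax hspan
  have hxTT : T * T ≤ x := by omega
  have hxT : T * (H + 1) ≤ x := by omega
  have hxB : (2 * T) ^ T * (T * H) < x := by omega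
  have hx2T : 2 * T ≤ x := by omega
  have hT0 : 0 < T := by omega
  have hb : ∀ b < T, Packs (blk T b x) N ((blk T b x).card * shift T x L b + (B + 1) * Lmax) := by
    intro b hbT
    rcases Nat.eq_zero_or_pos b with h0 | h0
    · subst h0
      have h1 := packs_trivial (S := blk T 0 x) (N := N) (L := L 0)
        (fun p hp => (Finset.mem_filter.1 hp).2.pos) (fun p hp => hN 0 hbT p hp)
      refine h1.mono ?_
      have h2 : shift T x L 0 = L 0 := by simp [shift]
      rw [h2]
      omega
    · set X₀ := b * x / T with hX₀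
      set K := x / (T * T) with hK
      have hK1 : 1 ≤ K := by
        rw [hK, Nat.le_div_iff_mul_le (by positivity)]
        omega
      have hX₀x : x / T ≤ X₀ := Nat.div_le_div_right (Nat.le_mul_of_pos_left _ h0)
      have hKT : T * K ≤ x / T := by
        rw [hK, ← Nat.div_div_eq_div_mul]
        exact Nat.mul_div_le _ _
      have h2K : 2 * K ≤ X₀ := by
        calc 2 * K ≤ T * K := Nat.mul_le_mul_right _ hT
          _ ≤ x / T := hKT
          _ ≤ X₀ := hX₀x
      have hX₁x : (b + 1) * x / T ≤ x := by
        calc (b + 1) * x / T ≤ T * x / T := Nat.div_le_div_right (Nat.mul_le_mul_right _ (by omega))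
          _ = x := Nat.mul_div_cancel_left _ hT0
      have hxGK : x ≤ G * K := by
        have h1 : x < T * T * (x / (T * T) + 1) := Nat.lt_mul_div_succ _ (by positivity)
        rw [← hK] at h1
        have h2 : T * T * (K + 1) ≤ T * T * (2 * K) := Nat.mul_le_mul_left _ (by omega)
        calc x ≤ T * T * (2 * K) := by omega
          _ = G * K := by rw [hG]; ring
      have hHX : H < X₀ := by
        have : H + 1 ≤ x / T := by
          rw [Nat.le_div_iff_mul_le hT0]
          linarith [mul_comm T (H + 1)]
        omega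
      have hX01 : X₀ ≤ (b + 1) * x / T := Nat.div_le_div_right (Nat.mul_le_mul_right _ (by omega))
      have hxX₀ : x ≤ 2 * T * X₀ := by
        have h1 : x < T * (x / T + 1) := Nat.lt_mul_div_succ _ hT0
        have h2 : T * (x / T + 1) ≤ T * (X₀ + 1) := Nat.mul_le_mul_left _ (by omega)
        have h3 : T * (X₀ + 1) ≤ T * (2 * X₀) := Nat.mul_le_mul_left _ (by omega)
        calc x ≤ T * (2 * X₀) := by omega
          _ = 2 * T * X₀ := by ring
      have hXm : T * H * ((b + 1) * x / T) ^ (T - 1) < X₀ ^ T := by
        have hx0 : 0 < x := by omega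
        have h1 : (2 * T) ^ T * (T * H * ((b + 1) * x / T) ^ (T - 1))
            < (2 * T) ^ T * X₀ ^ T := by
          calc (2 * T) ^ T * (T * H * ((b + 1) * x / T) ^ (T - 1))
              ≤ (2 * T) ^ T * (T * H * x ^ (T - 1)) := by
                apply Nat.mul_le_mul_left
                apply Nat.mul_le_mul_left
                exact Nat.pow_le_pow_left hX₁x _
            _ = ((2 * T) ^ T * (T * H)) * x ^ (T - 1) := by ring
            _ < x * x ^ (T - 1) := Nat.mul_lt_mul_of_pos_right hxB (by positivity)
            _ = x ^ T := by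
                rw [← Nat.pow_succ']
                congr 1
                omega
            _ ≤ (2 * T * X₀) ^ T := Nat.pow_le_pow_left hxX₀ _
            _ = (2 * T) ^ T * X₀ ^ T := by rw [mul_pow]
        exact Nat.lt_of_mul_lt_mul_left h1
      have hle : X₀ * (X₀ - 2 * K) ≤ X₀ ^ 2 := by
        rw [sq]; exact Nat.mul_le_mul_left _ (Nat.sub_le _ _)
      have hsp := hspan b hbT h0
      rw [← hX₀] at hsp
      have hc := chain T G K X₀ ((b + 1) * x / T) H (shift T x L b) (L b) N (blk T b x)
        (by
          intro p hp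
          rw [blk, Finset.mem_filter, Finset.mem_Ioc] at hp
          exact ⟨hp.2, by omega, hp.1.2⟩)
        hK1 h2K (hX₁x.trans hxGK) (le_of_eq hH.symm) hHpos hHX hX01 hXm
        (fun p hp => hN b hbT p hp)
        (by
          unfold shift
          rw [← hX₀, ← hK]
          omega)
        (by
          unfold shift
          rw [← hX₀, ← hK]
          have hX₀L : X₀ ^ 2 ≤ L b := by
            by_contra hcon
            push Not at hcon
            have : T * L b < (T + 1) * X₀ ^ 2 := by nlinarith
            omega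
          have h3 : L b - X₀ ^ 2 ≤ L b - X₀ * (X₀ - 2 * K) := by omega
          have h4 : L b ≤ (T + 1) * (L b - X₀ ^ 2) := by
            obtain ⟨e, he⟩ := Nat.exists_eq_add_of_le hX₀L
            rw [he, Nat.add_sub_cancel_left]
            rw [he] at hsp
            nlinarith
          exact h4.trans (Nat.mul_le_mul_left _ h3))
      refine hc.mono ?_
      exact Nat.add_le_add_left (Nat.mul_le_mul_left (B + 1) (hLmax b hbT)) _
  have hfin := packs_range (T := T) (fun b => blk T b x) N
    (fun b => (blk T b x).card * shift T x L b + (B + 1) * Lmax) hb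
  rw [← primes_eq_biUnion (by omega)] at hfin
  refine hfin.mono (le_of_eq ?_)
  rw [Finset.sum_add_distrib, Finset.sum_const, Finset.card_range, smul_eq_mul]
  ring

end Pool.Agent.R98
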