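import Pool.Agent.R98.LayerChain
import Pool.Agent.R98.PrimeSum
import Pool.Agent.R98.Upper

/-!
# The main blocks
-/

set_option autoImplicit false

open Finset

namespace Pool.Agent.R98.Layer

open Pool.Agent.R98

/-- span of a window -/
def Ls (A T n x b : ℕ) : ℕ := n + 2 * A * ((b + 1) * x / T)

/-- the shift used in block `b` -/
def shf (A T m E n x b : ℕ) : ℕ :=
  (Ls A T n x b - (b * x / T) * (b * x / T - A * (4 * (x / E) + 5))) + (Ls A T n x b / (m + 1) + 1)

/-- the primes of the main blocks -/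
def mainP (T Bm x : ℕ) : Finset ℕ := (Ico 1 Bm).biUnion (fun b => blk T b x)

lemma packs_biUnion (I : Finset ℕ) (S : ℕ → Finset ℕ) (N M : ℕ → ℕ)
    (h : ∀ b ∈ I, Packs (S b) N (M b)) :
    Packs (I.biUnion S) N (∑ b ∈ I, M b) := by
  classical
  induction I using Finset.induction_on with
  | empty => simpa using packs_empty N
  | insert a I ha ih =>
    have h1 := ih (fun b hb => h b (Finset.mem_insert_of_mem hb))
    have h2 := h a (Finset.mem_insert_self _ _)
    rw [Finset.sum_insert ha, Finset.biUnion_insert]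
    exact h2.union h1

theorem main_blocks {T A m E Bm : ℕ} (hT : 1 ≤ T) (hA : 1 ≤ A) (hE : 8 * A * T ≤ E)
    (hBm : 1 ≤ Bm) :
    ∃ C x₀ : ℕ, ∀ n x, x₀ ≤ x → x ^ 2 ≤ n →
    Packs (mulSet A (mainP T Bm x)) (fun d => n / d)
      (∑ b ∈ Ico 1 Bm, (blk T b x).card * shf A T m E n x b + C * n) := by
  classical
  set G := 2 * E * Bm with hG
  have hEpos : 0 < E := lt_of_lt_of_le (by positivity) hE
  have hGpos : 0 < G := by positivity
  set H := (2 * m + 1) * G ^ (2 * m + 1 + 1) with hH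
  have hHpos : 0 < H := by positivity
  set Q := (2 * m + 1) * (A * H) * Bm ^ (2 * m) * (2 * T) ^ (2 * m + 1) with hQ
  refine ⟨Bm * (2 + A * Bd A H m), E + 2 * T * (5 * A) + T * (A * H) + Q + 2 * T + 2 * A * Bm + 1, ?_⟩
  intro n x hx hxn
  have hxE : E ≤ x := by omega
  have hx5 : 2 * T * (5 * A) ≤ x := by omega
  have hxH : T * (A * H) ≤ x := by omega
  have hxQ : Q < x := by omega
  have hx2T : 2 * T ≤ x := by omega
  have hxAB : 2 * A * Bm ≤ x := by omega
  have hT0 : 0 < T := by omega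
  set K := x / E with hK
  have hK1 : 1 ≤ K := by
    rw [hK, Nat.le_div_iff_mul_le hEpos]
    omega
  have hY : A * (4 * K + 5) ≤ x / T := by
    rw [Nat.le_div_iff_mul_le hT0]
    have h1 : E * K ≤ x := Nat.mul_div_le _ _
    have h2 : 8 * A * T * K ≤ x := (Nat.mul_le_mul_right _ hE).trans h1
    have h3 : 2 * (A * (4 * K + 5) * T) = 8 * A * T * K + 2 * T * (5 * A) := by ring
    omega
  have hb : ∀ b ∈ Ico 1 Bm, Packs (mulSet A (blk T b x)) (fun d => n / d)
      ((blk T b x).card * shf A T m E n x b + (2 + A * Bd A H m) * n) := by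
    intro b hb
    rw [Finset.mem_Ico] at hb
    obtain ⟨h0, hbB⟩ := hb
    set X₀ := b * x / T with hX₀
    set X₁ := (b + 1) * x / T with hX₁
    have hX₀x : x / T ≤ X₀ := Nat.div_le_div_right (Nat.le_mul_of_pos_left _ h0)
    have hX01 : X₀ ≤ X₁ := Nat.div_le_div_right (Nat.mul_le_mul_right _ (by omega))
    have hX2 : X₁ ≤ 2 * X₀ + 1 := by
      have h1 : b * x < T * (X₀ + 1) := Nat.lt_mul_div_succ _ hT0
      have h2 : X₁ < 2 * X₀ + 2 := by
        rw [hX₁, Nat.div_lt_iff_lt_mul hT0]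
        have h3 : (b + 1) * x ≤ 2 * (b * x) := by
          have : (b + 1) * x ≤ (2 * b) * x := Nat.mul_le_mul_right _ (by omega)
          linarith
        have h4 : (2 * X₀ + 2) * T = 2 * (T * (X₀ + 1)) := by ring
        omega
      omega
    have hX₁B : X₁ ≤ Bm * x := by
      calc X₁ ≤ (b + 1) * x := Nat.div_le_self _ _
        _ ≤ Bm * x := Nat.mul_le_mul_right _ (by omega)
    have hGK : X₁ ≤ G * K := by
      have h1 : x < E * (K + 1) := Nat.lt_mul_div_succ _ hEpos
      have h2 : E * (K + 1) ≤ E * (2 * K) := Nat.mul_le_mul_left _ (by omega)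
      calc X₁ ≤ Bm * x := hX₁B
        _ ≤ Bm * (E * (2 * K)) := Nat.mul_le_mul_left _ (by omega)
        _ = G * K := by rw [hG]; ring
    have hAH : A * H ≤ X₀ := by
      have : A * H ≤ x / T := by
        rw [Nat.le_div_iff_mul_le hT0]
        linarith [mul_comm T (A * H)]
      omega
    have hxX₀ : x ≤ 2 * T * X₀ := by
      have h1 : x < T * (x / T + 1) := Nat.lt_mul_div_succ _ hT0
      have h5 : 1 ≤ X₀ := by
        have : 1 ≤ A * H := Nat.mul_pos (by omega) hHpos
        omega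
      have h2 : T * (x / T + 1) ≤ T * (X₀ + 1) := Nat.mul_le_mul_left _ (by omega)
      have h3 : T * (X₀ + 1) ≤ T * (2 * X₀) := Nat.mul_le_mul_left _ (by omega)
      calc x ≤ T * (2 * X₀) := by omega
        _ = 2 * T * X₀ := by ring
    have hXm : (2 * m + 1) * (A * H) * X₁ ^ (2 * m) < X₀ ^ (2 * m + 1) := by
      have hx0 : 0 < x := by omega
      have h1 : (2 * T) ^ (2 * m + 1) * ((2 * m + 1) * (A * H) * X₁ ^ (2 * m))
          < (2 * T) ^ (2 * m + 1) * X₀ ^ (2 * m + 1) := by
        calc (2 * T) ^ (2 * m + 1) * ((2 * m + 1) * (A * H) * X₁ ^ (2 * m))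
            ≤ (2 * T) ^ (2 * m + 1) * ((2 * m + 1) * (A * H) * (Bm * x) ^ (2 * m)) := by
              apply Nat.mul_le_mul_left
              apply Nat.mul_le_mul_left
              exact Nat.pow_le_pow_left hX₁B _
          _ = Q * x ^ (2 * m) := by rw [hQ, mul_pow]; ring
          _ < x * x ^ (2 * m) := Nat.mul_lt_mul_of_pos_right hxQ (by positivity)
          _ = x ^ (2 * m + 1) := by ring
          _ ≤ (2 * T * X₀) ^ (2 * m + 1) := Nat.pow_le_pow_left hxX₀ _
          _ = (2 * T) ^ (2 * m + 1) * X₀ ^ (2 * m + 1) := by rw [mul_pow]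
      exact Nat.lt_of_mul_lt_mul_left h1
    have hc := layer_chain A K H m G X₀ X₁ (shf A T m E n x b) n (blk T b x)
      (by
        intro p hp
        rw [blk, Finset.mem_filter, Finset.mem_Ioc] at hp
        exact ⟨hp.2, hp.1.1, hp.1.2⟩)
      hX2 hX01 hK1 hGK hHpos (le_of_eq hH.symm) hA (hY.trans hX₀x) hAH hXm
      (by
        unfold shf Ls
        rw [← hX₁]
        have h1 : n + 2 * A * X₁ < (m + 1) * ((n + 2 * A * X₁) / (m + 1) + 1) :=
          Nat.lt_mul_div_succ _ (by omega)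
        exact h1.le.trans (Nat.mul_le_mul_left _ (Nat.le_add_left _ _)))
      (by
        unfold shf Ls
        rw [← hX₁, ← hX₀, ← hK]
        have h1 := Nat.zero_le ((n + 2 * A * X₁) / (m + 1))
        omega)
    refine hc.mono ?_
    have h6 : n + 2 * A * X₁ ≤ 2 * n := by
      have h7 : 2 * A * X₁ ≤ x ^ 2 := by
        calc 2 * A * X₁ ≤ 2 * A * (Bm * x) := Nat.mul_le_mul_left _ hX₁B
          _ = (2 * A * Bm) * x := by ring
          _ ≤ x * x := Nat.mul_le_mul_right _ hxAB
          _ = x ^ 2 := by ring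
      omega
    calc (blk T b x).card * shf A T m E n x b + (n + 2 * A * X₁) + A * Bd A H m * n
        ≤ (blk T b x).card * shf A T m E n x b + 2 * n + A * Bd A H m * n := by omega
      _ = _ := by ring
  have hfin := packs_biUnion (Ico 1 Bm) (fun b => mulSet A (blk T b x)) (fun d => n / d) _ hb
  have hsub : mulSet A (mainP T Bm x) ⊆ (Ico 1 Bm).biUnion (fun b => mulSet A (blk T b x)) := by
    intro d hd
    obtain ⟨a, p, ha1, ha2, hp, rfl⟩ := mem_mulSet.1 hd
    rw [mainP, Finset.mem_biUnion] at hp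
    obtain ⟨b, hb, hpb⟩ := hp
    rw [Finset.mem_biUnion]
    exact ⟨b, hb, mem_mulSet.2 ⟨a, p, ha1, ha2, hpb, rfl⟩⟩
  refine (hfin.subset hsub).mono ?_
  rw [Finset.sum_add_distrib, Finset.sum_const, Nat.card_Ico, smul_eq_mul]
  apply Nat.add_le_add_left
  rw [← mul_assoc]
  apply Nat.mul_le_mul_right
  apply Nat.mul_le_mul_right
  omega

end Pool.Agent.R98.Layer
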