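import Pool.Agent.R98.NibWeight
import Pool.Agent.TH437.SP.Nib

/-!
# Packing progressions of fixed length: the nibble
-/

set_option autoImplicit false

open Finset

namespace Pool.Agent.R98.Nib

lemma bd_of_W_pos {n q k d s : ℕ} (hdk : d ≤ k) (h : 0 < W n q k d s) :
    ∀ i < n, s + i * d < n * k := by
  intro i hi
  unfold W at h
  rw [if_pos (good_of_W_pos h)] at h
  obtain ⟨c, hc, hc0⟩ := Finset.exists_ne_zero_of_sum_ne_zero h.ne'
  rw [Finset.mem_range] at hc
  have h1 : n * c ≤ s ∧ s < n * c + d := by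
    by_contra hcon
    rw [if_neg hcon] at hc0
    exact hc0 rfl
  have h2 : (i + 1) * d ≤ n * d := Nat.mul_le_mul_right _ hi
  rw [Nat.add_mul, one_mul] at h2
  have h3 : n * c + n * d ≤ n * k := by
    rw [← Nat.mul_add]
    exact Nat.mul_le_mul_left _ (by omega)
  omega

/-- the edge of the progression with difference `e.1` starting at `e.2` -/
def AA (n : ℕ) (e : ℕ × ℕ) : Finset (ℕ ⊕ ℕ) :=
  insert (Sum.inl e.1) ((range n).image (fun i => Sum.inr (e.2 + i * e.1)))

lemma inl_mem_AA {n d : ℕ} {e : ℕ × ℕ} : (Sum.inl d : ℕ ⊕ ℕ) ∈ AA n e ↔ d = e.1 := by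
  unfold AA
  simp

lemma inr_mem_AA {n x : ℕ} {e : ℕ × ℕ} :
    (Sum.inr x : ℕ ⊕ ℕ) ∈ AA n e ↔ ∃ i < n, e.2 + i * e.1 = x := by
  unfold AA
  simp

lemma AA_card (n : ℕ) (e : ℕ × ℕ) : (AA n e).card ≤ n + 1 := by
  unfold AA
  refine (Finset.card_insert_le _ _).trans ?_
  have := Finset.card_image_le (s := range n)
    (f := fun i => (Sum.inr (e.2 + i * e.1) : ℕ ⊕ ℕ))
  rw [Finset.card_range] at this
  omega

lemma card_pair_lr (n : ℕ) (hn : 1 ≤ n) (E : Finset (ℕ × ℕ)) (d x : ℕ) :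
    (E.filter (fun e => (Sum.inl d : ℕ ⊕ ℕ) ∈ AA n e ∧ (Sum.inr x : ℕ ⊕ ℕ) ∈ AA n e)).card
      ≤ n ^ 2 := by
  classical
  have h1 : E.filter (fun e => (Sum.inl d : ℕ ⊕ ℕ) ∈ AA n e ∧ (Sum.inr x : ℕ ⊕ ℕ) ∈ AA n e)
      ⊆ (range n).image (fun i => (d, x - i * d)) := by
    rintro ⟨d', s⟩ he
    rw [Finset.mem_filter, inl_mem_AA, inr_mem_AA] at he
    obtain ⟨_, h1, i, hi, h2⟩ := he
    simp only at h1 h2
    subst h1
    rw [Finset.mem_image]
    refine ⟨i, Finset.mem_range.2 hi, ?_⟩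
    rw [← h2, Nat.add_sub_cancel]
  refine (Finset.card_le_card h1).trans (Finset.card_image_le.trans ?_)
  rw [Finset.card_range, sq]
  exact Nat.le_mul_of_pos_left _ hn

lemma card_pair_rr (n : ℕ) (E : Finset (ℕ × ℕ)) (x y : ℕ) (hxy : x ≠ y) :
    (E.filter (fun e => (Sum.inr x : ℕ ⊕ ℕ) ∈ AA n e ∧ (Sum.inr y : ℕ ⊕ ℕ) ∈ AA n e)).card
      ≤ n ^ 2 := by
  classical
  set dd : ℕ × ℕ → ℕ := fun t => (((x : ℤ) - y) / ((t.1 : ℤ) - t.2)).toNat with hdd
  have h1 : E.filter (fun e => (Sum.inr x : ℕ ⊕ ℕ) ∈ AA n e ∧ (Sum.inr y : ℕ ⊕ ℕ) ∈ AA n e)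
      ⊆ (range n ×ˢ range n).image (fun t => (dd t, x - t.1 * dd t)) := by
    rintro ⟨d, s⟩ he
    rw [Finset.mem_filter, inr_mem_AA, inr_mem_AA] at he
    obtain ⟨_, ⟨i, hi, h2⟩, j, hj, h3⟩ := he
    simp only at h2 h3
    have hij : (i : ℤ) - j ≠ 0 := by
      intro h
      have : i = j := by omega
      subst this
      omega
    have h4 : dd (i, j) = d := by
      rw [hdd]
      simp only
      have h5 : (x : ℤ) - y = ((i : ℤ) - j) * d := by
        rw [← h2, ← h3]
        push_cast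
        ring
      rw [h5, Int.mul_ediv_cancel_left _ hij]
      exact Int.toNat_natCast d
    rw [Finset.mem_image]
    refine ⟨(i, j), ?_, ?_⟩
    · rw [Finset.mem_product, Finset.mem_range, Finset.mem_range]; exact ⟨hi, hj⟩
    · rw [h4]
      simp only
      rw [← h2, Nat.add_sub_cancel]
  refine (Finset.card_le_card h1).trans (Finset.card_image_le.trans ?_)
  rw [Finset.card_product, Finset.card_range, sq]

lemma card_pair (n : ℕ) (hn : 1 ≤ n) (E : Finset (ℕ × ℕ)) (u v : ℕ ⊕ ℕ) (huv : u ≠ v) :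
    (E.filter (fun e => u ∈ AA n e ∧ v ∈ AA n e)).card ≤ n ^ 2 := by
  classical
  rcases u with d | x
  · rcases v with d' | y
    · have h1 : E.filter (fun e => (Sum.inl d : ℕ ⊕ ℕ) ∈ AA n e ∧ (Sum.inl d' : ℕ ⊕ ℕ) ∈ AA n e)
          = ∅ := by
        rw [Finset.filter_eq_empty_iff]
        rintro e _ ⟨h1, h2⟩
        rw [inl_mem_AA] at h1 h2
        apply huv
        rw [h1, h2]
      rw [h1]
      simp
    · exact card_pair_lr n hn E d y
  · rcases v with d' | y
    · have h1 := card_pair_lr n hn E d' x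
      have h2 : E.filter (fun e => (Sum.inr x : ℕ ⊕ ℕ) ∈ AA n e ∧ (Sum.inl d' : ℕ ⊕ ℕ) ∈ AA n e)
          = E.filter (fun e => (Sum.inl d' : ℕ ⊕ ℕ) ∈ AA n e ∧ (Sum.inr x : ℕ ⊕ ℕ) ∈ AA n e) := by
        apply Finset.filter_congr
        intro e _
        exact and_comm
      rw [h2]
      exact h1
    · exact card_pair_rr n E x y (fun h => huv (by rw [h]))

lemma sum_sub {β : Type} [DecidableEq β] (E : Finset β) (P : β → Prop) [DecidablePred P]
    (f : β → ℝ) : ∑ e ∈ (univ : Finset E).filter (fun e => P e.1), f e.1 = ∑ e ∈ E.filter P, f e := by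
  rw [Finset.sum_filter, Finset.sum_filter]
  exact Finset.sum_coe_sort E (fun e => if P e then f e else 0)

theorem nib_apply (n q a : ℕ) (hn : 1 ≤ n) (ha : 1 ≤ a) (hq : 8 * a ^ 2 * n ^ 2 ≤ q) (θ : ℝ)
    (hθ : 0 < θ) : ∃ h₀ : ℕ, ∀ h k : ℕ, h₀ ≤ h → h ≤ k → k ≤ 2 * a * h →
      ∃ (C : Finset ℕ) (p : ℕ → ℕ), C ⊆ Icc (2 * h) k ∧
        (∀ d ∈ C, good n q d (p d) ∧ ∀ i < n, p d + i * d < n * k) ∧
        (∀ d ∈ C, ∀ e ∈ C, d ≠ e → ∀ i < n, ∀ j < n, p d + i * d ≠ p e + j * e) ∧
        (1 - θ) * (Icc (2 * h) k).card ≤ (C.card : ℝ) := by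
  classical
  obtain ⟨κ, hκ, hnib⟩ := Pool.Agent.TH437.SP.nibble_T (n + 1) θ hθ
  obtain ⟨N, hN⟩ := exists_nat_gt ((n : ℝ) ^ 2 / κ)
  refine ⟨N + 8 * a ^ 2 * n ^ 2 + 1, ?_⟩
  intro h k hh hhk hka
  have hh1 : 1 ≤ h := by omega
  have hh0 : (0 : ℝ) < h := by exact_mod_cast hh1
  have hk0 : (0 : ℝ) < k := by exact_mod_cast (by omega : 0 < k)
  have ha0 : (1 : ℝ) ≤ a := by exact_mod_cast ha
  set g : ℝ := 1 - 1 / (4 * (a : ℝ) ^ 2) with hg
  have hg1 : 3 / 4 ≤ g := by
    have h1 : 1 / (4 * (a : ℝ) ^ 2) ≤ 1 / 4 := by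
      apply one_div_le_one_div_of_le (by norm_num)
      nlinarith
    rw [hg]; linarith
  have hg0 : 0 < g := by linarith
  have hG : ∀ d ∈ Icc (2 * h) k, ∀ c, g * d ≤ G n q d c := by
    intro d hd c
    rw [Finset.mem_Icc] at hd
    apply G_ge n q d c a ha hn hq
    have : 16 * a ^ 2 * n ^ 2 = 2 * (8 * a ^ 2 * n ^ 2) := by ring
    omega
  have hgh : 1 - ((h : ℝ) / k) ^ 2 ≤ g := by
    rw [hg]
    have h1 : (k : ℝ) ≤ 2 * a * h := by exact_mod_cast hka
    have h2 : 1 / (2 * (a : ℝ)) ≤ h / k := by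
      rw [div_le_div_iff₀ (by positivity) hk0]
      linarith
    have h3 : (1 / (2 * (a : ℝ))) ^ 2 ≤ ((h : ℝ) / k) ^ 2 := by gcongr
    have h4 : (1 / (2 * (a : ℝ))) ^ 2 = 1 / (4 * (a : ℝ) ^ 2) := by
      rw [div_pow]; ring
    linarith
  have hWle : ∀ d ∈ Icc (2 * h) k, ∀ s, W n q k d s ≤ 1 / h := by
    intro d hd s
    have hd' := Finset.mem_Icc.1 hd
    refine (W_le n q k d s (by omega) hd'.2 g hg0 (hG d hd)).trans ?_
    apply one_div_le_one_div_of_le hh0
    have h1 : (2 : ℝ) * h ≤ d := by exact_mod_cast hd'.1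
    nlinarith
  have hκ1 : (n : ℝ) ^ 2 * (1 / h) ≤ κ := by
    rw [mul_one_div, div_le_iff₀ hh0]
    have h1 : (n : ℝ) ^ 2 < N * κ := by
      rw [div_lt_iff₀ hκ] at hN
      exact hN
    have h2 : (N : ℝ) ≤ h := by exact_mod_cast (by omega : N ≤ h)
    nlinarith
  have hκ2 : (1 : ℝ) / h ≤ κ := by
    refine le_trans ?_ hκ1
    have h1 : (1 : ℝ) ≤ (n : ℝ) ^ 2 := by
      have : (1 : ℝ) ≤ n := by exact_mod_cast hn
      nlinarith
    have h2 : (0 : ℝ) < 1 / h := by positivity
    nlinarith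
  set E : Finset (ℕ × ℕ) := Icc (2 * h) k ×ˢ range (n * k) with hE
  obtain ⟨M, hM1, hM2, hM3⟩ := hnib E (ℕ ⊕ ℕ) (fun e => AA n e.1) (fun e => W n q k e.1.1 e.1.2)
    (fun e => W_nonneg _ _ _ _ _) (fun e => ⟨Sum.inl e.1.1, inl_mem_AA.2 rfl⟩)
    (fun e => AA_card n e.1) (by
      intro v
      rw [sum_sub E (fun e => v ∈ AA n e) (fun e => W n q k e.1 e.2)]
      rcases v with d | x
      · rw [Finset.sum_filter, hE, Finset.sum_product]
        calc _ = ∑ d' ∈ Icc (2 * h) k, if d = d' then (1 : ℝ) else 0 := by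
              apply Finset.sum_congr rfl
              intro d' hd'
              have hd'' := Finset.mem_Icc.1 hd'
              by_cases hdd : d = d'
              · rw [if_pos hdd]
                rw [← W_color n q k d' hn (by omega) hd''.2 (by
                  intro c
                  have h1 := hG d' hd' c
                  have h2 : (0 : ℝ) < g * d' := by
                    have : (0 : ℝ) < d' := by exact_mod_cast (by omega : 0 < d')
                    positivity
                  exact_mod_cast lt_of_lt_of_le h2 h1)]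
                apply Finset.sum_congr rfl
                intro s _
                rw [if_pos (inl_mem_AA.2 hdd)]
              · rw [if_neg hdd]
                apply Finset.sum_eq_zero
                intro s _
                rw [if_neg (fun h => hdd (inl_mem_AA.1 h))]
          _ ≤ 1 := by
              rw [Finset.sum_ite_eq]
              split_ifs <;> norm_num
      · by_cases hx : x < n * k
        · refine le_trans (le_of_eq ?_) (W_pos n q k h x hn hh1 hhk hx g hg0 hG hgh)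
          rw [Finset.sum_filter, hE, Finset.sum_product]
          apply Finset.sum_congr rfl
          intro d _
          rw [Finset.sum_filter]
          apply Finset.sum_congr rfl
          intro s _
          apply if_congr _ rfl rfl
          rw [inr_mem_AA]
        · rw [Finset.sum_eq_zero]
          · norm_num
          · rintro ⟨d, s⟩ he
            rw [Finset.mem_filter, hE, Finset.mem_product, Finset.mem_Icc, inr_mem_AA] at he
            obtain ⟨⟨⟨_, hdk⟩, _⟩, i, hi, hix⟩ := he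
            by_contra hne
            have h1 : 0 < W n q k d s := lt_of_le_of_ne (W_nonneg _ _ _ _ _) (Ne.symm hne)
            have h2 := bd_of_W_pos hdk h1 i hi
            simp only at hix
            exact hx (hix ▸ h2)) (by
      intro u v huv
      rw [sum_sub E (fun e => u ∈ AA n e ∧ v ∈ AA n e) (fun e => W n q k e.1 e.2)]
      calc _ ≤ ∑ e ∈ E.filter (fun e => u ∈ AA n e ∧ v ∈ AA n e), (1 : ℝ) / h := by
            apply Finset.sum_le_sum
            intro e he
            rw [Finset.mem_filter, hE, Finset.mem_product] at he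
            exact hWle _ he.1.1 _
        _ ≤ (n : ℝ) ^ 2 * (1 / h) := by
            rw [Finset.sum_const, nsmul_eq_mul]
            have h1 : ((E.filter (fun e => u ∈ AA n e ∧ v ∈ AA n e)).card : ℝ) ≤ (n : ℝ) ^ 2 := by
              exact_mod_cast card_pair n hn E u v huv
            apply mul_le_mul_of_nonneg_right h1
            positivity
        _ ≤ κ := hκ1) (by
      rintro ⟨e, he⟩
      rw [hE, Finset.mem_product] at he
      exact (hWle _ he.1 _).trans hκ2)
  -- the total weight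
  have htot : ∑ e : E, W n q k e.1.1 e.1.2 = (Icc (2 * h) k).card := by
    have h1 := Finset.sum_coe_sort E (fun e => W n q k e.1 e.2)
    rw [h1, hE, Finset.sum_product]
    calc _ = ∑ d ∈ Icc (2 * h) k, (1 : ℝ) := by
          apply Finset.sum_congr rfl
          intro d' hd'
          have hd'' := Finset.mem_Icc.1 hd'
          exact W_color n q k d' hn (by omega) hd''.2 (by
                  intro c
                  have h1 := hG d' hd' c
                  have h2 : (0 : ℝ) < g * d' := by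
                    have : (0 : ℝ) < d' := by exact_mod_cast (by omega : 0 < d')
                    positivity
                  exact_mod_cast lt_of_lt_of_le h2 h1)
      _ = _ := by rw [Finset.sum_const, nsmul_eq_mul, mul_one]
  rw [htot] at hM3
  have hinj : Set.InjOn (fun e : E => e.1.1) (M : Set E) := by
    intro e he f hf hef
    by_contra hne
    have h1 := hM1 e he f hf hne
    simp only at hef
    exact (Finset.disjoint_left.1 h1) (inl_mem_AA.2 rfl) (inl_mem_AA.2 hef)
  set C := M.image (fun e => e.1.1) with hC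
  have hex : ∀ d ∈ C, ∃ e : E, e ∈ M ∧ e.1.1 = d := by
    intro d hd
    obtain ⟨e, he, h1⟩ := Finset.mem_image.1 hd
    exact ⟨e, he, h1⟩
  have hex' : ∀ d : ℕ, ∃ s : ℕ, d ∈ C → ∃ e : E, e ∈ M ∧ e.1.1 = d ∧ e.1.2 = s := by
    intro d
    by_cases hd : d ∈ C
    · obtain ⟨e, he, h1⟩ := hex d hd
      exact ⟨e.1.2, fun _ => ⟨e, he, h1, rfl⟩⟩
    · exact ⟨0, fun h => absurd h hd⟩
  choose p hp using hex'
  refine ⟨C, p, ?_, ?_, ?_, ?_⟩
  · intro d hd
    obtain ⟨⟨e, he⟩, _, h1⟩ := hex d hd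
    rw [hE, Finset.mem_product] at he
    rw [← h1]
    exact he.1
  · intro d hd
    obtain ⟨e, he, h1, h2⟩ := hp d hd
    have hpos := hM2 e he
    rw [h1, h2] at hpos
    obtain ⟨e', he'⟩ := e
    rw [hE, Finset.mem_product, Finset.mem_Icc] at he'
    simp only at h1
    rw [h1] at he'
    exact ⟨good_of_W_pos hpos, bd_of_W_pos he'.1.2 hpos⟩
  · intro d hd e he hde i hi j hj heq
    obtain ⟨e1, he1, h1, h2⟩ := hp d hd
    obtain ⟨e2, he2, h3, h4⟩ := hp e he
    have hne : e1 ≠ e2 := by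
      intro h
      apply hde
      rw [← h1, ← h3, h]
    have hdis := hM1 e1 he1 e2 he2 hne
    apply (Finset.disjoint_left.1 hdis) (a := Sum.inr (p d + i * d))
    · rw [inr_mem_AA]
      exact ⟨i, hi, by rw [h1, h2]⟩
    · rw [inr_mem_AA]
      exact ⟨j, hj, by rw [h3, h4, heq]⟩
  · rw [hC, Finset.card_image_of_injOn hinj]
    exact hM3

end Pool.Agent.R98.Nib
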