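import Mathlib

/-!
# Packing progressions of fixed length: the fractional packing
-/

set_option autoImplicit false

open Finset

namespace Pool.Agent.R98.Nib

/-- the weight of the intervals with right end point `e` -/
noncomputable def b (k e : ℕ) : ℝ := if e < k then 1 / ((e : ℝ) * (e + 1)) else 1 / k

lemma b_nonneg (k e : ℕ) : 0 ≤ b k e := by
  unfold b
  split_ifs <;> positivity

lemma sum_b (k y : ℕ) (hy : y < k) : ∑ e ∈ Ioc y k, b k e = 1 / ((y : ℝ) + 1) := by
  obtain ⟨j, rfl⟩ : ∃ j, k = y + 1 + j := ⟨k - y - 1, by omega⟩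
  clear hy
  induction j generalizing y with
  | zero =>
    have h1 : Ioc y (y + 1 + 0) = {y + 1} := by
      ext x; simp only [Finset.mem_Ioc, Finset.mem_singleton]; omega
    rw [h1, Finset.sum_singleton]
    unfold b
    simp
  | succ j ih =>
    have h1 : Ioc y (y + 1 + (j + 1)) = insert (y + 1) (Ioc (y + 1) (y + 1 + (j + 1))) := by
      ext x; simp only [Finset.mem_Ioc, Finset.mem_insert]; omega
    rw [h1, Finset.sum_insert (by simp)]
    have h2 := ih (y + 1)
    have h3 : y + 1 + 1 + j = y + 1 + (j + 1) := by ring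
    rw [h3] at h2
    rw [h2]
    unfold b
    rw [if_pos (by omega)]
    push_cast
    have h4 : (0 : ℝ) < (y : ℝ) + 1 := by positivity
    have h5 : (0 : ℝ) < (y : ℝ) + 1 + 1 := by positivity
    field_simp
    ring

lemma sum_color (k d : ℕ) (hd : 1 ≤ d) (hdk : d ≤ k) :
    ∑ c ∈ range (k - d + 1), b k (c + d) = 1 / (d : ℝ) := by
  have h1 := sum_b k (d - 1) (by omega)
  have h2 : (((d - 1 : ℕ) : ℝ)) + 1 = d := by
    rw [← Nat.cast_add_one, Nat.sub_add_cancel hd]
  rw [h2] at h1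
  rw [← h1]
  apply Finset.sum_nbij (fun c => c + d)
  · intro c hc
    rw [Finset.mem_range] at hc
    rw [Finset.mem_Ioc]
    omega
  · intro a _ c _ h
    simpa using h
  · intro e he
    have he' := Finset.mem_Ioc.1 (Finset.mem_coe.1 he)
    rw [Set.mem_image]
    refine ⟨e - d, ?_, ?_⟩
    · rw [Finset.mem_coe, Finset.mem_range]; omega
    · show e - d + d = e
      omega
  · intro c _; rfl

lemma near_ineq (k h y : ℕ) (hh : 1 ≤ h) (hhk : h ≤ k) (hy : y < k) :
    ((h : ℝ) / k) ^ 2 ≤ ∑ q ∈ Ioc y (min (y + h) k) ×ˢ Ico (y + 1 - h) (y + 1), b k q.1 := by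
  rw [Finset.sum_product]
  simp only
  simp only [Finset.sum_const, Nat.card_Ico, nsmul_eq_mul]
  rw [← Finset.mul_sum]
  have hk0 : (0 : ℝ) < k := by exact_mod_cast (by omega : 0 < k)
  have hh0 : (0 : ℝ) < h := by exact_mod_cast (by omega : 0 < h)
  have hhk' : (h : ℝ) ≤ k := by exact_mod_cast hhk
  have hy0 : (0 : ℝ) < (y : ℝ) + 1 := by positivity
  have hyk : (y : ℝ) + 1 ≤ k := by exact_mod_cast hy
  have hr : (h : ℝ) / k ≤ 1 := (div_le_one hk0).2 hhk'
  have hr0 : 0 ≤ (h : ℝ) / k := by positivity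
  have hr2 : ((h : ℝ) / k) ^ 2 ≤ (h : ℝ) / k := by nlinarith
  have hm : (y + 1 - (y + 1 - h)) = y + 1 ∨ (y + 1 - (y + 1 - h)) = h := by omega
  rcases lt_or_ge (y + h) k with hlt | hge
  · rw [min_eq_left hlt.le]
    have h1 : ∑ e ∈ Ioc y (y + h), b k e + ∑ e ∈ Ioc (y + h) k, b k e = ∑ e ∈ Ioc y k, b k e := by
      apply Finset.sum_Ioc_consecutive
      · omega
      · omega
    rw [sum_b k y hy, sum_b k (y + h) hlt] at h1
    have h2 : ∑ e ∈ Ioc y (y + h), b k e = (h : ℝ) / (((y : ℝ) + 1) * ((y : ℝ) + h + 1)) := by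
      rw [eq_sub_of_add_eq h1]
      push_cast
      have : (0 : ℝ) < (y : ℝ) + h + 1 := by positivity
      field_simp
      ring
    rw [h2]
    have hyh : (y : ℝ) + h + 1 ≤ k := by exact_mod_cast hlt
    have hyh0 : (0 : ℝ) < (y : ℝ) + h + 1 := by positivity
    rcases hm with h3 | h3
    · rw [h3]
      push_cast
      refine hr2.trans ?_
      rw [show ((y : ℝ) + 1) * (h / (((y : ℝ) + 1) * ((y : ℝ) + h + 1)))
        = h / ((y : ℝ) + h + 1) by field_simp]
      gcongr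
    · rw [h3, div_pow]
      rw [show (h : ℝ) * (h / (((y : ℝ) + 1) * ((y : ℝ) + h + 1)))
        = h ^ 2 / (((y : ℝ) + 1) * ((y : ℝ) + h + 1)) by ring]
      rw [sq (k : ℝ)]
      gcongr
  · rw [min_eq_right hge, sum_b k y hy]
    rcases hm with h3 | h3
    · rw [h3]
      push_cast
      rw [mul_one_div_cancel hy0.ne']
      linarith
    · rw [h3]
      refine hr2.trans ?_
      rw [mul_one_div]
      gcongr

lemma load_le (k h y : ℕ) (hh : 1 ≤ h) (hhk : h ≤ k) (hy : y < k) :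
    ∑ d ∈ Icc (2 * h) k, ∑ c ∈ range (k - d + 1), (if c ≤ y ∧ y < c + d then b k (c + d) else 0)
      ≤ 1 - ((h : ℝ) / k) ^ 2 := by
  classical
  have h1 : ∑ d ∈ Icc (2 * h) k, ∑ c ∈ range (k - d + 1),
      (if c ≤ y ∧ y < c + d then b k (c + d) else 0)
      = ∑ p ∈ ((Icc (2 * h) k).sigma (fun d => range (k - d + 1))).filter
        (fun p => p.2 ≤ y ∧ y < p.2 + p.1), b k (p.2 + p.1) := by
    rw [Finset.sum_sigma', Finset.sum_filter]
  rw [h1]
  set S1 := ((Icc (2 * h) k).sigma (fun d => range (k - d + 1))).filter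
        (fun p => p.2 ≤ y ∧ y < p.2 + p.1) with hS1
  set g : (Σ _ : ℕ, ℕ) → ℕ × ℕ := fun p => (p.2 + p.1, p.2) with hg
  have hinj : Set.InjOn g (S1 : Set (Σ _ : ℕ, ℕ)) := by
    rintro ⟨a, c⟩ _ ⟨a', c'⟩ _ hgg
    simp only [hg, Prod.mk.injEq] at hgg
    obtain ⟨h2, h3⟩ := hgg
    subst h3
    have : a = a' := by omega
    subst this
    rfl
  have h2 : ∑ p ∈ S1, b k (p.2 + p.1) = ∑ q ∈ S1.image g, b k q.1 := by
    rw [Finset.sum_image hinj]
  rw [h2]
  set Full := Ioc y k ×ˢ Ico 0 (y + 1) with hFull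
  set Near := Ioc y (min (y + h) k) ×ˢ Ico (y + 1 - h) (y + 1) with hNear
  have hsub : Near ⊆ Full := by
    apply Finset.product_subset_product
    · apply Finset.Ioc_subset_Ioc_right
      exact min_le_right _ _
    · apply Finset.Ico_subset_Ico_left
      omega
  have himg : S1.image g ⊆ Full \ Near := by
    intro q hq
    obtain ⟨⟨d, c⟩, hp, rfl⟩ := Finset.mem_image.1 hq
    rw [hS1, Finset.mem_filter, Finset.mem_sigma, Finset.mem_Icc, Finset.mem_range] at hp
    simp only at hp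
    obtain ⟨⟨⟨h3, h4⟩, h5⟩, h6, h7⟩ := hp
    rw [Finset.mem_sdiff, hFull, hNear, Finset.mem_product, Finset.mem_product]
    simp only [hg, Finset.mem_Ioc, Finset.mem_Ico, le_min_iff]
    refine ⟨⟨⟨h7, by omega⟩, by omega, by omega⟩, ?_⟩
    rintro ⟨⟨_, h8, _⟩, h9, _⟩
    omega
  have hfull : ∑ q ∈ Full, b k q.1 = 1 := by
    rw [hFull, Finset.sum_product]
    simp only
    simp only [Finset.sum_const, Nat.card_Ico, nsmul_eq_mul]
    rw [← Finset.mul_sum, sum_b k y hy]
    have hy0 : (0 : ℝ) < (y : ℝ) + 1 := by positivity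
    push_cast [Nat.sub_zero]
    field_simp
  have hsd := Finset.sum_sdiff (f := fun q : ℕ × ℕ => b k q.1) hsub
  have hnear := near_ineq k h y hh hhk hy
  calc ∑ q ∈ S1.image g, b k q.1 ≤ ∑ q ∈ Full \ Near, b k q.1 :=
        Finset.sum_le_sum_of_subset_of_nonneg himg (fun _ _ _ => b_nonneg _ _)
    _ ≤ 1 - ((h : ℝ) / k) ^ 2 := by linarith

end Pool.Agent.R98.Nib
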