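import Mathlib

/-!
# Packing progressions of fixed length: greedy placement and the reserved places
-/

set_option autoImplicit false

open Finset

namespace Pool.Agent.R98.Nib

/-- Greedy choice of starting points. -/
lemma greedy (n : ℕ) (X : ℕ → Finset ℕ) (S : Finset ℕ)
    (hX' : ∀ d ∈ S, n ^ 2 * (S.card - 1) < (X d).card) :
    ∃ p : ℕ → ℕ, (∀ d ∈ S, p d ∈ X d) ∧
      ∀ d ∈ S, ∀ e ∈ S, d ≠ e → ∀ i < n, ∀ j < n, p d + i * d ≠ p e + j * e := by
  classical
  induction S using Finset.induction_on with
  | empty => exact ⟨fun _ => 0, by simp, by simp⟩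
  | insert a S ha ih =>
    rw [Finset.card_insert_of_notMem ha, Nat.add_sub_cancel] at hX'
    obtain ⟨p, h1, h2⟩ := ih (fun d hd => lt_of_le_of_lt
      (Nat.mul_le_mul_left _ (Nat.sub_le _ _)) (hX' d (Finset.mem_insert_of_mem hd)))
    set bad : Finset ℕ := (S ×ˢ (range n ×ˢ range n)).image
      (fun t => p t.1 + t.2.1 * t.1 - t.2.2 * a) with hbad
    have hcard : bad.card ≤ n ^ 2 * S.card := by
      refine Finset.card_image_le.trans ?_
      rw [Finset.card_product, Finset.card_product, Finset.card_range]
      apply le_of_eq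
      ring
    obtain ⟨x, hx, hxb⟩ := Finset.exists_mem_notMem_of_card_lt_card
      (lt_of_le_of_lt hcard (hX' a (Finset.mem_insert_self _ _)))
    have hxe : ∀ e ∈ S, ∀ i < n, ∀ j < n, x + i * a ≠ p e + j * e := by
      intro e he i hi j hj heq
      apply hxb
      rw [hbad, Finset.mem_image]
      refine ⟨(e, (j, i)), ?_, ?_⟩
      · simp only [Finset.mem_product, Finset.mem_range]
        exact ⟨he, hj, hi⟩
      · simp only
        omega
    refine ⟨Function.update p a x, ?_, ?_⟩
    · intro d hd
      rcases Finset.mem_insert.1 hd with h | h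
      · subst h
        rw [Function.update_self]; exact hx
      · rw [Function.update_of_ne (fun hda : d = a => ha (hda ▸ h))]
        exact h1 d h
    · intro d hd e he hde i hi j hj
      rcases Finset.mem_insert.1 hd with h | h
      · subst h
        rcases Finset.mem_insert.1 he with h' | h'
        · exact absurd h'.symm hde
        · rw [Function.update_self, Function.update_of_ne hde.symm]
          exact hxe e h' i hi j hj
      · rcases Finset.mem_insert.1 he with h' | h'
        · subst h'
          rw [Function.update_self, Function.update_of_ne hde]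
          exact (hxe d h j hj i hi).symm
        · rw [Function.update_of_ne (fun hda : d = a => ha (hda ▸ h)),
            Function.update_of_ne (fun hda : e = a => ha (hda ▸ h'))]
          exact h2 d h e h' hde i hi j hj

/-- `n` distinct primes greater than `q`. -/
noncomputable def pr (q i : ℕ) : ℕ := Nat.nth Nat.Prime (q + i)

lemma pr_prime (q i : ℕ) : (pr q i).Prime := Nat.prime_nth_prime _

lemma pr_inj (q : ℕ) {i j : ℕ} (h : pr q i = pr q j) : i = j := by
  have := Nat.nth_injective Nat.infinite_setOfPred_prime h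
  omega

lemma le_pr (q i : ℕ) : q ≤ pr q i := by
  have h := (Nat.nth_strictMono Nat.infinite_setOfPred_prime).le_apply (x := q + i)
  exact (Nat.le_add_right _ _).trans h

/-- a progression of common difference `d` starting at a multiple of the right kind hits every
prime -/
lemma exists_start (n q d : ℕ) :
    ∃ s, s < ∏ i ∈ range n, pr q i ∧ ∀ t, ∀ i < n,
      pr q i ∣ s + (∏ i ∈ range n, pr q i) * t + i * d := by
  classical
  have hne : ∀ i ∈ range n, pr q i ≠ 0 := fun i _ => (pr_prime q i).ne_zero
  have hcop : Set.Pairwise (range n : Set ℕ) (Function.onFun Nat.Coprime (pr q)) := by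
    intro i _ j _ hij
    rw [Function.onFun, Nat.coprime_primes (pr_prime q i) (pr_prime q j)]
    exact fun h => hij (pr_inj q h)
  set k := Nat.chineseRemainderOfFinset (fun i => (pr q i - 1) * (i * d)) (pr q) (range n) hne hcop
    with hk
  refine ⟨k, Nat.chineseRemainderOfFinset_lt_prod _ _ hne hcop, ?_⟩
  intro t i hi
  have h1 := k.2 i (Finset.mem_range.2 hi)
  have h2 : pr q i ∣ (∏ i ∈ range n, pr q i) * t :=
    Dvd.dvd.mul_right (Finset.dvd_prod_of_mem _ (Finset.mem_range.2 hi)) _
  have h3 : pr q i ∣ (k : ℕ) + i * d := by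
    have h4 : (k : ℕ) + i * d ≡ (pr q i - 1) * (i * d) + i * d [MOD pr q i] :=
      Nat.ModEq.add_right _ h1
    have h5 : (pr q i - 1) * (i * d) + i * d = pr q i * (i * d) := by
      have := (pr_prime q i).pos
      obtain ⟨c, hc⟩ : ∃ c, pr q i = c + 1 := ⟨pr q i - 1, by omega⟩
      rw [hc, Nat.add_sub_cancel]
      ring
    rw [h5] at h4
    exact (Nat.modEq_zero_iff_dvd.1 (h4.trans (Nat.modEq_zero_iff_dvd.2 (dvd_mul_right _ _))))
  have h6 : (k : ℕ) + (∏ i ∈ range n, pr q i) * t + i * d
      = ((k : ℕ) + i * d) + (∏ i ∈ range n, pr q i) * t := by ring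
  rw [h6]
  exact dvd_add h3 h2

end Pool.Agent.R98.Nib
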