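import Pool.Agent.R98.NibApply
import Pool.Agent.R98.Chain

/-!
# Packing progressions of fixed length: assembly
-/

set_option autoImplicit false

open Finset

namespace Pool.Agent.R98.Nib

lemma packs_of_start (n M : ℕ) (S : Finset ℕ) (p : ℕ → ℕ)
    (hp : ∀ d ∈ S, ∀ i < n, p d + i * d < M)
    (hdis : ∀ d ∈ S, ∀ e ∈ S, d ≠ e → ∀ i < n, ∀ j < n, p d + i * d ≠ p e + j * e) :
    Packs S (fun _ => n) M := by
  refine ⟨fun d => (p d : ℤ) + 1 - d, ?_, ?_⟩
  · intro d hd v hv
    have hv : v ∈ Icc 1 n := hv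
    rw [Finset.mem_Icc] at hv
    obtain ⟨w, rfl⟩ : ∃ w, v = w + 1 := ⟨v - 1, by omega⟩
    have h1 := hp d hd w (by omega)
    have h2 : (p d : ℤ) + w * d < M := by exact_mod_cast h1
    have h3 : (0 : ℤ) ≤ w * d := by positivity
    push_cast
    constructor
    · linarith
    · linarith
  · intro d hd e he hde v hv w hw heq
    have hv : v ∈ Icc 1 n := hv
    have hw : w ∈ Icc 1 n := hw
    rw [Finset.mem_Icc] at hv hw
    obtain ⟨v', rfl⟩ : ∃ v', v = v' + 1 := ⟨v - 1, by omega⟩
    obtain ⟨w', rfl⟩ : ∃ w', w = w' + 1 := ⟨w - 1, by omega⟩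
    apply hdis d hd e he hde v' (by omega) w' (by omega)
    push_cast at heq
    have h1 : (p d : ℤ) + v' * d = p e + w' * e := by linarith
    exact_mod_cast h1

lemma small (n h : ℕ) (hn : 1 ≤ n) (hh : 1 ≤ h) :
    Packs (Ico 1 (2 * h)) (fun _ => n) ((n ^ 2 + n) * (2 * h)) := by
  obtain ⟨p, h1, h2⟩ := greedy n (fun _ => range (n ^ 2 * (2 * h))) (Ico 1 (2 * h)) (by
    intro d _
    rw [Finset.card_range, Nat.card_Ico]
    apply Nat.mul_lt_mul_of_pos_left
    · omega
    · positivity)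
  apply packs_of_start n _ _ p _ h2
  intro d hd i hi
  have h3 := h1 d hd
  rw [Finset.mem_range] at h3
  rw [Finset.mem_Ico] at hd
  have h4 : i * d ≤ n * (2 * h) := Nat.mul_le_mul hi.le hd.2.le
  rw [Nat.add_mul]
  omega

theorem upper (n a : ℕ) (hn : 1 ≤ n) (ha : 1 ≤ a) :
    ∃ k₀ : ℕ, ∀ k, k₀ ≤ k →
      Packs (Icc 1 k) (fun _ => n) (n * k + (n ^ 2 + n) * (2 * (k / a))) := by
  classical
  set q := 8 * a ^ 2 * n ^ 2 with hq
  set Q := ∏ i ∈ range n, pr q i with hQ
  have hQ1 : 1 ≤ Q := Finset.prod_pos (fun i _ => (pr_prime q i).pos)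
  have hQ0 : (0 : ℝ) < Q := by exact_mod_cast hQ1
  have hn0 : (0 : ℝ) < n := by exact_mod_cast hn
  obtain ⟨h₀, hh₀⟩ := nib_apply n q a hn ha le_rfl (1 / (4 * n ^ 2 * Q)) (by positivity)
  refine ⟨a * (h₀ + 1) + 2 * Q, ?_⟩
  intro k hk
  have hk1 : 1 ≤ k := by omega
  have hk0 : (0 : ℝ) < k := by exact_mod_cast hk1
  have hh1 : h₀ + 1 ≤ k / a := by
    rw [Nat.le_div_iff_mul_le (by omega), Nat.mul_comm]
    omega
  obtain ⟨C, p, hCS, hC1, hC2, hC3⟩ := hh₀ (k / a) k (by omega) (Nat.div_le_self k a) (by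
    have h1 := Nat.div_add_mod k a
    have h2 := Nat.mod_lt k (show 0 < a by omega)
    have h3 : a * 1 ≤ a * (k / a) := Nat.mul_le_mul_left _ (by omega)
    have h4 : 2 * a * (k / a) = a * (k / a) + a * (k / a) := by ring
    omega)
  set h := k / a with hh
  -- the leftover differences
  set L := Icc (2 * h) k \ C with hL
  choose σ hσ1 hσ2 using exists_start n q
  have hLcard : (n : ℝ) ^ 2 * L.card < ((k / Q : ℕ) : ℝ) := by
    have h1 : (L.card : ℝ) = (Icc (2 * h) k).card - C.card := by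
      rw [hL, Finset.card_sdiff_of_subset hCS, Nat.cast_sub (Finset.card_le_card hCS)]
    have h2 : ((Icc (2 * h) k).card : ℝ) ≤ k := by
      rw [Nat.card_Icc]
      exact_mod_cast (by omega : k + 1 - 2 * h ≤ k)
    have h3 : (L.card : ℝ) ≤ 1 / (4 * n ^ 2 * Q) * k := by
      rw [h1]
      have h4 : (0 : ℝ) ≤ 1 / (4 * n ^ 2 * Q) := by positivity
      nlinarith
    have h5 : (n : ℝ) ^ 2 * L.card ≤ k / (4 * Q) := by
      calc (n : ℝ) ^ 2 * L.card ≤ (n : ℝ) ^ 2 * (1 / (4 * n ^ 2 * Q) * k) := by gcongr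
        _ = (k : ℝ) / (4 * Q) := by field_simp
    have h6 : (k : ℝ) / Q < ((k / Q : ℕ) : ℝ) + 1 := by
      rw [div_lt_iff₀ hQ0]
      have h7 := Nat.lt_div_mul_add (a := k) (show 0 < Q by omega)
      have h8 : (k : ℝ) < (k / Q : ℕ) * Q + Q := by exact_mod_cast h7
      linarith
    have h7 : (2 : ℝ) ≤ k / Q := by
      rw [le_div_iff₀ hQ0]
      exact_mod_cast (by omega : 2 * Q ≤ k)
    have h8 : (k : ℝ) / (4 * Q) = (k / Q) / 4 := by field_simp
    rw [h8] at h5
    linarith
  obtain ⟨p', hp1, hp2⟩ := greedy n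
    (fun d => (range (k / Q)).image (fun t => σ d + Q * t)) L (by
      intro d _
      rw [Finset.card_image_of_injective _ (by
        intro x y hxy
        simp only at hxy
        have h1 : Q * x = Q * y := by omega
        exact Nat.eq_of_mul_eq_mul_left (by omega) h1), Finset.card_range]
      have h1 : n ^ 2 * L.card < k / Q := by exact_mod_cast hLcard
      exact lt_of_le_of_lt (Nat.mul_le_mul_left _ (Nat.sub_le _ _)) h1)
  have hp3 : ∀ d ∈ L, p' d < k ∧ ∀ i < n, pr q i ∣ p' d + i * d := by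
    intro d hd
    obtain ⟨t, ht, h1⟩ := Finset.mem_image.1 (hp1 d hd)
    rw [Finset.mem_range] at ht
    rw [← h1]
    refine ⟨?_, fun i hi => hσ2 d t i hi⟩
    have h2 := hσ1 d
    have h3 : Q * (t + 1) ≤ Q * (k / Q) := Nat.mul_le_mul_left _ ht
    have h4 := Nat.mul_div_le k Q
    rw [Nat.mul_add, Nat.mul_one] at h3
    have h5 : σ d < Q := h2
    omega
  have hbig : Packs (Icc (2 * h) k) (fun _ => n) (n * k) := by
    apply packs_of_start n _ _ (fun d => if d ∈ C then p d else p' d)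
    · intro d hd i hi
      by_cases hdC : d ∈ C
      · simp only [hdC, if_true]
        exact (hC1 d hdC).2 i hi
      · simp only [hdC, if_false]
        have hdL : d ∈ L := Finset.mem_sdiff.2 ⟨hd, hdC⟩
        have h1 := (hp3 d hdL).1
        have h2 : (i + 1) * k ≤ n * k := Nat.mul_le_mul_right _ hi
        have h3 : i * d ≤ i * k := Nat.mul_le_mul_left _ (Finset.mem_Icc.1 hd).2
        rw [Nat.add_mul, one_mul] at h2
        omega
    · intro d hd e he hde i hi j hj
      by_cases hdC : d ∈ C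
      · by_cases heC : e ∈ C
        · simp only [hdC, heC, if_true]
          exact hC2 d hdC e heC hde i hi j hj
        · have heL : e ∈ L := Finset.mem_sdiff.2 ⟨he, heC⟩
          simp only [hdC, heC, if_true, if_false]
          intro heq
          apply (hC1 d hdC).1 i hi j hj
          rw [heq]
          exact (hp3 e heL).2 j hj
      · have hdL : d ∈ L := Finset.mem_sdiff.2 ⟨hd, hdC⟩
        by_cases heC : e ∈ C
        · simp only [hdC, heC, if_true, if_false]
          intro heq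
          apply (hC1 e heC).1 j hj i hi
          rw [← heq]
          exact (hp3 d hdL).2 i hi
        · have heL : e ∈ L := Finset.mem_sdiff.2 ⟨he, heC⟩
          simp only [hdC, heC, if_false]
          exact hp2 d hdL e heL hde i hi j hj
  have hun := hbig.union (small n h hn (by omega))
  apply hun.subset
  intro d hd
  rw [Finset.mem_Icc] at hd
  rw [Finset.mem_union, Finset.mem_Icc, Finset.mem_Ico]
  omega

end Pool.Agent.R98.Nib
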