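import Pool.Agent.R98.NibGreedy
import Pool.Agent.R98.NibFrac

/-!
# Packing progressions of fixed length: the edge weights
-/

set_option autoImplicit false

open Finset

namespace Pool.Agent.R98.Nib

/-- the progression with difference `d` starting at `s` avoids the reserved places -/
def good (n q d s : ℕ) : Prop := ∀ i < n, ∀ l < n, ¬ pr q l ∣ s + i * d

open Classical in
/-- the number of good starting points in a window -/
noncomputable def G (n q d c : ℕ) : ℕ := ((Ico (n * c) (n * c + d)).filter (good n q d)).card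

lemma card_mult (p X d : ℕ) (hp : 0 < p) :
    ((Ico X (X + d)).filter (fun x => p ∣ x)).card ≤ d / p + 2 := by
  have h1 : ((Ico X (X + d)).filter (fun x => p ∣ x)).card
      ≤ (Icc (X / p) ((X + d) / p)).card := by
    apply Finset.card_le_card_of_injOn (fun x => x / p)
    · intro x hx
      rw [Finset.mem_coe, Finset.mem_filter, Finset.mem_Ico] at hx
      rw [Finset.mem_coe, Finset.mem_Icc]
      exact ⟨Nat.div_le_div_right hx.1.1, Nat.div_le_div_right hx.1.2.le⟩
    · intro x hx y hy hxy
      rw [Finset.mem_coe, Finset.mem_filter] at hx hy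
      simp only at hxy
      rw [← Nat.div_mul_cancel hx.2, ← Nat.div_mul_cancel hy.2, hxy]
  have h2 : (X + d) / p ≤ X / p + d / p + 1 := by
    rw [Nat.div_le_iff_le_mul_add_pred hp]
    have h3 := Nat.div_add_mod X p
    have h4 := Nat.div_add_mod d p
    have h5 := Nat.mod_lt X hp
    have h6 := Nat.mod_lt d hp
    have h7 : p * (X / p + d / p + 1) = p * (X / p) + p * (d / p) + p := by ring
    omega
  rw [Nat.card_Icc] at h1
  have h8 := Nat.zero_le (d / p)
  have h9 := Nat.zero_le (X / p)
  have h10 := Nat.zero_le ((X + d) / p)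
  omega

lemma bad_count (n q d A a : ℕ) (ha : 1 ≤ a) (hn : 1 ≤ n) (hq : 8 * a ^ 2 * n ^ 2 ≤ q)
    (hd : 16 * a ^ 2 * n ^ 2 ≤ d) (P : ℕ → Prop) [DecidablePred P]
    (hP : ∀ s, P s → ∃ i < n, ∃ l < n, pr q l ∣ s + i * d) :
    4 * a ^ 2 * ((Ico A (A + d)).filter P).card ≤ d := by
  classical
  have hsub : (Ico A (A + d)).filter P ⊆ (range n ×ˢ range n).biUnion
      (fun t => (Ico A (A + d)).filter (fun s => pr q t.2 ∣ s + t.1 * d)) := by
    intro s hs
    rw [Finset.mem_filter] at hs
    obtain ⟨i, hi, l, hl, hdvd⟩ := hP s hs.2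
    rw [Finset.mem_biUnion]
    refine ⟨(i, l), ?_, ?_⟩
    · simp only [Finset.mem_product, Finset.mem_range]; exact ⟨hi, hl⟩
    · rw [Finset.mem_filter]; exact ⟨hs.1, hdvd⟩
  have hone : ∀ t ∈ range n ×ˢ range n,
      ((Ico A (A + d)).filter (fun s => pr q t.2 ∣ s + t.1 * d)).card ≤ d / q + 2 := by
    intro t _
    have h1 : ((Ico A (A + d)).filter (fun s => pr q t.2 ∣ s + t.1 * d)).card
        ≤ ((Ico (A + t.1 * d) (A + t.1 * d + d)).filter (fun x => pr q t.2 ∣ x)).card := by
      apply Finset.card_le_card_of_injOn (fun s => s + t.1 * d)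
      · intro s hs
        rw [Finset.mem_coe, Finset.mem_filter, Finset.mem_Ico] at hs
        rw [Finset.mem_coe, Finset.mem_filter, Finset.mem_Ico]
        refine ⟨⟨?_, ?_⟩, hs.2⟩
        · exact Nat.add_le_add_right hs.1.1 _
        · have := hs.1.2
          show s + t.1 * d < A + t.1 * d + d
          omega
      · intro x _ y _ hxy
        simpa using hxy
    refine h1.trans ((card_mult _ _ _ (pr_prime q t.2).pos).trans ?_)
    have hq0 : 0 < q := by
      have : 0 < 8 * a ^ 2 * n ^ 2 := by positivity
      omega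
    exact Nat.add_le_add_right (Nat.div_le_div_left (le_pr q t.2) hq0) _
  have h2 : ((Ico A (A + d)).filter P).card ≤ n ^ 2 * (d / q + 2) := by
    refine (Finset.card_le_card hsub).trans (Finset.card_biUnion_le.trans ?_)
    refine (Finset.sum_le_sum hone).trans (le_of_eq ?_)
    rw [Finset.sum_const, Finset.card_product, Finset.card_range, smul_eq_mul]
    ring
  have h3 : q * (d / q) ≤ d := Nat.mul_div_le _ _
  have h4 : 8 * a ^ 2 * n ^ 2 * (d / q) ≤ d := (Nat.mul_le_mul_right _ hq).trans h3
  calc 4 * a ^ 2 * ((Ico A (A + d)).filter P).card ≤ 4 * a ^ 2 * (n ^ 2 * (d / q + 2)) :=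
        Nat.mul_le_mul_left _ h2
    _ ≤ d := by
        have h5 : 2 * (4 * a ^ 2 * (n ^ 2 * (d / q + 2)))
          = 8 * a ^ 2 * n ^ 2 * (d / q) + 16 * a ^ 2 * n ^ 2 := by ring
        omega

/-- the fraction of good starting points -/
lemma G_ge (n q d c a : ℕ) (ha : 1 ≤ a) (hn : 1 ≤ n) (hq : 8 * a ^ 2 * n ^ 2 ≤ q)
    (hd : 16 * a ^ 2 * n ^ 2 ≤ d) :
    (1 - 1 / (4 * (a : ℝ) ^ 2)) * d ≤ G n q d c := by
  classical
  have h1 := bad_count n q d (n * c) a ha hn hq hd (fun s => ¬ good n q d s) (by
    intro s hs
    unfold good at hs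
    push Not at hs
    exact hs)
  have h2 := Finset.card_filter_add_card_filter_not (s := Ico (n * c) (n * c + d)) (good n q d)
  rw [Nat.card_Ico, Nat.add_sub_cancel_left] at h2
  have h3 : (G n q d c : ℝ) = d - ((Ico (n * c) (n * c + d)).filter
      (fun s => ¬ good n q d s)).card := by
    have h7 : (G n q d c : ℝ) + ((Ico (n * c) (n * c + d)).filter
      (fun s => ¬ good n q d s)).card = d := by exact_mod_cast h2
    linarith
  have h4 : (4 * (a : ℝ) ^ 2) * ((Ico (n * c) (n * c + d)).filter
      (fun s => ¬ good n q d s)).card ≤ d := by exact_mod_cast h1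
  have ha0 : (0 : ℝ) < 4 * (a : ℝ) ^ 2 := by
    have : (0 : ℝ) < a := by exact_mod_cast ha
    positivity
  have h5 : (((Ico (n * c) (n * c + d)).filter (fun s => ¬ good n q d s)).card : ℝ)
      ≤ d / (4 * (a : ℝ) ^ 2) := by
    rw [le_div_iff₀ ha0]
    linarith
  rw [h3]
  have h6 : (1 - 1 / (4 * (a : ℝ) ^ 2)) * d = d - d / (4 * (a : ℝ) ^ 2) := by ring
  rw [h6]
  linarith

open Classical in
/-- the weight of the progression with difference `d` starting at `s` -/
noncomputable def W (n q k d s : ℕ) : ℝ :=
  if good n q d s then ∑ c ∈ range (k - d + 1),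
    (if n * c ≤ s ∧ s < n * c + d then b k (c + d) * (d / G n q d c) else 0) else 0

lemma W_nonneg (n q k d s : ℕ) : 0 ≤ W n q k d s := by
  unfold W
  split_ifs
  · apply Finset.sum_nonneg
    intro c _
    split_ifs
    · have := b_nonneg k (c + d)
      positivity
    · exact le_rfl
  · exact le_rfl

lemma good_of_W_pos {n q k d s : ℕ} (h : 0 < W n q k d s) : good n q d s := by
  by_contra hc
  unfold W at h
  rw [if_neg hc] at h
  exact lt_irrefl _ h

/-- all the weights of one difference -/
lemma W_color (n q k d : ℕ) (hn : 1 ≤ n) (hd : 1 ≤ d) (hdk : d ≤ k)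
    (hG : ∀ c, 0 < G n q d c) : ∑ s ∈ range (n * k), W n q k d s = 1 := by
  classical
  have h1 : ∀ s ∈ range (n * k), W n q k d s = ∑ c ∈ range (k - d + 1),
      (if (n * c ≤ s ∧ s < n * c + d) ∧ good n q d s then b k (c + d) * (d / G n q d c) else 0) := by
    intro s _
    unfold W
    by_cases hg : good n q d s
    · rw [if_pos hg]
      apply Finset.sum_congr rfl
      intro c _
      simp only [hg, and_true]
    · rw [if_neg hg]
      simp only [hg, and_false, if_false, Finset.sum_const_zero]
  rw [Finset.sum_congr rfl h1, Finset.sum_comm]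
  have h2 : ∀ c ∈ range (k - d + 1), ∑ s ∈ range (n * k),
      (if (n * c ≤ s ∧ s < n * c + d) ∧ good n q d s then b k (c + d) * (d / G n q d c) else 0)
      = b k (c + d) * d := by
    intro c hc
    rw [Finset.mem_range] at hc
    rw [← Finset.sum_filter, Finset.sum_const, nsmul_eq_mul]
    have h3 : (range (n * k)).filter (fun s => (n * c ≤ s ∧ s < n * c + d) ∧ good n q d s)
        = (Ico (n * c) (n * c + d)).filter (good n q d) := by
      ext s
      simp only [Finset.mem_filter, Finset.mem_range, Finset.mem_Ico]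
      constructor
      · rintro ⟨_, h, h'⟩
        exact ⟨h, h'⟩
      · rintro ⟨h, h'⟩
        refine ⟨?_, h, h'⟩
        have h4 : n * c + n * d ≤ n * k := by
          rw [← Nat.mul_add]
          exact Nat.mul_le_mul_left _ (by omega)
        have h5 : 1 * d ≤ n * d := Nat.mul_le_mul_right _ hn
        omega
    rw [h3]
    change (G n q d c : ℝ) * _ = _
    have h4 : (0 : ℝ) < G n q d c := by exact_mod_cast hG c
    field_simp
  rw [Finset.sum_congr rfl h2, ← Finset.sum_mul, sum_color k d hd hdk]
  have : (0 : ℝ) < d := by exact_mod_cast hd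
  field_simp

/-- each weight is small -/
lemma W_le (n q k d s : ℕ) (hd : 1 ≤ d) (hdk : d ≤ k) (g : ℝ) (hg : 0 < g)
    (hG : ∀ c, g * d ≤ G n q d c) : W n q k d s ≤ 1 / (g * d) := by
  have hd0 : (0 : ℝ) < d := by exact_mod_cast hd
  unfold W
  split_ifs
  · calc _ ≤ ∑ c ∈ range (k - d + 1), b k (c + d) * (1 / g) := by
          apply Finset.sum_le_sum
          intro c _
          have h1 := b_nonneg k (c + d)
          split_ifs
          · apply mul_le_mul_of_nonneg_left _ h1
            have h2 := hG c
            have h3 : 0 < g * d := by positivity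
            rw [div_le_div_iff₀ (by linarith) hg]
            linarith
          · positivity
      _ = 1 / (g * d) := by
          rw [← Finset.sum_mul, sum_color k d hd hdk]
          field_simp
  · positivity

lemma card_hit (n k d c x : ℕ) (hn : 1 ≤ n) :
    ((range (n * k)).filter (fun s => (∃ i < n, s + i * d = x) ∧ n * c ≤ s ∧ s < n * c + d)).card
      ≤ if c ≤ x / n ∧ x / n < c + d then 1 else 0 := by
  classical
  split_ifs with h
  · rw [Finset.card_le_one]
    intro s hs t ht
    rw [Finset.mem_filter] at hs ht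
    obtain ⟨_, ⟨i, hi, hix⟩, h1, h2⟩ := hs
    obtain ⟨_, ⟨j, hj, hjx⟩, h3, h4⟩ := ht
    rcases Nat.lt_trichotomy i j with hij | hij | hij
    · exfalso
      have : (i + 1) * d ≤ j * d := Nat.mul_le_mul_right _ hij
      rw [Nat.add_mul, one_mul] at this
      omega
    · subst hij
      omega
    · exfalso
      have : (j + 1) * d ≤ i * d := Nat.mul_le_mul_right _ hij
      rw [Nat.add_mul, one_mul] at this
      omega
  · rw [Nat.le_zero, Finset.card_eq_zero, Finset.filter_eq_empty_iff]
    rintro s _ ⟨⟨i, hi, hix⟩, h1, h2⟩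
    apply h
    constructor
    · rw [Nat.le_div_iff_mul_le (by omega)]
      have : c * n = n * c := Nat.mul_comm _ _
      have h3 : 0 ≤ i * d := Nat.zero_le _
      omega
    · rw [Nat.div_lt_iff_lt_mul (by omega)]
      have h3 : (i + 1) * d ≤ n * d := Nat.mul_le_mul_right _ hi
      have h4 : (c + d) * n = n * c + n * d := by ring
      rw [Nat.add_mul, one_mul] at h3
      omega

/-- all the weights of one position -/
lemma W_pos (n q k h x : ℕ) (hn : 1 ≤ n) (hh : 1 ≤ h) (hhk : h ≤ k) (hx : x < n * k) (g : ℝ)
    (hg : 0 < g) (hG : ∀ d ∈ Icc (2 * h) k, ∀ c, g * d ≤ G n q d c)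
    (hgh : 1 - ((h : ℝ) / k) ^ 2 ≤ g) :
    ∑ d ∈ Icc (2 * h) k, ∑ s ∈ (range (n * k)).filter (fun s => ∃ i < n, s + i * d = x),
      W n q k d s ≤ 1 := by
  classical
  have hxn : x / n < k := by
    rw [Nat.div_lt_iff_lt_mul (by omega)]
    rwa [Nat.mul_comm]
  have h0 := load_le k h (x / n) hh hhk hxn
  have h1 : ∀ d ∈ Icc (2 * h) k, ∑ s ∈ (range (n * k)).filter (fun s => ∃ i < n, s + i * d = x),
      W n q k d s ≤ (1 / g) * ∑ c ∈ range (k - d + 1),
        (if c ≤ x / n ∧ x / n < c + d then b k (c + d) else 0) := by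
    intro d hd
    have hd' := Finset.mem_Icc.1 hd
    have hd1 : 1 ≤ d := by omega
    have hd0 : (0 : ℝ) < d := by exact_mod_cast hd1
    calc _ ≤ ∑ s ∈ (range (n * k)).filter (fun s => ∃ i < n, s + i * d = x),
          ∑ c ∈ range (k - d + 1), (if n * c ≤ s ∧ s < n * c + d then b k (c + d) * (1 / g)
            else 0) := by
          apply Finset.sum_le_sum
          intro s _
          unfold W
          have hnn : ∀ c ∈ range (k - d + 1), 0 ≤ (if n * c ≤ s ∧ s < n * c + d then
              b k (c + d) * (1 / g) else 0) := by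
            intro c _
            have := b_nonneg k (c + d)
            split_ifs <;> positivity
          split_ifs
          · apply Finset.sum_le_sum
            intro c _
            have h1 := b_nonneg k (c + d)
            split_ifs
            · apply mul_le_mul_of_nonneg_left _ h1
              have h2 := hG d hd c
              have h3 : 0 < g * d := by positivity
              rw [div_le_div_iff₀ (by linarith) hg]
              linarith
            · exact le_rfl
          · exact Finset.sum_nonneg hnn
      _ = ∑ c ∈ range (k - d + 1), ∑ s ∈ (range (n * k)).filter (fun s => ∃ i < n, s + i * d = x),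
          (if n * c ≤ s ∧ s < n * c + d then b k (c + d) * (1 / g) else 0) := Finset.sum_comm
      _ ≤ ∑ c ∈ range (k - d + 1), (1 / g) *
          (if c ≤ x / n ∧ x / n < c + d then b k (c + d) else 0) := by
          apply Finset.sum_le_sum
          intro c _
          rw [← Finset.sum_filter, Finset.filter_filter, Finset.sum_const, nsmul_eq_mul]
          have h2 := card_hit n k d c x hn
          have h3 := b_nonneg k (c + d)
          split_ifs at h2 ⊢ with h4
          · have h5 : (((range (n * k)).filter (fun s => (∃ i < n, s + i * d = x) ∧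
              n * c ≤ s ∧ s < n * c + d)).card : ℝ) ≤ 1 := by exact_mod_cast h2
            calc _ ≤ 1 * (b k (c + d) * (1 / g)) := by
                  apply mul_le_mul_of_nonneg_right h5
                  positivity
              _ = 1 / g * b k (c + d) := by ring
          · have h5 : ((range (n * k)).filter (fun s => (∃ i < n, s + i * d = x) ∧
              n * c ≤ s ∧ s < n * c + d)).card = 0 := by omega
            rw [h5]
            simp
      _ = _ := by rw [← Finset.mul_sum]
  calc _ ≤ ∑ d ∈ Icc (2 * h) k, (1 / g) * ∑ c ∈ range (k - d + 1),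
        (if c ≤ x / n ∧ x / n < c + d then b k (c + d) else 0) := Finset.sum_le_sum h1
    _ = (1 / g) * ∑ d ∈ Icc (2 * h) k, ∑ c ∈ range (k - d + 1),
        (if c ≤ x / n ∧ x / n < c + d then b k (c + d) else 0) := by rw [Finset.mul_sum]
    _ ≤ (1 / g) * g := by
        apply mul_le_mul_of_nonneg_left (h0.trans hgh)
        positivity
    _ = 1 := by field_simp

end Pool.Agent.R98.Nib
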