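import Pool.Agent.R98.Chain

/-!
# Ordering primes so that neighbouring ones satisfy no small relations
-/

set_option autoImplicit false

open Finset

namespace Pool.Agent.R98.Layer

open Pool.Agent.R98

/-- neighbours of `k` among the first `r` indices -/
def nb (m r k : ℕ) : Finset ℕ := (range r).filter (fun j => j ≠ k ∧ j ≤ k + m ∧ k ≤ j + m)

lemma mem_nb {m r k j : ℕ} : j ∈ nb m r k ↔ j < r ∧ j ≠ k ∧ j ≤ k + m ∧ k ≤ j + m := by
  rw [nb, Finset.mem_filter, Finset.mem_range]

lemma card_nb_le (m r k : ℕ) : (nb m r k).card ≤ 2 * m := by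
  have h1 : nb m r k ⊆ (Icc (k - m) (k + m)).erase k := by
    intro j hj
    rw [mem_nb] at hj
    rw [Finset.mem_erase, Finset.mem_Icc]
    omega
  refine (Finset.card_le_card h1).trans ?_
  rw [Finset.card_erase_of_mem (Finset.mem_Icc.2 (by omega)), Nat.card_Icc]
  omega

/-- no small relation among neighbours -/
def Free (m H r : ℕ) (q : ℕ → ℕ) : Prop :=
  ∀ k < r, ∀ c : ℕ → ℤ, ∀ c0 : ℤ, (∀ j, |c j| ≤ H) → |c0| ≤ H →
    (c0 ≠ 0 ∨ ∃ j ∈ nb m r k, c j ≠ 0) →
    (c0 : ZMod (q k)) + ∑ j ∈ nb m r k, (c j : ZMod (q k)) * ((q j : ZMod (q k)))⁻¹ ≠ 0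

/-- the integer form of a relation with a constant term -/
def rel0 {ι : Type} [Fintype ι] [DecidableEq ι] (q : ι → ℕ) (c0 : ℤ) (c : ι → ℤ) : ℤ :=
  c0 * ∏ i, (q i : ℤ) + rel q c

lemma rel0_ne_zero {ι : Type} [Fintype ι] [DecidableEq ι] (q : ι → ℕ) (hq : ∀ j, (q j).Prime)
    (hinj : Function.Injective q) (c0 : ℤ) (c : ι → ℤ) (hc : ∀ j, |c j| < q j)
    (hc0 : c0 ≠ 0 ∨ c ≠ 0) : rel0 q c0 c ≠ 0 := by
  by_cases h : c = 0
  · have h1 : c0 ≠ 0 := by
      rcases hc0 with h1 | h1
      · exact h1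
      · exact absurd h h1
    have h2 : rel q c = 0 := by
      rw [h]
      simp [rel]
    rw [rel0, h2, add_zero]
    apply mul_ne_zero h1
    rw [Finset.prod_ne_zero_iff]
    intro i _
    exact_mod_cast (hq i).ne_zero
  · obtain ⟨j, hj⟩ := Function.ne_iff.1 h
    simp only [Pi.zero_apply] at hj
    intro h0
    have hpr : Prime (q j : ℤ) := Nat.prime_iff_prime_int.1 (hq j)
    have h1 : (q j : ℤ) ∣ c j * ∏ i ∈ univ.erase j, (q i : ℤ) := by
      have h2 : c j * ∏ i ∈ univ.erase j, (q i : ℤ)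
          = - (c0 * ∏ i, (q i : ℤ)) - ∑ k ∈ univ.erase j, c k * ∏ i ∈ univ.erase k, (q i : ℤ) := by
        unfold rel0 rel at h0
        rw [← Finset.add_sum_erase _ _ (Finset.mem_univ j)] at h0
        linarith
      rw [h2]
      apply dvd_sub
      · apply (dvd_neg).2
        apply Dvd.dvd.mul_left
        exact Finset.dvd_prod_of_mem (fun i => (q i : ℤ)) (Finset.mem_univ j)
      · apply Finset.dvd_sum
        intro k hk
        apply Dvd.dvd.mul_left
        apply Finset.dvd_prod_of_mem (fun i => (q i : ℤ))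
        rw [Finset.mem_erase]
        exact ⟨(Finset.mem_erase.1 hk).1.symm, Finset.mem_univ _⟩
    rcases hpr.dvd_or_dvd h1 with h2 | h2
    · have h3 := Int.le_of_dvd (abs_pos.2 hj) ((dvd_abs _ _).2 h2)
      have := hc j
      omega
    · obtain ⟨i, hi, hdvd⟩ := (Prime.dvd_finsetProd_iff hpr _).1 h2
      have h3 : q j ∣ q i := by exact_mod_cast hdvd
      have h4 : q j = q i := (Nat.prime_dvd_prime_iff_eq (hq j) (hq i)).1 h3
      exact (Finset.mem_erase.1 hi).1 (hinj h4).symm

lemma abs_rel0_le {ι : Type} [Fintype ι] [DecidableEq ι] (q : ι → ℕ) (X H m : ℕ)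
    (hm : Fintype.card ι ≤ m) (hX : 1 ≤ X)
    (hq : ∀ j, q j ≤ X) (c0 : ℤ) (c : ι → ℤ) (hc0 : |c0| ≤ H) (hc : ∀ j, |c j| ≤ H) :
    |rel0 q c0 c| ≤ ((m : ℤ) + 1) * (H * (X : ℤ) ^ m) := by
  have hX' : (1 : ℤ) ≤ X := by exact_mod_cast hX
  have h1 := abs_rel_le q X H hq c hc
  have h2 : |c0 * ∏ i, (q i : ℤ)| ≤ H * (X : ℤ) ^ m := by
    rw [abs_mul]
    apply mul_le_mul hc0 _ (abs_nonneg _) (by positivity)
    rw [Finset.abs_prod]
    calc ∏ i, |(q i : ℤ)| ≤ ∏ i : ι, (X : ℤ) := by
          apply Finset.prod_le_prod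
          · intro i _; exact abs_nonneg _
          · intro i _
            rw [abs_of_nonneg (by positivity)]
            exact_mod_cast hq i
      _ = (X : ℤ) ^ (Fintype.card ι) := by rw [Finset.prod_const, Finset.card_univ]
      _ ≤ (X : ℤ) ^ m := pow_le_pow_right₀ hX' hm
  have h3 : (Fintype.card ι : ℤ) * (H * (X : ℤ) ^ (Fintype.card ι - 1)) ≤ (m : ℤ) * (H * (X : ℤ) ^ m) := by
    apply mul_le_mul (by exact_mod_cast hm) _ (by positivity) (by positivity)
    apply mul_le_mul_of_nonneg_left _ (by positivity)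
    exact pow_le_pow_right₀ hX' (by omega)
  unfold rel0
  calc |c0 * ∏ i, (q i : ℤ) + rel q c| ≤ |c0 * ∏ i, (q i : ℤ)| + |rel q c| := abs_add_le _ _
    _ ≤ H * (X : ℤ) ^ m + (m : ℤ) * (H * (X : ℤ) ^ m) := by linarith
    _ = _ := by ring

/-- a relation modulo a prime `p`, in integer form -/
lemma dvd_rel0 {ι : Type} [Fintype ι] [DecidableEq ι] {p : ℕ} (hp : p.Prime) (q : ι → ℕ)
    (hq : ∀ j, (q j).Prime) (hpq : ∀ j, q j ≠ p) (c0 : ℤ) (c : ι → ℤ)
    (h : (c0 : ZMod p) + ∑ j, (c j : ZMod p) * ((q j : ZMod p))⁻¹ = 0) :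
    (p : ℤ) ∣ rel0 q c0 c := by
  have : Fact p.Prime := ⟨hp⟩
  have hqne : ∀ j, (q j : ZMod p) ≠ 0 := by
    intro j h0
    rw [ZMod.natCast_eq_zero_iff] at h0
    exact hpq j ((Nat.prime_dvd_prime_iff_eq hp (hq j)).1 h0).symm
  rw [← ZMod.intCast_zmod_eq_zero_iff_dvd]
  unfold rel0 rel
  push_cast
  have h1 : ∀ j, (c j : ZMod p) * ∏ i ∈ univ.erase j, (q i : ZMod p)
      = (∏ i, (q i : ZMod p)) * ((c j : ZMod p) * ((q j : ZMod p))⁻¹) := by
    intro j
    rw [← Finset.mul_prod_erase _ _ (Finset.mem_univ j)]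
    have := hqne j
    field_simp
  rw [Finset.sum_congr rfl (fun j _ => h1 j), ← Finset.mul_sum]
  have h2 : (c0 : ZMod p) * ∏ i, (q i : ZMod p) + (∏ i, (q i : ZMod p)) *
      ∑ j, (c j : ZMod p) * ((q j : ZMod p))⁻¹
      = (∏ i, (q i : ZMod p)) * ((c0 : ZMod p) + ∑ j, (c j : ZMod p) * ((q j : ZMod p))⁻¹) := by
    ring
  rw [h2, h, mul_zero]

/-- bad primes, as modulus -/
lemma card_badA (S : Finset ℕ) (X₀ X₁ m H r : ℕ) (hS : ∀ p ∈ S, p.Prime ∧ X₀ < p ∧ p ≤ X₁)
    (hH : H ≤ X₀) (q : ℕ → ℕ) (hq : ∀ i < r, (q i).Prime ∧ X₀ < q i ∧ q i ≤ X₁)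
    (hinj : ∀ i < r, ∀ j < r, q i = q j → i = j)
    (hX : (2 * m + 1) * H * X₁ ^ (2 * m) < X₀ ^ (2 * m + 1)) (hX01 : X₀ ≤ X₁) :
    ∃ bad : Finset ℕ, bad.card ≤ (2 * H + 1) ^ (2 * m + 1) * (2 * m + 1) ∧
      ∀ p ∈ S, p ∉ bad → (∀ i < r, q i ≠ p) → ∀ c : ℕ → ℤ, ∀ c0 : ℤ, (∀ j, |c j| ≤ H) → |c0| ≤ H →
        (c0 ≠ 0 ∨ ∃ j ∈ nb m r r, c j ≠ 0) →
        (c0 : ZMod p) + ∑ j ∈ nb m r r, (c j : ZMod p) * ((q j : ZMod p))⁻¹ ≠ 0 := by
  classical
  let ι := {j : ℕ // j ∈ nb m r r}
  have hι : ∀ j : ι, (j : ℕ) < r := fun j => (mem_nb.1 j.2).1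
  have hcard : Fintype.card ι ≤ 2 * m := by rw [Fintype.card_coe]; exact card_nb_le m r r
  have hinj' : Function.Injective (fun j : ι => q j) := by
    intro a b hab
    exact Subtype.ext (hinj a (hι a) b (hι b) hab)
  have hX1 : 1 ≤ X₁ := by
    rcases Nat.eq_zero_or_pos X₁ with h | h
    · have : X₀ = 0 := by omega
      rw [this, zero_pow (by omega)] at hX
      omega
    · exact h
  refine ⟨((Icc (-(H : ℤ)) H) ×ˢ (Fintype.piFinset (fun _ : ι => Icc (-(H : ℤ)) H))).biUnion
    (fun c => if c.1 = 0 ∧ c.2 = 0 then ∅ else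
      S.filter (fun p : ℕ => (p : ℤ) ∣ rel0 (fun j : ι => q j) c.1 c.2)), ?_, ?_⟩
  · calc _ ≤ ∑ c ∈ (Icc (-(H : ℤ)) H) ×ˢ (Fintype.piFinset (fun _ : ι => Icc (-(H : ℤ)) H)),
          (2 * m + 1) := by
          refine Finset.card_biUnion_le.trans (Finset.sum_le_sum ?_)
          intro c hc
          rw [Finset.mem_product, Fintype.mem_piFinset] at hc
          split_ifs with h0
          · simp
          · have hc' : ∀ j, |c.2 j| ≤ H := by
              intro j
              have := Finset.mem_Icc.1 (hc.2 j)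
              exact abs_le.2 this
            have hc0' : |c.1| ≤ H := abs_le.2 (Finset.mem_Icc.1 hc.1)
            apply (card_primes_dvd_lt S X₀ (2 * m + 1) (fun p hp => ⟨(hS p hp).1, (hS p hp).2.1.le⟩)
              (rel0 (fun j : ι => q j) c.1 c.2) _ _ _).le
            · apply rel0_ne_zero (fun j : ι => q j) (fun j => (hq j (hι j)).1) hinj'
              · intro j
                have h1 := hc' j
                have h2 := (hq j (hι j)).2.1
                have h3 : (H : ℤ) < q j := by exact_mod_cast (by omega : H < q j)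
                omega
              · by_contra h
                push Not at h
                exact h0 h
            · have h1 := abs_rel0_le (fun j : ι => q j) X₁ H (2 * m) hcard hX1
                (fun j => (hq j (hι j)).2.2) c.1 c.2 hc0' hc'
              have h4 : (((2 * m : ℕ) : ℤ) + 1) * (H * (X₁ : ℤ) ^ (2 * m)) < (X₀ : ℤ) ^ (2 * m + 1) := by
                rw [← mul_assoc]
                exact_mod_cast hX
              exact lt_of_le_of_lt h1 h4
            · rcases Nat.eq_zero_or_pos X₀ with h | h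
              · rw [h, zero_pow (by omega)] at hX
                omega
              · exact h
      _ ≤ (2 * H + 1) ^ (2 * m + 1) * (2 * m + 1) := by
          rw [Finset.sum_const, smul_eq_mul, Finset.card_product, Fintype.card_piFinset,
            Finset.prod_const, Finset.card_univ]
          apply Nat.mul_le_mul_right
          have h1 : (Icc (-(H : ℤ)) H).card = 2 * H + 1 := by
            rw [Int.card_Icc]; omega
          rw [h1, ← Nat.pow_succ']
          apply Nat.pow_le_pow_right (by omega)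
          omega
  · intro p hp hbad hpq c c0 hc hc0 hne h0
    apply hbad
    rw [Finset.mem_biUnion]
    refine ⟨(c0, fun j : ι => c j), ?_, ?_⟩
    · rw [Finset.mem_product, Fintype.mem_piFinset]
      refine ⟨Finset.mem_Icc.2 (abs_le.1 hc0), fun j => Finset.mem_Icc.2 (abs_le.1 (hc j))⟩
    · rw [if_neg]
      · rw [Finset.mem_filter]
        refine ⟨hp, ?_⟩
        apply dvd_rel0 (hS p hp).1 (fun j : ι => q j) (fun j => (hq j (hι j)).1)
          (fun j => hpq j (hι j))
        rw [← h0]
        congr 1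
        rw [← Finset.sum_coe_sort (nb m r r)
          (fun j => (c j : ZMod p) * ((q j : ZMod p))⁻¹)]
      · simp only
        rintro ⟨h1, h2⟩
        rcases hne with h3 | ⟨j, hj, h3⟩
        · exact h3 h1
        · exact h3 (congrFun h2 ⟨j, hj⟩)

/-- bad primes, as a new member for an old modulus -/
lemma card_badB (S : Finset ℕ) (X₀ X₁ m H r : ℕ) (hS : ∀ p ∈ S, p.Prime ∧ X₀ < p ∧ p ≤ X₁)
    (hX : X₁ ≤ 2 * X₀ + 1) (q : ℕ → ℕ) (hq : ∀ i < r, (q i).Prime ∧ X₀ < q i ∧ q i ≤ X₁)
    (hH : H ≤ X₀) (k : ℕ) (hk : k < r) :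
    ∃ bad : Finset ℕ, bad.card ≤ (2 * H + 1) ^ (2 * m + 2) ∧
      ∀ p ∈ S, p ∉ bad → q k ≠ p → ∀ c : ℕ → ℤ, ∀ c0 cp : ℤ, (∀ j, |c j| ≤ H) → |c0| ≤ H →
        |cp| ≤ H → cp ≠ 0 →
        (c0 : ZMod (q k)) + ∑ j ∈ nb m r k, (c j : ZMod (q k)) * ((q j : ZMod (q k)))⁻¹
          + (cp : ZMod (q k)) * ((p : ZMod (q k)))⁻¹ ≠ 0 := by
  classical
  have : Fact (q k).Prime := ⟨(hq k hk).1⟩
  let ι := {j : ℕ // j ∈ nb m r k}
  have hcard : Fintype.card ι ≤ 2 * m := by rw [Fintype.card_coe]; exact card_nb_le m r k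
  refine ⟨((Icc (-(H : ℤ)) H) ×ˢ ((Icc (-(H : ℤ)) H) ×ˢ
    (Fintype.piFinset (fun _ : ι => Icc (-(H : ℤ)) H)))).biUnion
    (fun c => S.filter (fun p : ℕ => (p : ZMod (q k)) = - (c.1 : ZMod (q k)) *
      ((c.2.1 : ZMod (q k)) + ∑ j : ι, (c.2.2 j : ZMod (q k)) * ((q j : ZMod (q k)))⁻¹)⁻¹)), ?_, ?_⟩
  · calc _ ≤ ∑ c ∈ (Icc (-(H : ℤ)) H) ×ˢ ((Icc (-(H : ℤ)) H) ×ˢ
          (Fintype.piFinset (fun _ : ι => Icc (-(H : ℤ)) H))), 1 := by
          refine Finset.card_biUnion_le.trans (Finset.sum_le_sum ?_)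
          intro c _
          rw [Finset.card_le_one]
          intro p hp p' hp'
          rw [Finset.mem_filter] at hp hp'
          have h1 : (p : ZMod (q k)) = (p' : ZMod (q k)) := by rw [hp.2, hp'.2]
          rw [ZMod.natCast_eq_natCast_iff] at h1
          have h2 := hS p hp.1
          have h3 := hS p' hp'.1
          have h4 := hq k hk
          rcases Nat.lt_trichotomy p p' with hlt | heq | hlt
          · exfalso
            have h5 := (Nat.modEq_iff_dvd' hlt.le).1 h1
            have h6 := Nat.le_of_dvd (by omega) h5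
            omega
          · exact heq
          · exfalso
            have h5 := (Nat.modEq_iff_dvd' hlt.le).1 h1.symm
            have h6 := Nat.le_of_dvd (by omega) h5
            omega
      _ ≤ (2 * H + 1) ^ (2 * m + 2) := by
          rw [Finset.sum_const, smul_eq_mul, mul_one, Finset.card_product, Finset.card_product,
            Fintype.card_piFinset, Finset.prod_const, Finset.card_univ]
          have h1 : (Icc (-(H : ℤ)) H).card = 2 * H + 1 := by
            rw [Int.card_Icc]; omega
          rw [h1, ← Nat.pow_succ', ← Nat.pow_succ']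
          apply Nat.pow_le_pow_right (by omega)
          omega
  · intro p hp hbad hpq c c0 cp hc hc0 hcp hcp0 h0
    apply hbad
    rw [Finset.mem_biUnion]
    refine ⟨(cp, (c0, fun j : ι => c j)), ?_, ?_⟩
    · rw [Finset.mem_product, Finset.mem_product, Fintype.mem_piFinset]
      exact ⟨Finset.mem_Icc.2 (abs_le.1 hcp), Finset.mem_Icc.2 (abs_le.1 hc0),
        fun j => Finset.mem_Icc.2 (abs_le.1 (hc j))⟩
    · rw [Finset.mem_filter]
      refine ⟨hp, ?_⟩
      simp only
      have e1 : ∑ j : ι, (c j : ZMod (q k)) * ((q j : ZMod (q k)))⁻¹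
          = ∑ j ∈ nb m r k, (c j : ZMod (q k)) * ((q j : ZMod (q k)))⁻¹ :=
        Finset.sum_coe_sort (nb m r k) (fun j => (c j : ZMod (q k)) * ((q j : ZMod (q k)))⁻¹)
      rw [e1]
      set s : ZMod (q k) := (c0 : ZMod (q k)) +
        ∑ j ∈ nb m r k, (c j : ZMod (q k)) * ((q j : ZMod (q k)))⁻¹ with hs
      have hp0 : (p : ZMod (q k)) ≠ 0 := by
        intro h
        rw [ZMod.natCast_eq_zero_iff] at h
        exact hpq ((Nat.prime_dvd_prime_iff_eq (hq k hk).1 (hS p hp).1).1 h)
      have hcpne : (cp : ZMod (q k)) ≠ 0 := by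
        intro h
        rw [ZMod.intCast_zmod_eq_zero_iff_dvd] at h
        have h3 := Int.le_of_dvd (abs_pos.2 hcp0) ((dvd_abs _ _).2 h)
        have h4 : (H : ℤ) < q k := by exact_mod_cast (by have := (hq k hk).2.1; omega : H < q k)
        omega
      have hs0 : s ≠ 0 := by
        intro h
        rw [h, zero_add] at h0
        exact mul_ne_zero hcpne (inv_ne_zero hp0) h0
      have h5 : s * p = - cp := by
        have : (s + (cp : ZMod (q k)) * ((p : ZMod (q k)))⁻¹) * p = 0 := by rw [h0, zero_mul]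
        rw [add_mul, mul_assoc, inv_mul_cancel₀ hp0, mul_one] at this
        linear_combination this
      rw [← h5]
      field_simp

/-- **Ordering lemma.** -/
theorem exists_order (S : Finset ℕ) (X₀ X₁ m H : ℕ) (hS : ∀ p ∈ S, p.Prime ∧ X₀ < p ∧ p ≤ X₁)
    (hX2 : X₁ ≤ 2 * X₀ + 1) (hH : H ≤ X₀)
    (hX : (2 * m + 1) * H * X₁ ^ (2 * m) < X₀ ^ (2 * m + 1)) (hX01 : X₀ ≤ X₁) :
    ∀ r, r + ((2 * H + 1) ^ (2 * m + 1) * (2 * m + 1) + 2 * m * (2 * H + 1) ^ (2 * m + 2)) ≤ S.card →
    ∃ q : ℕ → ℕ, (∀ i < r, q i ∈ S) ∧ (∀ i < r, ∀ j < r, q i = q j → i = j) ∧ Free m H r q := by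
  classical
  set B := (2 * H + 1) ^ (2 * m + 1) * (2 * m + 1) + 2 * m * (2 * H + 1) ^ (2 * m + 2) with hB
  intro r
  induction r with
  | zero =>
    intro _
    exact ⟨0, by simp, by simp, fun k hk => by omega⟩
  | succ r ih =>
    intro hr
    obtain ⟨q, h1, h2, h3⟩ := ih (by omega)
    have hq : ∀ i < r, (q i).Prime ∧ X₀ < q i ∧ q i ≤ X₁ := fun i hi => hS _ (h1 i hi)
    obtain ⟨badA, hA1, hA2⟩ := card_badA S X₀ X₁ m H r hS hH q hq h2 hX hX01
    have hBex : ∀ k, ∃ bad : Finset ℕ, bad.card ≤ (2 * H + 1) ^ (2 * m + 2) ∧ (k < r →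
        ∀ p ∈ S, p ∉ bad → q k ≠ p → ∀ c : ℕ → ℤ, ∀ c0 cp : ℤ, (∀ j, |c j| ≤ H) → |c0| ≤ H →
        |cp| ≤ H → cp ≠ 0 →
        (c0 : ZMod (q k)) + ∑ j ∈ nb m r k, (c j : ZMod (q k)) * ((q j : ZMod (q k)))⁻¹
          + (cp : ZMod (q k)) * ((p : ZMod (q k)))⁻¹ ≠ 0) := by
      intro k
      by_cases hk : k < r
      · obtain ⟨bad, hb1, hb2⟩ := card_badB S X₀ X₁ m H r hS hX2 q hq hH k hk
        exact ⟨bad, hb1, fun _ => hb2⟩
      · exact ⟨∅, by simp, fun h => absurd h hk⟩
    choose badB hB1 hB2 using hBex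
    set bad := badA ∪ (nb m r r).biUnion badB with hbad
    have hbadc : bad.card ≤ B := by
      refine (Finset.card_union_le _ _).trans ?_
      rw [hB]
      apply Nat.add_le_add hA1
      refine Finset.card_biUnion_le.trans ?_
      calc ∑ k ∈ nb m r r, (badB k).card ≤ ∑ k ∈ nb m r r, (2 * H + 1) ^ (2 * m + 2) :=
            Finset.sum_le_sum fun k _ => hB1 k
        _ = (nb m r r).card * (2 * H + 1) ^ (2 * m + 2) := by
            rw [Finset.sum_const, smul_eq_mul]
        _ ≤ 2 * m * (2 * H + 1) ^ (2 * m + 2) := Nat.mul_le_mul_right _ (card_nb_le m r r)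
    have hex : ∃ p ∈ S, p ∉ (range r).image q ∧ p ∉ bad := by
      by_contra hcon
      push Not at hcon
      have h5 : S ⊆ (range r).image q ∪ bad := by
        intro p hp
        rw [Finset.mem_union]
        by_cases hpi : p ∈ (range r).image q
        · exact Or.inl hpi
        · exact Or.inr (hcon p hp hpi)
      have h6 := Finset.card_le_card h5
      have h7 := Finset.card_union_le ((range r).image q) bad
      have h8 : ((range r).image q).card ≤ r := by
        refine Finset.card_image_le.trans ?_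
        rw [Finset.card_range]
      omega
    obtain ⟨p, hpS, hpi, hpb⟩ := hex
    have hpq : ∀ i < r, q i ≠ p := by
      intro i hi h
      apply hpi
      rw [Finset.mem_image]
      exact ⟨i, Finset.mem_range.2 hi, h⟩
    rw [hbad, Finset.mem_union] at hpb
    push Not at hpb
    have hup : ∀ j < r, Function.update q r p j = q j := fun j hj =>
      Function.update_of_ne (by omega) _ _
    refine ⟨Function.update q r p, ?_, ?_, ?_⟩
    · intro i hi
      by_cases hik : i = r
      · subst hik; simpa using hpS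
      · rw [Function.update_of_ne hik]; exact h1 i (by omega)
    · intro i hi j hj hij
      by_cases hik : i = r
      · by_cases hjk : j = r
        · omega
        · subst hik
          rw [Function.update_self, Function.update_of_ne hjk] at hij
          exact absurd hij.symm (hpq j (by omega))
      · by_cases hjk : j = r
        · subst hjk
          rw [Function.update_self, Function.update_of_ne hik] at hij
          exact absurd hij (hpq i (by omega))
        · rw [Function.update_of_ne hjk, Function.update_of_ne hik] at hij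
          exact h2 i (by omega) j (by omega) hij
    · intro k hk c c0 hc hc0 hne
      by_cases hkr : k = r
      · subst hkr
        rw [Function.update_self]
        have e1 : nb m (k + 1) k = nb m k k := by
          ext j
          rw [mem_nb, mem_nb]
          omega
        rw [e1] at hne ⊢
        have e2 : ∑ j ∈ nb m k k, (c j : ZMod p) * (((Function.update q k p j : ℕ) : ZMod p))⁻¹
            = ∑ j ∈ nb m k k, (c j : ZMod p) * ((q j : ZMod p))⁻¹ := by
          apply Finset.sum_congr rfl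
          intro j hj
          rw [hup j (mem_nb.1 hj).1]
        rw [e2]
        exact hA2 p hpS hpb.1 hpq c c0 hc hc0 hne
      · have hkr' : k < r := by omega
        have e0 : Function.update q r p k = q k := hup k hkr'
        by_cases hkm : r ≤ k + m
        · have e1 : nb m (r + 1) k = insert r (nb m r k) := by
            ext j
            rw [Finset.mem_insert, mem_nb, mem_nb]
            omega
          have hnot : r ∉ nb m r k := by
            rw [mem_nb]
            omega
          rw [e1] at hne ⊢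
          rw [Finset.sum_insert hnot]
          by_cases hcr : c r = 0
          · rw [hcr]
            intro h0
            have hne' : c0 ≠ 0 ∨ ∃ j ∈ nb m r k, c j ≠ 0 := by
              rcases hne with h | ⟨j, hj, h⟩
              · exact Or.inl h
              · rcases Finset.mem_insert.1 hj with h' | h'
                · rw [h'] at h
                  exact absurd hcr h
                · exact Or.inr ⟨j, h', h⟩
            apply h3 k hkr' c c0 hc hc0 hne'
            rw [e0] at h0
            rw [← h0]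
            congr 1
            rw [Int.cast_zero, zero_mul, zero_add]
            apply Finset.sum_congr rfl
            intro j hj
            rw [hup j (mem_nb.1 hj).1]
          · intro h0
            have hkB : p ∉ badB k := by
              intro h
              apply hpb.2
              rw [Finset.mem_biUnion]
              refine ⟨k, ?_, h⟩
              rw [mem_nb]
              omega
            apply hB2 k hkr' p hpS hkB (hpq k hkr') c c0 (c r) hc hc0 (hc r) hcr
            rw [e0, Function.update_self] at h0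
            rw [← h0]
            have e2 : ∑ j ∈ nb m r k, (c j : ZMod (q k)) *
                (((Function.update q r p j : ℕ) : ZMod (q k)))⁻¹
                = ∑ j ∈ nb m r k, (c j : ZMod (q k)) * ((q j : ZMod (q k)))⁻¹ := by
              apply Finset.sum_congr rfl
              intro j hj
              rw [hup j (mem_nb.1 hj).1]
            rw [e2]
            ring
        · have e1 : nb m (r + 1) k = nb m r k := by
            ext j
            rw [mem_nb, mem_nb]
            omega
          rw [e1] at hne ⊢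
          rw [e0]
          intro h0
          apply h3 k hkr' c c0 hc hc0 hne
          rw [← h0]
          congr 1
          apply Finset.sum_congr rfl
          intro j hj
          rw [hup j (mem_nb.1 hj).1]

end Pool.Agent.R98.Layer
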