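import Mathlib

set_option autoImplicit false

/-! Cut decomposition: a linear functional bounded on cut vectors by the weighted total variation
is bounded on all vectors. -/

namespace Pool.Agent.R98.VX

open Finset

variable {ι : Type} [Fintype ι] [DecidableEq ι]

/-- The linear forms `f i - f j` and `f i`. -/
def ell : (ι × ι) ⊕ ι → ((ι → ℝ) →ₗ[ℝ] ℝ)
  | Sum.inl p => (LinearMap.proj p.1 : (ι → ℝ) →ₗ[ℝ] ℝ) - (LinearMap.proj p.2 : (ι → ℝ) →ₗ[ℝ] ℝ)
  | Sum.inr i => (LinearMap.proj i : (ι → ℝ) →ₗ[ℝ] ℝ)

theorem ell_inl (p : ι × ι) (f : ι → ℝ) : ell (Sum.inl p) f = f p.1 - f p.2 := rfl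

theorem ell_inr (i : ι) (f : ι → ℝ) : ell (Sum.inr i) f = f i := rfl

/-- weighted total variation -/
noncomputable def tv (q : (ι × ι) ⊕ ι → ℝ) (f : ι → ℝ) : ℝ := ∑ e, q e * |ell e f|

/-- indicator vector -/
def ind (T : Finset ι) : ι → ℝ := fun i => if i ∈ T then 1 else 0

theorem edge_split (f : ι → ℝ) (hf : ∀ i, 0 ≤ f i) (T : Finset ι) (hT : ∀ i, i ∉ T → f i = 0)
    (t : ℝ) (htT : ∀ i ∈ T, t ≤ f i) (e : (ι × ι) ⊕ ι) :
    |ell e f| = t * |ell e (ind T)| + |ell e (f - t • ind T)| := by
  rcases e with ⟨i, j⟩ | i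
  · rw [ell_inl, ell_inl, ell_inl]
    simp only [ind, Pi.sub_apply, Pi.smul_apply, smul_eq_mul]
    by_cases hi : i ∈ T <;> by_cases hj : j ∈ T
    · simp only [hi, hj, if_true]
      rw [show f i - t * 1 - (f j - t * 1) = f i - f j by ring]
      simp
    · simp only [hi, hj, if_true, if_false]
      rw [hT j hj]
      have h1 := htT i hi
      have h2 := hf i
      rw [show f i - t * 1 - (0 - t * 0) = f i - t by ring, abs_of_nonneg (by linarith : 0 ≤ f i - t),
        sub_zero, abs_of_nonneg h2]
      norm_num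
    · simp only [hi, hj, if_true, if_false]
      rw [hT i hi]
      have h1 := htT j hj
      have h2 := hf j
      rw [show 0 - t * 0 - (f j - t * 1) = -(f j - t) by ring, abs_neg,
        abs_of_nonneg (by linarith : 0 ≤ f j - t), zero_sub, abs_neg, abs_of_nonneg h2]
      norm_num
    · simp only [hi, hj, if_false]
      rw [hT i hi, hT j hj]
      norm_num
  · rw [ell_inr, ell_inr, ell_inr]
    simp only [ind, Pi.sub_apply, Pi.smul_apply, smul_eq_mul]
    by_cases hi : i ∈ T
    · simp only [hi, if_true]
      have h1 := htT i hi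
      have h2 := hf i
      rw [abs_of_nonneg h2, show f i - t * 1 = f i - t by ring,
        abs_of_nonneg (by linarith : 0 ≤ f i - t)]
      norm_num
    · simp only [hi, if_false]
      rw [hT i hi]
      norm_num

theorem coarea_nonneg (q : (ι × ι) ⊕ ι → ℝ) (Φ : (ι → ℝ) →ₗ[ℝ] ℝ)
    (hΦ : ∀ T : Finset ι, Φ (ind T) ≤ tv q (ind T)) (k : ℕ) :
    ∀ f : ι → ℝ, (∀ i, 0 ≤ f i) → (univ.filter (fun i => f i ≠ 0)).card = k → Φ f ≤ tv q f := by
  induction k using Nat.strong_induction_on with
  | _ k ih =>
    intro f hf hk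
    set T := univ.filter (fun i => f i ≠ 0) with hT
    rcases T.eq_empty_or_nonempty with h | h
    · have hf0 : f = 0 := by
        funext i
        by_contra hne
        have : i ∈ T := by rw [hT, mem_filter]; exact ⟨mem_univ _, hne⟩
        rw [h] at this
        exact notMem_empty i this
      subst hf0
      rw [map_zero]
      unfold tv
      simp
    · obtain ⟨i0, hi0, hmin⟩ := exists_min_image T f h
      set t := f i0 with ht
      have hi0' : f i0 ≠ 0 := (mem_filter.mp hi0).2
      have ht0 : 0 < t := lt_of_le_of_ne (hf i0) (Ne.symm hi0')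
      have hout : ∀ i, i ∉ T → f i = 0 := by
        intro i hi
        by_contra hne
        exact hi (by rw [hT, mem_filter]; exact ⟨mem_univ _, hne⟩)
      set f' := f - t • ind T with hf'
      have hf'v : ∀ i, f' i = if i ∈ T then f i - t else 0 := by
        intro i
        rw [hf']
        simp only [ind, Pi.sub_apply, Pi.smul_apply, smul_eq_mul]
        by_cases hi : i ∈ T
        · simp [hi]
        · simp [hi, hout i hi]
      have hf'0 : ∀ i, 0 ≤ f' i := by
        intro i
        rw [hf'v i]
        split_ifs with hi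
        · have := hmin i hi
          linarith
        · exact le_rfl
      have hlt : (univ.filter (fun i => f' i ≠ 0)).card < k := by
        rw [← hk]
        apply card_lt_card
        rw [ssubset_iff_of_subset]
        · refine ⟨i0, hi0, ?_⟩
          rw [mem_filter]
          rintro ⟨_, h2⟩
          apply h2
          rw [hf'v i0, if_pos hi0, ht, sub_self]
        · intro i hi
          rw [mem_filter] at hi
          by_contra hiT
          apply hi.2
          rw [hf'v i, if_neg hiT]
      have h1 := ih _ hlt f' hf'0 rfl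
      have h2 := hΦ T
      have h3 : Φ f = t * Φ (ind T) + Φ f' := by
        rw [hf', map_sub, map_smul, smul_eq_mul]
        ring
      have h4 : tv q f = t * tv q (ind T) + tv q f' := by
        unfold tv
        rw [mul_sum, ← sum_add_distrib]
        refine sum_congr rfl fun e _ => ?_
        rw [edge_split f hf T hout t hmin e]
        ring
      rw [h3, h4]
      have := mul_le_mul_of_nonneg_left h2 ht0.le
      linarith

theorem edge_conform (f : ι → ℝ) (e : (ι × ι) ⊕ ι) :
    |ell e f| = |ell e (fun i => max (f i) 0)| + |ell e (fun i => max (-f i) 0)| := by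
  have key : ∀ a b : ℝ, |a - b| = |max a 0 - max b 0| + |max (-a) 0 - max (-b) 0| := by
    intro a b
    rcases le_total 0 a with ha | ha <;> rcases le_total 0 b with hb | hb
    · rw [max_eq_left ha, max_eq_left hb, max_eq_right (by linarith : -a ≤ 0),
        max_eq_right (by linarith : -b ≤ 0)]
      simp
    · rw [max_eq_left ha, max_eq_right hb, max_eq_right (by linarith : -a ≤ 0),
        max_eq_left (by linarith : 0 ≤ -b)]
      rw [abs_of_nonneg (by linarith : 0 ≤ a - b), sub_zero, abs_of_nonneg ha, zero_sub, neg_neg,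
        abs_of_nonpos hb]
      ring
    · rw [max_eq_right ha, max_eq_left hb, max_eq_left (by linarith : 0 ≤ -a),
        max_eq_right (by linarith : -b ≤ 0)]
      rw [abs_of_nonpos (by linarith : a - b ≤ 0), zero_sub, abs_neg, abs_of_nonneg hb, sub_zero,
        abs_neg, abs_of_nonpos ha]
      ring
    · rw [max_eq_right ha, max_eq_right hb, max_eq_left (by linarith : 0 ≤ -a),
        max_eq_left (by linarith : 0 ≤ -b)]
      rw [show -a - -b = -(a - b) by ring, abs_neg]
      simp
  rcases e with ⟨i, j⟩ | i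
  · rw [ell_inl, ell_inl, ell_inl]
    exact key (f i) (f j)
  · rw [ell_inr, ell_inr, ell_inr]
    have := key (f i) 0
    simpa using this

theorem coarea (q : (ι × ι) ⊕ ι → ℝ) (Φ : (ι → ℝ) →ₗ[ℝ] ℝ)
    (hΦ : ∀ T : Finset ι, Φ (ind T) ≤ tv q (ind T))
    (hΦ' : ∀ T : Finset ι, -Φ (ind T) ≤ tv q (ind T)) (f : ι → ℝ) : Φ f ≤ tv q f := by
  have h1 := coarea_nonneg q Φ hΦ _ (fun i => max (f i) 0) (fun i => le_max_right _ _) rfl
  have h2 := coarea_nonneg q (-Φ) (fun T => by simpa using hΦ' T) _ (fun i => max (-f i) 0)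
    (fun i => le_max_right _ _) rfl
  have h3 : f = (fun i => max (f i) 0) - (fun i => max (-f i) 0) := by
    funext i
    simp only [Pi.sub_apply]
    rcases le_total 0 (f i) with h | h
    · rw [max_eq_left h, max_eq_right (by linarith : -f i ≤ 0), sub_zero]
    · rw [max_eq_right h, max_eq_left (by linarith : 0 ≤ -f i)]
      ring
  have h4 : tv q f = tv q (fun i => max (f i) 0) + tv q (fun i => max (-f i) 0) := by
    unfold tv
    rw [← sum_add_distrib]
    refine sum_congr rfl fun e _ => ?_
    rw [edge_conform f e]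
    ring
  have h5 : Φ f = Φ (fun i => max (f i) 0) + (-Φ) (fun i => max (-f i) 0) := by
    nth_rewrite 1 [h3]
    rw [map_sub, LinearMap.neg_apply]
    ring
  rw [h4, h5]
  linarith

end Pool.Agent.R98.VX
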