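import Mathlib

set_option autoImplicit false

/-! Definitions: lattices, Voronoi cells, dual lattices and extension complexity. -/

namespace Pool.Agent.R98.VX

/-- The lattice `B ℤ^d`. -/
def lattice {d n : ℕ} (B : (Fin d → ℝ) →ₗ[ℝ] EuclideanSpace ℝ (Fin n)) :
    Set (EuclideanSpace ℝ (Fin n)) :=
  {x | ∃ z : Fin d → ℤ, x = B (fun i => (z i : ℝ))}

/-- The Voronoi cell of a lattice. -/
def VC {n : ℕ} (Λ : Set (EuclideanSpace ℝ (Fin n))) : Set (EuclideanSpace ℝ (Fin n)) :=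
  {x | x ∈ Submodule.span ℝ Λ ∧ ∀ z ∈ Λ, ‖x‖ ≤ ‖x - z‖}

/-- The dual lattice. -/
def dual {n : ℕ} (Λ : Set (EuclideanSpace ℝ (Fin n))) : Set (EuclideanSpace ℝ (Fin n)) :=
  {y | y ∈ Submodule.span ℝ Λ ∧ ∀ z ∈ Λ, ∃ k : ℤ, inner ℝ y z = (k : ℝ)}

/-- The set in `ℝ^k` described by `r` linear inequalities and `m` linear equations. -/
def Poly {k r m : ℕ} (A : Fin r → (Fin k → ℝ) →ₗ[ℝ] ℝ) (b : Fin r → ℝ)
    (C : Fin m → (Fin k → ℝ) →ₗ[ℝ] ℝ) (c : Fin m → ℝ) : Set (Fin k → ℝ) :=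
  {y | (∀ i, A i y ≤ b i) ∧ ∀ j, C j y = c j}

/-- `P` is a linear image of a polytope with at most `r` facets: of a bounded set of some `ℝ^k`
which is described by `r` linear inequalities and some linear equations. -/
def HasExtension {n : ℕ} (P : Set (EuclideanSpace ℝ (Fin n))) (r : ℕ) : Prop :=
  ∃ (k m : ℕ) (A : Fin r → (Fin k → ℝ) →ₗ[ℝ] ℝ) (b : Fin r → ℝ)
    (C : Fin m → (Fin k → ℝ) →ₗ[ℝ] ℝ) (c : Fin m → ℝ)
    (T : (Fin k → ℝ) →ₗ[ℝ] EuclideanSpace ℝ (Fin n)),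
    Bornology.IsBounded (Poly A b C c) ∧ T '' (Poly A b C c) = P

/-- The extension complexity. -/
noncomputable def xc {n : ℕ} (P : Set (EuclideanSpace ℝ (Fin n))) : ℕ :=
  sInf {r | HasExtension P r}

end Pool.Agent.R98.VX
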