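import Mathlib
import Pool.Agent.R98.VXDefs
import Pool.Agent.H575R2.Farkas
import Pool.Agent.H553R2.TSP.UD

set_option autoImplicit false

namespace Pool.Agent.R98.VX

open Finset

theorem ray_bounded {k : ℕ} {Q : Set (Fin k → ℝ)} (hQ : Bornology.IsBounded Q)
    (q y : Fin k → ℝ) (h : ∀ t : ℝ, 0 ≤ t → q + t • y ∈ Q) : y = 0 := by
  obtain ⟨R, hR⟩ := hQ.exists_norm_le
  by_contra hy
  have hpos : 0 < ‖y‖ := norm_pos_iff.mpr hy
  have hR0 : 0 ≤ R := (norm_nonneg _).trans (hR _ (h 0 le_rfl))
  set t : ℝ := (R + ‖q‖ + 1) / ‖y‖ with ht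
  have ht0 : 0 ≤ t := by
    apply div_nonneg _ hpos.le
    have := norm_nonneg q
    linarith
  have h1 := hR _ (h t ht0)
  have h2 : ‖t • y‖ ≤ ‖q + t • y‖ + ‖q‖ := by
    have : t • y = (q + t • y) - q := by abel
    calc ‖t • y‖ = ‖(q + t • y) - q‖ := by rw [← this]
      _ ≤ _ := norm_sub_le _ _
  rw [norm_smul, Real.norm_of_nonneg ht0, ht, div_mul_cancel₀ _ hpos.ne'] at h2
  linarith

theorem ext_lower {n k r : ℕ} (P : Set (EuclideanSpace ℝ (Fin n))) (h : HasExtension P r)
    (x : Finset (Fin k) → EuclideanSpace ℝ (Fin n)) (hx : ∀ a, x a ∈ P)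
    (φ : Finset (Fin k) → (EuclideanSpace ℝ (Fin n) →ₗ[ℝ] ℝ)) (β : Finset (Fin k) → ℝ)
    (hφ : ∀ b, ∀ y ∈ P, φ b y ≤ β b) (η : ℝ) (hη : 0 < η)
    (hs : ∀ a b, β b - φ b (x a) = η * (1 - ((a ∩ b).card : ℝ)) ^ 2) :
    (3 / 2 : ℝ) ^ k ≤ r + 2 := by
  classical
  obtain ⟨K, m, A, bb, C, c, T, hbd, him⟩ := h
  have hex : ∀ a, ∃ q, q ∈ Poly A bb C c ∧ T q = x a := by
    intro a
    have := hx a
    rw [← him] at this
    exact this
  choose q hq hTq using hex
  have key : ∀ b : Finset (Fin k), ∃ w : Fin (r + 1) → ℝ, (∀ l, 0 ≤ w l) ∧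
      ∀ a, β b - φ b (x a) = ∑ l : Fin r, w l.castSucc * (bb l - A l (q a)) + w (Fin.last r) := by
    intro b
    let pr : Finset (Fin k) → ((Finset (Fin k) → ℝ) →ₗ[ℝ] ℝ) := fun a => LinearMap.proj a
    let F : (Finset (Fin k) → ℝ) → ((Finset (Fin k) → ℝ) →ₗ[ℝ] ℝ) := fun v =>
      -(∑ a, v a • pr a)
    have hF : ∀ v z, F v z = -∑ a, z a * v a := by
      intro v z
      simp only [F, pr, LinearMap.neg_apply, LinearMap.sum_apply, LinearMap.smul_apply,
        LinearMap.proj_apply, smul_eq_mul]
      congr 1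
      exact Finset.sum_congr rfl fun a _ => mul_comm _ _
    let ℓ : Fin (r + 1) → ((Finset (Fin k) → ℝ) →ₗ[ℝ] ℝ) :=
      Fin.snoc (fun l => F (fun a => bb l - A l (q a))) (F (fun _ => 1))
    have hℓ1 : ∀ l : Fin r, ℓ l.castSucc = F (fun a => bb l - A l (q a)) := by
      intro l
      simp only [ℓ]
      exact Fin.snoc_castSucc (α := fun _ => (Finset (Fin k) → ℝ) →ₗ[ℝ] ℝ) _ _ _
    have hℓ2 : ℓ (Fin.last r) = F (fun _ => 1) := by
      simp only [ℓ]
      exact Fin.snoc_last (α := fun _ => (Finset (Fin k) → ℝ) →ₗ[ℝ] ℝ) _ _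
    obtain ⟨w, hw, hrep⟩ := H575R2.farkas_lin (r + 1) ℓ (F (fun a => β b - φ b (x a))) (by
      intro z hz
      rw [hF]
      set y : Fin K → ℝ := ∑ a, z a • q a with hy
      set s : ℝ := ∑ a, z a with hsdef
      have hs0 : 0 ≤ s := by
        have := hz (Fin.last r)
        rw [hℓ2, hF] at this
        simp only [mul_one] at this
        linarith
      have hA : ∀ l, A l y ≤ s * bb l := by
        intro l
        have h1 := hz l.castSucc
        rw [hℓ1, hF] at h1
        have h2 : ∑ a, z a * (bb l - A l (q a)) = s * bb l - A l y := by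
          rw [hy, map_sum, hsdef, Finset.sum_mul, ← Finset.sum_sub_distrib]
          refine Finset.sum_congr rfl fun a _ => ?_
          rw [map_smul, smul_eq_mul]
          ring
        linarith
      have hC : ∀ j, C j y = s * c j := by
        intro j
        rw [hy, map_sum, hsdef, Finset.sum_mul]
        refine Finset.sum_congr rfl fun a _ => ?_
        rw [map_smul, smul_eq_mul, (hq a).2 j]
      have hval : ∑ a, z a * (β b - φ b (x a)) = s * β b - φ b (T y) := by
        rw [hy, map_sum, map_sum, hsdef, Finset.sum_mul, ← Finset.sum_sub_distrib]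
        refine Finset.sum_congr rfl fun a _ => ?_
        rw [map_smul, map_smul, smul_eq_mul, hTq]
        ring
      rw [hval]
      rcases hs0.eq_or_lt with h0 | hpos
      · have hy0 : y = 0 := by
          apply ray_bounded hbd (q ∅) y
          intro t ht
          refine ⟨fun l => ?_, fun j => ?_⟩
          · have h1 := hA l
            have h2 := (hq ∅).1 l
            rw [← h0, zero_mul] at h1
            rw [map_add, map_smul, smul_eq_mul]
            have h3 := mul_nonpos_of_nonneg_of_nonpos ht h1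
            linarith
          · have h1 := hC j
            rw [← h0, zero_mul] at h1
            rw [map_add, map_smul, smul_eq_mul, h1, (hq ∅).2 j]
            ring
        rw [hy0, map_zero, map_zero, ← h0]
        simp
      · have hmem : s⁻¹ • y ∈ Poly A bb C c := by
          refine ⟨fun l => ?_, fun j => ?_⟩
          · rw [map_smul, smul_eq_mul, inv_mul_le_iff₀ hpos]
            exact hA l
          · rw [map_smul, smul_eq_mul, hC j, ← mul_assoc, inv_mul_cancel₀ hpos.ne', one_mul]
        have h1 := hφ b (T (s⁻¹ • y)) (by rw [← him]; exact ⟨_, hmem, rfl⟩)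
        rw [map_smul, map_smul, smul_eq_mul, inv_mul_le_iff₀ hpos] at h1
        linarith)
    refine ⟨w, hw, fun a => ?_⟩
    have h1 := hrep (Pi.single a 1)
    rw [Fin.sum_univ_castSucc, hF, hℓ2, hF] at h1
    simp_rw [hℓ1, hF] at h1
    have e1 : ∀ v : Finset (Fin k) → ℝ, ∑ b', (Pi.single a (1 : ℝ) : Finset (Fin k) → ℝ) b' * v b' =
        v a := by
      intro v
      rw [Finset.sum_eq_single a]
      · simp
      · intro b' _ hb'
        rw [Pi.single_eq_of_ne hb', zero_mul]
      · intro hb
        exact absurd (Finset.mem_univ a) hb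
    simp_rw [e1] at h1
    have h2 : ∑ l : Fin r, w l.castSucc * -(bb l - A l (q a)) =
        -∑ l : Fin r, w l.castSucc * (bb l - A l (q a)) := by
      rw [← Finset.sum_neg_distrib]
      exact Finset.sum_congr rfl fun l _ => by ring
    rw [h2] at h1
    linarith
  choose w hw hrep using key
  have hb := Pool.Agent.H553R2.TSP.ud_bound (k := k) (r := r + 1)
    (fun a => Fin.snoc (fun l => bb l - A l (q a)) 1) (fun l b => w b l / η) (fun _ => 0)
    (by
      intro a l
      refine Fin.lastCases ?_ (fun j => ?_) l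
      · simp
      · simp only [Fin.snoc_castSucc]
        have := (hq a).1 j
        linarith)
    (fun l b => div_nonneg (hw b l) hη.le) (fun _ => le_rfl)
    (by
      intro a b _
      rw [Fin.sum_univ_castSucc]
      simp only [Fin.snoc_castSucc, Fin.snoc_last, add_zero]
      have h1 := hs a b
      rw [hrep b a] at h1
      have h2 : (1 - ((a ∩ b).card : ℝ)) ^ 2 =
          (∑ l : Fin r, w b l.castSucc * (bb l - A l (q a)) + w b (Fin.last r)) / η := by
        rw [h1]
        field_simp
      rw [h2, add_div, Finset.sum_div, one_mul]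
      congr 1
      exact Finset.sum_congr rfl fun l _ => by ring)
  push_cast at hb
  linarith

end Pool.Agent.R98.VX
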