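import Mathlib

set_option autoImplicit false

/-! The inverse of `1 + ε W` is a diagonally dominant M-matrix. -/

namespace Pool.Agent.R98.VX

open Finset Matrix

variable {ι : Type*} [Fintype ι] [DecidableEq ι]

theorem row_bound (W : Matrix ι ι ℝ) (c : ℝ) (hc : 0 ≤ c) (hW : ∀ i j, |W i j| ≤ c)
    (x : ι → ℝ) (M : ℝ) (hx : ∀ i, |x i| ≤ M) (i : ι) :
    |∑ j, W i j * x j| ≤ (Fintype.card ι : ℝ) * c * M := by
  refine (abs_sum_le_sum_abs _ _).trans ?_
  calc ∑ j, |W i j * x j| ≤ ∑ _j : ι, c * M := by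
        refine sum_le_sum fun j _ => ?_
        rw [abs_mul]
        exact mul_le_mul (hW i j) (hx j) (abs_nonneg _) hc
    _ = _ := by rw [sum_const, card_univ, nsmul_eq_mul]; ring

theorem exists_inverse (W : Matrix ι ι ℝ) (hsymm : ∀ i j, W i j = W j i)
    (hge : ∀ i j, i ≠ j → 1 ≤ W i j) (c : ℝ) (hle : ∀ i j, |W i j| ≤ c)
    (hc : 1 ≤ c) (ε : ℝ) (hε0 : 0 < ε) (hN : 1 ≤ Fintype.card ι)
    (hε : ε * (2 * (Fintype.card ι : ℝ) ^ 2 * c ^ 2) ≤ 1) :
    ∃ L : Matrix ι ι ℝ, (1 + ε • W) * L = 1 ∧ L * (1 + ε • W) = 1 ∧ (∀ i j, L i j = L j i) ∧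
      (∀ i j, i ≠ j → L i j ≤ 0) ∧ ∀ i, 0 ≤ ∑ j, L i j := by
  set N : ℝ := (Fintype.card ι : ℝ) with hNdef
  have hN1 : (1 : ℝ) ≤ N := by rw [hNdef]; exact_mod_cast hN
  have hc0 : 0 ≤ c := by linarith
  have hNc : 1 ≤ N * c := by nlinarith
  have hhalf : ε * (N * c) ≤ 1 / 2 := by
    have : ε * (N * c) * (2 * (N * c)) ≤ 1 := by
      calc ε * (N * c) * (2 * (N * c)) = ε * (2 * N ^ 2 * c ^ 2) := by ring
        _ ≤ 1 := hε
    nlinarith [mul_pos hε0 (by linarith : 0 < N * c)]
  set G : Matrix ι ι ℝ := 1 + ε • W with hG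
  have hGx : ∀ (x : ι → ℝ) i, (G *ᵥ x) i = x i + ε * ∑ j, W i j * x j := by
    intro x i
    rw [hG, add_mulVec, one_mulVec, smul_mulVec]
    simp [Matrix.mulVec, dotProduct]
  have : Nonempty ι := Fintype.card_pos_iff.mp (by omega)
  have hinj : ∀ x : ι → ℝ, G *ᵥ x = 0 → x = 0 := by
    intro x hx
    obtain ⟨i0, -, hi0⟩ := exists_max_image univ (fun i => |x i|) univ_nonempty
    have h1 := congrFun hx i0
    rw [hGx, Pi.zero_apply] at h1
    have h2 := row_bound W c hc0 hle x |x i0| (fun i => hi0 i (mem_univ i)) i0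
    have h3 : |x i0| ≤ ε * (N * c * |x i0|) := by
      have : x i0 = -(ε * ∑ j, W i0 j * x j) := by linarith
      calc |x i0| = |-(ε * ∑ j, W i0 j * x j)| := by rw [← this]
        _ = ε * |∑ j, W i0 j * x j| := by rw [abs_neg, abs_mul, abs_of_pos hε0]
        _ ≤ _ := mul_le_mul_of_nonneg_left h2 hε0.le
    have h4 : ε * (N * c * |x i0|) ≤ (1 / 2) * |x i0| := by
      calc ε * (N * c * |x i0|) = (ε * (N * c)) * |x i0| := by ring
        _ ≤ _ := mul_le_mul_of_nonneg_right hhalf (abs_nonneg _)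
    have h5 : |x i0| = 0 := by
      have := abs_nonneg (x i0)
      linarith
    funext i
    have := hi0 i (mem_univ i)
    rw [h5] at this
    exact abs_eq_zero.mp (le_antisymm this (abs_nonneg _))
  have hdet : G.det ≠ 0 := by
    intro h
    obtain ⟨v, hv, hv0⟩ := Matrix.exists_mulVec_eq_zero_iff.mpr h
    exact hv (hinj v hv0)
  have hunit : IsUnit G.det := isUnit_iff_ne_zero.mpr hdet
  have hGL : G * G⁻¹ = 1 := Matrix.mul_nonsing_inv G hunit
  have hLG : G⁻¹ * G = 1 := Matrix.nonsing_inv_mul G hunit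
  have hGsymm : Gᵀ = G := by
    ext i j
    rw [transpose_apply, hG, Matrix.add_apply, Matrix.add_apply, Matrix.smul_apply,
      Matrix.smul_apply, hsymm j i, one_apply, one_apply]
    by_cases h : i = j
    · subst h; rfl
    · rw [if_neg h, if_neg (Ne.symm h)]
  set L := G⁻¹ with hL
  have hLsymm : ∀ i j, L i j = L j i := by
    intro i j
    have h1 : Lᵀ = L := by rw [hL, transpose_nonsing_inv, hGsymm]
    have := congrFun (congrFun h1 j) i
    rw [transpose_apply] at this
    exact this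
  have hrec : ∀ i j, L i j = (if i = j then 1 else 0) - ε * ∑ k, W i k * L k j := by
    intro i j
    have h1 := congrFun (congrFun hGL i) j
    rw [one_apply] at h1
    have h2 : (G * L) i j = L i j + ε * ∑ k, W i k * L k j := by
      have := hGx (fun k => L k j) i
      rw [← this]
      rfl
    rw [h2] at h1
    linarith
  have hb : ∀ i j, |L i j| ≤ 2 := by
    intro i j
    obtain ⟨i0, -, hi0⟩ := exists_max_image univ (fun i => |L i j|) univ_nonempty
    have h2 := row_bound W c hc0 hle (fun k => L k j) |L i0 j| (fun i => hi0 i (mem_univ i)) i0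
    have h3 : |L i0 j| ≤ 1 + ε * (N * c * |L i0 j|) := by
      have e1 := hrec i0 j
      have e2 : |(if i0 = j then (1 : ℝ) else 0)| ≤ 1 := by split_ifs <;> norm_num
      have e3 : |ε * ∑ k, W i0 k * L k j| ≤ ε * (N * c * |L i0 j|) := by
        rw [abs_mul, abs_of_pos hε0]
        exact mul_le_mul_of_nonneg_left h2 hε0.le
      calc |L i0 j| = |(if i0 = j then (1 : ℝ) else 0) - ε * ∑ k, W i0 k * L k j| := by rw [← e1]
        _ ≤ |(if i0 = j then (1 : ℝ) else 0)| + |ε * ∑ k, W i0 k * L k j| := abs_sub _ _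
        _ ≤ _ := by linarith
    have h4 : ε * (N * c * |L i0 j|) ≤ (1 / 2) * |L i0 j| := by
      calc ε * (N * c * |L i0 j|) = (ε * (N * c)) * |L i0 j| := by ring
        _ ≤ _ := mul_le_mul_of_nonneg_right hhalf (abs_nonneg _)
    have := hi0 i (mem_univ i)
    linarith
  have hWL : ∀ k j, |∑ l, W k l * L l j| ≤ N * c * 2 := fun k j =>
    row_bound W c hc0 hle (fun l => L l j) 2 (fun l => hb l j) k
  refine ⟨L, hGL, hLG, hLsymm, ?_, ?_⟩
  · intro i j hij
    have h1 : L i j = -ε * W i j + ε ^ 2 * ∑ k, W i k * ∑ l, W k l * L l j := by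
      rw [hrec i j, if_neg hij]
      have h2 : ∑ k, W i k * L k j = W i j - ε * ∑ k, W i k * ∑ l, W k l * L l j := by
        have : ∀ k, W i k * L k j = (if k = j then W i k else 0) -
            ε * (W i k * ∑ l, W k l * L l j) := by
          intro k
          rw [hrec k j]
          split_ifs <;> ring
        simp_rw [this]
        rw [sum_sub_distrib, ← mul_sum]
        simp
      rw [h2]
      ring
    have h3 := row_bound W c hc0 hle (fun k => ∑ l, W k l * L l j) (N * c * 2)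
      (fun k => hWL k j) i
    have h4 := (le_abs_self _).trans h3
    have h5 : ε ^ 2 * ∑ k, W i k * ∑ l, W k l * L l j ≤ ε ^ 2 * (N * c * (N * c * 2)) :=
      mul_le_mul_of_nonneg_left h4 (by positivity)
    have h6 : ε ^ 2 * (N * c * (N * c * 2)) = ε * (ε * (2 * N ^ 2 * c ^ 2)) := by ring
    have h7 : ε * (ε * (2 * N ^ 2 * c ^ 2)) ≤ ε * 1 := mul_le_mul_of_nonneg_left hε hε0.le
    have h8 : ε * 1 ≤ ε * W i j := mul_le_mul_of_nonneg_left (hge i j hij) hε0.le
    rw [h1]
    linarith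
  · intro i
    have h1 : ∑ j, L i j = 1 - ε * ∑ j, ∑ k, W i k * L k j := by
      have : ∀ j, L i j = (if i = j then 1 else 0) - ε * ∑ k, W i k * L k j := fun j => hrec i j
      rw [sum_congr rfl fun j _ => this j, sum_sub_distrib, ← mul_sum]
      simp
    have h2 : ∑ j, ∑ k, W i k * L k j ≤ N * (N * c * 2) := by
      calc ∑ j, ∑ k, W i k * L k j ≤ ∑ _j : ι, N * c * 2 :=
            sum_le_sum fun j _ => (le_abs_self _).trans (hWL i j)
        _ = _ := by rw [sum_const, card_univ, nsmul_eq_mul]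
    have h3 : ε * ∑ j, ∑ k, W i k * L k j ≤ ε * (N * (N * c * 2)) :=
      mul_le_mul_of_nonneg_left h2 hε0.le
    have h4 : ε * (N * (N * c * 2)) ≤ ε * (2 * N ^ 2 * c ^ 2) := by
      apply mul_le_mul_of_nonneg_left _ hε0.le
      have : N * (N * c * 2) = 2 * N ^ 2 * c := by ring
      rw [this]
      apply mul_le_mul_of_nonneg_left _ (by positivity)
      nlinarith
    rw [h1]
    linarith

end Pool.Agent.R98.VX
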