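import Mathlib
import Pool.Agent.R98.VXDefs
import Pool.Agent.R98.VXCoarea

set_option autoImplicit false

/-! The lattice with Gram matrix `L`, its dual and their Voronoi cells. -/

namespace Pool.Agent.R98.VX

open Finset Matrix

variable {ι : Type} [Fintype ι] [DecidableEq ι]

/-- the weights of the cut representation of `L` -/
noncomputable def wt (L : Matrix ι ι ℝ) : (ι × ι) ⊕ ι → ℝ
  | Sum.inl p => if p.1 = p.2 then 0 else -L p.1 p.2 / 2
  | Sum.inr i => ∑ j, L i j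

theorem wt_nonneg (L : Matrix ι ι ℝ) (h1 : ∀ i j, i ≠ j → L i j ≤ 0)
    (h2 : ∀ i, 0 ≤ ∑ j, L i j) (e : (ι × ι) ⊕ ι) : 0 ≤ wt L e := by
  rcases e with ⟨i, j⟩ | i
  · simp only [wt]
    split_ifs with h
    · exact le_rfl
    · have := h1 i j h
      linarith
  · exact h2 i

theorem form_eq (L : Matrix ι ι ℝ) (hL : ∀ i j, L i j = L j i) (f g : ι → ℝ) :
    ∑ e, wt L e * (ell e f * ell e g) = f ⬝ᵥ (L *ᵥ g) := by
  have h0 : f ⬝ᵥ (L *ᵥ g) = ∑ i, ∑ j, L i j * f i * g j := by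
    simp only [dotProduct, mulVec, mul_sum]
    refine sum_congr rfl fun i _ => sum_congr rfl fun j _ => ?_
    ring
  rw [h0, Fintype.sum_sum_type, Fintype.sum_prod_type]
  have h1 : ∀ i j : ι, wt L (Sum.inl (i, j)) * (ell (Sum.inl (i, j)) f * ell (Sum.inl (i, j)) g) =
      (-(1 / 2) * (L i j * f i * g i) + -(1 / 2) * (L i j * f j * g j)) +
        ((1 / 2) * (L i j * f i * g j) + (1 / 2) * (L i j * f j * g i)) := by
    intro i j
    rw [ell_inl, ell_inl]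
    simp only [wt]
    split_ifs with h
    · subst h; ring
    · ring
  simp_rw [h1]
  have h2 : ∀ i : ι, wt L (Sum.inr i) * (ell (Sum.inr i) f * ell (Sum.inr i) g) =
      ∑ j, L i j * f i * g i := by
    intro i
    rw [ell_inr, ell_inr]
    simp only [wt]
    rw [sum_mul]
    refine sum_congr rfl fun j _ => by ring
  simp_rw [h2]
  simp_rw [sum_add_distrib, ← mul_sum]
  have h3 : ∑ i, ∑ j, L i j * f j * g j = ∑ i, ∑ j, L i j * f i * g i := by
    rw [sum_comm]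
    refine sum_congr rfl fun i _ => sum_congr rfl fun j _ => ?_
    rw [hL j i]
  have h4 : ∑ i, ∑ j, L i j * f j * g i = ∑ i, ∑ j, L i j * f i * g j := by
    rw [sum_comm]
    refine sum_congr rfl fun i _ => sum_congr rfl fun j _ => ?_
    rw [hL j i]
  rw [h3, h4]
  ring

/-- the realisation of the Gram matrix `L` -/
noncomputable def B0 {n : ℕ} (L : Matrix ι ι ℝ) (eE : ((ι × ι) ⊕ ι) ≃ Fin n) :
    (ι → ℝ) →ₗ[ℝ] EuclideanSpace ℝ (Fin n) :=
  (WithLp.linearEquiv 2 ℝ (Fin n → ℝ)).symm.toLinearMap ∘ₗ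
    LinearMap.pi (fun k => Real.sqrt (wt L (eE.symm k)) • ell (eE.symm k))

theorem B0_apply {n : ℕ} (L : Matrix ι ι ℝ) (eE : ((ι × ι) ⊕ ι) ≃ Fin n) (f : ι → ℝ) (k : Fin n) :
    B0 L eE f k = Real.sqrt (wt L (eE.symm k)) * ell (eE.symm k) f := rfl

theorem B0_inner {n : ℕ} (L : Matrix ι ι ℝ) (hL : ∀ i j, L i j = L j i)
    (h1 : ∀ i j, i ≠ j → L i j ≤ 0) (h2 : ∀ i, 0 ≤ ∑ j, L i j)
    (eE : ((ι × ι) ⊕ ι) ≃ Fin n) (f g : ι → ℝ) :
    inner ℝ (B0 L eE f) (B0 L eE g) = f ⬝ᵥ (L *ᵥ g) := by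
  rw [← form_eq L hL, PiLp.inner_apply]
  rw [← Equiv.sum_comp eE.symm]
  refine sum_congr rfl fun k _ => ?_
  rw [B0_apply, B0_apply]
  simp only [RCLike.inner_apply, conj_trivial]
  have := Real.mul_self_sqrt (wt_nonneg L h1 h2 (eE.symm k))
  calc _ = (Real.sqrt (wt L (eE.symm k)) * Real.sqrt (wt L (eE.symm k))) *
        (ell (eE.symm k) f * ell (eE.symm k) g) := by ring
    _ = _ := by rw [this]

/-! ### Abstract part -/

section Abstract

variable {n : ℕ} (B : (ι → ℝ) →ₗ[ℝ] EuclideanSpace ℝ (Fin n)) (L G : Matrix ι ι ℝ)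

/-- integer points -/
def lat0 (B : (ι → ℝ) →ₗ[ℝ] EuclideanSpace ℝ (Fin n)) : Set (EuclideanSpace ℝ (Fin n)) :=
  {x | ∃ z : ι → ℤ, x = B (fun i => (z i : ℝ))}

theorem B_eq_sum (f : ι → ℝ) : B f = ∑ i, f i • B (Pi.single i 1) := by
  conv_lhs => rw [← Finset.univ_sum_single f]
  rw [map_sum]
  refine sum_congr rfl fun i _ => ?_
  rw [← map_smul]
  congr 1
  ext j
  by_cases h : j = i
  · subst h; simp
  · simp [h]

theorem span_lat0 : Submodule.span ℝ (lat0 B) = LinearMap.range B := by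
  apply le_antisymm
  · rw [Submodule.span_le]
    rintro x ⟨z, rfl⟩
    exact ⟨_, rfl⟩
  · rintro x ⟨f, rfl⟩
    rw [B_eq_sum B f]
    apply Submodule.sum_mem
    intro i _
    apply Submodule.smul_mem
    apply Submodule.subset_span
    refine ⟨Pi.single i 1, ?_⟩
    congr 1
    ext j
    by_cases h : j = i
    · subst h; simp
    · simp [h]

theorem vc_cond (x z : EuclideanSpace ℝ (Fin n)) :
    ‖x‖ ≤ ‖x - z‖ ↔ inner ℝ x z ≤ inner ℝ z z / 2 := by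
  rw [← abs_of_nonneg (norm_nonneg x), ← abs_of_nonneg (norm_nonneg (x - z)), ← sq_le_sq,
    norm_sub_sq_real, real_inner_self_eq_norm_sq]
  constructor
  · intro h; linarith
  · intro h; linarith

theorem VC_lat0 (hB : ∀ f g, inner ℝ (B f) (B g) = f ⬝ᵥ (L *ᵥ g)) :
    VC (lat0 B) = B '' {ξ | ∀ z : ι → ℤ, ξ ⬝ᵥ (L *ᵥ (fun i => (z i : ℝ))) ≤
      ((fun i => (z i : ℝ)) ⬝ᵥ (L *ᵥ (fun i => (z i : ℝ)))) / 2} := by
  ext x
  unfold VC
  rw [span_lat0]
  constructor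
  · rintro ⟨⟨ξ, rfl⟩, h⟩
    refine ⟨ξ, ?_, rfl⟩
    intro z
    have := h _ ⟨z, rfl⟩
    rw [vc_cond, hB, hB] at this
    exact this
  · rintro ⟨ξ, h, rfl⟩
    refine ⟨⟨ξ, rfl⟩, ?_⟩
    rintro _ ⟨z, rfl⟩
    rw [vc_cond, hB, hB]
    exact h z

/-- the dual lattice vector of `g` -/
def yd (g : ι → ℝ) : EuclideanSpace ℝ (Fin n) := B (G *ᵥ g)

theorem inner_yd (hB : ∀ f g, inner ℝ (B f) (B g) = f ⬝ᵥ (L *ᵥ g)) (hLG : L * G = 1)
    (f g : ι → ℝ) : inner ℝ (B f) (yd B G g) = f ⬝ᵥ g := by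
  unfold yd
  rw [hB, Matrix.mulVec_mulVec, hLG, Matrix.one_mulVec]

theorem dual_lat0 (hB : ∀ f g, inner ℝ (B f) (B g) = f ⬝ᵥ (L *ᵥ g)) (hLG : L * G = 1)
    (hGL : G * L = 1) :
    dual (lat0 B) = {y | ∃ g : ι → ℤ, y = yd B G (fun i => (g i : ℝ))} := by
  ext y
  unfold dual
  rw [span_lat0]
  constructor
  · rintro ⟨⟨f, rfl⟩, h⟩
    have h1 : ∀ i, ∃ k : ℤ, (L *ᵥ f) i = k := by
      intro i
      obtain ⟨k, hk⟩ := h (B (Pi.single i 1)) ⟨Pi.single i 1, by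
        congr 1
        ext j
        by_cases h : j = i
        · subst h; simp
        · simp [h]⟩
      refine ⟨k, ?_⟩
      rw [← hk, real_inner_comm, hB]
      simp
    choose g hg using h1
    refine ⟨g, ?_⟩
    unfold yd
    congr 1
    have : (fun i => (g i : ℝ)) = L *ᵥ f := by
      funext i; rw [hg i]
    rw [this, Matrix.mulVec_mulVec, hGL, Matrix.one_mulVec]
  · rintro ⟨g, rfl⟩
    refine ⟨⟨_, rfl⟩, ?_⟩
    rintro _ ⟨z, rfl⟩
    refine ⟨∑ i, z i * g i, ?_⟩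
    rw [real_inner_comm, inner_yd B L G hB hLG]
    simp [dotProduct]

theorem span_dual (hB : ∀ f g, inner ℝ (B f) (B g) = f ⬝ᵥ (L *ᵥ g)) (hLG : L * G = 1)
    (hGL : G * L = 1) : Submodule.span ℝ (dual (lat0 B)) = LinearMap.range B := by
  rw [dual_lat0 B L G hB hLG hGL]
  apply le_antisymm
  · rw [Submodule.span_le]
    rintro x ⟨z, rfl⟩
    exact ⟨_, rfl⟩
  · rintro x ⟨f, rfl⟩
    have h1 : B f = (B ∘ₗ Matrix.mulVecLin G) (L *ᵥ f) := by
      rw [LinearMap.comp_apply, Matrix.mulVecLin_apply, Matrix.mulVec_mulVec, hGL,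
        Matrix.one_mulVec]
    rw [h1, B_eq_sum (B ∘ₗ Matrix.mulVecLin G)]
    apply Submodule.sum_mem
    intro i _
    apply Submodule.smul_mem
    apply Submodule.subset_span
    refine ⟨Pi.single i 1, ?_⟩
    rw [LinearMap.comp_apply, Matrix.mulVecLin_apply]
    unfold yd
    congr 2
    ext j
    by_cases h : j = i
    · subst h; simp
    · simp [h]

theorem VC_dual (hB : ∀ f g, inner ℝ (B f) (B g) = f ⬝ᵥ (L *ᵥ g)) (hLG : L * G = 1)
    (hGL : G * L = 1) :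
    VC (dual (lat0 B)) = B '' {ξ | ∀ g : ι → ℤ, ξ ⬝ᵥ (fun i => (g i : ℝ)) ≤
      ((fun i => (g i : ℝ)) ⬝ᵥ (G *ᵥ (fun i => (g i : ℝ)))) / 2} := by
  have hyy : ∀ g : ι → ℝ, inner ℝ (yd B G g) (yd B G g) = g ⬝ᵥ (G *ᵥ g) := by
    intro g
    have := inner_yd B L G hB hLG (G *ᵥ g) g
    rw [dotProduct_comm] at this
    exact this
  ext x
  unfold VC
  rw [span_dual B L G hB hLG hGL, dual_lat0 B L G hB hLG hGL]
  constructor
  · rintro ⟨⟨ξ, rfl⟩, h⟩
    refine ⟨ξ, ?_, rfl⟩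
    intro z
    have := h _ ⟨z, rfl⟩
    rw [vc_cond, inner_yd B L G hB hLG, hyy] at this
    exact this
  · rintro ⟨ξ, h, rfl⟩
    refine ⟨⟨ξ, rfl⟩, ?_⟩
    rintro _ ⟨z, rfl⟩
    rw [vc_cond, inner_yd B L G hB hLG, hyy]
    exact h z

end Abstract

end Pool.Agent.R98.VX
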