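import Mathlib

set_option autoImplicit false

/-! The combinatorial core: a weighted stable set problem with pair variables. -/

namespace Pool.Agent.R98.VX

open Finset

/-- Index set of the pair gadget. -/
abbrev V (n : ℕ) := Fin n × Fin n × Bool × Bool

/-- Two pair assignments agree on the common indices. -/
def Cons {n : ℕ} (v w : V n) : Prop :=
  (v.1 = w.1 → v.2.2.1 = w.2.2.1) ∧ (v.1 = w.2.1 → v.2.2.1 = w.2.2.2) ∧
    (v.2.1 = w.1 → v.2.2.2 = w.2.2.1) ∧ (v.2.1 = w.2.1 → v.2.2.2 = w.2.2.2)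

instance {n : ℕ} (v w : V n) : Decidable (Cons v w) := by unfold Cons; infer_instance

/-- A pair assignment which is consistent in itself. -/
def Good {n : ℕ} (v : V n) : Prop := v.1 = v.2.1 → v.2.2.1 = v.2.2.2

instance {n : ℕ} (v : V n) : Decidable (Good v) := by unfold Good; infer_instance

theorem Cons.symm {n : ℕ} {v w : V n} (h : Cons v w) : Cons w v := by
  obtain ⟨h1, h2, h3, h4⟩ := h
  exact ⟨fun e => (h1 e.symm).symm, fun e => (h3 e.symm).symm, fun e => (h2 e.symm).symm,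
    fun e => (h4 e.symm).symm⟩

noncomputable def lamb (n : ℕ) : ℝ := 3 * (n : ℝ) ^ 4

noncomputable def cc (n : ℕ) : ℝ := 3 * (n : ℝ) ^ 4 + 2

/-- indicator -/
noncomputable def ia {n : ℕ} (a : Finset (Fin n)) (i : Fin n) : ℝ := if i ∈ a then 1 else 0

noncomputable def bi (b : Bool) : ℝ := if b = true then 1 else 0

noncomputable def ua {n : ℕ} (a : Finset (Fin n)) (v : V n) : ℝ :=
  (if v.1 = v.2.1 then 2 * ia a v.1 * bi v.2.2.1 else 0) -
    ia a v.1 * ia a v.2.1 * bi v.2.2.1 * bi v.2.2.2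

noncomputable def uu {n : ℕ} (a : Finset (Fin n)) (v : V n) : ℝ :=
  if Good v then lamb n + ua a v else 0

noncomputable def ww {n : ℕ} (v w : V n) : ℝ :=
  if v = w then 0 else if Cons v w then 1 else cc n

noncomputable def gg {n : ℕ} (a : Finset (Fin n)) (S : Finset (V n)) : ℝ :=
  ∑ v ∈ S, uu a v - (1 / 2) * ∑ v ∈ S, ∑ w ∈ S, ww v w

noncomputable def Y0 (n : ℕ) : ℝ := (n : ℝ) ^ 2 * lamb n + 1 - (n : ℝ) ^ 2 * ((n : ℝ) ^ 2 - 1) / 2

theorem ia_nonneg {n : ℕ} (a : Finset (Fin n)) (i : Fin n) : 0 ≤ ia a i := by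
  unfold ia; split_ifs <;> norm_num

theorem ia_le {n : ℕ} (a : Finset (Fin n)) (i : Fin n) : ia a i ≤ 1 := by
  unfold ia; split_ifs <;> norm_num

theorem bi_nonneg (b : Bool) : 0 ≤ bi b := by
  unfold bi; split_ifs <;> norm_num

theorem bi_le (b : Bool) : bi b ≤ 1 := by
  unfold bi; split_ifs <;> norm_num

theorem ua_le {n : ℕ} (a : Finset (Fin n)) (v : V n) : ua a v ≤ 2 := by
  unfold ua ia bi
  split_ifs <;> norm_num

theorem ua_ge {n : ℕ} (a : Finset (Fin n)) (v : V n) : -1 ≤ ua a v := by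
  unfold ua ia bi
  split_ifs <;> norm_num

theorem lamb_nonneg (n : ℕ) : 0 ≤ lamb n := by unfold lamb; positivity

theorem lamb_ge {n : ℕ} (hn : 1 ≤ n) : 3 ≤ lamb n := by
  unfold lamb
  have : (1 : ℝ) ≤ (n : ℝ) := by exact_mod_cast hn
  have h := one_le_pow₀ this (n := 4)
  linarith

theorem uu_le {n : ℕ} (a : Finset (Fin n)) (v : V n) : uu a v ≤ cc n := by
  unfold uu cc
  have h1 := ua_le a v
  have h2 := lamb_nonneg n
  unfold lamb at *
  split_ifs
  · linarith
  · linarith

theorem uu_nonneg {n : ℕ} (hn : 1 ≤ n) (a : Finset (Fin n)) (v : V n) : 0 ≤ uu a v := by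
  unfold uu
  have h1 := ua_ge a v
  have h2 := lamb_ge hn
  split_ifs
  · linarith
  · linarith

theorem ww_nonneg {n : ℕ} (v w : V n) : 0 ≤ ww v w := by
  unfold ww cc
  split_ifs
  · norm_num
  · norm_num
  · positivity

theorem ww_le {n : ℕ} (v w : V n) : ww v w ≤ cc n := by
  unfold ww
  have : 2 ≤ cc n := by unfold cc; have : (0 : ℝ) ≤ 3 * (n : ℝ) ^ 4 := by positivity
                        linarith
  split_ifs
  · linarith
  · linarith
  · exact le_rfl

theorem ww_symm {n : ℕ} (v w : V n) : ww v w = ww w v := by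
  unfold ww
  by_cases h : v = w
  · subst h; rfl
  · rw [if_neg h, if_neg (Ne.symm h)]
    by_cases hc : Cons v w
    · rw [if_pos hc, if_pos hc.symm]
    · rw [if_neg hc, if_neg (fun h' => hc h'.symm)]

theorem ww_self {n : ℕ} (v : V n) : ww v v = 0 := by
  unfold ww; rw [if_pos rfl]

theorem gg_erase {n : ℕ} (a : Finset (Fin n)) (S : Finset (V n)) (v : V n) (hv : v ∈ S) :
    gg a S = gg a (S.erase v) + uu a v - ∑ w ∈ S.erase v, ww v w := by
  unfold gg
  have h1 : ∑ x ∈ S, uu a x = uu a v + ∑ x ∈ S.erase v, uu a x :=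
    (add_sum_erase S _ hv).symm
  have h2 : ∑ x ∈ S, ∑ w ∈ S, ww x w =
      ∑ w ∈ S, ww v w + ∑ x ∈ S.erase v, ∑ w ∈ S, ww x w :=
    (add_sum_erase S (fun x => ∑ w ∈ S, ww x w) hv).symm
  have h3 : ∀ x, ∑ w ∈ S, ww x w = ww x v + ∑ w ∈ S.erase v, ww x w := fun x =>
    (add_sum_erase S (fun w => ww x w) hv).symm
  have h4 : ∑ x ∈ S.erase v, ∑ w ∈ S, ww x w =
      ∑ x ∈ S.erase v, ww v x + ∑ x ∈ S.erase v, ∑ w ∈ S.erase v, ww x w := by
    rw [← sum_add_distrib]
    refine sum_congr rfl fun x _ => ?_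
    rw [h3 x, ww_symm x v]
  rw [h1, h2, h3 v, ww_self, h4]
  ring

/-- All members good and pairwise consistent. -/
def Stable {n : ℕ} (S : Finset (V n)) : Prop :=
  (∀ v ∈ S, Good v) ∧ ∀ v ∈ S, ∀ w ∈ S, v ≠ w → Cons v w

theorem slot_inj {n : ℕ} {S : Finset (V n)} (hS : Stable S) {v w : V n} (hv : v ∈ S) (hw : w ∈ S)
    (h1 : v.1 = w.1) (h2 : v.2.1 = w.2.1) : v = w := by
  by_contra hne
  have hc := hS.2 v hv w hw hne
  apply hne
  have e1 := hc.1 h1
  have e2 := hc.2.2.2 h2
  exact Prod.ext h1 (Prod.ext h2 (Prod.ext e1 e2))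

theorem stable_card {n : ℕ} {S : Finset (V n)} (hS : Stable S) : S.card ≤ n ^ 2 := by
  have h1 : (S.image (fun v : V n => (v.1, v.2.1))).card = S.card := by
    apply card_image_of_injOn
    intro v hv w hw h
    simp only [Prod.mk.injEq] at h
    exact slot_inj hS hv hw h.1 h.2
  rw [← h1]
  calc _ ≤ Fintype.card (Fin n × Fin n) := card_le_univ _
    _ = n ^ 2 := by rw [Fintype.card_prod, Fintype.card_fin, sq]

/-- the vertex of slot `p` determined by `b` -/
def vb {n : ℕ} (b : Finset (Fin n)) (p : Fin n × Fin n) : V n :=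
  (p.1, p.2, decide (p.1 ∈ b), decide (p.2 ∈ b))

theorem vb_inj {n : ℕ} (b : Finset (Fin n)) : Function.Injective (vb b) := by
  intro p q h
  unfold vb at h
  simp only [Prod.mk.injEq] at h
  exact Prod.ext h.1 h.2.1

theorem bi_decide {n : ℕ} (b : Finset (Fin n)) (i : Fin n) : bi (decide (i ∈ b)) = ia b i := by
  unfold bi ia
  by_cases h : i ∈ b <;> simp [h]

theorem ia_mul {n : ℕ} (a b : Finset (Fin n)) (i : Fin n) :
    ia a i * ia b i = if i ∈ a ∩ b then 1 else 0 := by
  unfold ia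
  by_cases h : i ∈ a <;> by_cases h' : i ∈ b <;> simp [h, h']

theorem sum_ia {n : ℕ} (a b : Finset (Fin n)) : ∑ i, ia a i * ia b i = ((a ∩ b).card : ℝ) := by
  simp_rw [ia_mul]
  rw [sum_boole]
  congr 2
  ext x
  simp

theorem sum_ua {n : ℕ} (a b : Finset (Fin n)) :
    ∑ p, ua a (vb b p) = 1 - (1 - ((a ∩ b).card : ℝ)) ^ 2 := by
  have h1 : ∀ p : Fin n × Fin n, ua a (vb b p) =
      (if p.1 = p.2 then 2 * (ia a p.1 * ia b p.1) else 0) -
        (ia a p.1 * ia b p.1) * (ia a p.2 * ia b p.2) := by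
    intro p
    unfold ua vb
    simp only
    rw [bi_decide, bi_decide]
    split_ifs with h
    · ring
    · ring
  simp_rw [h1]
  rw [sum_sub_distrib, Fintype.sum_prod_type, Fintype.sum_prod_type]
  have h2 : ∑ x : Fin n, ∑ y : Fin n, (if x = y then 2 * (ia a x * ia b x) else 0) =
      2 * ((a ∩ b).card : ℝ) := by
    rw [← sum_ia, mul_sum]
    refine sum_congr rfl fun x _ => ?_
    simp
  have h3 : ∑ x : Fin n, ∑ y : Fin n, (ia a x * ia b x) * (ia a y * ia b y) =
      ((a ∩ b).card : ℝ) ^ 2 := by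
    rw [sq]
    nth_rewrite 1 [← sum_ia]
    rw [sum_mul]
    refine sum_congr rfl fun x _ => ?_
    rw [← mul_sum, sum_ia]
  rw [h2, h3]
  ring

/-- the stable set determined by `b` -/
def Sb {n : ℕ} (b : Finset (Fin n)) : Finset (V n) := univ.image (vb b)

theorem Sb_stable {n : ℕ} (b : Finset (Fin n)) : Stable (Sb b) := by
  unfold Sb
  constructor
  · intro v hv
    rw [mem_image] at hv
    obtain ⟨p, _, rfl⟩ := hv
    intro h
    unfold vb at h ⊢
    simp only at h ⊢
    rw [h]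
  · intro v hv w hw _
    rw [mem_image] at hv hw
    obtain ⟨p, _, rfl⟩ := hv
    obtain ⟨q, _, rfl⟩ := hw
    unfold vb
    refine ⟨?_, ?_, ?_, ?_⟩ <;>
    · intro h
      simp only at h ⊢
      rw [h]

theorem Sb_card {n : ℕ} (b : Finset (Fin n)) : (Sb b).card = n ^ 2 := by
  unfold Sb
  rw [card_image_of_injective _ (vb_inj b), card_univ, Fintype.card_prod, Fintype.card_fin, sq]

theorem stable_full {n : ℕ} {S : Finset (V n)} (hS : Stable S) (hc : S.card = n ^ 2) :
    ∃ b : Finset (Fin n), S = Sb b := by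
  have h1 : (S.image (fun v : V n => (v.1, v.2.1))).card = S.card := by
    apply card_image_of_injOn
    intro v hv w hw h
    simp only [Prod.mk.injEq] at h
    exact slot_inj hS hv hw h.1 h.2
  have h2 : S.image (fun v : V n => (v.1, v.2.1)) = univ := by
    rw [← card_eq_iff_eq_univ, h1, hc, Fintype.card_prod, Fintype.card_fin, sq]
  have hdiag : ∀ i : Fin n, ∃ α : Bool, (i, i, α, α) ∈ S := by
    intro i
    have : (i, i) ∈ S.image (fun v : V n => (v.1, v.2.1)) := by rw [h2]; exact mem_univ _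
    rw [mem_image] at this
    obtain ⟨v, hv, he⟩ := this
    simp only [Prod.mk.injEq] at he
    refine ⟨v.2.2.1, ?_⟩
    have hg := hS.1 v hv (he.1.trans he.2.symm)
    have : v = (i, i, v.2.2.1, v.2.2.1) :=
      Prod.ext he.1 (Prod.ext he.2 (Prod.ext rfl hg.symm))
    rw [← this]
    exact hv
  classical
  refine ⟨univ.filter (fun i => (i, i, true, true) ∈ S), ?_⟩
  set b := univ.filter (fun i : Fin n => ((i, i, true, true) : V n) ∈ S) with hb
  have hval : ∀ i α, ((i, i, α, α) : V n) ∈ S → decide (i ∈ b) = α := by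
    intro i α hi
    cases α
    · rw [decide_eq_false_iff_not, hb, mem_filter]
      rintro ⟨_, h⟩
      have := slot_inj hS hi h rfl rfl
      simp at this
    · rw [decide_eq_true_iff, hb, mem_filter]
      exact ⟨mem_univ _, hi⟩
  have hsub : S ⊆ Sb b := by
    intro v hv
    unfold Sb
    rw [mem_image]
    refine ⟨(v.1, v.2.1), mem_univ _, ?_⟩
    unfold vb
    obtain ⟨α, hα⟩ := hdiag v.1
    obtain ⟨β, hβ⟩ := hdiag v.2.1
    have e1 : v.2.2.1 = α := by
      by_cases h : v = (v.1, v.1, α, α)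
      · rw [h]
      · exact (hS.2 v hv _ hα h).1 rfl
    have e2 : v.2.2.2 = β := by
      by_cases h : v = (v.2.1, v.2.1, β, β)
      · rw [h]
      · exact (hS.2 v hv _ hβ h).2.2.1 rfl
    simp only
    rw [hval _ _ hα, hval _ _ hβ, ← e1, ← e2]
  apply eq_of_subset_of_card_le hsub
  rw [hc, Sb_card]

theorem stable_gg {n : ℕ} (a : Finset (Fin n)) {S : Finset (V n)} (hS : Stable S) :
    gg a S = (S.card : ℝ) * lamb n + ∑ v ∈ S, ua a v - (S.card : ℝ) * ((S.card : ℝ) - 1) / 2 := by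
  unfold gg
  have h1 : ∑ v ∈ S, uu a v = (S.card : ℝ) * lamb n + ∑ v ∈ S, ua a v := by
    have : ∀ v ∈ S, uu a v = lamb n + ua a v := by
      intro v hv
      unfold uu
      rw [if_pos (hS.1 v hv)]
    rw [sum_congr rfl this, sum_add_distrib, sum_const, nsmul_eq_mul]
  have h2 : ∑ v ∈ S, ∑ w ∈ S, ww v w = (S.card : ℝ) * ((S.card : ℝ) - 1) := by
    have : ∀ v ∈ S, ∑ w ∈ S, ww v w = (S.card : ℝ) - 1 := by
      intro v hv
      rw [← add_sum_erase S _ hv, ww_self, zero_add]
      have h3 : ∀ w ∈ S.erase v, ww v w = 1 := by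
        intro w hw
        rw [mem_erase] at hw
        unfold ww
        rw [if_neg (Ne.symm hw.1), if_pos (hS.2 v hv w hw.2 (Ne.symm hw.1))]
      rw [sum_congr rfl h3, sum_const, nsmul_eq_mul, mul_one, card_erase_of_mem hv]
      have : 0 < S.card := card_pos.mpr ⟨v, hv⟩
      rw [Nat.cast_sub this]
      norm_num
    rw [sum_congr rfl this, sum_const, nsmul_eq_mul]
  rw [h1, h2]
  ring

theorem Sb_gg {n : ℕ} (a b : Finset (Fin n)) :
    gg a (Sb b) = Y0 n - (1 - ((a ∩ b).card : ℝ)) ^ 2 := by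
  rw [stable_gg a (Sb_stable b), Sb_card]
  have : ∑ v ∈ Sb b, ua a v = 1 - (1 - ((a ∩ b).card : ℝ)) ^ 2 := by
    unfold Sb
    rw [sum_image (fun p _ q _ h => vb_inj b h), sum_ua]
  rw [this]
  unfold Y0
  push_cast
  ring

theorem gg_le {n : ℕ} (hn : 1 ≤ n) (a : Finset (Fin n)) (S : Finset (V n)) : gg a S ≤ Y0 n := by
  induction hk : S.card using Nat.strong_induction_on generalizing S with
  | _ k ih =>
    by_cases h1 : ∃ v ∈ S, ¬ Good v
    · obtain ⟨v, hv, hg⟩ := h1
      have hlt : (S.erase v).card < k := by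
        rw [← hk]; exact card_erase_lt_of_mem hv
      have := ih _ hlt _ rfl
      rw [gg_erase a S v hv]
      have h2 : uu a v = 0 := by unfold uu; rw [if_neg hg]
      have h3 : 0 ≤ ∑ w ∈ S.erase v, ww v w := sum_nonneg fun w _ => ww_nonneg v w
      linarith
    · push Not at h1
      by_cases h2 : ∃ v ∈ S, ∃ w ∈ S, v ≠ w ∧ ¬ Cons v w
      · obtain ⟨v, hv, w, hw, hvw, hc⟩ := h2
        have hlt : (S.erase v).card < k := by
          rw [← hk]; exact card_erase_lt_of_mem hv
        have := ih _ hlt _ rfl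
        rw [gg_erase a S v hv]
        have h3 : cc n ≤ ∑ w ∈ S.erase v, ww v w := by
          have : ww v w = cc n := by unfold ww; rw [if_neg hvw, if_neg hc]
          rw [← this]
          exact single_le_sum (f := fun w => ww v w) (fun w _ => ww_nonneg v w)
            (mem_erase.mpr ⟨hvw.symm, hw⟩)
        have h4 := uu_le a v
        linarith
      · push Not at h2
        have hS : Stable S := ⟨h1, h2⟩
        have hle := stable_card hS
        rcases hle.eq_or_lt with he | hlt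
        · obtain ⟨b, rfl⟩ := stable_full hS he
          rw [Sb_gg]
          have := sq_nonneg (1 - ((a ∩ b).card : ℝ))
          linarith
        · rw [stable_gg a hS]
          have h3 : ∑ v ∈ S, ua a v ≤ 2 * (S.card : ℝ) := by
            calc ∑ v ∈ S, ua a v ≤ ∑ v ∈ S, (2 : ℝ) := sum_le_sum fun v _ => ua_le a v
              _ = 2 * (S.card : ℝ) := by rw [sum_const, nsmul_eq_mul, mul_comm]
          have h4 : (S.card : ℝ) + 1 ≤ (n : ℝ) ^ 2 := by exact_mod_cast hlt
          have h5 : (0 : ℝ) ≤ (S.card : ℝ) := Nat.cast_nonneg _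
          have h7 : (0 : ℝ) ≤ (S.card : ℝ) * ((S.card : ℝ) - 1) := by
            rcases Nat.eq_zero_or_pos S.card with h | h
            · rw [h]; simp
            · have : (1 : ℝ) ≤ (S.card : ℝ) := by exact_mod_cast h
              exact mul_nonneg h5 (by linarith)
          have h8 : lamb n = 3 * ((n : ℝ) ^ 2) ^ 2 := by unfold lamb; ring
          unfold Y0
          set m : ℝ := (n : ℝ) ^ 2 with hm
          set s : ℝ := (S.card : ℝ) with hs
          rw [h8]
          have h9 : s * (3 * m ^ 2) ≤ (m - 1) * (3 * m ^ 2) :=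
            mul_le_mul_of_nonneg_right (by linarith) (by positivity)
          have h10 : 1 ≤ m := by linarith
          nlinarith

end Pool.Agent.R98.VX
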