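import Mathlib
import Pool.Agent.R98.VXStab

set_option autoImplicit false

/-! The inequality `ξ · z ≤ q(z) / 2` for all integer vectors. -/

namespace Pool.Agent.R98.VX

open Finset

theorem sum_abs_sq_le {ι : Type*} [Fintype ι] (z : ι → ℤ) :
    (∑ i, |(z i : ℝ)|) ^ 2 ≤ (Fintype.card ι : ℝ) * ∑ i, (z i : ℝ) ^ 2 := by
  have := sq_sum_le_card_mul_sum_sq (s := (univ : Finset ι)) (f := fun i => |(z i : ℝ)|)
  simpa [sq_abs] using this

theorem abs_le_sq_int (x : ℤ) : |(x : ℝ)| ≤ (x : ℝ) ^ 2 := by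
  have h : |x| ≤ x ^ 2 := by
    rcases le_or_gt 0 x with h | h
    · rw [abs_of_nonneg h]
      nlinarith
    · rw [abs_of_neg h]
      nlinarith
  have : ((|x| : ℤ) : ℝ) ≤ ((x ^ 2 : ℤ) : ℝ) := by exact_mod_cast h
  push_cast at this
  exact this

theorem abs_double_sum_le {ι : Type*} [Fintype ι] (W : ι → ι → ℝ) (c : ℝ)
    (hW0 : ∀ i j, 0 ≤ W i j) (hWc : ∀ i j, W i j ≤ c) (z : ι → ℤ) :
    |∑ i, ∑ j, W i j * (z i : ℝ) * (z j : ℝ)| ≤
      c * (Fintype.card ι : ℝ) * ∑ i, (z i : ℝ) ^ 2 := by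
  have hc : ∀ i : ι, 0 ≤ c := fun i => (hW0 i i).trans (hWc i i)
  have h1 : |∑ i, ∑ j, W i j * (z i : ℝ) * (z j : ℝ)| ≤ ∑ i, ∑ j, c * (|(z i : ℝ)| * |(z j : ℝ)|) := by
    refine (abs_sum_le_sum_abs _ _).trans (sum_le_sum fun i _ => ?_)
    refine (abs_sum_le_sum_abs _ _).trans (sum_le_sum fun j _ => ?_)
    rw [abs_mul, abs_mul, abs_of_nonneg (hW0 i j), mul_assoc]
    exact mul_le_mul_of_nonneg_right (hWc i j) (by positivity)
  have h2 : ∑ i, ∑ j, c * (|(z i : ℝ)| * |(z j : ℝ)|) = c * (∑ i, |(z i : ℝ)|) ^ 2 := by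
    rw [sq, sum_mul_sum, mul_sum]
    refine sum_congr rfl fun i _ => ?_
    rw [mul_sum]
  rw [h2] at h1
  rcases isEmpty_or_nonempty ι with hι | ⟨⟨i0⟩⟩
  · simp
  · calc _ ≤ _ := h1
      _ ≤ c * ((Fintype.card ι : ℝ) * ∑ i, (z i : ℝ) ^ 2) :=
        mul_le_mul_of_nonneg_left (sum_abs_sq_le z) (hc i0)
      _ = _ := by ring

theorem term_nonneg (x : ℤ) (s : ℝ) (hs : s = 1 ∨ s = -1) : 0 ≤ ((x : ℝ) ^ 2 - s * x) / 2 := by
  rcases hs with rfl | rfl
  · have h : 0 ≤ x ^ 2 - x := by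
      rcases le_or_gt x 0 with h | h <;> nlinarith
    have : (0 : ℝ) ≤ ((x ^ 2 - x : ℤ) : ℝ) := by exact_mod_cast h
    push_cast at this
    linarith
  · have h : 0 ≤ x ^ 2 + x := by
      rcases le_or_gt 0 x with h | h <;> nlinarith
    have : (0 : ℝ) ≤ ((x ^ 2 + x : ℤ) : ℝ) := by exact_mod_cast h
    push_cast at this
    linarith

theorem term_ge_one (x : ℤ) (s : ℝ) (hs : s = 1 ∨ s = -1) (h0 : ¬ ((x : ℝ) = 0 ∨ (x : ℝ) = s)) :
    1 ≤ ((x : ℝ) ^ 2 - s * x) / 2 := by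
  rcases hs with rfl | rfl
  · have h1 : x ≠ 0 := fun h => h0 (Or.inl (by rw [h]; norm_num))
    have h2 : x ≠ 1 := fun h => h0 (Or.inr (by rw [h]; norm_num))
    have h : 2 ≤ x ^ 2 - x := by
      rcases lt_or_gt_of_ne h1 with h | h
      · nlinarith
      · have : 2 ≤ x := by omega
        nlinarith
    have : (2 : ℝ) ≤ ((x ^ 2 - x : ℤ) : ℝ) := by exact_mod_cast h
    push_cast at this
    linarith
  · have h1 : x ≠ 0 := fun h => h0 (Or.inl (by rw [h]; norm_num))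
    have h2 : x ≠ -1 := fun h => h0 (Or.inr (by rw [h]; norm_num))
    have h : 2 ≤ x ^ 2 + x := by
      rcases lt_or_gt_of_ne h1 with h | h
      · have : x ≤ -2 := by omega
        nlinarith
      · nlinarith
    have : (2 : ℝ) ≤ ((x ^ 2 + x : ℤ) : ℝ) := by exact_mod_cast h
    push_cast at this
    linarith

theorem quad_ineq {ι : Type*} [Fintype ι] (W : ι → ι → ℝ) (c Y : ℝ) (hW0 : ∀ i j, 0 ≤ W i j)
    (hWc : ∀ i j, W i j ≤ c) (y sg : ι → ℝ) (hy : ∀ i, |y i| ≤ Y) (hsg : ∀ i, sg i = 1 ∨ sg i = -1)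
    (hY : 0 ≤ Y) (hc : 0 ≤ c)
    (hR : ∀ z : ι → ℤ, (∀ i, (z i : ℝ) = 0 ∨ (z i : ℝ) = sg i) →
      0 ≤ (1 / 2) * (∑ i, ∑ j, W i j * (z i : ℝ) * (z j : ℝ)) + ∑ i, y i * z i)
    (ε : ℝ) (hε0 : 0 ≤ ε)
    (hε : ε * ((c * (Fintype.card ι : ℝ) / 2 + Y) * (4 + (Fintype.card ι : ℝ))) ≤ 1)
    (z : ι → ℤ) :
    ∑ i, (sg i / 2 - ε * y i) * z i ≤
      (∑ i, (z i : ℝ) ^ 2 + ε * ∑ i, ∑ j, W i j * (z i : ℝ) * (z j : ℝ)) / 2 := by
  set Q := ∑ i, ∑ j, W i j * (z i : ℝ) * (z j : ℝ) with hQ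
  set L := ∑ i, y i * (z i : ℝ) with hL
  set N := (Fintype.card ι : ℝ) with hN
  set F := ∑ i, ((z i : ℝ) ^ 2 - sg i * z i) / 2 with hF
  have e : (∑ i, (z i : ℝ) ^ 2 + ε * Q) / 2 - ∑ i, (sg i / 2 - ε * y i) * z i =
      F + ε * ((1 / 2) * Q + L) := by
    have h1 : ∑ i, (sg i / 2 - ε * y i) * (z i : ℝ) = ∑ i, (sg i * z i) / 2 - ε * L := by
      rw [hL, mul_sum, ← sum_sub_distrib]
      refine sum_congr rfl fun i _ => ?_
      ring
    have h2 : F = (∑ i, (z i : ℝ) ^ 2) / 2 - ∑ i, (sg i * z i) / 2 := by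
      rw [hF, sum_div, ← sum_sub_distrib]
      refine sum_congr rfl fun i _ => ?_
      ring
    rw [h1, h2]
    ring
  suffices h : 0 ≤ F + ε * ((1 / 2) * Q + L) by linarith
  by_cases hz : ∀ i, (z i : ℝ) = 0 ∨ (z i : ℝ) = sg i
  · have hF0 : 0 ≤ F := sum_nonneg fun i _ => term_nonneg (z i) (sg i) (hsg i)
    have := mul_nonneg hε0 (hR z hz)
    linarith
  · push Not at hz
    obtain ⟨i0, hi0⟩ := hz
    have hF1 : 1 ≤ F := by
      have h1 := term_ge_one (z i0) (sg i0) (hsg i0) (by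
        rintro (h | h)
        · exact hi0.1 h
        · exact hi0.2 h)
      refine h1.trans ?_
      exact single_le_sum (f := fun i => ((z i : ℝ) ^ 2 - sg i * z i) / 2)
        (fun i _ => term_nonneg (z i) (sg i) (hsg i)) (mem_univ i0)
    have hsq : ∑ i, (z i : ℝ) ^ 2 ≤ 4 * F + N := by
      have : ∀ i, (z i : ℝ) ^ 2 ≤ 4 * (((z i : ℝ) ^ 2 - sg i * z i) / 2) + 1 := by
        intro i
        rcases hsg i with h | h <;> rw [h]
        · nlinarith [sq_nonneg ((z i : ℝ) - 1)]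
        · nlinarith [sq_nonneg ((z i : ℝ) + 1)]
      calc ∑ i, (z i : ℝ) ^ 2 ≤ ∑ i, (4 * (((z i : ℝ) ^ 2 - sg i * z i) / 2) + 1) :=
            sum_le_sum fun i _ => this i
        _ = 4 * F + N := by
            rw [sum_add_distrib, ← mul_sum, sum_const, card_univ, nsmul_eq_mul, mul_one]
    have hN0 : 0 ≤ N := Nat.cast_nonneg _
    have hQ' := abs_double_sum_le W c hW0 hWc z
    have hL' : |L| ≤ Y * ∑ i, (z i : ℝ) ^ 2 := by
      rw [hL]
      refine (abs_sum_le_sum_abs _ _).trans ?_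
      rw [mul_sum]
      refine sum_le_sum fun i _ => ?_
      rw [abs_mul]
      exact mul_le_mul (hy i) (abs_le_sq_int (z i)) (abs_nonneg _) hY
    rw [← hQ, ← hN] at hQ'
    have h1 : -((1 / 2) * Q + L) ≤ (c * N / 2 + Y) * ∑ i, (z i : ℝ) ^ 2 := by
      have a1 := neg_abs_le Q
      have a2 := neg_abs_le L
      nlinarith
    have h2 : (c * N / 2 + Y) * ∑ i, (z i : ℝ) ^ 2 ≤ (c * N / 2 + Y) * ((4 + N) * F) := by
      apply mul_le_mul_of_nonneg_left
      · nlinarith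
      · positivity
    have h3 : ε * -((1 / 2) * Q + L) ≤ ε * ((c * N / 2 + Y) * ((4 + N) * F)) :=
      mul_le_mul_of_nonneg_left (h1.trans h2) hε0
    have h4 : ε * ((c * N / 2 + Y) * ((4 + N) * F)) ≤ F := by
      have : ε * ((c * N / 2 + Y) * ((4 + N) * F)) = (ε * ((c * N / 2 + Y) * (4 + N))) * F := by ring
      rw [this]
      have hF0 : 0 ≤ F := by linarith
      calc _ ≤ 1 * F := mul_le_mul_of_nonneg_right hε hF0
        _ = F := one_mul F
    linarith

/-! ### The concrete data -/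

/-- the off-diagonal weights -/
noncomputable def WW (n : ℕ) : Option (V n) → Option (V n) → ℝ
  | none, none => 0
  | none, some _ => cc n
  | some _, none => cc n
  | some v, some w => ww v w

noncomputable def sg (n : ℕ) : Option (V n) → ℝ
  | none => -1
  | some _ => 1

noncomputable def yy {n : ℕ} (a : Finset (Fin n)) : Option (V n) → ℝ
  | none => -Y0 n
  | some v => cc n - uu a v

/-- the value of the second order part at a sign vector -/
theorem R_value {n : ℕ} (a : Finset (Fin n)) (S : Finset (V n)) (t : ℤ) (z : Option (V n) → ℤ)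
    (h0 : z none = t) (hz : ∀ v, z (some v) = if v ∈ S then 1 else 0) :
    (1 / 2) * (∑ i, ∑ j, WW n i j * (z i : ℝ) * (z j : ℝ)) + ∑ i, yy a i * z i =
      (1 / 2) * ∑ v ∈ S, ∑ w ∈ S, ww v w + cc n * t * S.card - Y0 n * t +
        (cc n * S.card - ∑ v ∈ S, uu a v) := by
  have hz' : ∀ v, ((z (some v) : ℤ) : ℝ) = if v ∈ S then 1 else 0 := by
    intro v; rw [hz v]; split_ifs <;> norm_num
  rw [Fintype.sum_option, Fintype.sum_option]
  simp only [WW, yy]
  rw [Fintype.sum_option]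
  simp only [WW, h0, hz', Fintype.sum_option, zero_mul, zero_add]
  have h1 : ∑ x : V n, cc n * (t : ℝ) * (if x ∈ S then (1 : ℝ) else 0) = cc n * t * S.card := by
    rw [← mul_sum, sum_boole]
    congr 2
    rw [filter_univ_mem]
  have h2 : ∑ x : V n, (cc n * (if x ∈ S then (1 : ℝ) else 0) * (t : ℝ) +
      ∑ x_1 : V n, ww x x_1 * (if x ∈ S then (1 : ℝ) else 0) * (if x_1 ∈ S then (1 : ℝ) else 0)) =
      cc n * t * S.card + ∑ v ∈ S, ∑ w ∈ S, ww v w := by
    rw [sum_add_distrib]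
    congr 1
    · rw [← h1]
      refine sum_congr rfl fun x _ => ?_
      ring
    · rw [← sum_filter_add_sum_filter_not univ (fun x => x ∈ S), filter_univ_mem]
      have : ∑ x ∈ univ.filter (fun x => ¬ x ∈ S),
          ∑ x_1 : V n, ww x x_1 * (if x ∈ S then (1 : ℝ) else 0) *
            (if x_1 ∈ S then (1 : ℝ) else 0) = 0 := by
        apply sum_eq_zero
        intro x hx
        rw [mem_filter] at hx
        simp [hx.2]
      rw [this, add_zero]
      refine sum_congr rfl fun x hx => ?_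
      rw [if_pos hx, ← sum_filter_add_sum_filter_not univ (fun x => x ∈ S), filter_univ_mem]
      have : ∑ y ∈ univ.filter (fun y => ¬ y ∈ S),
          ww x y * 1 * (if y ∈ S then (1 : ℝ) else 0) = 0 := by
        apply sum_eq_zero
        intro y hy
        rw [mem_filter] at hy
        simp [hy.2]
      rw [this, add_zero]
      refine sum_congr rfl fun y hy => ?_
      rw [if_pos hy]
      ring
  have h3 : ∑ x : V n, (cc n - uu a x) * (if x ∈ S then (1 : ℝ) else 0) =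
      cc n * S.card - ∑ v ∈ S, uu a v := by
    have : ∀ x : V n, (cc n - uu a x) * (if x ∈ S then (1 : ℝ) else 0) =
        cc n * (if x ∈ S then (1 : ℝ) else 0) - (if x ∈ S then uu a x else 0) := by
      intro x
      split_ifs <;> ring
    simp_rw [this]
    rw [sum_sub_distrib, ← mul_sum, sum_boole, filter_univ_mem]
    congr 1
    rw [← sum_filter, filter_univ_mem]
  rw [h1, h2, h3]
  ring

theorem R_nonneg {n : ℕ} (hn : 1 ≤ n) (a : Finset (Fin n)) (z : Option (V n) → ℤ)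
    (hz : ∀ i, (z i : ℝ) = 0 ∨ (z i : ℝ) = sg n i) :
    0 ≤ (1 / 2) * (∑ i, ∑ j, WW n i j * (z i : ℝ) * (z j : ℝ)) + ∑ i, yy a i * z i := by
  set S : Finset (V n) := univ.filter (fun v => z (some v) = 1) with hS
  have hzS : ∀ v, z (some v) = if v ∈ S then 1 else 0 := by
    intro v
    rcases hz (some v) with h | h
    · have h' : z (some v) = 0 := by exact_mod_cast h
      have : v ∉ S := by rw [hS, mem_filter, h']; simp
      rw [if_neg this, h']
    · have h' : z (some v) = 1 := by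
        have h2 : (z (some v) : ℝ) = 1 := h
        exact_mod_cast h2
      have : v ∈ S := by rw [hS, mem_filter]; exact ⟨mem_univ _, h'⟩
      rw [if_pos this, h']
  rw [R_value a S (z none) z rfl hzS]
  have hw : 0 ≤ ∑ v ∈ S, ∑ w ∈ S, ww v w :=
    sum_nonneg fun v _ => sum_nonneg fun w _ => ww_nonneg v w
  rcases hz none with h | h
  · rw [h]
    have : ∑ v ∈ S, uu a v ≤ cc n * S.card := by
      calc ∑ v ∈ S, uu a v ≤ ∑ v ∈ S, cc n := sum_le_sum fun v _ => uu_le a v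
        _ = cc n * S.card := by rw [sum_const, nsmul_eq_mul, mul_comm]
    linarith
  · have h' : (z none : ℝ) = -1 := h
    rw [h']
    have := gg_le hn a S
    unfold gg at this
    linarith

/-- the lattice vector of `b` -/
def zb {n : ℕ} (b : Finset (Fin n)) : Option (V n) → ℤ
  | none => -1
  | some v => if v ∈ Sb b then 1 else 0

theorem R_zb {n : ℕ} (a b : Finset (Fin n)) :
    (1 / 2) * (∑ i, ∑ j, WW n i j * (zb b i : ℝ) * (zb b j : ℝ)) + ∑ i, yy a i * zb b i =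
      (1 - ((a ∩ b).card : ℝ)) ^ 2 := by
  rw [R_value a (Sb b) (-1) (zb b) rfl (fun v => rfl)]
  have := Sb_gg a b
  unfold gg at this
  push_cast
  linarith

theorem F_zb {n : ℕ} (b : Finset (Fin n)) :
    ∑ i, (((zb b i : ℤ) : ℝ) ^ 2 - sg n i * zb b i) = 0 := by
  apply sum_eq_zero
  rintro (_ | v) _
  · simp only [zb, sg]; norm_num
  · simp only [zb, sg]
    split_ifs <;> norm_num

end Pool.Agent.R98.VX
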