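import Mathlib
import Pool.Agent.R98.VXLat

set_option autoImplicit false

/-! The Voronoi cell of the lattice with Gram matrix `L` is a projection of a cube. -/

namespace Pool.Agent.R98.VX

open Finset Matrix

variable {ι : Type} [Fintype ι] [DecidableEq ι]

theorem dot_symm (L : Matrix ι ι ℝ) (hL : ∀ i j, L i j = L j i) (u f : ι → ℝ) :
    u ⬝ᵥ (L *ᵥ f) = f ⬝ᵥ (L *ᵥ u) := by
  simp only [dotProduct, mulVec, mul_sum]
  rw [sum_comm]
  refine sum_congr rfl fun i _ => sum_congr rfl fun j _ => ?_
  rw [hL j i]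
  ring

/-- transpose of `B` -/
noncomputable def Bt {n : ℕ} (B : (ι → ℝ) →ₗ[ℝ] EuclideanSpace ℝ (Fin n)) :
    (Fin n → ℝ) →ₗ[ℝ] (ι → ℝ) :=
  LinearMap.pi (fun j => ∑ k, (B (Pi.single j 1) k) • (LinearMap.proj k : (Fin n → ℝ) →ₗ[ℝ] ℝ))

theorem Bt_dot {n : ℕ} (B : (ι → ℝ) →ₗ[ℝ] EuclideanSpace ℝ (Fin n)) (y : Fin n → ℝ)
    (f : ι → ℝ) : Bt B y ⬝ᵥ f = ∑ k, y k * B f k := by
  have h1 : ∀ j, Bt B y j = ∑ k, B (Pi.single j 1) k * y k := by
    intro j
    unfold Bt
    rw [LinearMap.pi_apply, LinearMap.sum_apply]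
    rfl
  have h2 : ∀ k, B f k = ∑ j, f j * B (Pi.single j 1) k := by
    intro k
    conv_lhs => rw [B_eq_sum B f]
    simp
  simp only [dotProduct]
  simp_rw [h1, h2, sum_mul, mul_sum]
  rw [sum_comm]
  refine sum_congr rfl fun i _ => sum_congr rfl fun j _ => ?_
  ring

theorem ell_ind_sq (T : Finset ι) (e : (ι × ι) ⊕ ι) :
    ell e (ind T) * ell e (ind T) = |ell e (ind T)| := by
  rcases e with ⟨i, j⟩ | i
  · rw [ell_inl]
    unfold ind
    by_cases hi : i ∈ T <;> by_cases hj : j ∈ T <;> simp [hi, hj]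
  · rw [ell_inr]
    unfold ind
    by_cases hi : i ∈ T <;> simp [hi]

theorem zono_ext {n : ℕ} (L G : Matrix ι ι ℝ) (hL : ∀ i j, L i j = L j i)
    (h1 : ∀ i j, i ≠ j → L i j ≤ 0) (h2 : ∀ i, 0 ≤ ∑ j, L i j) (hLG : L * G = 1)
    (eE : ((ι × ι) ⊕ ι) ≃ Fin n) :
    HasExtension (VC (lat0 (B0 L eE))) (n + n) := by
  have hB := B0_inner L hL h1 h2 eE
  set B := B0 L eE with hBdef
  set hh : Fin n → ℝ := fun k => Real.sqrt (wt L (eE.symm k)) with hhh
  have hh0 : ∀ k, 0 ≤ hh k := fun k => Real.sqrt_nonneg _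
  have hhsq : ∀ k, hh k * hh k = wt L (eE.symm k) := fun k =>
    Real.mul_self_sqrt (wt_nonneg L h1 h2 _)
  have hBk : ∀ f k, B f k = hh k * ell (eE.symm k) f := fun f k => rfl
  let pr : Fin n → ((Fin n → ℝ) →ₗ[ℝ] ℝ) := fun k => LinearMap.proj k
  let A : Fin (n + n) → ((Fin n → ℝ) →ₗ[ℝ] ℝ) := Fin.append pr (fun k => -pr k)
  let bb : Fin (n + n) → ℝ := Fin.append (fun k => hh k / 2) (fun k => hh k / 2)
  let C : Fin 0 → ((Fin n → ℝ) →ₗ[ℝ] ℝ) := fun i => i.elim0
  let c : Fin 0 → ℝ := fun i => i.elim0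
  let Tc : (Fin n → ℝ) →ₗ[ℝ] (ι → ℝ) := Matrix.mulVecLin G ∘ₗ Bt B
  have hPoly : Poly A bb C c = Set.Icc (fun k => -(hh k / 2)) (fun k => hh k / 2) := by
    ext y
    constructor
    · rintro ⟨h, -⟩
      constructor
      · intro k
        have := h (Fin.natAdd n k)
        simp only [A, bb, pr, Fin.append_right, LinearMap.neg_apply, LinearMap.proj_apply] at this
        linarith
      · intro k
        have := h (Fin.castAdd n k)
        simpa only [A, bb, pr, Fin.append_left, LinearMap.proj_apply] using this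
    · rintro ⟨ha, hb⟩
      refine ⟨fun i => ?_, fun j => j.elim0⟩
      refine Fin.addCases (fun k => ?_) (fun k => ?_) i
      · simp only [A, bb, pr, Fin.append_left, LinearMap.proj_apply]
        exact hb k
      · simp only [A, bb, pr, Fin.append_right, LinearMap.neg_apply, LinearMap.proj_apply]
        have := ha k
        simp only at this
        linarith
  refine ⟨n, 0, A, bb, C, c, B ∘ₗ Tc, ?_, ?_⟩
  · rw [hPoly]
    exact Metric.isBounded_Icc _ _
  · rw [hPoly, VC_lat0 B L hB, LinearMap.coe_comp, Set.image_comp]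
    congr 1
    have hTc : ∀ (y : Fin n → ℝ) (f : ι → ℝ), Tc y ⬝ᵥ (L *ᵥ f) = ∑ k, y k * B f k := by
      intro y f
      rw [dot_symm L hL, LinearMap.comp_apply, Matrix.mulVecLin_apply, Matrix.mulVec_mulVec, hLG,
        Matrix.one_mulVec, dotProduct_comm, Bt_dot]
    have hform : ∀ f : ι → ℝ, f ⬝ᵥ (L *ᵥ f) =
        ∑ k, wt L (eE.symm k) * (ell (eE.symm k) f * ell (eE.symm k) f) := by
      intro f
      rw [← form_eq L hL, ← Equiv.sum_comp eE.symm]
    apply Set.Subset.antisymm
    · rintro _ ⟨y, ⟨ha, hb⟩, rfl⟩ z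
      set f : ι → ℝ := fun i => (z i : ℝ) with hf
      rw [hTc, hform, sum_div]
      refine sum_le_sum fun k _ => ?_
      rw [hBk, ← hhsq]
      have hyk : |y k| ≤ hh k / 2 := abs_le.mpr ⟨ha k, hb k⟩
      have hint : ∃ m : ℤ, ell (eE.symm k) f = m := by
        rcases eE.symm k with ⟨i, j⟩ | i
        · exact ⟨z i - z j, by rw [ell_inl]; push_cast; rfl⟩
        · exact ⟨z i, rfl⟩
      obtain ⟨m, hm⟩ := hint
      have h3 : |ell (eE.symm k) f| ≤ ell (eE.symm k) f * ell (eE.symm k) f := by
        rw [hm]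
        have : |m| ≤ m * m := by
          rcases le_or_gt 0 m with h | h
          · rw [abs_of_nonneg h]; nlinarith
          · rw [abs_of_neg h]; nlinarith
        exact_mod_cast this
      calc y k * (hh k * ell (eE.symm k) f) ≤ |y k * (hh k * ell (eE.symm k) f)| := le_abs_self _
        _ = |y k| * (hh k * |ell (eE.symm k) f|) := by
            rw [abs_mul, abs_mul, abs_of_nonneg (hh0 k)]
        _ ≤ (hh k / 2) * (hh k * |ell (eE.symm k) f|) :=
            mul_le_mul_of_nonneg_right hyk (mul_nonneg (hh0 k) (abs_nonneg _))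
        _ ≤ (hh k / 2) * (hh k * (ell (eE.symm k) f * ell (eE.symm k) f)) := by
            apply mul_le_mul_of_nonneg_left _ (by have := hh0 k; linarith)
            exact mul_le_mul_of_nonneg_left h3 (hh0 k)
        _ = _ := by ring
    · intro ξ hξ
      by_contra hnot
      have hconv : Convex ℝ (Tc '' Set.Icc (fun k => -(hh k / 2)) (fun k => hh k / 2)) :=
        (convex_Icc _ _).linear_image Tc
      have hclosed : IsClosed (Tc '' Set.Icc (fun k => -(hh k / 2)) (fun k => hh k / 2)) :=
        (isCompact_Icc.image (LinearMap.continuous_of_finiteDimensional Tc)).isClosed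
      obtain ⟨φ, u, hlt, hgt⟩ := geometric_hahn_banach_closed_point hconv hclosed hnot
      set ph : ι → ℝ := fun i => φ (Pi.single i 1) with hph
      have hφ : ∀ η : ι → ℝ, φ η = η ⬝ᵥ ph := by
        intro η
        conv_lhs => rw [← Finset.univ_sum_single η]
        rw [map_sum]
        simp only [dotProduct]
        refine sum_congr rfl fun i _ => ?_
        have : (Pi.single i (η i) : ι → ℝ) = η i • (Pi.single i 1 : ι → ℝ) := by
          ext j
          by_cases h : j = i
          · subst h; simp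
          · simp [h]
        rw [this, map_smul, smul_eq_mul]
      set f0 : ι → ℝ := G *ᵥ ph with hf0
      have hLf0 : L *ᵥ f0 = ph := by
        rw [hf0, Matrix.mulVec_mulVec, hLG, Matrix.one_mulVec]
      set q : (ι × ι) ⊕ ι → ℝ := fun e => wt L e / 2 with hq
      set y : Fin n → ℝ := fun k => if 0 ≤ ell (eE.symm k) f0 then hh k / 2 else -(hh k / 2) with hy
      have hy1 : y ∈ Set.Icc (fun k => -(hh k / 2)) (fun k => hh k / 2) := by
        constructor
        · intro k
          simp only [hy]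
          have := hh0 k
          split_ifs <;> linarith
        · intro k
          simp only [hy]
          have := hh0 k
          split_ifs <;> linarith
      have hval : φ (Tc y) = tv q f0 := by
        rw [hφ, ← hLf0, hTc]
        unfold tv
        rw [← Equiv.sum_comp eE.symm]
        refine sum_congr rfl fun k _ => ?_
        rw [hBk]
        simp only [hy, hq]
        rw [← hhsq]
        split_ifs with h
        · rw [abs_of_nonneg h]; ring
        · rw [abs_of_neg (not_le.mp h)]; ring
      have h4 := hlt _ ⟨y, hy1, rfl⟩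
      rw [hval] at h4
      let Φ : (ι → ℝ) →ₗ[ℝ] ℝ :=
        { toFun := fun f => ξ ⬝ᵥ (L *ᵥ f)
          map_add' := fun f g => by rw [Matrix.mulVec_add, dotProduct_add]
          map_smul' := fun r f => by
            rw [Matrix.mulVec_smul, dotProduct_smul]; rfl }
      have hΦ : ∀ f, Φ f = ξ ⬝ᵥ (L *ᵥ f) := fun f => rfl
      have hcut : ∀ T : Finset ι, ((ind T) ⬝ᵥ (L *ᵥ (ind T))) / 2 = tv q (ind T) := by
        intro T
        rw [← form_eq L hL, sum_div]
        unfold tv
        refine sum_congr rfl fun e _ => ?_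
        rw [ell_ind_sq]
        simp only [hq]
        ring
      have hA1 : ∀ T : Finset ι, Φ (ind T) ≤ tv q (ind T) := by
        intro T
        have := hξ (fun i => if i ∈ T then 1 else 0)
        have e : (fun i => ((if i ∈ T then (1 : ℤ) else 0 : ℤ) : ℝ)) = ind T := by
          funext i
          unfold ind
          split_ifs <;> norm_num
        rw [e, hcut] at this
        exact this
      have hA2 : ∀ T : Finset ι, -Φ (ind T) ≤ tv q (ind T) := by
        intro T
        have := hξ (fun i => if i ∈ T then -1 else 0)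
        have e : (fun i => ((if i ∈ T then (-1 : ℤ) else 0 : ℤ) : ℝ)) = -ind T := by
          funext i
          rw [Pi.neg_apply]
          unfold ind
          split_ifs <;> norm_num
        rw [e, Matrix.mulVec_neg, dotProduct_neg, dotProduct_neg, neg_dotProduct, neg_neg,
          hcut] at this
        exact this
      have h5 := coarea q Φ hA1 hA2 f0
      rw [hΦ, hLf0, ← hφ] at h5
      linarith

end Pool.Agent.R98.VX
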