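import Mathlib
import Pool.Agent.R98.VXDefs
import Pool.Agent.R98.VXExt
import Pool.Agent.R98.VXQuad
import Pool.Agent.R98.VXGram
import Pool.Agent.R98.VXZono

set_option autoImplicit false

/-! Assembly. -/

namespace Pool.Agent.R98.VX

open Finset Matrix

theorem dual_ext {ι : Type} [Fintype ι] [DecidableEq ι] {n : ℕ}
    (B : (ι → ℝ) →ₗ[ℝ] EuclideanSpace ℝ (Fin n)) (G : Matrix ι ι ℝ)
    (hpos : ∀ g : ι → ℤ, (1 / 2) * ∑ i, (g i : ℝ) ^ 2 ≤
      (fun i => (g i : ℝ)) ⬝ᵥ (G *ᵥ (fun i => (g i : ℝ))))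
    (hdiag : ∀ i, G i i = 1) :
    ∃ r, HasExtension (B '' {ξ | ∀ g : ι → ℤ, ξ ⬝ᵥ (fun i => (g i : ℝ)) ≤
      ((fun i => (g i : ℝ)) ⬝ᵥ (G *ᵥ (fun i => (g i : ℝ)))) / 2}) r := by
  set N := Fintype.card ι with hN
  set K : ℤ := (N : ℤ) + 2 with hK
  set GS : Finset (ι → ℤ) := Fintype.piFinset (fun _ : ι => Finset.Icc (-K) K) with hGS
  have hunit : ∀ (s : ℤ), (s = 1 ∨ s = -1) → ∀ i, (Pi.single i s : ι → ℤ) ∈ GS := by
    intro s hs i
    rw [hGS, Fintype.mem_piFinset]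
    intro j
    rw [Finset.mem_Icc]
    by_cases h : j = i
    · subst h
      rw [Pi.single_eq_same]
      rcases hs with rfl | rfl <;> constructor <;> omega
    · rw [Pi.single_eq_of_ne h]
      constructor <;> omega
  set β : (ι → ℤ) → ℝ := fun g =>
    ((fun i => (g i : ℝ)) ⬝ᵥ (G *ᵥ (fun i => (g i : ℝ)))) / 2 with hβ
  have hcast : ∀ (s : ℤ) (i : ι), (fun j => (((Pi.single i s : ι → ℤ) j : ℤ) : ℝ)) =
      Pi.single i (s : ℝ) := by
    intro s i
    funext j
    by_cases h : j = i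
    · subst h; simp
    · simp [h]
  have hcoord : ∀ ξ : ι → ℝ, (∀ g ∈ GS, ξ ⬝ᵥ (fun i => (g i : ℝ)) ≤ β g) →
      ∀ i, -(1 / 2) ≤ ξ i ∧ ξ i ≤ 1 / 2 := by
    intro ξ h i
    have h1 := h _ (hunit 1 (Or.inl rfl) i)
    have h2 := h _ (hunit (-1) (Or.inr rfl) i)
    simp only [hβ] at h1 h2
    rw [hcast] at h1 h2
    simp only [dotProduct_single, single_dotProduct, mulVec_single, Matrix.col_apply,
      MulOpposite.smul_eq_mul_unop, MulOpposite.unop_op, Pi.smul_apply, hdiag, Int.cast_one,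
      Int.cast_neg] at h1 h2
    norm_num at h1 h2
    constructor <;> linarith
  have hall : ∀ ξ : ι → ℝ, (∀ g ∈ GS, ξ ⬝ᵥ (fun i => (g i : ℝ)) ≤ β g) →
      ∀ g : ι → ℤ, ξ ⬝ᵥ (fun i => (g i : ℝ)) ≤ β g := by
    intro ξ h g
    by_cases hg : g ∈ GS
    · exact h g hg
    · have hc := hcoord ξ h
      rw [hGS, Fintype.mem_piFinset] at hg
      push Not at hg
      obtain ⟨i0, hi0⟩ := hg
      have hbig : (K : ℝ) ≤ |(g i0 : ℝ)| := by
        have : K ≤ |g i0| := by
          rw [Finset.mem_Icc, not_and_or] at hi0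
          rcases hi0 with h | h
          · have : g i0 < -K := not_le.mp h
            have := neg_le_abs (g i0)
            omega
          · have : K < g i0 := not_le.mp h
            have := le_abs_self (g i0)
            omega
        exact_mod_cast this
      have h1 : ξ ⬝ᵥ (fun i => (g i : ℝ)) ≤ (1 / 2) * ∑ i, |(g i : ℝ)| := by
        simp only [dotProduct]
        rw [mul_sum]
        refine sum_le_sum fun i _ => ?_
        calc ξ i * (g i : ℝ) ≤ |ξ i * (g i : ℝ)| := le_abs_self _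
          _ = |ξ i| * |(g i : ℝ)| := abs_mul _ _
          _ ≤ _ := mul_le_mul_of_nonneg_right (abs_le.mpr (hc i)) (abs_nonneg _)
      have h2 := hpos g
      have h3 : 0 ≤ ∑ i, ((g i : ℝ) ^ 2 - 2 * |(g i : ℝ)|) := by
        rw [← add_sum_erase univ _ (mem_univ i0)]
        have h4 : -(N : ℝ) ≤ ∑ i ∈ univ.erase i0, ((g i : ℝ) ^ 2 - 2 * |(g i : ℝ)|) := by
          have h5 : ∀ i, (-1 : ℝ) ≤ (g i : ℝ) ^ 2 - 2 * |(g i : ℝ)| := by
            intro i
            nlinarith [sq_nonneg (|(g i : ℝ)| - 1), sq_abs (g i : ℝ)]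
          calc -(N : ℝ) ≤ ∑ _i ∈ univ.erase i0, (-1 : ℝ) := by
                rw [sum_const, nsmul_eq_mul, card_erase_of_mem (mem_univ i0), card_univ]
                have : ((Fintype.card ι - 1 : ℕ) : ℝ) ≤ (N : ℝ) := by
                  exact_mod_cast Nat.sub_le _ _
                linarith
            _ ≤ _ := sum_le_sum fun i _ => h5 i
        have h6 : (N : ℝ) ≤ (g i0 : ℝ) ^ 2 - 2 * |(g i0 : ℝ)| := by
          have hKr : (K : ℝ) = (N : ℝ) + 2 := by rw [hK]; push_cast; ring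
          rw [hKr] at hbig
          have hN0 : (0 : ℝ) ≤ (N : ℝ) := Nat.cast_nonneg _
          nlinarith [sq_abs (g i0 : ℝ)]
        linarith
      rw [sum_sub_distrib, ← mul_sum] at h3
      simp only [hβ]
      linarith
  have hset : {ξ : ι → ℝ | ∀ g : ι → ℤ, ξ ⬝ᵥ (fun i => (g i : ℝ)) ≤ β g} =
      {ξ | ∀ g ∈ GS, ξ ⬝ᵥ (fun i => (g i : ℝ)) ≤ β g} := by
    ext ξ
    exact ⟨fun h g _ => h g, fun h => hall ξ h⟩
  let e : ι ≃ Fin N := Fintype.equivFin ι
  let eg : GS ≃ Fin GS.card := GS.equivFin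
  let A : Fin GS.card → ((Fin N → ℝ) →ₗ[ℝ] ℝ) := fun j =>
    ∑ i, (((eg.symm j : ι → ℤ) i : ℤ) : ℝ) • (LinearMap.proj (e i) : (Fin N → ℝ) →ₗ[ℝ] ℝ)
  let bb : Fin GS.card → ℝ := fun j => β (eg.symm j : ι → ℤ)
  let C : Fin 0 → ((Fin N → ℝ) →ₗ[ℝ] ℝ) := fun i => i.elim0
  let c : Fin 0 → ℝ := fun i => i.elim0
  have hA : ∀ j y, A j y = (fun i => y (e i)) ⬝ᵥ (fun i => (((eg.symm j : ι → ℤ) i : ℤ) : ℝ)) := by
    intro j y
    simp only [A, LinearMap.sum_apply, LinearMap.smul_apply, LinearMap.proj_apply, smul_eq_mul,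
      dotProduct]
    refine sum_congr rfl fun i _ => mul_comm _ _
  have hmem : ∀ y : Fin N → ℝ, y ∈ Poly A bb C c ↔
      ∀ g ∈ GS, (fun i => y (e i)) ⬝ᵥ (fun i => (g i : ℝ)) ≤ β g := by
    intro y
    constructor
    · rintro ⟨h, -⟩ g hg
      have := h (eg ⟨g, hg⟩)
      rw [hA] at this
      simpa [bb] using this
    · intro h
      refine ⟨fun j => ?_, fun j => j.elim0⟩
      rw [hA]
      exact h _ (eg.symm j).2
  refine ⟨GS.card, N, 0, A, bb, C, c, B ∘ₗ LinearMap.funLeft ℝ ℝ e, ?_, ?_⟩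
  · refine (Metric.isBounded_Icc (fun _ : Fin N => (-(1 / 2) : ℝ)) (fun _ => 1 / 2)).subset ?_
    intro y hy
    rw [hmem] at hy
    have := hcoord _ hy
    constructor
    · intro k
      have := (this (e.symm k)).1
      simpa using this
    · intro k
      have := (this (e.symm k)).2
      simpa using this
  · rw [hset, LinearMap.coe_comp, Set.image_comp]
    congr 1
    ext ξ
    constructor
    · rintro ⟨y, hy, rfl⟩
      rw [hmem] at hy
      exact hy
    · intro h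
      refine ⟨fun k => ξ (e.symm k), ?_, ?_⟩
      · rw [hmem]
        simpa using h
      · funext i
        simp [LinearMap.funLeft_apply]

theorem lattice_funLeft {ι : Type} [Fintype ι] [DecidableEq ι] {n d : ℕ} (e : ι ≃ Fin d)
    (B : (ι → ℝ) →ₗ[ℝ] EuclideanSpace ℝ (Fin n)) :
    lattice (B ∘ₗ LinearMap.funLeft ℝ ℝ e) = lat0 B := by
  ext x
  constructor
  · rintro ⟨z, rfl⟩
    exact ⟨fun i => z (e i), rfl⟩
  · rintro ⟨z, rfl⟩
    refine ⟨fun k => z (e.symm k), ?_⟩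
    rw [LinearMap.comp_apply]
    congr 1
    funext i
    simp [LinearMap.funLeft_apply]

/-! ### The concrete Gram matrix -/

theorem cc_ge (k : ℕ) : 2 ≤ cc k := by
  unfold cc
  have : (0 : ℝ) ≤ 3 * (k : ℝ) ^ 4 := by positivity
  linarith

theorem WW_symm (k : ℕ) (i j : Option (V k)) : WW k i j = WW k j i := by
  rcases i with _ | v <;> rcases j with _ | w
  · rfl
  · rfl
  · rfl
  · exact ww_symm v w

theorem WW_diag (k : ℕ) (i : Option (V k)) : WW k i i = 0 := by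
  rcases i with _ | v
  · rfl
  · exact ww_self v

theorem WW_nonneg (k : ℕ) (i j : Option (V k)) : 0 ≤ WW k i j := by
  have := cc_ge k
  rcases i with _ | v <;> rcases j with _ | w
  · exact le_rfl
  · show 0 ≤ cc k
    linarith
  · show 0 ≤ cc k
    linarith
  · exact ww_nonneg v w

theorem WW_le (k : ℕ) (i j : Option (V k)) : WW k i j ≤ cc k := by
  have := cc_ge k
  rcases i with _ | v <;> rcases j with _ | w
  · show 0 ≤ cc k
    linarith
  · exact le_rfl
  · exact le_rfl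
  · exact ww_le v w

theorem WW_ge (k : ℕ) (i j : Option (V k)) (h : i ≠ j) : 1 ≤ WW k i j := by
  have := cc_ge k
  rcases i with _ | v <;> rcases j with _ | w
  · exact absurd rfl h
  · show 1 ≤ cc k
    linarith
  · show 1 ≤ cc k
    linarith
  · have hvw : v ≠ w := fun e => h (by rw [e])
    show 1 ≤ ww v w
    unfold ww
    rw [if_neg hvw]
    split_ifs
    · exact le_rfl
    · linarith

theorem card_opt (k : ℕ) : Fintype.card (Option (V k)) = 4 * k ^ 2 + 1 := by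
  rw [Fintype.card_option, Fintype.card_prod, Fintype.card_prod, Fintype.card_prod,
    Fintype.card_fin, Fintype.card_bool]
  ring

/-- The main construction. -/
theorem construction (k : ℕ) (hk : 1 ≤ k) :
    ∃ (d n : ℕ) (B : (Fin d → ℝ) →ₗ[ℝ] EuclideanSpace ℝ (Fin n)), 1 ≤ d ∧
      Function.Injective B ∧ xc (VC (lattice B)) ≤ 60 * k ^ 4 ∧
      (3 / 2 : ℝ) ^ k ≤ xc (VC (dual (lattice B))) + 2 := by
  set N : ℝ := (Fintype.card (Option (V k)) : ℝ) with hN
  set c : ℝ := cc k with hc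
  set Y : ℝ := |Y0 k| + c with hY
  have hc2 : 2 ≤ c := cc_ge k
  have hN1 : 1 ≤ N := by
    rw [hN, card_opt]
    push_cast
    have : (0 : ℝ) ≤ 4 * (k : ℝ) ^ 2 := by positivity
    linarith
  have hY0 : 0 ≤ Y := by
    have := abs_nonneg (Y0 k)
    linarith
  set K0 : ℝ := 2 * N ^ 2 * c ^ 2 + (c * N / 2 + Y) * (4 + N) + 2 * (c * N) with hK0
  have t1 : 0 < 2 * N ^ 2 * c ^ 2 := by positivity
  have t2 : 0 ≤ (c * N / 2 + Y) * (4 + N) := by positivity
  have t3 : 0 < 2 * (c * N) := by positivity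
  have hK0pos : 0 < K0 := by rw [hK0]; linarith
  set ε : ℝ := 1 / K0 with hε
  have hε0 : 0 < ε := by rw [hε]; positivity
  have hεle : ∀ x : ℝ, x ≤ K0 → ε * x ≤ 1 := by
    intro x hx
    rw [hε, one_div, inv_mul_le_iff₀ hK0pos, mul_one]
    exact hx
  have e1 : ε * (2 * N ^ 2 * c ^ 2) ≤ 1 := hεle _ (by rw [hK0]; linarith)
  have e2 : ε * ((c * N / 2 + Y) * (4 + N)) ≤ 1 := hεle _ (by rw [hK0]; linarith)
  have e3 : ε * (2 * (c * N)) ≤ 1 := hεle _ (by rw [hK0]; linarith)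
  set W : Matrix (Option (V k)) (Option (V k)) ℝ := Matrix.of (WW k) with hW
  have hWij : ∀ i j, W i j = WW k i j := fun i j => rfl
  obtain ⟨L, hGL, hLG, hLs, hLoff, hLrow⟩ := exists_inverse W
    (fun i j => WW_symm k i j) (fun i j h => WW_ge k i j h) c
    (fun i j => by
      rw [hWij, abs_of_nonneg (WW_nonneg k i j)]
      exact WW_le k i j)
    (by linarith) ε hε0 (by rw [card_opt]; omega) e1
  set G : Matrix (Option (V k)) (Option (V k)) ℝ := 1 + ε • W with hG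
  have hquad : ∀ g : Option (V k) → ℝ, g ⬝ᵥ (G *ᵥ g) =
      ∑ i, g i ^ 2 + ε * ∑ i, ∑ j, WW k i j * g i * g j := by
    intro g
    rw [hG, add_mulVec, one_mulVec, dotProduct_add, smul_mulVec, dotProduct_smul, smul_eq_mul]
    congr 1
    · simp only [dotProduct]
      exact sum_congr rfl fun i _ => by ring
    · congr 1
      simp only [dotProduct, mulVec, mul_sum]
      refine sum_congr rfl fun i _ => sum_congr rfl fun j _ => ?_
      rw [hWij]
      ring
  have hGdiag : ∀ i, G i i = 1 := by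
    intro i
    rw [hG, Matrix.add_apply, Matrix.smul_apply, hWij, WW_diag, Matrix.one_apply_eq]
    simp
  have hGpos : ∀ g : Option (V k) → ℤ, (1 / 2) * ∑ i, (g i : ℝ) ^ 2 ≤
      (fun i => (g i : ℝ)) ⬝ᵥ (G *ᵥ (fun i => (g i : ℝ))) := by
    intro g
    rw [hquad]
    have h1 := abs_double_sum_le (WW k) c (WW_nonneg k) (WW_le k) g
    have h2 := neg_abs_le (∑ i, ∑ j, WW k i j * (g i : ℝ) * (g j : ℝ))
    have h3 : 0 ≤ ∑ i, (g i : ℝ) ^ 2 := sum_nonneg fun i _ => sq_nonneg _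
    have h4 : ε * (c * N * ∑ i, (g i : ℝ) ^ 2) ≤ (1 / 2) * ∑ i, (g i : ℝ) ^ 2 := by
      have : ε * (c * N * ∑ i, (g i : ℝ) ^ 2) = (ε * (2 * (c * N))) * (∑ i, (g i : ℝ) ^ 2) / 2 := by
        ring
      rw [this]
      have := mul_le_mul_of_nonneg_right e3 h3
      linarith
    have h5 : ε * -(∑ i, ∑ j, WW k i j * (g i : ℝ) * (g j : ℝ)) ≤
        ε * (c * N * ∑ i, (g i : ℝ) ^ 2) := by
      apply mul_le_mul_of_nonneg_left _ hε0.le
      linarith
    linarith
  -- realisation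
  set nn : ℕ := Fintype.card ((Option (V k) × Option (V k)) ⊕ Option (V k)) with hnn
  let eE : ((Option (V k) × Option (V k)) ⊕ Option (V k)) ≃ Fin nn := Fintype.equivFin _
  set dd : ℕ := Fintype.card (Option (V k)) with hdd
  let eι : Option (V k) ≃ Fin dd := Fintype.equivFin _
  have hB := B0_inner L hLs hLoff hLrow eE
  have hext1 := zono_ext L G hLs hLoff hLrow hLG eE
  obtain ⟨r0, hext2⟩ := dual_ext (B0 L eE) G hGpos hGdiag
  rw [← VC_dual (B0 L eE) L G hB hLG hGL] at hext2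
  refine ⟨dd, nn, B0 L eE ∘ₗ LinearMap.funLeft ℝ ℝ eι, ?_, ?_, ?_, ?_⟩
  · rw [hdd, card_opt]; omega
  · rw [LinearMap.coe_comp]
    apply Function.Injective.comp
    · rw [← LinearMap.ker_eq_bot, LinearMap.ker_eq_bot']
      intro f hf
      have h1 := hB f (G *ᵥ f)
      rw [hf, inner_zero_left, Matrix.mulVec_mulVec, hLG, Matrix.one_mulVec] at h1
      exact dotProduct_self_eq_zero.mp h1.symm
    · exact LinearMap.funLeft_injective_of_surjective ℝ ℝ _ eι.surjective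
  · rw [lattice_funLeft]
    have h1 : xc (VC (lat0 (B0 L eE))) ≤ nn + nn := Nat.sInf_le hext1
    refine h1.trans ?_
    have h2 : nn = (4 * k ^ 2 + 1) * (4 * k ^ 2 + 1) + (4 * k ^ 2 + 1) := by
      rw [hnn, Fintype.card_sum, Fintype.card_prod, card_opt]
    rw [h2]
    have hk2 : 1 ≤ k ^ 2 := Nat.one_le_pow _ _ hk
    have hk4 : k ^ 4 = k ^ 2 * k ^ 2 := by ring
    rw [hk4]
    nlinarith
  · rw [lattice_funLeft]
    have hmem : HasExtension (VC (dual (lat0 (B0 L eE)))) (xc (VC (dual (lat0 (B0 L eE))))) := by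
      have hne : {r | HasExtension (VC (dual (lat0 (B0 L eE)))) r}.Nonempty := ⟨r0, hext2⟩
      exact Nat.sInf_mem hne
    refine ext_lower (VC (dual (lat0 (B0 L eE)))) hmem
      (fun a => B0 L eE (fun i => sg k i / 2 - ε * yy a i)) ?_
      (fun b => (innerₛₗ ℝ).flip (yd (B0 L eE) G (fun i => (zb b i : ℝ))))
      (fun b => ((fun i => (zb b i : ℝ)) ⬝ᵥ (G *ᵥ (fun i => (zb b i : ℝ)))) / 2) ?_ ε hε0 ?_
    · intro a
      rw [VC_dual (B0 L eE) L G hB hLG hGL]
      refine ⟨_, ?_, rfl⟩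
      intro g
      rw [hquad]
      have := quad_ineq (WW k) c Y (WW_nonneg k) (WW_le k) (yy a) (sg k)
        (by
          rintro (_ | v)
          · simp only [yy]
            rw [abs_neg]
            have := hc2
            linarith
          · simp only [yy]
            have h1 := uu_le a v
            have h2 := uu_nonneg hk a v
            rw [abs_of_nonneg (by linarith)]
            have := abs_nonneg (Y0 k)
            linarith)
        (by
          rintro (_ | v)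
          · right; rfl
          · left; rfl)
        hY0 (by linarith) (R_nonneg hk a) ε hε0.le e2 g
      simpa [dotProduct] using this
    · intro b y hy
      rw [VC_dual (B0 L eE) L G hB hLG hGL] at hy
      obtain ⟨ξ, hξ, rfl⟩ := hy
      have h1 : (innerₛₗ ℝ).flip (yd (B0 L eE) G (fun i => (zb b i : ℝ))) (B0 L eE ξ) =
          inner ℝ (B0 L eE ξ) (yd (B0 L eE) G (fun i => (zb b i : ℝ))) := rfl
      rw [h1, inner_yd (B0 L eE) L G hB hLG]
      exact hξ (zb b)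
    · intro a b
      have h1 : (innerₛₗ ℝ).flip (yd (B0 L eE) G (fun i => (zb b i : ℝ)))
          (B0 L eE (fun i => sg k i / 2 - ε * yy a i)) =
          inner ℝ (B0 L eE (fun i => sg k i / 2 - ε * yy a i))
            (yd (B0 L eE) G (fun i => (zb b i : ℝ))) := rfl
      rw [h1, inner_yd (B0 L eE) L G hB hLG, hquad]
      have h2 := R_zb a b
      have h3 := F_zb b
      rw [sum_sub_distrib] at h3
      have h4 : (fun i => sg k i / 2 - ε * yy a i) ⬝ᵥ (fun i => (zb b i : ℝ)) =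
          (∑ i, sg k i * (zb b i : ℝ)) / 2 - ε * ∑ i, yy a i * (zb b i : ℝ) := by
        simp only [dotProduct]
        rw [mul_sum, sum_div, ← sum_sub_distrib]
        exact sum_congr rfl fun i _ => by ring
      rw [h4, ← h2]
      linarith

theorem poly_bound (p : Polynomial ℝ) : ∃ (C : ℝ) (D : ℕ), 0 ≤ C ∧ ∀ x : ℝ, 0 ≤ x →
    p.eval x ≤ C * (1 + x) ^ D := by
  refine ⟨∑ i ∈ range (p.natDegree + 1), |p.coeff i|, p.natDegree,
    sum_nonneg fun i _ => abs_nonneg _, ?_⟩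
  intro x hx
  rw [Polynomial.eval_eq_sum_range, sum_mul]
  refine sum_le_sum fun i hi => ?_
  have h1 : x ^ i ≤ (1 + x) ^ p.natDegree := by
    calc x ^ i ≤ (1 + x) ^ i := pow_le_pow_left₀ hx (by linarith) i
      _ ≤ (1 + x) ^ p.natDegree := pow_le_pow_right₀ (by linarith) (by
          rw [mem_range] at hi; omega)
  calc p.coeff i * x ^ i ≤ |p.coeff i| * x ^ i :=
        mul_le_mul_of_nonneg_right (le_abs_self _) (by positivity)
    _ ≤ _ := mul_le_mul_of_nonneg_left h1 (abs_nonneg _)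

theorem no_poly (p : Polynomial ℝ) :
    ∃ (d n : ℕ) (B : (Fin d → ℝ) →ₗ[ℝ] EuclideanSpace ℝ (Fin n)), 1 ≤ d ∧
      Function.Injective B ∧
      p.eval (xc (VC (lattice B)) : ℝ) < xc (VC (dual (lattice B))) := by
  obtain ⟨C, D, hC, hp⟩ := poly_bound p
  have hlim := tendsto_pow_const_div_const_pow_of_one_lt (4 * D) (r := (3 / 2 : ℝ)) (by norm_num)
  set M : ℝ := C * 61 ^ D + 3 with hM
  have hMpos : 0 < M := by positivity
  have hev : ∀ᶠ k : ℕ in Filter.atTop, ((k : ℝ) ^ (4 * D) / (3 / 2 : ℝ) ^ k) < 1 / M :=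
    hlim.eventually_lt_const (by positivity)
  obtain ⟨k, hk, hk1⟩ := (hev.and (Filter.eventually_ge_atTop 1)).exists
  obtain ⟨d, n, B, hd, hB, h1, h2⟩ := construction k hk1
  refine ⟨d, n, B, hd, hB, ?_⟩
  have hk1' : (1 : ℝ) ≤ (k : ℝ) := by exact_mod_cast hk1
  have h3 : (k : ℝ) ^ (4 * D) * M < (3 / 2 : ℝ) ^ k := by
    rw [div_lt_div_iff₀ (by positivity) hMpos, one_mul] at hk
    exact hk
  have h4 : (xc (VC (lattice B)) : ℝ) ≤ 60 * (k : ℝ) ^ 4 := by exact_mod_cast h1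
  have h5 : (1 : ℝ) ≤ (k : ℝ) ^ 4 := one_le_pow₀ hk1'
  have h6 : 1 + (xc (VC (lattice B)) : ℝ) ≤ 61 * (k : ℝ) ^ 4 := by linarith
  have h7 : (1 + (xc (VC (lattice B)) : ℝ)) ^ D ≤ 61 ^ D * (k : ℝ) ^ (4 * D) := by
    calc _ ≤ (61 * (k : ℝ) ^ 4) ^ D := pow_le_pow_left₀ (by positivity) h6 D
      _ = _ := by rw [mul_pow, ← pow_mul]
  have h8 := hp (xc (VC (lattice B)) : ℝ) (Nat.cast_nonneg _)
  have h9 : C * (1 + (xc (VC (lattice B)) : ℝ)) ^ D ≤ C * (61 ^ D * (k : ℝ) ^ (4 * D)) :=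
    mul_le_mul_of_nonneg_left h7 hC
  have h10 : (1 : ℝ) ≤ (k : ℝ) ^ (4 * D) := one_le_pow₀ hk1'
  have h11 : (k : ℝ) ^ (4 * D) * M = C * (61 ^ D * (k : ℝ) ^ (4 * D)) + 3 * (k : ℝ) ^ (4 * D) := by
    rw [hM]; ring
  linarith

end Pool.Agent.R98.VX
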